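import Pool.Agent.R423.AL.AdmIrr

/-!
# Elements of `WT T` are automorphic forms
-/

namespace Pool.Agent.R423.AL

open scoped WithZero RestrictedProduct

noncomputable section

theorem exists_fix {T : VS Kinf →ₗ[ℂ] (GA → ℂ)}
    (hsm : ∀ f, ∃ U : Subgroup GA, IsOpen (U : Set GA) ∧ ∀ g, ∀ u ∈ U, T f (g * u) = T f g) :
    ∀ P ∈ WT T, ∃ U : Subgroup GA, IsOpen (U : Set GA) ∧ ∀ u ∈ U, RT u P = P := by
  intro P hP
  unfold WT at hP
  induction hP using Submodule.span_induction with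
  | mem x hx =>
    obtain ⟨k, f, rfl⟩ := hx
    obtain ⟨U, hU, hf⟩ := hsm f
    refine ⟨U.comap (MulAut.conj k⁻¹).toMonoidHom, ?_, ?_⟩
    · have hc : Continuous fun g : GA => (MulAut.conj k⁻¹) g := by
        simp only [MulAut.conj_apply]
        fun_prop
      exact hU.preimage hc
    · intro u hu
      rw [Subgroup.mem_comap] at hu
      have hu' : k⁻¹ * u * k ∈ U := by simpa using hu
      rw [← rep_mul]
      have e : u * k = k * (k⁻¹ * u * k) := by group
      rw [e, rep_mul]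
      congr 1
      funext g
      exact hf g _ hu'
  | zero => exact ⟨⊤, isOpen_univ, fun u _ => map_zero _⟩
  | add x y _ _ hx hy =>
    obtain ⟨U, hU, hx⟩ := hx
    obtain ⟨U', hU', hy⟩ := hy
    refine ⟨U ⊓ U', hU.inter hU', fun u hu => ?_⟩
    rw [map_add, hx u hu.1, hy u hu.2]
  | smul c x _ hx =>
    obtain ⟨U, hU, hx⟩ := hx
    exact ⟨U, hU, fun u hu => by rw [map_smul, hx u hu]⟩

theorem left_of_mem {T : VS Kinf →ₗ[ℂ] (GA → ℂ)}
    (hleft : ∀ (f : VS Kinf) (c : GL (Fin 2) K) (g : GA), T f (diag c * g) = T f g) :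
    ∀ P ∈ WT T, ∀ (c : GL (Fin 2) K) (g : GA), P (diag c * g) = P g := by
  intro P hP
  unfold WT at hP
  induction hP using Submodule.span_induction with
  | mem x hx =>
    obtain ⟨k, f, rfl⟩ := hx
    intro c g
    rw [RT_apply, RT_apply, mul_assoc, hleft]
  | zero => exact fun _ _ => rfl
  | add x y _ _ hx hy =>
    intro c g
    rw [Pi.add_apply, Pi.add_apply, hx, hy]
  | smul r x _ hx =>
    intro c g
    rw [Pi.smul_apply, Pi.smul_apply, hx]

theorem PhiT_eq_sum (T : VS Kinf →ₗ[ℂ] (GA → ℂ)) (S : Finset GAf) (y : GAf →₀ VS Kinf)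
    (hy : y.support ⊆ S) :
    (PhiT T y).1 = ∑ a : S, RT ((1, a.1) : GA) (T (y a.1)) := by
  have h1 : PhiT T y = ∑ a ∈ S, RW T ((1, a) : GA) (toWT T (y a)) := by
    rw [PhiT, Finsupp.lsum_apply]
    exact Finsupp.sum_of_support_subset y hy _ fun a _ => map_zero _
  have h2 : (PhiT T y).1 = ∑ a ∈ S, (RW T ((1, a) : GA) (toWT T (y a))).1 := by
    rw [h1]
    exact map_sum (WT T).subtype _ _
  rw [h2, Finset.sum_coe_sort S fun a => RT ((1, a) : GA) (T (y a))]
  rfl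

/-- The finite-dimensional spaces which contain the fixed vectors. -/
def PsiT (T : VS Kinf →ₗ[ℂ] (GA → ℂ)) (S : Finset GAf) (n : ℕ) :
    (S → fixV Kinf n) →ₗ[ℂ] (GA → ℂ) :=
  ∑ a : S, ((RT ((1, a.1) : GA)).comp T).comp ((fixV Kinf n).subtype.comp (LinearMap.proj a))

theorem PsiT_apply (T : VS Kinf →ₗ[ℂ] (GA → ℂ)) (S : Finset GAf) (n : ℕ) (z : S → fixV Kinf n) :
    PsiT T S n z = ∑ a : S, RT ((1, a.1) : GA) (T (z a).1) := by
  rw [PsiT, LinearMap.sum_apply]
  rfl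

theorem supp_rhoF (g : GL (Fin 2) Kinf) (m : GAf →₀ VS Kinf) : (rhoF g m).support ⊆ m.support := by
  intro a ha
  rw [Finsupp.mem_support_iff] at ha ⊢
  intro h
  apply ha
  rw [rhoF_apply, h, map_zero]

theorem isAutForm_of_mem (T : VS Kinf →ₗ[ℂ] (GA → ℂ)) (hT : IsEqv T)
    (hleft : ∀ (f : VS Kinf) (c : GL (Fin 2) K) (g : GA), T f (diag c * g) = T f g)
    (hsm : ∀ f, ∃ U : Subgroup GA, IsOpen (U : Set GA) ∧ ∀ g, ∀ u ∈ U, T f (g * u) = T f g) :
    ∀ P ∈ WT T, IsAutForm P := by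
  intro P hP
  refine ⟨left_of_mem hleft P hP, ?_, ?_⟩
  · obtain ⟨U, hU, h⟩ := exists_fix hsm P hP
    exact ⟨U, hU, fun g u hu => congrFun (h u hu) g⟩
  · intro U hU
    obtain ⟨n₀, hn₀⟩ := exists_KK_le (U : Set (GL (Fin 2) Kinf)) (hU.mem_nhds U.one_mem)
    set n := n₀ + 1 with hn
    have hKU : ∀ g ∈ KK Kinf n, g ∈ U := fun g hg => hn₀ g (KK_anti (Nat.le_succ _) hg)
    obtain ⟨m, hm⟩ := PhiT_surj hT ⟨P, hP⟩
    set S := m.support with hS
    -- the submodule of families supported in `S`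
    let NS : Submodule ℂ (GAf →₀ VS Kinf) := Finsupp.supported (VS Kinf) ℂ (S : Set GAf)
    have hNS : ∀ y, y ∈ NS ↔ y.support ⊆ S := by
      intro y
      exact Finsupp.mem_supported ℂ y
    have hspan : ∀ Q ∈ spanInf P, ∃ y ∈ NS, (PhiT T y).1 = Q := by
      intro Q hQ
      unfold spanInf at hQ
      induction hQ using Submodule.span_induction with
      | mem x hx =>
        obtain ⟨h, rfl⟩ := hx
        refine ⟨rhoF h m, (hNS _).2 (supp_rhoF h m), ?_⟩
        rw [PhiT_eqv hT, hm]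
        rfl
      | zero => exact ⟨0, NS.zero_mem, by rw [map_zero]; rfl⟩
      | add x y _ _ hx hy =>
        obtain ⟨a, ha, rfl⟩ := hx
        obtain ⟨b, hb, rfl⟩ := hy
        exact ⟨a + b, NS.add_mem ha hb, by rw [map_add]; rfl⟩
      | smul c x _ hx =>
        obtain ⟨a, ha, rfl⟩ := hx
        exact ⟨c • a, NS.smul_mem c ha, by rw [map_smul]; rfl⟩
    have hfd : FiniteDimensional ℂ (fixV Kinf n) := finite_fixV (by omega)
    have hle : spanInf P ⊓ fixedInf U ≤ LinearMap.range (PsiT T S n) := by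
      rintro Q ⟨hQ1, hQ2⟩
      obtain ⟨y, hy, hyQ⟩ := hspan Q hQ1
      obtain ⟨k, hk⟩ := rhoF_level y
      obtain ⟨w, hw1, hw2, hw3⟩ := exists_fixed_lift rhoF ((RW T).comp atInf) (PhiT T)
        (KK Kinf n) (fun u _ z => PhiT_eqv hT u z) y
        (finite_orbit rhoF y k hk (KK Kinf n) (KK_le_GLO n)) (fun u hu => by
          refine Subtype.ext ?_
          change RT (atInf u) (PhiT T y).1 = (PhiT T y).1
          rw [hyQ]
          funext g
          exact hQ2 u (hKU u hu) g)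
      have hwS : w ∈ NS := hw3 NS fun u _ => (hNS _).2 ((supp_rhoF u y).trans ((hNS _).1 hy))
      refine ⟨fun a => ⟨w a.1, fun g hg => ?_⟩, ?_⟩
      · rw [← rhoF_apply, hw1 g hg]
      · rw [PsiT_apply, ← hyQ, ← hw2, PhiT_eq_sum T S w ((hNS _).1 hwS)]
    exact Submodule.finiteDimensional_of_le hle

end

end Pool.Agent.R423.AL
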