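import Pool.Agent.R423.AL.CaseA

/-!
# Irreducible quotients of the spaces `WT T`
-/

namespace Pool.Agent.R423.AL

open scoped WithZero RestrictedProduct

noncomputable section

instance instFactGLO : Fact (∀ v : Pl, IsOpen (GLO (Kfin v) : Set (GL (Fin 2) (Kfin v)))) :=
  ⟨isOpen_GLO_fin⟩

instance instTGGA : IsTopologicalGroup GA := inferInstance

/-- The space generated by the image of `T` as a representation. -/
def RW (T : VS Kinf →ₗ[ℂ] (GA → ℂ)) : Representation ℂ GA (WT T) :=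
  subRep RT (WT T) fun h φ hφ => WT_stable T h φ hφ

theorem RW_apply (T : VS Kinf →ₗ[ℂ] (GA → ℂ)) (h : GA) (f : WT T) :
    RW T h f = ⟨RT h f.1, WT_stable T h f.1 f.2⟩ := rfl

/-- The map from `VS` to the space generated by its image. -/
def toWT (T : VS Kinf →ₗ[ℂ] (GA → ℂ)) : VS Kinf →ₗ[ℂ] WT T :=
  LinearMap.codRestrict (WT T) T fun f => by
    have := mem_WT T 1 f
    rwa [rep_one] at this

theorem toWT_val (T : VS Kinf →ₗ[ℂ] (GA → ℂ)) (f : VS Kinf) : (toWT T f).1 = T f := rfl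

theorem toWT_eqv {T : VS Kinf →ₗ[ℂ] (GA → ℂ)} (hT : IsEqv T) (h : GL (Fin 2) Kinf)
    (f : VS Kinf) : toWT T (rhoV Kinf h f) = RW T (atInf h) (toWT T f) :=
  Subtype.ext (hT h f)

/-- A stable subspace of `WT T` which contains the image of `T` is everything. -/
theorem eq_top_of_range (T : VS Kinf →ₗ[ℂ] (GA → ℂ)) (M : Submodule ℂ (WT T))
    (hM : ∀ h, ∀ x ∈ M, RW T h x ∈ M) (h : ∀ f, toWT T f ∈ M) : M = ⊤ := by
  rw [eq_top_iff]
  rintro ⟨P, hP⟩ -
  have key : ∀ P ∈ WT T, ∃ x ∈ M, x.1 = P := by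
    intro P hP
    unfold WT at hP
    induction hP using Submodule.span_induction with
    | mem x hx =>
      obtain ⟨k, f, rfl⟩ := hx
      exact ⟨_, hM k _ (h f), rfl⟩
    | zero => exact ⟨0, M.zero_mem, rfl⟩
    | add x y _ _ hx hy =>
      obtain ⟨a, ha, rfl⟩ := hx
      obtain ⟨b, hb, rfl⟩ := hy
      exact ⟨a + b, M.add_mem ha hb, rfl⟩
    | smul c x _ hx =>
      obtain ⟨a, ha, rfl⟩ := hx
      exact ⟨c • a, M.smul_mem c ha, rfl⟩
  obtain ⟨x, hx, hxe⟩ := key P hP
  have : x = ⟨P, hP⟩ := Subtype.ext hxe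
  rwa [← this]

theorem eq_top_of_dV {T : VS Kinf →ₗ[ℂ] (GA → ℂ)} (hT : IsEqv T) (h1 : T oneV = 0)
    (M : Submodule ℂ (WT T)) (hM : ∀ h, ∀ x ∈ M, RW T h x ∈ M) (h : toWT T dV ∈ M) : M = ⊤ := by
  apply eq_top_of_range T M hM
  have htop : M.comap (toWT T) = ⊤ := by
    refine eq_top_of_nonconst _ (fun g f hf => ?_) ?_ dV h (dV_ne Kinf)
    · rw [Submodule.mem_comap, toWT_eqv hT]
      exact hM _ _ hf
    · rw [Submodule.mem_comap]
      have : toWT T oneV = 0 := Subtype.ext h1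
      rw [this]
      exact M.zero_mem
  intro f
  have : f ∈ M.comap (toWT T) := by rw [htop]; trivial
  exact this

theorem dV_ne_zero_of {T : VS Kinf →ₗ[ℂ] (GA → ℂ)} (hT : IsEqv T) (h1 : T oneV = 0)
    (hne : T ≠ 0) : toWT T dV ≠ 0 := by
  intro h0
  apply hne
  have h2 : T dV = 0 := congrArg Subtype.val h0
  have htop : LinearMap.ker T = ⊤ := by
    refine eq_top_of_nonconst _ (fun g f hf => ?_) h1 dV h2 (dV_ne Kinf)
    rw [LinearMap.mem_ker] at hf ⊢
    rw [hT, hf, map_zero]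
  exact LinearMap.ker_eq_top.1 htop

theorem smooth_RW {T : VS Kinf →ₗ[ℂ] (GA → ℂ)}
    (hsm : ∀ f, ∃ U : Subgroup GA, IsOpen (U : Set GA) ∧ ∀ g, ∀ u ∈ U, T f (g * u) = T f g) :
    IsSmooth (RW T) := by
  rintro ⟨P, hP⟩
  have key : ∀ P ∈ WT T, ∃ U : Subgroup GA, IsOpen (U : Set GA) ∧ ∀ u ∈ U, RT u P = P := by
    intro P hP
    unfold WT at hP
    induction hP using Submodule.span_induction with
    | mem x hx =>
      obtain ⟨k, f, rfl⟩ := hx
      obtain ⟨U, hU, hf⟩ := hsm f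
      refine ⟨U.comap (MulAut.conj k⁻¹).toMonoidHom, ?_, ?_⟩
      · have hc : Continuous fun g : GA => (MulAut.conj k⁻¹) g := by
          simp only [MulAut.conj_apply]
          fun_prop
        exact hU.preimage hc
      · intro u hu
        rw [Subgroup.mem_comap] at hu
        have hu' : k⁻¹ * u * k ∈ U := by simpa using hu
        rw [← rep_mul]
        have e : u * k = k * (k⁻¹ * u * k) := by group
        rw [e, rep_mul]
        congr 1
        funext g
        exact hf g _ hu'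
    | zero => exact ⟨⊤, isOpen_univ, fun u _ => map_zero _⟩
    | add x y _ _ hx hy =>
      obtain ⟨U, hU, hx⟩ := hx
      obtain ⟨U', hU', hy⟩ := hy
      refine ⟨U ⊓ U', hU.inter hU', fun u hu => ?_⟩
      rw [map_add, hx u hu.1, hy u hu.2]
    | smul c x _ hx =>
      obtain ⟨U, hU, hx⟩ := hx
      exact ⟨U, hU, fun u hu => by rw [map_smul, hx u hu]⟩
  obtain ⟨U, hU, h⟩ := key P hP
  exact isOpen_stab (RW T) _ U hU fun u hu => Subtype.ext (h u hu)

/-- A maximal stable subspace of `WT T` which does not contain the image of `dV`. -/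
theorem exists_maximal (T : VS Kinf →ₗ[ℂ] (GA → ℂ)) (h0 : toWT T dV ≠ 0) :
    ∃ N : Submodule ℂ (WT T), (∀ h, ∀ x ∈ N, RW T h x ∈ N) ∧ toWT T dV ∉ N ∧
      ∀ M : Submodule ℂ (WT T), (∀ h, ∀ x ∈ M, RW T h x ∈ M) → N ≤ M → toWT T dV ∉ M →
        M = N := by
  let S : Set (Submodule ℂ (WT T)) := {N | (∀ h, ∀ x ∈ N, RW T h x ∈ N) ∧ toWT T dV ∉ N}
  have hz : ∃ m, Maximal (· ∈ S) m := by
    refine zorn_le₀ S fun c hcS hc => ?_
    rcases c.eq_empty_or_nonempty with rfl | hne
    · refine ⟨⊥, ⟨fun h x hx => ?_, fun h => h0 ?_⟩, fun z hz => absurd hz (Set.notMem_empty _)⟩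
      · rw [Submodule.mem_bot] at hx ⊢
        rw [hx, map_zero]
      · simpa using h
    · refine ⟨sSup c, ⟨fun h x hx => ?_, fun h => ?_⟩, fun z hz => le_sSup hz⟩
      · rw [Submodule.mem_sSup_of_directed hne hc.directedOn] at hx ⊢
        obtain ⟨y, hy, hxy⟩ := hx
        exact ⟨y, hy, (hcS hy).1 h x hxy⟩
      · rw [Submodule.mem_sSup_of_directed hne hc.directedOn] at h
        obtain ⟨y, hy, hxy⟩ := h
        exact (hcS hy).2 hxy
  obtain ⟨N, hN⟩ := hz
  refine ⟨N, hN.1.1, hN.1.2, fun M hM hNM hd => ?_⟩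
  exact le_antisymm (hN.2 (show M ∈ S from ⟨hM, hd⟩) hNM) hNM

/-- The representation of `GL₂(K_∞)` on finitely supported families in `VS`. -/
def rhoF : Representation ℂ (GL (Fin 2) Kinf) (GAf →₀ VS Kinf) where
  toFun g := Finsupp.mapRange.linearMap (rhoV Kinf g)
  map_one' := by
    refine LinearMap.ext fun m => Finsupp.ext fun a => ?_
    change rhoV Kinf 1 (m a) = m a
    rw [rep_one]
  map_mul' g h := by
    refine LinearMap.ext fun m => Finsupp.ext fun a => ?_
    change rhoV Kinf (g * h) (m a) = rhoV Kinf g (rhoV Kinf h (m a))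
    rw [rep_mul]

theorem rhoF_apply (g : GL (Fin 2) Kinf) (m : GAf →₀ VS Kinf) (a : GAf) :
    rhoF g m a = rhoV Kinf g (m a) := rfl

theorem rhoF_single (g : GL (Fin 2) Kinf) (a : GAf) (f : VS Kinf) :
    rhoF g (Finsupp.single a f) = Finsupp.single a (rhoV Kinf g f) :=
  Finsupp.mapRange_single (hf := map_zero (rhoV Kinf g))

/-- The parametrisation of `WT T`. -/
def PhiT (T : VS Kinf →ₗ[ℂ] (GA → ℂ)) : (GAf →₀ VS Kinf) →ₗ[ℂ] WT T :=
  Finsupp.lsum ℂ fun a : GAf => (RW T ((1, a) : GA)).comp (toWT T)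

theorem PhiT_single (T : VS Kinf →ₗ[ℂ] (GA → ℂ)) (a : GAf) (f : VS Kinf) :
    PhiT T (Finsupp.single a f) = RW T ((1, a) : GA) (toWT T f) := by
  rw [PhiT, Finsupp.lsum_single]
  rfl

theorem PhiT_eqv {T : VS Kinf →ₗ[ℂ] (GA → ℂ)} (hT : IsEqv T) (g : GL (Fin 2) Kinf)
    (m : GAf →₀ VS Kinf) : PhiT T (rhoF g m) = RW T (atInf g) (PhiT T m) := by
  induction m using Finsupp.induction_linear with
  | zero => simp only [map_zero]
  | add x y hx hy => rw [map_add, map_add, map_add, map_add, hx, hy]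
  | single a f =>
    rw [rhoF_single, PhiT_single, PhiT_single, toWT_eqv hT, ← rep_mul, ← rep_mul]
    congr 2
    change ((1 * g, a * 1) : GA) = (g * 1, 1 * a)
    rw [one_mul, mul_one, mul_one, one_mul]

theorem PhiT_surj {T : VS Kinf →ₗ[ℂ] (GA → ℂ)} (hT : IsEqv T) :
    Function.Surjective (PhiT T) := by
  rw [← LinearMap.range_eq_top]
  refine eq_top_of_range T _ ?_ ?_
  · rintro h x ⟨m, rfl⟩
    induction m using Finsupp.induction_linear with
    | zero => rw [map_zero, map_zero]; exact Submodule.zero_mem _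
    | add x y hx hy => rw [map_add, map_add]; exact Submodule.add_mem _ hx hy
    | single a f =>
      refine ⟨Finsupp.single (h.2 * a) (rhoV Kinf h.1 f), ?_⟩
      rw [PhiT_single, PhiT_single, toWT_eqv hT, ← rep_mul, ← rep_mul]
      congr 2
      change ((1 * h.1, h.2 * a * 1) : GA) = (h.1 * 1, h.2 * a)
      rw [one_mul, mul_one, mul_one]
  · intro f
    refine ⟨Finsupp.single 1 f, ?_⟩
    rw [PhiT_single]
    exact rep_one (RW T) _

theorem rhoF_level (m : GAf →₀ VS Kinf) : ∃ n : ℕ, ∀ g ∈ KK Kinf n, rhoF g m = m := by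
  classical
  have h : ∀ a : GAf, ∃ n : ℕ, Lev n (m a).1 := fun a => (m a).2.2.2
  choose n hn using h
  refine ⟨m.support.sup n, fun g hg => Finsupp.ext fun a => ?_⟩
  rw [rhoF_apply]
  by_cases ha : a ∈ m.support
  · exact KK_fixes (m a) (hn a) (KK_anti (Finset.le_sup ha) hg)
  · rw [Finsupp.notMem_support_iff.1 ha, map_zero]

/-- `WT T` has an irreducible quotient, whose component at infinity is the Steinberg
representation. -/
theorem exists_irr (T : VS Kinf →ₗ[ℂ] (GA → ℂ)) (hT : IsEqv T)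
    (hsm : ∀ f, ∃ U : Subgroup GA, IsOpen (U : Set GA) ∧ ∀ g, ∀ u ∈ U, T f (g * u) = T f g)
    (h1 : T oneV = 0) (hne : T ≠ 0) :
    ∃ (p : Irr GA) (q : WT T →ₗ[ℂ] p.V), Function.Surjective q ∧
      (∀ (f : WT T) (h : GA), q ⟨RT h f.1, WT_stable T h f.1 f.2⟩ = p.ρ h (q f)) ∧
      Occurs atInf p (StI Kinf) ∧
      ∀ x : p.V, (∀ k ∈ GLO Kinf, p.ρ (atInf k) x = x) → x = 0 := by
  have h0 := dV_ne_zero_of hT h1 hne
  obtain ⟨N, hN, hd, hmax⟩ := exists_maximal T h0
  have hq0 : N.mkQ (toWT T dV) ≠ 0 := by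
    intro h
    rw [Submodule.mkQ_apply, Submodule.Quotient.mk_eq_zero] at h
    exact hd h
  let p : Irr GA :=
    { V := WT T ⧸ N
      ρ := quoRep (RW T) N hN
      smooth := smooth_quo (smooth_RW hsm) N hN
      irred := by
        refine ⟨⟨N.mkQ (toWT T dV), hq0⟩, fun P hP => ?_⟩
        have hst : ∀ h, ∀ x ∈ P.comap N.mkQ, RW T h x ∈ P.comap N.mkQ := by
          intro h x hx
          rw [Submodule.mem_comap] at hx ⊢
          exact hP h _ hx
        by_cases hdP : toWT T dV ∈ P.comap N.mkQ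
        · right
          have htop := eq_top_of_dV hT h1 _ hst hdP
          rw [eq_top_iff]
          intro x _
          obtain ⟨y, rfl⟩ := N.mkQ_surjective x
          have : y ∈ P.comap N.mkQ := by rw [htop]; trivial
          exact this
        · left
          have hNP : N ≤ P.comap N.mkQ := by
            intro x hx
            rw [Submodule.mem_comap]
            have : N.mkQ x = 0 := by
              rw [Submodule.mkQ_apply, Submodule.Quotient.mk_eq_zero]; exact hx
            rw [this]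
            exact P.zero_mem
          have hNe := hmax _ hst hNP hdP
          rw [eq_bot_iff]
          intro x hx
          obtain ⟨y, rfl⟩ := N.mkQ_surjective x
          have : y ∈ P.comap N.mkQ := hx
          rw [hNe] at this
          rw [Submodule.mem_bot, Submodule.mkQ_apply, Submodule.Quotient.mk_eq_zero]
          exact this }
  refine ⟨p, N.mkQ, N.mkQ_surjective, fun f h => rfl, ?_, ?_⟩
  · have hker : oneS Kinf ≤ LinearMap.ker (N.mkQ.comp (toWT T)) := by
      intro f hf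
      obtain ⟨c, rfl⟩ := (mem_oneS_iff Kinf f).1 hf
      rw [LinearMap.mem_ker, LinearMap.comp_apply, map_smul]
      have : toWT T oneV = 0 := Subtype.ext h1
      rw [this, smul_zero, map_zero]
    refine ⟨(oneS Kinf).liftQ (N.mkQ.comp (toWT T)) hker, ?_, ?_⟩
    · intro h
      apply hq0
      have := LinearMap.congr_fun h ((oneS Kinf).mkQ dV)
      exact this
    · intro h x
      obtain ⟨f, rfl⟩ := (oneS Kinf).mkQ_surjective x
      change N.mkQ (toWT T (rhoV Kinf h f)) = N.mkQ (RW T (atInf h) (toWT T f))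
      rw [toWT_eqv hT]
  · intro x hx
    obtain ⟨P, rfl⟩ := N.mkQ_surjective x
    obtain ⟨m, rfl⟩ := PhiT_surj hT P
    obtain ⟨n, hn⟩ := rhoF_level m
    obtain ⟨y, hy, hym, -⟩ := exists_fixed_lift rhoF (p.ρ.comp atInf) (N.mkQ.comp (PhiT T))
      (GLO Kinf) (fun u _ z => by
        rw [LinearMap.comp_apply, PhiT_eqv hT]
        rfl) m (finite_orbit rhoF m n hn (GLO Kinf) le_rfl) (fun u hu => hx u hu)
    have hy0 : PhiT T y = 0 := by
      have h2 : ∀ a, toWT T (y a) = 0 := by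
        intro a
        have h3 : y a ∈ oneS Kinf := const_of_fixed (y a) fun g hg => by
          rw [← rhoF_apply, hy g hg]
        obtain ⟨c, hc⟩ := (mem_oneS_iff Kinf _).1 h3
        rw [hc, map_smul]
        have : toWT T oneV = 0 := Subtype.ext h1
        rw [this, smul_zero]
      rw [PhiT, Finsupp.lsum_apply]
      refine Finset.sum_eq_zero fun a _ => ?_
      change RW T ((1, a) : GA) (toWT T (y a)) = 0
      rw [h2, map_zero]
    have h5 : N.mkQ (PhiT T y) = N.mkQ (PhiT T m) := hym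
    rw [← h5, hy0, map_zero]

end

end Pool.Agent.R423.AL
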