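import Pool.Agent.R423.AL.Vsp

/-!
# Averages over finite orbits, sub and quotient representations
-/

namespace Pool.Agent.R423.AL

open scoped WithZero
open Topology

noncomputable section

section General

variable {G : Type} [Group G] {V W : Type} [AddCommGroup V] [Module ℂ V] [AddCommGroup W]
  [Module ℂ W]

theorem rep_mul (ρ : Representation ℂ G V) (g h : G) (x : V) : ρ (g * h) x = ρ g (ρ h x) := by
  rw [map_mul]; rfl

theorem rep_one (ρ : Representation ℂ G V) (x : V) : ρ 1 x = x := by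
  rw [map_one]; rfl

theorem rep_inv_apply (ρ : Representation ℂ G V) (g : G) (x : V) : ρ g⁻¹ (ρ g x) = x := by
  rw [← rep_mul, inv_mul_cancel, rep_one]

theorem rep_apply_inv (ρ : Representation ℂ G V) (g : G) (x : V) : ρ g (ρ g⁻¹ x) = x := by
  rw [← rep_mul, mul_inv_cancel, rep_one]

/-- Average over a finite orbit. -/
theorem exists_average (ρ : Representation ℂ G V) (U : Subgroup G) (x : V)
    (hfin : (Set.range fun u : U => ρ u.1 x).Finite) :
    ∃ S : Finset G, (∀ u ∈ S, u ∈ U) ∧ (S.card : ℂ) ≠ 0 ∧ 1 ∈ U ∧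
      (∀ w ∈ U, ∃ u ∈ S, ρ u x = ρ w x) ∧
      ∀ w ∈ U, ρ w (∑ u ∈ S, ρ u x) = ∑ u ∈ S, ρ u x := by
  classical
  set O : Finset V := hfin.toFinset with hO
  have hmem : ∀ o, o ∈ O ↔ ∃ u : U, ρ u.1 x = o := by
    intro o; rw [hO, Set.Finite.mem_toFinset]; rfl
  have hch : ∀ o : V, ∃ g : G, o ∈ O → g ∈ U ∧ ρ g x = o := by
    intro o
    by_cases ho : o ∈ O
    · obtain ⟨u, hu⟩ := (hmem o).1 ho
      exact ⟨u.1, fun _ => ⟨u.2, hu⟩⟩
    · exact ⟨1, fun h => absurd h ho⟩
  choose f hf using hch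
  have hinj : Set.InjOn f O := by
    intro a ha b hb hab
    rw [← (hf a ha).2, ← (hf b hb).2, hab]
  have hsum : ∑ u ∈ O.image f, ρ u x = ∑ o ∈ O, o := by
    rw [Finset.sum_image hinj]
    exact Finset.sum_congr rfl fun o ho => (hf o ho).2
  refine ⟨O.image f, ?_, ?_, U.one_mem, ?_, ?_⟩
  · intro u hu
    rw [Finset.mem_image] at hu
    obtain ⟨o, ho, rfl⟩ := hu
    exact (hf o ho).1
  · rw [Nat.cast_ne_zero, Finset.card_ne_zero]
    refine ⟨f x, Finset.mem_image_of_mem _ ?_⟩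
    exact (hmem x).2 ⟨1, by simp⟩
  · intro w hw
    have h1 : ρ w x ∈ O := (hmem _).2 ⟨⟨w, hw⟩, rfl⟩
    exact ⟨f (ρ w x), Finset.mem_image_of_mem _ h1, (hf _ h1).2⟩
  · intro w hw
    rw [hsum, map_sum]
    refine Finset.sum_nbij' (fun o => ρ w o) (fun o => ρ w⁻¹ o) ?_ ?_ ?_ ?_ ?_
    · intro o ho
      obtain ⟨u, hu⟩ := (hmem o).1 ho
      exact (hmem _).2 ⟨⟨w * u.1, mul_mem hw u.2⟩, by rw [← hu, rep_mul]⟩
    · intro o ho
      obtain ⟨u, hu⟩ := (hmem o).1 ho
      exact (hmem _).2 ⟨⟨w⁻¹ * u.1, mul_mem (inv_mem hw) u.2⟩, by rw [← hu, rep_mul]⟩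
    · intro o _
      exact rep_inv_apply ρ w o
    · intro o _
      exact rep_apply_inv ρ w o
    · intro o _
      rfl

/-- Fixed vectors lift along equivariant maps, if orbits are finite. -/
theorem exists_fixed_lift (ρ : Representation ℂ G V) (ρ' : Representation ℂ G W)
    (T : V →ₗ[ℂ] W) (U : Subgroup G) (hT : ∀ u ∈ U, ∀ x, T (ρ u x) = ρ' u (T x)) (x : V)
    (hfin : (Set.range fun u : U => ρ u.1 x).Finite) (hfix : ∀ u ∈ U, ρ' u (T x) = T x) :
    ∃ y : V, (∀ u ∈ U, ρ u y = y) ∧ T y = T x ∧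
      ∀ N : Submodule ℂ V, (∀ u ∈ U, ρ u x ∈ N) → y ∈ N := by
  obtain ⟨S, h1, h2, -, -, h3⟩ := exists_average ρ U x hfin
  refine ⟨(S.card : ℂ)⁻¹ • ∑ u ∈ S, ρ u x, ?_, ?_, ?_⟩
  · intro u hu
    rw [map_smul, h3 u hu]
  · rw [map_smul, map_sum]
    have : ∑ u ∈ S, T (ρ u x) = ∑ u ∈ S, T x :=
      Finset.sum_congr rfl fun u hu => by rw [hT u (h1 u hu), hfix u (h1 u hu)]
    rw [this, Finset.sum_const, ← Nat.cast_smul_eq_nsmul ℂ, smul_smul, inv_mul_cancel₀ h2,
      one_smul]
  · intro N hN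
    exact N.smul_mem _ (N.sum_mem fun u hu => hN u (h1 u hu))

/-- Restriction of a representation to a stable subspace. -/
def subRep (ρ : Representation ℂ G V) (N : Submodule ℂ V) (hN : ∀ g, ∀ x ∈ N, ρ g x ∈ N) :
    Representation ℂ G N where
  toFun g := (ρ g).restrict (hN g)
  map_one' := by
    refine LinearMap.ext fun x => Subtype.ext ?_
    change ρ 1 x.1 = x.1
    rw [rep_one]
  map_mul' g h := by
    refine LinearMap.ext fun x => Subtype.ext ?_
    change ρ (g * h) x.1 = ρ g (ρ h x.1)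
    rw [rep_mul]

theorem subRep_apply (ρ : Representation ℂ G V) (N : Submodule ℂ V)
    (hN : ∀ g, ∀ x ∈ N, ρ g x ∈ N) (g : G) (x : N) : (subRep ρ N hN g x).1 = ρ g x.1 := rfl

/-- Quotient of a representation by a stable subspace. -/
def quoRep (ρ : Representation ℂ G V) (N : Submodule ℂ V) (hN : ∀ g, ∀ x ∈ N, ρ g x ∈ N) :
    Representation ℂ G (V ⧸ N) where
  toFun g := N.mapQ N (ρ g) (hN g)
  map_one' := by
    refine LinearMap.ext fun x => ?_
    obtain ⟨y, rfl⟩ := N.mkQ_surjective x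
    change N.mkQ (ρ 1 y) = N.mkQ y
    rw [rep_one]
  map_mul' g h := by
    refine LinearMap.ext fun x => ?_
    obtain ⟨y, rfl⟩ := N.mkQ_surjective x
    change N.mkQ (ρ (g * h) y) = N.mkQ (ρ g (ρ h y))
    rw [rep_mul]

theorem quoRep_apply (ρ : Representation ℂ G V) (N : Submodule ℂ V)
    (hN : ∀ g, ∀ x ∈ N, ρ g x ∈ N) (g : G) (x : V) :
    quoRep ρ N hN g (N.mkQ x) = N.mkQ (ρ g x) := rfl

variable [TopologicalSpace G]

/-- a stabiliser which contains an open subgroup is open -/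
theorem isOpen_stab [ContinuousMul G] (ρ : Representation ℂ G V) (x : V) (U : Subgroup G)
    (hU : IsOpen (U : Set G)) (h : ∀ u ∈ U, ρ u x = x) : IsOpen {g : G | ρ g x = x} := by
  let S : Subgroup G :=
    { carrier := {g | ρ g x = x}
      mul_mem' := by
        intro a b ha hb
        change ρ (a * b) x = x
        rw [rep_mul]
        change ρ b x = x at hb
        change ρ a x = x at ha
        rw [hb, ha]
      one_mem' := rep_one ρ x
      inv_mem' := by
        intro a ha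
        change ρ a⁻¹ x = x
        change ρ a x = x at ha
        nth_rewrite 1 [← ha]
        exact rep_inv_apply ρ a x }
  exact Subgroup.isOpen_mono (H₁ := U) (H₂ := S) (fun u hu => h u hu) hU

theorem smooth_sub {ρ : Representation ℂ G V} (hρ : IsSmooth ρ) (N : Submodule ℂ V)
    (hN : ∀ g, ∀ x ∈ N, ρ g x ∈ N) : IsSmooth (subRep ρ N hN) := by
  intro x
  have e : {g : G | subRep ρ N hN g x = x} = {g : G | ρ g x.1 = x.1} := by
    ext g
    rw [Set.mem_ofPred_eq, Set.mem_ofPred_eq, Subtype.ext_iff]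
    rfl
  rw [e]
  exact hρ x.1

theorem smooth_quo [ContinuousMul G] {ρ : Representation ℂ G V} (hρ : IsSmooth ρ)
    (N : Submodule ℂ V) (hN : ∀ g, ∀ x ∈ N, ρ g x ∈ N) : IsSmooth (quoRep ρ N hN) := by
  intro x
  obtain ⟨y, rfl⟩ := N.mkQ_surjective x
  let S : Subgroup G :=
    { carrier := {g | ρ g y = y}
      mul_mem' := by
        intro a b ha hb
        change ρ (a * b) y = y
        rw [rep_mul]
        change ρ b y = y at hb
        change ρ a y = y at ha
        rw [hb, ha]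
      one_mem' := rep_one ρ y
      inv_mem' := by
        intro a ha
        change ρ a⁻¹ y = y
        change ρ a y = y at ha
        nth_rewrite 1 [← ha]
        exact rep_inv_apply ρ a y }
  refine isOpen_stab _ _ S (hρ y) fun u hu => ?_
  rw [quoRep_apply]
  have : ρ u y = y := hu
  rw [this]

/-- Schur: a nonzero equivariant map out of an irreducible representation is injective. -/
theorem injective_of_irred {H : Type} [Group H] [TopologicalSpace H] (σ : Irr H)
    {ρ' : Representation ℂ H W} (T : σ.V →ₗ[ℂ] W) (hT : T ≠ 0)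
    (hTe : ∀ h x, T (σ.ρ h x) = ρ' h (T x)) : Function.Injective T := by
  rcases σ.irred.2 (LinearMap.ker T) (fun g x hx => by
    rw [LinearMap.mem_ker] at hx ⊢
    rw [hTe, hx, map_zero]) with h | h
  · exact LinearMap.ker_eq_bot.1 h
  · exact absurd (LinearMap.ker_eq_top.1 h) hT

end General

section Loc

variable {L : Type} [Field L] [Valued L ℤᵐ⁰] {V : Type} [AddCommGroup V] [Module ℂ V]

/-- orbits under `GL₂(O)` of smooth vectors are finite -/
theorem finite_orbit [LF L] (ρ : Representation ℂ (GL (Fin 2) L) V) (x : V) (n : ℕ)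
    (h : ∀ g ∈ KK L n, ρ g x = x) (U : Subgroup (GL (Fin 2) L)) (hU : U ≤ GLO L) :
    (Set.range fun u : U => ρ u.1 x).Finite := by
  classical
  obtain ⟨C, -, hC⟩ := exists_net (L := L) 0 n
  have hch : ∀ y : L, ∃ c : L, B 0 y → c ∈ C ∧ B n (y - c) := by
    intro y
    by_cases hy : B 0 y
    · obtain ⟨c, hc, hyc⟩ := hC y hy
      exact ⟨c, fun _ => ⟨hc, by simpa using hyc⟩⟩
    · exact ⟨0, fun h => absurd h hy⟩
  choose c hc using hch
  have hint : ∀ u : U, ∀ i j, B 0 (u.1.1 i j) := fun u => ((mem_GLO_iff _).1 (hU u.2)).1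
  let F : U → (Fin 2 → Fin 2 → C) := fun u i j => ⟨c (u.1.1 i j), (hc _ (hint u i j)).1⟩
  have hF : ∀ u w : U, F u = F w → ρ u.1 x = ρ w.1 x := by
    intro u w huw
    have hd : BM n (w.1.1 - u.1.1) := by
      intro i j
      have h1 := (hc _ (hint u i j)).2
      have h2 := (hc _ (hint w i j)).2
      have h3 : c (u.1.1 i j) = c (w.1.1 i j) := by
        have := congrFun (congrFun huw i) j
        exact congrArg Subtype.val this
      rw [Matrix.sub_apply]
      have e : w.1.1 i j - u.1.1 i j = (w.1.1 i j - c (w.1.1 i j)) - (u.1.1 i j - c (u.1.1 i j)) := by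
        rw [h3]; ring
      rw [e]
      exact B_sub h2 h1
    have h4 := h _ (inv_mul_mem_KK (hU u.2) (hU w.2) hd)
    have h5 : ρ w.1 x = ρ u.1 (ρ (u.1⁻¹ * w.1) x) := by
      rw [← rep_mul, mul_inv_cancel_left]
    rw [h5, h4]
  have : (Set.range fun u : U => ρ u.1 x) ⊆
      Set.range fun t : (Fin 2 → Fin 2 → C) =>
        if h : ∃ u : U, F u = t then ρ (h.choose).1 x else 0 := by
    rintro _ ⟨u, rfl⟩
    refine ⟨F u, ?_⟩
    have hex : ∃ w : U, F w = F u := ⟨u, rfl⟩
    simp only [hex, dite_true]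
    exact hF _ _ hex.choose_spec
  exact (Set.finite_range _).subset this

end Loc

end

end Pool.Agent.R423.AL
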