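import Mathlib

/-!
# Smooth representations of topological groups and of `GL₂` of a local field

Smooth and irreducible representations, local components, unramified representations and
Langlands sums for `GL₂(L)`.
-/

namespace Pool.Agent.R423.AL

open scoped Polynomial WithZero RestrictedProduct

noncomputable section

/-! ### Smooth representations -/

section Rep

variable {G : Type} [Group G] [TopologicalSpace G] {V : Type} [AddCommGroup V] [Module ℂ V]

/-- A representation is smooth if all stabilisers of vectors are open. -/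
def IsSmooth (ρ : Representation ℂ G V) : Prop := ∀ x : V, IsOpen {g : G | ρ g x = x}

/-- A representation is irreducible if it is nonzero and has no proper nonzero invariant
subspace. -/
def IsIrred (ρ : Representation ℂ G V) : Prop :=
  (∃ x : V, x ≠ 0) ∧
    ∀ N : Submodule ℂ V, (∀ g : G, ∀ x ∈ N, ρ g x ∈ N) → N = ⊥ ∨ N = ⊤

end Rep

/-- Irreducible smooth complex representations of a topological group. -/
structure Irr (G : Type) [Group G] [TopologicalSpace G] where
  /-- the space -/
  V : Type
  /-- its addition -/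
  [instAdd : AddCommGroup V]
  /-- its complex structure -/
  [instMod : Module ℂ V]
  /-- the action -/
  ρ : Representation ℂ G V
  smooth : IsSmooth ρ
  irred : IsIrred ρ

attribute [instance] Irr.instAdd Irr.instMod

/-! ### Local fields -/

section Local

variable (L : Type) [Field L] [Valued L ℤᵐ⁰]

/-- The maximal compact subgroup `GL₂(O)`: matrices which are integral together with their
inverse. -/
def GLO : Subgroup (GL (Fin 2) L) where
  carrier := {g | (∀ i j, Valued.v ((g : Matrix (Fin 2) (Fin 2) L) i j) ≤ 1) ∧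
    ∀ i j, Valued.v (((g⁻¹ : GL (Fin 2) L) : Matrix (Fin 2) (Fin 2) L) i j) ≤ 1}
  mul_mem' := by
    rintro a b ⟨ha, ha'⟩ ⟨hb, hb'⟩
    refine ⟨fun i j => ?_, fun i j => ?_⟩
    · rw [Units.val_mul, Matrix.mul_apply]
      exact Valuation.map_sum_le _ fun k _ => by
        rw [map_mul]; exact mul_le_one' (ha i k) (hb k j)
    · rw [mul_inv_rev, Units.val_mul, Matrix.mul_apply]
      exact Valuation.map_sum_le _ fun k _ => by
        rw [map_mul]; exact mul_le_one' (hb' i k) (ha' k j)
  one_mem' := by
    have h : ∀ i j : Fin 2, Valued.v ((1 : Matrix (Fin 2) (Fin 2) L) i j) ≤ 1 := by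
      intro i j
      rw [Matrix.one_apply]
      split_ifs <;> simp
    refine ⟨fun i j => by simpa using h i j, fun i j => by simpa using h i j⟩
  inv_mem' := by
    rintro a ⟨ha, ha'⟩
    exact ⟨ha', by simpa using ha⟩

variable {L}

/-- The exponent of the absolute value: `|x| = q ^ (lg x)` where `q` is the cardinality of the
residue field. -/
def lg (x : L) : ℤ := WithZero.log (Valued.v x)

/-- Functions in the normalised induced representation `I(χ₁, χ₂)`: they satisfy
`φ (b g) = χ₁(a) χ₂(d) |a / d|^{1/2} φ(g)` for upper triangular `b` with diagonal entries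
`a`, `d`, and are right invariant under an open subgroup.  Here `q` is the cardinality of the
residue field. -/
def IsInduced (q : ℕ) (χ₁ χ₂ : Lˣ →* ℂˣ) (φ : GL (Fin 2) L → ℂ) : Prop :=
  (∀ (b g : GL (Fin 2) L) (a d : Lˣ),
    (b : Matrix (Fin 2) (Fin 2) L) 0 0 = a → (b : Matrix (Fin 2) (Fin 2) L) 1 0 = 0 →
    (b : Matrix (Fin 2) (Fin 2) L) 1 1 = d →
    φ (b * g) = (χ₁ a : ℂ) * (χ₂ d : ℂ) * ((Real.sqrt q ^ (lg (a : L) - lg (d : L)) : ℝ) : ℂ)
      * φ g) ∧
  ∃ U : Subgroup (GL (Fin 2) L), IsOpen (U : Set (GL (Fin 2) L)) ∧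
    ∀ g, ∀ u ∈ U, φ (g * u) = φ g

end Local

/-- The unipotent matrix `(1, x; 0, 1)`. -/
def uni {L : Type} [Field L] (x : L) : GL (Fin 2) L where
  val := !![1, x; 0, 1]
  inv := !![1, -x; 0, 1]
  val_inv := by
    ext i j
    fin_cases i <;> fin_cases j <;> simp
  inv_val := by
    ext i j
    fin_cases i <;> fin_cases j <;> simp

/-! ### The global field `K = F₂(t)` -/

/-- `R = F₂[t]` -/
abbrev R := (ZMod 2)[X]

/-- `K = F₂(t)` -/
abbrev K := RatFunc (ZMod 2)

instance instDecK : DecidableEq (RatFunc (ZMod 2)) := Classical.decEq _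

/-- `K_∞ = F₂((1/t))`, the completion of `K` at the place at infinity. -/
abbrev Kinf := RatFunc.CompletionAtInfty (ZMod 2)

end

end Pool.Agent.R423.AL
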