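import Pool.Agent.R423.AL.Base

/-!
# Automorphic representations of `GL(2)` and their isobaric liftings: the statement

The data are: a Dedekind domain `R` with fraction field `K`, a global function field, and the
completion `L` of `K` at its only place `∞` which does not come from a prime of `R`; `q` is the
cardinality of the residue field of `L`.  In the theorem `R = F₂[t]`, `K = F₂(t)`,
`L = F₂((1/t))`, `q = 2`.  The group is `GL(2)` and `ρ` is the standard representation of its dual
group `GL(2, ℂ)`.
-/

namespace Pool.Agent.R423.AL.Gen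

open scoped WithZero RestrictedProduct
open IsDedekindDomain

noncomputable section

/-! ### Representations -/

section Rep

variable {G : Type} [Group G] [TopologicalSpace G]

/-- `σ` occurs in the restriction of `π` to `H` along `ι`: there is a nonzero `H`-equivariant linear
map `σ → π`.  When `π` is an irreducible representation of a restricted product and `H` is one
factor, this says that `σ` is (isomorphic to) the local component of `π` at this factor. -/
def Occurs {H : Type} [Group H] [TopologicalSpace H] (ι : H → G) (π : Irr G) (σ : Irr H) : Prop :=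
  ∃ T : σ.V →ₗ[ℂ] π.V, (∃ x, T x ≠ 0) ∧ ∀ (h : H) (x : σ.V), T (σ.ρ h x) = π.ρ (ι h) (T x)

/-- `σ` has a nonzero vector fixed by the subgroup `U`. -/
def HasFixed (U : Subgroup G) (σ : Irr G) : Prop := ∃ x : σ.V, x ≠ 0 ∧ ∀ k ∈ U, σ.ρ k x = x

/-- `σ` is isomorphic to a space of functions with property `P` on which `G` acts by right
translations. -/
def EmbedsIn (P : (G → ℂ) → Prop) (σ : Irr G) : Prop :=
  ∃ T : σ.V →ₗ[ℂ] (G → ℂ), (∃ x, T x ≠ 0) ∧ (∀ x, P (T x)) ∧
    ∀ (h : G) (x : σ.V) (g : G), T (σ.ρ h x) g = T x (g * h)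

/-- `π` is an irreducible subquotient of the space of functions with property `P`, on which `G` acts
by right translations: `π` is a quotient of a stable space `W` of such functions. -/
def IsSubquotient (P : (G → ℂ) → Prop) (π : Irr G) : Prop :=
  ∃ W : Submodule ℂ (G → ℂ),
    (∀ f ∈ W, P f) ∧ (∀ f ∈ W, ∀ h : G, (fun g => f (g * h)) ∈ W) ∧
    ∃ q : W →ₗ[ℂ] π.V, Function.Surjective q ∧
      ∀ (f f' : W) (h : G), (∀ g, f'.1 g = f.1 (g * h)) → q f' = π.ρ h (q f)

end Rep

section Local

variable {L : Type} [Field L] [Valued L ℤᵐ⁰]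

variable (L) in
/-- The irreducible smooth representations of `GL₂(L)`. -/
abbrev IrrL : Type 1 := Irr (GL (Fin 2) L)

/-- A representation of `GL₂(L)` is unramified if it has a nonzero `GL₂(O)`-fixed vector. -/
def IsUnramified (σ : IrrL L) : Prop := HasFixed (GLO L) σ

/-- `σ` is a subrepresentation of `I(χ₁, χ₂)`. -/
def EmbedsInd (q : ℕ) (χ₁ χ₂ : Lˣ →* ℂˣ) (σ : IrrL L) : Prop := EmbedsIn (IsInduced q χ₁ χ₂) σ

/-- `σ` is the Langlands sum `χ₁ ⊞ χ₂`: if `|χ₁| = |·|^{s₁}` and `|χ₂| = |·|^{s₂}` are ordered with
`s₁ ≥ s₂`, it is the Langlands quotient of `I(χ₁, χ₂)`, that is, the irreducible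
subrepresentation of `I(χ₂, χ₁)`. -/
def IsLanglandsSum (q : ℕ) (χ₁ χ₂ : Lˣ →* ℂˣ) (σ : IrrL L) : Prop :=
  ((∀ x : Lˣ, Valued.v (x : L) ≤ 1 → ‖(χ₁ x : ℂ)‖ ≤ ‖(χ₂ x : ℂ)‖) ∧ EmbedsInd q χ₂ χ₁ σ) ∨
  ((∀ x : Lˣ, Valued.v (x : L) ≤ 1 → ‖(χ₂ x : ℂ)‖ ≤ ‖(χ₁ x : ℂ)‖) ∧ EmbedsInd q χ₁ χ₂ σ)

end Local

variable (R K L : Type) [CommRing R] [IsDedekindDomain R] [Field K] [Algebra R K]
  [IsFractionRing R K] [Field L] [Valued L ℤᵐ⁰]

/-! ### The adele group -/

/-- The product of `GL₂(L)` and of the restricted product of the groups `GL₂(K_v)` with respect to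
the subgroups `GL₂(O_v)`. -/
abbrev GAprod : Type := GL (Fin 2) L × Πʳ v : HeightOneSpectrum R,
  [GL (Fin 2) (v.adicCompletion K), GLO (v.adicCompletion K)]

/-- The group `GL₂(𝔸)`: the product of `GL₂(L)` and of the restricted product of the groups
`GL₂(K_v)` with respect to the subgroups `GL₂(O_v)`. -/
def GA : Type := GAprod R K L

instance instGroupGA : Group (GA R K L) := (inferInstance : Group (GAprod R K L))

instance instTopGA : TopologicalSpace (GA R K L) := (inferInstance : TopologicalSpace (GAprod R K L))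

/-- The adele ring of `K`. -/
abbrev Adele := L × FiniteAdeleRing R K

/-- The irreducible smooth representations of `GL₂(𝔸)`. -/
abbrev IrrA : Type 1 := Irr (GA R K L)

/-- The inclusion of `GL₂(L)` in `GL₂(𝔸)`. -/
def atInf (g : GL (Fin 2) L) : GA R K L := Prod.mk g 1

variable {R} in
open Classical in
/-- The inclusion of `GL₂(K_v)` in `GL₂(𝔸)`. -/
def atFin (v : HeightOneSpectrum R) (g : GL (Fin 2) (v.adicCompletion K)) : GA R K L :=
  Prod.mk 1 ⟨Function.update (fun w => (1 : GL (Fin 2) (w.adicCompletion K))) v g, by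
    filter_upwards [show {v}ᶜ ∈ Filter.cofinite by simp] with w hw
    rw [Function.update_of_ne hw]
    exact one_mem (GLO (w.adicCompletion K))⟩

/-- An element of `K` is integral at almost all places. -/
theorem eventually_integral (x : K) : ∀ᶠ v : HeightOneSpectrum R in Filter.cofinite,
    Valued.v (algebraMap K (v.adicCompletion K) x) ≤ 1 := by
  have h := HeightOneSpectrum.Support.finite R x
  have h2 : ∀ v : HeightOneSpectrum R,
      Valued.v (algebraMap K (v.adicCompletion K) x) = v.valuation K x := fun v =>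
    HeightOneSpectrum.valuedAdicCompletion_eq_valuation' v x
  rw [Filter.eventually_cofinite]
  refine h.subset fun v hv => ?_
  rw [Set.mem_ofPred_eq, h2 v, not_le] at hv
  exact hv

variable {R K} in
/-- The component at `v` of an element of `GL₂(K)`. -/
def toFin (v : HeightOneSpectrum R) (γ : GL (Fin 2) K) : GL (Fin 2) (v.adicCompletion K) :=
  Matrix.GeneralLinearGroup.map (algebraMap K (v.adicCompletion K)) γ

theorem eventually_toFin (γ : GL (Fin 2) K) : ∀ᶠ v : HeightOneSpectrum R in Filter.cofinite,
    toFin v γ ∈ GLO (v.adicCompletion K) := by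
  have h : ∀ δ : GL (Fin 2) K, ∀ᶠ v : HeightOneSpectrum R in Filter.cofinite, ∀ i j,
      Valued.v ((toFin v δ : Matrix (Fin 2) (Fin 2) (v.adicCompletion K)) i j) ≤ 1 := by
    intro δ
    rw [Filter.eventually_all]
    intro i
    rw [Filter.eventually_all]
    intro j
    exact eventually_integral R K _
  filter_upwards [h γ, h γ⁻¹] with v h1 h2
  refine ⟨h1, ?_⟩
  unfold toFin at *
  rw [← map_inv]
  exact h2

variable {K} in
/-- The diagonal inclusion of `GL₂(K)` in `GL₂(𝔸)`. -/
def diag [Algebra K L] (γ : GL (Fin 2) K) : GA R K L :=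
  Prod.mk (Matrix.GeneralLinearGroup.map (algebraMap K L) γ)
    ⟨fun v => toFin v γ, eventually_toFin R K γ⟩

variable {R K L}

/-- The element `n(x) = (1, x; 0, 1)` of `GL₂(𝔸)`, for an adele `x`. -/
def nA (x : Adele R K L) : GA R K L :=
  Prod.mk (uni x.1) ⟨fun v => uni (x.2 v), by
    filter_upwards [x.2.2] with v hv
    have h1 : Valued.v (x.2 v) ≤ 1 := hv
    refine ⟨fun i j => ?_, fun i j => ?_⟩
    · fin_cases i <;> fin_cases j <;> simp [uni, h1]
    · change Valued.v ((!![1, -(x.2 v); 0, 1] :
        Matrix (Fin 2) (Fin 2) (v.adicCompletion K)) i j) ≤ 1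
      fin_cases i <;> fin_cases j <;> simp [h1]⟩

/-! ### Automorphic forms -/

/-- The span of the right translates of `f` by `GL₂(L)`. -/
def spanInf (f : GA R K L → ℂ) : Submodule ℂ (GA R K L → ℂ) :=
  Submodule.span ℂ (Set.range fun (h : GL (Fin 2) L) (g : GA R K L) => f (g * atInf R K L h))

/-- The representation of `GL₂(L)` generated by `f` under right translations is admissible: for
every open subgroup `U` of `GL₂(L)` its `U`-invariant vectors lie in a finite-dimensional space. -/
def IsAdmissible (f : GA R K L → ℂ) : Prop :=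
  ∀ U : Subgroup (GL (Fin 2) L), IsOpen (U : Set (GL (Fin 2) L)) →
    ∃ E : Submodule ℂ (GA R K L → ℂ), FiniteDimensional ℂ E ∧
      ∀ φ ∈ spanInf f, (∀ u ∈ U, ∀ g, φ (g * atInf R K L u) = φ g) → φ ∈ E

variable [Algebra K L]

/-- Automorphic forms on `GL₂(𝔸)` for the function field `K` (Borel-Jacquet, 5.8): functions which
are left invariant under `GL₂(K)`, right invariant under an open subgroup, and such that the
representation of `GL₂(L)` they generate is admissible. -/
def IsAutForm (f : GA R K L → ℂ) : Prop :=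
  (∀ (γ : GL (Fin 2) K) (g : GA R K L), f (diag R L γ * g) = f g) ∧
  (∃ U : Subgroup (GA R K L), IsOpen (U : Set (GA R K L)) ∧ ∀ g, ∀ u ∈ U, f (g * u) = f g) ∧
  IsAdmissible f

/-- Cusp forms: automorphic forms whose constant term `∫_{𝔸/K} f(n(x) g) dx` vanishes for all `g`.
The function `x ↦ f(n(x) g)` on `𝔸` is invariant under translation by `K` and by an open subgroup,
so the integral is a finite sum: it is taken over the finite quotient of `𝔸` by any open subgroup
`Λ` of finite index containing `K` under which this function is invariant. -/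
def IsCuspForm (f : GA R K L → ℂ) : Prop :=
  IsAutForm f ∧ ∀ (g : GA R K L) (Λ : AddSubgroup (Adele R K L)),
    IsOpen (Λ : Set (Adele R K L)) → Λ.FiniteIndex →
    (∀ x : K, ((algebraMap K L x, algebraMap K _ x) : Adele R K L) ∈ Λ) →
    (∀ x : Adele R K L, ∀ y ∈ Λ, f (nA (x + y) * g) = f (nA x * g)) →
    ∑ᶠ c : Adele R K L ⧸ Λ, f (nA (Quotient.out c) * g) = 0

/-- Automorphic representations: irreducible subquotients of the space of automorphic forms. -/
def IsAutomorphic (π : IrrA R K L) : Prop := IsSubquotient IsAutForm π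

/-- Cuspidal automorphic representations: irreducible subquotients of the space of cusp forms. -/
def IsCuspidal (π : IrrA R K L) : Prop := IsSubquotient IsCuspForm π

omit [Algebra K L] in
/-- `σ` is the component of `π` at infinity. -/
def CompInf (π : IrrA R K L) (σ : IrrL L) : Prop := Occurs (atInf R K L) π σ

omit [Algebra K L] in
/-- `σ` is the component of `π` at the place `v`. -/
def CompFin (π : IrrA R K L) (v : HeightOneSpectrum R) (σ : IrrL (v.adicCompletion K)) : Prop :=
  Occurs (atFin K L v) π σ

/-! ### Isobaric representations and global liftings -/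

variable (R K L) in
/-- A quasi-character of `𝔸ˣ / Kˣ`, given by its local components. -/
structure HeckeChar where
  /-- the component at infinity -/
  inf : Lˣ →* ℂˣ
  /-- the other components -/
  fin : ∀ v : HeightOneSpectrum R, (v.adicCompletion K)ˣ →* ℂˣ
  inf_smooth : IsOpen {x : Lˣ | inf x = 1}
  fin_smooth : ∀ v : HeightOneSpectrum R, IsOpen {x : (v.adicCompletion K)ˣ | fin v x = 1}
  unram : ∀ᶠ v : HeightOneSpectrum R in Filter.cofinite, ∀ x : (v.adicCompletion K)ˣ,
    Valued.v (x : v.adicCompletion K) = 1 → fin v x = 1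
  trivial_on_K : ∀ x : Kˣ, inf (Units.map (algebraMap K L).toMonoidHom x) *
    ∏ᶠ v : HeightOneSpectrum R,
      fin v (Units.map (algebraMap K (v.adicCompletion K)).toMonoidHom x) = 1

/-- `Θ = μ₁ ⊞ μ₂`: every local component of `Θ` is the Langlands sum of the local components of
`μ₁` and `μ₂`. -/
def IsSumOfChars (q : ℕ) (μ₁ μ₂ : HeckeChar R K L) (Θ : IrrA R K L) : Prop :=
  (∃ σ : IrrL L, CompInf Θ σ ∧ IsLanglandsSum q μ₁.inf μ₂.inf σ) ∧
  ∀ v : HeightOneSpectrum R, ∃ σ : IrrL (v.adicCompletion K),
    CompFin Θ v σ ∧ IsLanglandsSum (Nat.card (R ⧸ v.asIdeal)) (μ₁.fin v) (μ₂.fin v) σ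

/-- Isobaric automorphic representations of `GL₂(𝔸)`: the cuspidal ones, and the sums
`μ₁ ⊞ μ₂` of two Hecke quasi-characters. -/
def IsIsobaric (q : ℕ) (Θ : IrrA R K L) : Prop :=
  IsAutomorphic Θ ∧ (IsCuspidal Θ ∨ ∃ μ₁ μ₂ : HeckeChar R K L, IsSumOfChars q μ₁ μ₂ Θ)

/-- `Θ` is a global lifting of `π` with respect to the standard representation `ρ` of the dual group
`GL(2, ℂ)` of `GL(2)`: it is isobaric, and at every place where the local component of `π` is
unramified, the local component of `Θ` is the same (the unramified lifting with respect to `ρ` is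
the identity map). -/
def IsGlobalLifting (q : ℕ) (π Θ : IrrA R K L) : Prop :=
  IsIsobaric q Θ ∧
  (∀ σ : IrrL L, IsUnramified σ → CompInf π σ → CompInf Θ σ) ∧
  ∀ (v : HeightOneSpectrum R) (σ : IrrL (v.adicCompletion K)), IsUnramified σ →
    CompFin π v σ → CompFin Θ v σ

variable (R K L)

/-- The instance of the question with `F = L`, `G = GL(2)`, `ρ` the standard representation, and
the global field `K` with its place at infinity: there is a map `l` from irreducible smooth
representations of `GL₂(L)` to irreducible smooth representations of `GL₂(L)` such that for every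
automorphic representation `π` of `GL₂(𝔸)` with local component `σ` at infinity and with global
lifting `Θ`, the local component of `Θ` at infinity is `l(σ)`. -/
def LocalLiftingExists (q : ℕ) : Prop :=
  ∃ l : IrrL L → IrrL L, ∀ π Θ : IrrA R K L, IsAutomorphic π → IsGlobalLifting q π Θ →
    ∀ σ : IrrL L, CompInf π σ → CompInf Θ (l σ)

/-- Witnesses: there are an automorphic representation `π` with global lifting `Θ`, and a cuspidal
automorphic representation `π'`, with global lifting `π'`, which have the same component `σ` at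
infinity, but the components of their global liftings at infinity are different. -/
def ExistsConflict (q : ℕ) : Prop :=
  ∃ (σ : IrrL L) (π Θ π' : IrrA R K L),
    IsAutomorphic π ∧ IsGlobalLifting q π Θ ∧ IsCuspidal π' ∧ IsGlobalLifting q π' π' ∧
    CompInf π σ ∧ CompInf π' σ ∧ ∀ τ : IrrL L, ¬ (CompInf Θ τ ∧ CompInf π' τ)

end

end Pool.Agent.R423.AL.Gen
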