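import Pool.Agent.R423.AL.Main
import Pool.Agent.R423.AL.Stmt

/-!
# The theorem in terms of the definitions of `Stmt`
-/

namespace Pool.Agent.R423.AL.Bridge

open scoped WithZero RestrictedProduct
open IsDedekindDomain

noncomputable section

theorem atInf_eq (g : GL (Fin 2) Kinf) : Gen.atInf R K Kinf g = atInf g := rfl

theorem atFin_eq (v : Pl) (g : GL (Fin 2) (Kfin v)) :
    (Gen.atFin K Kinf v g : Gen.GA R K Kinf) = atFin v g := by
  have : ∀ a b : GAf, (∀ w, a w = b w) → ((1, a) : GA) = (1, b) := by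
    intro a b h
    have e : a = b := by
      apply RestrictedProduct.ext
      exact h
    rw [e]
  exact this _ _ fun w => rfl

theorem isAutForm {f : GA → ℂ} (h : IsAutForm f) :
    Gen.IsAutForm (R := R) (K := K) (L := Kinf) f :=
  ⟨h.left_inv, h.smooth, fun U hU => ⟨(spanInf f ⊓ fixedInf U : Submodule ℂ (GA → ℂ)),
    h.adm U hU, fun φ h1 h2 => (⟨h1, h2⟩ : φ ∈ (spanInf f ⊓ fixedInf U : Submodule ℂ (GA → ℂ)))⟩⟩

theorem isCuspForm {f : GA → ℂ} (h : IsCuspForm f) :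
    Gen.IsCuspForm (R := R) (K := K) (L := Kinf) f :=
  ⟨isAutForm h.1, h.2⟩

theorem isSubquotient {P Q : (GA → ℂ) → Prop} (hPQ : ∀ f, P f → Q f) {π : Irr GA}
    (h : IsSubquotient P π) : Gen.IsSubquotient Q π := by
  obtain ⟨W, h1, hW, q, hq, hqe⟩ := h
  refine ⟨W, fun f hf => hPQ f (h1 f hf), hW, q, hq, fun f f' h hff => ?_⟩
  have e : f' = ⟨fun g => f.1 (g * h), hW f.1 f.2 h⟩ := Subtype.ext (funext hff)
  rw [e]
  exact hqe f h

theorem isAutomorphic {π : Irr GA} (h : IsAutomorphic π) :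
    Gen.IsAutomorphic (R := R) (K := K) (L := Kinf) π :=
  isSubquotient (fun _ hf => isAutForm hf) h

theorem isCuspidal {π : Irr GA} (h : IsCuspidal π) :
    Gen.IsCuspidal (R := R) (K := K) (L := Kinf) π :=
  isSubquotient (fun _ hf => isCuspForm hf) h

theorem exists_of_ne {V W : Type} [AddCommGroup V] [Module ℂ V] [AddCommGroup W] [Module ℂ W]
    {T : V →ₗ[ℂ] W} (hT : T ≠ 0) : ∃ x, T x ≠ 0 := by
  by_contra hcon
  push Not at hcon
  exact hT (LinearMap.ext hcon)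

theorem ne_of_exists {V W : Type} [AddCommGroup V] [Module ℂ V] [AddCommGroup W] [Module ℂ W]
    {T : V →ₗ[ℂ] W} (hT : ∃ x, T x ≠ 0) : T ≠ 0 := by
  rintro rfl
  obtain ⟨x, hx⟩ := hT
  exact hx rfl

theorem compInf {π : Irr GA} {σ : Irr (GL (Fin 2) Kinf)} :
    Gen.CompInf (R := R) (K := K) (L := Kinf) π σ ↔ Occurs atInf π σ := by
  constructor
  · rintro ⟨T, hT, hTe⟩
    exact ⟨T, ne_of_exists hT, hTe⟩
  · rintro ⟨T, hT, hTe⟩
    exact ⟨T, exists_of_ne hT, hTe⟩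

theorem embedsInd {L : Type} [Field L] [Valued L ℤᵐ⁰] {q : ℕ} {χ₁ χ₂ : Lˣ →* ℂˣ}
    {σ : Irr (GL (Fin 2) L)} (h : EmbedsInd q χ₁ χ₂ σ) : Gen.EmbedsInd q χ₁ χ₂ σ := by
  obtain ⟨T, hT, h1, h2⟩ := h
  exact ⟨T, exists_of_ne hT, h1, h2⟩

theorem langlandsSum {L : Type} [Field L] [Valued L ℤᵐ⁰] {q : ℕ} {χ₁ χ₂ : Lˣ →* ℂˣ}
    {σ : Irr (GL (Fin 2) L)} (h : IsLanglandsSum q χ₁ χ₂ σ) : Gen.IsLanglandsSum q χ₁ χ₂ σ := by
  rcases h with h | h
  · exact Or.inl ⟨h.1, embedsInd h.2⟩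
  · exact Or.inr ⟨h.1, embedsInd h.2⟩

theorem compFin {π : Irr GA} {v : Pl} {σ : Irr (GL (Fin 2) (Kfin v))} :
    Gen.CompFin (R := R) (K := K) (L := Kinf) π v σ ↔ Occurs (atFin v) π σ := by
  constructor
  · rintro ⟨T, hT, hTe⟩
    refine ⟨T, ne_of_exists hT, fun h x => ?_⟩
    rw [hTe h x]
    exact congrArg (fun y : GA => π.ρ y (T x)) (atFin_eq v h)
  · rintro ⟨T, hT, hTe⟩
    refine ⟨T, exists_of_ne hT, fun h x => ?_⟩
    rw [hTe h x]
    exact congrArg (fun y : GA => π.ρ y (T x)) (atFin_eq v h).symm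

/-- conversion of Hecke characters -/
def heckeChar (μ : HeckeChar) : Gen.HeckeChar R K Kinf where
  inf := μ.inf
  fin := μ.fin
  inf_smooth := μ.inf_smooth
  fin_smooth := μ.fin_smooth
  unram := μ.unram
  trivial_on_K := μ.trivial_on_K

theorem isIsobaric {Θ : Irr GA} (h : IsIsobaric Θ) :
    Gen.IsIsobaric (R := R) (K := K) (L := Kinf) 2 Θ := by
  refine ⟨isAutomorphic h.1, ?_⟩
  rcases h.2 with h2 | ⟨μ₁, μ₂, ⟨σ, h3, h3'⟩, h4⟩
  · exact Or.inl (isCuspidal h2)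
  · refine Or.inr ⟨heckeChar μ₁, heckeChar μ₂, ⟨σ, compInf.2 h3, langlandsSum h3'⟩, fun v => ?_⟩
    obtain ⟨τ, h5, h6⟩ := h4 v
    exact ⟨τ, compFin.2 h5, langlandsSum h6⟩

theorem isGlobalLifting {π Θ : Irr GA} (h : IsGlobalLifting π Θ) :
    Gen.IsGlobalLifting (R := R) (K := K) (L := Kinf) 2 π Θ :=
  ⟨isIsobaric h.1, fun σ h1 h2 => compInf.2 (h.2.1 σ h1 (compInf.1 h2)),
    fun v σ h1 h2 => compFin.2 (h.2.2 v σ h1 (compFin.1 h2))⟩

theorem existsConflict : Gen.ExistsConflict R K Kinf 2 := by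
  obtain ⟨σ, π, Θ, π', h1, h2, h3, h4, h5, h6, h7⟩ := two_liftings
  exact ⟨σ, π, Θ, π', isAutomorphic h1, isGlobalLifting h2, isCuspidal h3, isGlobalLifting h4,
    compInf.2 h5, compInf.2 h6, fun τ h => h7 τ ⟨compInf.1 h.1, compInf.1 h.2⟩⟩

theorem main : ¬ Gen.LocalLiftingExists R K Kinf 2 := by
  rintro ⟨l, hl⟩
  obtain ⟨σ, π, Θ, π', h1, h2, h3, h4, h5, h6, h7⟩ := two_liftings
  exact h7 (l σ) ⟨compInf.1 (hl _ _ (isAutomorphic h1) (isGlobalLifting h2) σ (compInf.2 h5)),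
    compInf.1 (hl _ _ (isAutomorphic (cusp_aut h3)) (isGlobalLifting h4) σ (compInf.2 h6))⟩

end

end Pool.Agent.R423.AL.Bridge
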