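import Pool.Agent.R423.AL.Glob

/-!
# The automorphic representation `St_∞ ⊗ 1`
-/

namespace Pool.Agent.R423.AL

open scoped WithZero
open Filter

noncomputable section

/-- The representation `St_∞ ⊗ 1` of `GL₂(𝔸)`. -/
def piA : Irr GA where
  V := (StI Kinf).V
  ρ := (StI Kinf).ρ.comp (MonoidHom.fst _ _)
  smooth := by
    intro x
    exact ((StI Kinf).smooth x).preimage continuous_fst
  irred := by
    refine ⟨(StI Kinf).irred.1, fun N hN => (StI Kinf).irred.2 N fun g x hx => ?_⟩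
    exact hN (g, 1) x hx

theorem piA_rho (h : GA) (x : (StI Kinf).V) : piA.ρ h x = (StI Kinf).ρ h.1 x := rfl

theorem occurs_piA : Occurs atInf piA (StI Kinf) := by
  refine ⟨LinearMap.id, ?_, fun h x => rfl⟩
  intro h0
  obtain ⟨x, hx⟩ := (StI Kinf).irred.1
  exact hx (LinearMap.congr_fun h0 x)

/-- integral finite adelic points -/
def UA : Subgroup GAf where
  carrier := {x | ∀ v, x v ∈ GLO (Kfin v)}
  mul_mem' := fun ha hb v => mul_mem (ha v) (hb v)
  one_mem' := fun v => one_mem _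
  inv_mem' := fun ha v => inv_mem (ha v)

theorem isOpen_GLO_fin (v : Pl) : IsOpen (GLO (Kfin v) : Set (GL (Fin 2) (Kfin v))) := by
  have hv : Continuous fun g : GL (Fin 2) (Kfin v) => (g.1 : Matrix (Fin 2) (Fin 2) (Kfin v)) :=
    Units.continuous_val
  have hc : ∀ i j : Fin 2, Continuous fun g : GL (Fin 2) (Kfin v) => g.1 i j := fun i j =>
    hv.matrix_elem i j
  have hc' : ∀ i j : Fin 2, Continuous fun g : GL (Fin 2) (Kfin v) => (g⁻¹).1 i j := fun i j =>
    (hc i j).comp continuous_inv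
  have ho : IsOpen {x : Kfin v | Valued.v x ≤ 1} := Valued.isOpen_integer (Kfin v)
  have e : (GLO (Kfin v) : Set (GL (Fin 2) (Kfin v))) =
      ((⋂ i, ⋂ j, {g | Valued.v (g.1 i j) ≤ 1}) ∩ (⋂ i, ⋂ j, {g | Valued.v ((g⁻¹).1 i j) ≤ 1})) := by
    ext g
    simp only [Set.mem_inter_iff, Set.mem_iInter, Set.mem_ofPred_eq, SetLike.mem_coe]
    exact Iff.rfl
  rw [e]
  exact (isOpen_iInter_of_finite fun i => isOpen_iInter_of_finite fun j => ho.preimage (hc i j)).inter
    (isOpen_iInter_of_finite fun i => isOpen_iInter_of_finite fun j => ho.preimage (hc' i j))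

theorem isOpen_UA : IsOpen (UA : Set GAf) :=
  RestrictedProduct.isOpen_forall_mem (fun v => isOpen_GLO_fin v)

theorem atInf_fst (h : GL (Fin 2) Kinf) : (atInf h).1 = h := rfl
theorem atInf_snd (h : GL (Fin 2) Kinf) : (atInf h).2 = 1 := rfl

section Reg

variable (μ : VS Kinf →ₗ[ℂ] ℂ)

/-- the chosen element of `B(K)` -/
def del (a : GAf) : GL (Fin 2) K := (exists_borel a).choose

theorem del_10 (a : GAf) : (del a : Matrix (Fin 2) (Fin 2) K) 1 0 = 0 :=
  (exists_borel a).choose_spec.1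

theorem del_mem (a : GAf) (v : Pl) : toFin v (del a) * a v ∈ GLO (Kfin v) :=
  (exists_borel a).choose_spec.2 v

/-- the regularised Eisenstein series -/
def TA : VS Kinf →ₗ[ℂ] (GA → ℂ) where
  toFun f g := μ (rhoV Kinf (toInf (del g.2) * g.1) f)
  map_add' f f' := by
    funext g
    rw [Pi.add_apply, map_add, map_add]
  map_smul' c f := by
    funext g
    rw [Pi.smul_apply, map_smul, map_smul]
    rfl

theorem TA_apply (f : VS Kinf) (g : GA) :
    TA μ f g = μ (rhoV Kinf (toInf (del g.2) * g.1) f) := rfl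

theorem toInf_map (M : GL (Fin 2) R) :
    toInf (Matrix.GeneralLinearGroup.map (algebraMap R K) M) =
      Matrix.GeneralLinearGroup.map pinf M := by
  apply Units.ext
  ext i j
  rfl

variable (hμ : ∀ (M : GL (Fin 2) R) (f : VS Kinf),
  μ (rhoV Kinf (Matrix.GeneralLinearGroup.map pinf M) f) = μ f)

include hμ in
/-- independence of the choice of `del` -/
theorem TA_eq (f : VS Kinf) (g : GA) (δ : GL (Fin 2) K)
    (hδ : ∀ v, toFin v δ * g.2 v ∈ GLO (Kfin v)) :
    TA μ f g = μ (rhoV Kinf (toInf δ * g.1) f) := by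
  obtain ⟨M, hM⟩ := exists_poly_matrix (δ * (del g.2)⁻¹) (fun v => by
    have h1 := mul_mem (hδ v) (inv_mem (del_mem g.2 v))
    rw [mul_inv_rev] at h1
    rw [map_mul, map_inv]
    have e : toFin v δ * g.2 v * ((g.2 v)⁻¹ * (toFin v (del g.2))⁻¹) =
        toFin v δ * (toFin v (del g.2))⁻¹ := by group
    rwa [e] at h1)
  have h2 : toInf δ = Matrix.GeneralLinearGroup.map pinf M * toInf (del g.2) := by
    rw [← toInf_map, hM, ← map_mul]
    congr 1
    group
  rw [h2, mul_assoc, rep_mul, hμ]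
  rfl

theorem TA_eqv : IsEqv (TA μ) := by
  intro h f
  funext g
  rw [RT_apply, TA_apply, TA_apply]
  have e1 : (g * atInf h).2 = g.2 := by
    change g.2 * 1 = g.2
    rw [mul_one]
  have e2 : (g * atInf h).1 = g.1 * h := rfl
  rw [e1, e2, ← mul_assoc, rep_mul (rhoV Kinf) _ h]

include hμ in
theorem TA_left (f : VS Kinf) (γ : GL (Fin 2) K) (g : GA) : TA μ f (diag γ * g) = TA μ f g := by
  have e2 : (diag γ * g).1 = toInf γ * g.1 := rfl
  rw [TA_eq μ hμ f (diag γ * g) (del g.2 * γ⁻¹) (fun v => ?_), e2, ← mul_assoc, ← map_mul,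
    inv_mul_cancel_right, TA_apply]
  have e1 : (diag γ * g).2 v = toFin v γ * g.2 v := rfl
  rw [e1, ← mul_assoc, ← map_mul, inv_mul_cancel_right]
  exact del_mem g.2 v

include hμ in
theorem TA_smooth (f : VS Kinf) : ∃ U : Subgroup GA, IsOpen (U : Set GA) ∧
    ∀ g, ∀ u ∈ U, TA μ f (g * u) = TA μ f g := by
  obtain ⟨n, hn⟩ := f.2.2.2
  refine ⟨(KK Kinf n).prod UA, ?_, ?_⟩
  · rw [Subgroup.coe_prod]
    exact (isOpen_KK n).prod isOpen_UA
  · rintro g u ⟨hu1, hu2⟩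
    have e2 : (g * u).1 = g.1 * u.1 := rfl
    rw [TA_eq μ hμ f (g * u) (del g.2) (fun v => ?_), e2, ← mul_assoc,
      rep_mul (rhoV Kinf) _ u.1, KK_fixes f hn hu1, TA_apply]
    have e1 : (g * u).2 v = g.2 v * u.2 v := rfl
    rw [e1, ← mul_assoc]
    exact mul_mem (del_mem g.2 v) (hu2 v)

/-- the matrices `diag(t^k, 1)` -/
def dk (k : ℕ) : GL (Fin 2) Kinf := dgM (tinf ^ k) 1 (pow_ne_zero _ tinf_ne_zero) one_ne_zero

variable (hlim : ∀ d : GL (Fin 2) Kinf, (d : Matrix (Fin 2) (Fin 2) Kinf) 1 0 = 0 →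
  ∀ f : VS Kinf, ∀ᶠ k : ℕ in atTop,
    μ (rhoV Kinf (d * dk (k + 1)) f) = 2 * μ (rhoV Kinf (d * dk k) f) + f.1 (0, 1))

/-- `F` is the exponent zero part of the constant term of `Ψ` -/
def IsConst (Ψ : GA → ℂ) (F : VS Kinf) : Prop :=
  ∀ (x : GL (Fin 2) Kinf) (a : GAf), ∀ᶠ k : ℕ in atTop,
    Ψ (dk (k + 1) * x, a) = 2 * Ψ (dk k * x, a) + F.1 (act x (0, 1))

include hlim in
theorem isConst_TA (h : GA) (f : VS Kinf) : IsConst (RT h (TA μ f)) (rhoV Kinf h.1 f) := by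
  intro x a
  have h1 := hlim (toInf (del (a * h.2))) (by
    change algebraMap K Kinf ((del (a * h.2) : Matrix (Fin 2) (Fin 2) K) 1 0) = 0
    rw [del_10, map_zero]) (rhoV Kinf (x * h.1) f)
  filter_upwards [h1] with k hk
  have e : ∀ j : ℕ, RT h (TA μ f) (dk j * x, a) =
      μ (rhoV Kinf (toInf (del (a * h.2)) * dk j) (rhoV Kinf (x * h.1) f)) := by
    intro j
    rw [RT_apply, TA_apply, ← rep_mul]
    have e1 : ((dk j * x, a) * h : GA).2 = a * h.2 := rfl
    have e2 : ((dk j * x, a) * h : GA).1 = dk j * x * h.1 := rfl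
    rw [e1, e2]
    simp only [mul_assoc]
  rw [e, e, hk]
  congr 1
  change f.1 (act (x * h.1) (0, 1)) = f.1 (act h.1 (act x (0, 1)))
  rw [act_mul]

theorem isConst_add {Ψ Ψ' : GA → ℂ} {F F' : VS Kinf} (h : IsConst Ψ F) (h' : IsConst Ψ' F') :
    IsConst (Ψ + Ψ') (F + F') := by
  intro x a
  filter_upwards [h x a, h' x a] with k h1 h2
  rw [Pi.add_apply, Pi.add_apply, h1, h2]
  change _ = _ + (F.1 _ + F'.1 _)
  ring

theorem isConst_smul {Ψ : GA → ℂ} {F : VS Kinf} (c : ℂ) (h : IsConst Ψ F) :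
    IsConst (c • Ψ) (c • F) := by
  intro x a
  filter_upwards [h x a] with k h1
  rw [Pi.smul_apply, Pi.smul_apply, h1]
  change _ = _ + (c * F.1 _)
  simp only [smul_eq_mul]
  ring

theorem isConst_RT {Ψ : GA → ℂ} {F : VS Kinf} (g : GA) (h : IsConst Ψ F) :
    IsConst (RT g Ψ) (rhoV Kinf g.1 F) := by
  intro x a
  filter_upwards [h (x * g.1) (a * g.2)] with k h1
  have e : ∀ j : ℕ, RT g Ψ (dk j * x, a) = Ψ (dk j * (x * g.1), a * g.2) := by
    intro j
    rw [RT_apply, ← mul_assoc]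
    rfl
  rw [e, e, h1]
  congr 1
  change F.1 (act (x * g.1) (0, 1)) = F.1 (act g.1 (act x (0, 1)))
  rw [act_mul]

theorem exists_bottom_row {L : Type} [Field L] {p : L × L} (hp : p ≠ 0) :
    ∃ g : GL (Fin 2) L, act g (0, 1) = p := by
  obtain ⟨g, hg⟩ := exists_row_matrix hp
  refine ⟨wK * g, ?_⟩
  rw [act_mul]
  have : act (wK : GL (Fin 2) L) (0, 1) = (1, 0) := by
    simp [act, wK]
  rw [this, hg]

theorem isConst_unique {Ψ : GA → ℂ} {F F' : VS Kinf} (h : IsConst Ψ F) (h' : IsConst Ψ F') :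
    F = F' := by
  apply Subtype.ext
  funext p
  rcases eq_or_ne p 0 with rfl | hp
  · rw [F.2.1, F'.2.1]
  · obtain ⟨x, hx⟩ := exists_bottom_row hp
    obtain ⟨k, h1, h2⟩ := ((h x 1).and (h' x 1)).exists
    rw [← hx]
    rw [h1] at h2
    exact add_left_cancel h2

include hlim in
theorem exists_isConst (Ψ : GA → ℂ) (hΨ : Ψ ∈ WT (TA μ)) : ∃ F : VS Kinf, IsConst Ψ F := by
  unfold WT at hΨ
  induction hΨ using Submodule.span_induction with
  | mem x hx =>
    obtain ⟨k, f, rfl⟩ := hx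
    exact ⟨_, isConst_TA μ hlim k f⟩
  | zero =>
    refine ⟨0, fun x a => Eventually.of_forall fun k => ?_⟩
    change (0 : ℂ) = 2 * 0 + 0
    ring
  | add x y _ _ hx hy =>
    obtain ⟨F, hF⟩ := hx
    obtain ⟨F', hF'⟩ := hy
    exact ⟨_, isConst_add hF hF'⟩
  | smul c x _ hx =>
    obtain ⟨F, hF⟩ := hx
    exact ⟨_, isConst_smul c hF⟩

include hlim in
theorem exists_q0 : ∃ q : WT (TA μ) →ₗ[ℂ] VS Kinf, ∀ Ψ : WT (TA μ), IsConst Ψ.1 (q Ψ) := by
  choose F hF using fun Ψ : WT (TA μ) => exists_isConst μ hlim Ψ.1 Ψ.2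
  exact ⟨{ toFun := F
           map_add' := fun a b => isConst_unique (hF (a + b)) (isConst_add (hF a) (hF b))
           map_smul' := fun c a => isConst_unique (hF (c • a)) (isConst_smul c (hF a)) }, hF⟩

include hμ hlim in
theorem piA_automorphic (hadm : ∀ P ∈ WT (TA μ), IsAutForm P) : IsAutomorphic piA := by
  obtain ⟨q, hq⟩ := exists_q0 μ hlim
  refine ⟨WT (TA μ), hadm, fun f hf h => WT_stable _ h f hf, (oneS Kinf).mkQ.comp q, ?_, ?_⟩
  · intro y
    obtain ⟨f, rfl⟩ := (oneS Kinf).mkQ_surjective y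
    refine ⟨⟨RT 1 (TA μ f), mem_WT _ 1 f⟩, ?_⟩
    change (oneS Kinf).mkQ (q _) = (oneS Kinf).mkQ f
    congr 1
    have h1 := isConst_unique (hq ⟨RT 1 (TA μ f), mem_WT _ 1 f⟩) (isConst_TA μ hlim 1 f)
    rw [h1]
    exact rep_one _ _
  · intro Ψ h
    change (oneS Kinf).mkQ (q _) = (oneS Kinf).mkQ (rhoV Kinf h.1 (q Ψ))
    congr 1
    exact isConst_unique (hq _) (isConst_RT h (hq Ψ))

end Reg

end

end Pool.Agent.R423.AL
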