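import Pool.Agent.R423.AL.CaseA

/-!
# The cuspidal automorphic representation with component `St_∞` at infinity
-/

namespace Pool.Agent.R423.AL

open scoped WithZero
open Filter

noncomputable section

/-! ### vanishing of finite averages -/

section Kill

variable {A : Type} [AddCommGroup A]

/-- `E(x) + E(x + y)` -/
def Nop (y : A) (E : A → ℂ) : A → ℂ := fun x => E x + E (x + y)

/-- `E` is killed by a product of `n` operators `Nop y` -/
def Kl : ℕ → (A → ℂ) → Prop
  | 0, E => E = 0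
  | n + 1, E => ∃ y, Kl n (Nop y E)

theorem Nop_comm (y z : A) (E : A → ℂ) : Nop y (Nop z E) = Nop z (Nop y E) := by
  funext x
  simp only [Nop]
  rw [add_right_comm x y z]
  ring

theorem Nop_add (y : A) (E E' : A → ℂ) : Nop y (E + E') = Nop y E + Nop y E' := by
  funext x
  simp only [Nop, Pi.add_apply]
  ring

theorem Nop_smul (y : A) (c : ℂ) (E : A → ℂ) : Nop y (c • E) = c • Nop y E := by
  funext x
  simp only [Nop, Pi.smul_apply, smul_eq_mul]
  ring

theorem Kl_Nop (n : ℕ) : ∀ (z : A) (E : A → ℂ), Kl n E → Kl n (Nop z E) := by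
  induction n with
  | zero =>
    intro z E hE
    change E = 0 at hE
    change Nop z E = 0
    rw [hE]
    funext x
    simp [Nop]
  | succ n ih =>
    rintro z E ⟨y, hy⟩
    exact ⟨y, by rw [Nop_comm]; exact ih z _ hy⟩

theorem Kl_add (n : ℕ) : ∀ (m : ℕ) (E E' : A → ℂ), Kl n E → Kl m E' → Kl (m + n) (E + E') := by
  induction n with
  | zero =>
    intro m E E' hE hE'
    change E = 0 at hE
    rw [hE, zero_add]
    exact hE'
  | succ n ih =>
    rintro m E E' ⟨y, hy⟩ hE'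
    refine ⟨y, ?_⟩
    rw [Nop_add]
    exact ih m _ _ hy (Kl_Nop m y _ hE')

theorem Kl_smul (n : ℕ) : ∀ (c : ℂ) (E : A → ℂ), Kl n E → Kl n (c • E) := by
  induction n with
  | zero =>
    intro c E hE
    change E = 0 at hE
    change c • E = 0
    rw [hE, smul_zero]
  | succ n ih =>
    rintro c E ⟨y, hy⟩
    exact ⟨y, by rw [Nop_smul]; exact ih c _ hy⟩

theorem Kl_sum (n : ℕ) : ∀ (E : A → ℂ) (Λ : AddSubgroup A), Λ.FiniteIndex →
    (∀ x : A, ∀ y ∈ Λ, E (x + y) = E x) → Kl n E →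
    ∑ᶠ c : A ⧸ Λ, E (Quotient.out c) = 0 := by
  induction n with
  | zero =>
    intro E Λ _ _ hE
    change E = 0 at hE
    rw [hE]
    simp
  | succ n ih =>
    rintro E Λ hΛ hper ⟨y, hy⟩
    have hfin : Finite (A ⧸ Λ) := AddSubgroup.finite_quotient_of_finiteIndex
    have h1 := ih (Nop y E) Λ hΛ (by
      intro x z hz
      simp only [Nop]
      rw [hper x z hz, add_right_comm, hper (x + y) z hz]) hy
    have hcl : ∀ x x' : A, (x : A ⧸ Λ) = x' → E x = E x' := by
      intro x x' h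
      rw [QuotientAddGroup.eq] at h
      have := hper x _ h
      rw [← this]
      congr 1
      abel
    have h2 : ∑ᶠ c : A ⧸ Λ, E (Quotient.out c + y) = ∑ᶠ c : A ⧸ Λ, E (Quotient.out c) := by
      have h2a : ∑ᶠ c : A ⧸ Λ, E (Quotient.out c) =
          ∑ᶠ c : A ⧸ Λ, E (Quotient.out ((Equiv.addRight (y : A ⧸ Λ)) c)) :=
        (finsum_comp_equiv (f := fun c : A ⧸ Λ => E (Quotient.out c))
          (Equiv.addRight (y : A ⧸ Λ))).symm
      rw [h2a]
      refine finsum_congr fun c => ?_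
      apply hcl
      have e1 : ((Quotient.out c : A) : A ⧸ Λ) = c := Quotient.out_eq c
      have e2 : ((Quotient.out ((Equiv.addRight (y : A ⧸ Λ)) c) : A) : A ⧸ Λ) =
        (Equiv.addRight (y : A ⧸ Λ)) c := Quotient.out_eq _
      rw [e2, QuotientAddGroup.mk_add, e1]
      rfl
    have h3 : ∑ᶠ c : A ⧸ Λ, Nop y E (Quotient.out c) =
        ∑ᶠ c : A ⧸ Λ, E (Quotient.out c) + ∑ᶠ c : A ⧸ Λ, E (Quotient.out c + y) := by
      rw [← finsum_add_distrib (Set.toFinite _) (Set.toFinite _)]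
      rfl
    rw [h3, h2] at h1
    have h4 : (2 : ℂ) * ∑ᶠ c : A ⧸ Λ, E (Quotient.out c) = 0 := by rw [two_mul]; exact h1
    exact (mul_eq_zero.1 h4).resolve_left two_ne_zero

end Kill

/-! ### the automorphic forms -/

/-- the level group at the finite places -/
def UB : Subgroup GAf where
  carrier := {x | x ∈ UA ∧ x vX ∈ UX}
  mul_mem' := fun ha hb => ⟨mul_mem ha.1 hb.1, mul_mem ha.2 hb.2⟩
  one_mem' := ⟨one_mem _, one_mem _⟩
  inv_mem' := fun ha => ⟨inv_mem ha.1, inv_mem ha.2⟩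

theorem mem_Gam_of {η : GL (Fin 2) K} (h : diagF η ∈ UB) : η ∈ Gam := ⟨fun v => h.1 v, h.2⟩

section Cusp

open Classical in
/-- the chosen element of `GL₂(K)` -/
def delB (a : GAf) : GL (Fin 2) K := if h : ∃ δ : GL (Fin 2) K, diagF δ * a ∈ UB then h.choose else 1

open Classical in
/-- the sign -/
def cB (a : GAf) : ℂ :=
  if ∃ δ : GL (Fin 2) K, diagF δ * a ∈ UB then psi0 ((diagF (delB a) * a) vX) else 0

theorem delB_mem {a : GAf} (h : ∃ δ : GL (Fin 2) K, diagF δ * a ∈ UB) :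
    diagF (delB a) * a ∈ UB := by
  unfold delB
  rw [dif_pos h]
  exact h.choose_spec

variable (lam : VS Kinf →ₗ[ℂ] ℂ)

/-- the equivariant map to functions on `GL₂(𝔸)` -/
def TB : VS Kinf →ₗ[ℂ] (GA → ℂ) where
  toFun f g := cB g.2 * lam (rhoV Kinf (toInf (delB g.2) * g.1) f)
  map_add' f f' := by
    funext g
    rw [Pi.add_apply, map_add, map_add, mul_add]
  map_smul' c f := by
    funext g
    rw [Pi.smul_apply, map_smul, map_smul]
    simp only [smul_eq_mul, RingHom.id_apply]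
    ring

theorem TB_apply (f : VS Kinf) (g : GA) :
    TB lam f g = cB g.2 * lam (rhoV Kinf (toInf (delB g.2) * g.1) f) := rfl

variable (hmul : ∀ u ∈ UX, ∀ w ∈ UX, psi0 (u * w) = psi0 u * psi0 w)
  (hsq : ∀ u, psi0 u * psi0 u = 1)
  (hlam1 : lam oneV = 0)
  (hlamΓ : ∀ γ ∈ Gam, ∀ f, lam (rhoV Kinf (toInf γ) f) = psi0 (toFin vX γ) * lam f)

include hmul hsq hlamΓ in
theorem TB_eq (f : VS Kinf) (g : GA) (δ : GL (Fin 2) K) (hδ : diagF δ * g.2 ∈ UB) :
    TB lam f g = psi0 ((diagF δ * g.2) vX) * lam (rhoV Kinf (toInf δ * g.1) f) := by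
  have hex : ∃ δ : GL (Fin 2) K, diagF δ * g.2 ∈ UB := ⟨δ, hδ⟩
  have h0 := delB_mem hex
  set η := δ * (delB g.2)⁻¹ with hη
  have hηΓ : η ∈ Gam := by
    apply mem_Gam_of
    have h1 := mul_mem hδ (inv_mem h0)
    have e : diagF δ * g.2 * (diagF (delB g.2) * g.2)⁻¹ = diagF η := by
      rw [hη, map_mul, map_inv]; group
    rwa [e] at h1
  have hδη : δ = η * delB g.2 := by rw [hη]; group
  have e1 : (diagF δ * g.2) vX = toFin vX η * (diagF (delB g.2) * g.2) vX := by
    rw [hδη, map_mul, mul_assoc]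
    rfl
  rw [TB_apply, e1, hmul _ hηΓ.2 _ h0.2]
  have e2 : toInf δ * g.1 = toInf η * (toInf (delB g.2) * g.1) := by
    rw [hδη, map_mul, mul_assoc]
  rw [e2, rep_mul (rhoV Kinf) (toInf η), hlamΓ η hηΓ]
  unfold cB
  rw [if_pos hex]
  have := hsq (toFin vX η)
  linear_combination (-(psi0 ((diagF (delB g.2) * g.2) vX) *
    lam (rhoV Kinf (toInf (delB g.2) * g.1) f))) * this

theorem TB_zero (f : VS Kinf) (g : GA) (h : ¬ ∃ δ : GL (Fin 2) K, diagF δ * g.2 ∈ UB) :
    TB lam f g = 0 := by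
  rw [TB_apply]
  unfold cB
  rw [if_neg h, zero_mul]

theorem TB_eqv : IsEqv (TB lam) := by
  intro h f
  funext g
  rw [RT_apply, TB_apply, TB_apply]
  have e1 : (g * atInf h).2 = g.2 := by
    change g.2 * 1 = g.2
    rw [mul_one]
  have e2 : (g * atInf h).1 = g.1 * h := rfl
  rw [e1, e2, ← mul_assoc, rep_mul (rhoV Kinf) _ h]

include hmul hsq hlamΓ in
theorem TB_left (f : VS Kinf) (γ : GL (Fin 2) K) (g : GA) :
    TB lam f (diag γ * g) = TB lam f g := by
  have e2 : (diag γ * g).1 = toInf γ * g.1 := rfl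
  have e1 : (diag γ * g).2 = diagF γ * g.2 := rfl
  by_cases hex : ∃ δ : GL (Fin 2) K, diagF δ * g.2 ∈ UB
  · have e3 : diagF (delB g.2 * γ⁻¹) * (diag γ * g).2 = diagF (delB g.2) * g.2 := by
      rw [e1, map_mul, map_inv]; group
    rw [TB_eq lam hmul hsq hlamΓ f (diag γ * g) (delB g.2 * γ⁻¹) (by
      rw [e3]; exact delB_mem hex), e3, e2, ← mul_assoc, ← map_mul,
      inv_mul_cancel_right, TB_eq lam hmul hsq hlamΓ f g (delB g.2) (delB_mem hex)]
  · rw [TB_zero lam f g hex, TB_zero]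
    rintro ⟨δ, hδ⟩
    apply hex
    refine ⟨δ * γ, ?_⟩
    rwa [e1, ← mul_assoc, ← map_mul] at hδ

include hmul hsq hlamΓ in
theorem TB_right (f : VS Kinf) (g : GA) (u : GAf) (hu : u ∈ UB) :
    TB lam f (g * (1, u)) = psi0 (u vX) * TB lam f g := by
  have e2 : (g * (1, u) : GA).1 = g.1 := mul_one _
  have e1 : (g * (1, u) : GA).2 = g.2 * u := rfl
  by_cases hex : ∃ δ : GL (Fin 2) K, diagF δ * g.2 ∈ UB
  · have h0 := delB_mem hex
    have h1 : diagF (delB g.2) * (g * (1, u) : GA).2 ∈ UB := by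
      rw [e1, ← mul_assoc]; exact mul_mem h0 hu
    rw [TB_eq lam hmul hsq hlamΓ f _ (delB g.2) h1, e2, e1, ← mul_assoc]
    have e3 : (diagF (delB g.2) * g.2 * u) vX = (diagF (delB g.2) * g.2) vX * u vX := rfl
    rw [e3, hmul _ h0.2 _ hu.2, TB_eq lam hmul hsq hlamΓ f g (delB g.2) h0]
    ring
  · rw [TB_zero lam f g hex, mul_zero, TB_zero]
    rintro ⟨δ, hδ⟩
    apply hex
    refine ⟨δ, ?_⟩
    have := mul_mem hδ (inv_mem hu)
    rwa [e1, ← mul_assoc, mul_inv_cancel_right] at this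

include hmul hsq hlamΓ in
theorem TB_smooth (hker : ∃ U : Subgroup (GL (Fin 2) (Kfin vX)), IsOpen (U : Set (GL (Fin 2) (Kfin vX))) ∧
      U ≤ UX ∧ ∀ u ∈ U, psi0 u = 1) (f : VS Kinf) :
    ∃ U : Subgroup GA, IsOpen (U : Set GA) ∧ ∀ g, ∀ u ∈ U, TB lam f (g * u) = TB lam f g := by
  obtain ⟨U₀, hU₀, hU₀X, hU₀1⟩ := hker
  obtain ⟨n, hn⟩ := f.2.2.2
  let U₁ : Subgroup GAf := UA ⊓ U₀.comap (RestrictedProduct.evalMonoidHom _ vX)
  have hU₁ : IsOpen (U₁ : Set GAf) := by
    have h1 : Continuous fun x : GAf => x vX := RestrictedProduct.continuous_eval vX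
    exact isOpen_UA.inter (hU₀.preimage h1)
  refine ⟨(KK Kinf n).prod U₁, ?_, ?_⟩
  · rw [Subgroup.coe_prod]
    exact (isOpen_KK n).prod hU₁
  · rintro g u ⟨hu1, hu2⟩
    have h2 : u.2 vX ∈ U₀ := hu2.2
    have hB : u.2 ∈ UB := ⟨hu2.1, hU₀X h2⟩
    have e : g * u = (g * (1, u.2)) * atInf u.1 := by
      ext1
      · change g.1 * u.1 = g.1 * 1 * u.1
        rw [mul_one]
      · change g.2 * u.2 = g.2 * u.2 * 1
        rw [mul_one]
    rw [e]
    have h3 : TB lam f (g * (1, u.2) * atInf u.1) = TB lam (rhoV Kinf u.1 f) (g * (1, u.2)) := by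
      rw [TB_eqv lam u.1 f]; rfl
    rw [h3, KK_fixes f hn hu1, TB_right lam hmul hsq hlamΓ f g u.2 hB, hU₀1 _ h2, one_mul]

include hlam1 in
theorem TB_one : TB lam oneV = 0 := by
  funext g
  rw [TB_apply, rhoV_one, hlam1, mul_zero]
  rfl

/-- the adele supported at `t = 0` -/
def adX (y : Kfin vX) : Adele :=
  (0, ⟨Function.update (fun w : Pl => (0 : Kfin w)) vX y, by
    filter_upwards [show {vX}ᶜ ∈ Filter.cofinite by simp] with w hw
    rw [Function.update_of_ne hw]
    exact zero_mem _⟩)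

theorem nA_add (x y : Adele) : nA (x + y) = nA x * nA y := by
  ext1
  · change uni (x.1 + y.1) = uni x.1 * uni y.1
    rw [uni_mul]
  · apply RestrictedProduct.ext
    intro v
    change uni (x.2 v + y.2 v) = uni (x.2 v) * uni (y.2 v)
    rw [uni_mul]

theorem nA_adX (y : Kfin vX) : nA (adX y) = (1, atFinf vX (uni y)) := by
  ext1
  · change uni (0 : Kinf) = 1
    exact uni_zero
  · apply RestrictedProduct.ext
    intro v
    change uni (Function.update (fun w : Pl => (0 : Kfin w)) vX y v) =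
      Function.update (fun w : Pl => (1 : GL (Fin 2) (Kfin w))) vX (uni y) v
    rcases eq_or_ne v vX with rfl | hv
    · rw [Function.update_self, Function.update_self]
    · rw [Function.update_of_ne hv, Function.update_of_ne hv]
      exact uni_zero

theorem atFinf_mul_comm {g : GAf} {y m : GL (Fin 2) (Kfin vX)} (h : y * g vX = g vX * m) :
    atFinf vX y * g = g * atFinf vX m := by
  apply RestrictedProduct.ext
  intro v
  change Function.update (fun w : Pl => (1 : GL (Fin 2) (Kfin w))) vX y v * g v =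
    g v * Function.update (fun w : Pl => (1 : GL (Fin 2) (Kfin w))) vX m v
  rcases eq_or_ne v vX with rfl | hv
  · rw [Function.update_self, Function.update_self, h]
  · rw [Function.update_of_ne hv, Function.update_of_ne hv, one_mul, mul_one]

theorem atFinf_mem_UB {m : GL (Fin 2) (Kfin vX)} (hm : m ∈ UX) : atFinf vX m ∈ UB := by
  refine ⟨fun v => ?_, ?_⟩
  · change Function.update (fun w : Pl => (1 : GL (Fin 2) (Kfin w))) vX m v ∈ _
    rcases eq_or_ne v vX with rfl | hv
    · rw [Function.update_self]; exact hm.1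
    · rw [Function.update_of_ne hv]; exact one_mem _
  · change Function.update (fun w : Pl => (1 : GL (Fin 2) (Kfin w))) vX m vX ∈ _
    rw [Function.update_self]; exact hm

theorem atFinf_apply (m : GL (Fin 2) (Kfin vX)) : (atFinf vX m) vX = m := by
  change Function.update (fun w : Pl => (1 : GL (Fin 2) (Kfin w))) vX m vX = m
  rw [Function.update_self]

variable (htrick : ∀ g : GL (Fin 2) (Kfin vX), ∃ (y : Kfin vX) (m : GL (Fin 2) (Kfin vX)),
  m ∈ UX ∧ psi0 m = -1 ∧ uni y * g = g * m)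

include hmul hsq hlamΓ htrick in
theorem TB_kill (P : GA → ℂ) (hP : P ∈ WT (TB lam)) (g : GA) :
    ∃ n, Kl n (fun x : Adele => P (nA x * g)) := by
  unfold WT at hP
  induction hP using Submodule.span_induction with
  | mem x hx =>
    obtain ⟨h, f, rfl⟩ := hx
    obtain ⟨y, m, hm, hψ, hym⟩ := htrick ((g * h).2 vX)
    refine ⟨1, adX y, ?_⟩
    change Nop (adX y) _ = 0
    funext x
    change RT h (TB lam f) (nA x * g) + RT h (TB lam f) (nA (x + adX y) * g) = 0
    rw [RT_apply, RT_apply, nA_add, nA_adX]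
    have e : nA x * (1, atFinf vX (uni y)) * g * h = nA x * g * h * (1, atFinf vX m) := by
      have e1 : ((1, atFinf vX (uni y)) : GA) * (g * h) = (g * h) * (1, atFinf vX m) := by
        ext1
        · change 1 * (g * h).1 = (g * h).1 * 1
          rw [one_mul, mul_one]
        · exact atFinf_mul_comm hym
      calc nA x * (1, atFinf vX (uni y)) * g * h = nA x * ((1, atFinf vX (uni y)) * (g * h)) := by
            simp only [mul_assoc]
        _ = nA x * ((g * h) * (1, atFinf vX m)) := by rw [e1]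
        _ = nA x * g * h * (1, atFinf vX m) := by simp only [mul_assoc]
    rw [e, TB_right lam hmul hsq hlamΓ f _ _ (atFinf_mem_UB hm), atFinf_apply, hψ]
    ring
  | zero => exact ⟨0, rfl⟩
  | add x y _ _ hx hy =>
    obtain ⟨n, hn⟩ := hx
    obtain ⟨m, hm⟩ := hy
    exact ⟨_, Kl_add n m _ _ hn hm⟩
  | smul c x _ hx =>
    obtain ⟨n, hn⟩ := hx
    exact ⟨n, Kl_smul n c _ hn⟩

include hmul hsq hlamΓ htrick in
theorem TB_cusp (hadm : ∀ P ∈ WT (TB lam), IsAutForm P) (P : GA → ℂ) (hP : P ∈ WT (TB lam)) :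
    IsCuspForm P := by
  refine ⟨hadm P hP, fun g Λ _ hΛ _ hper => ?_⟩
  obtain ⟨n, hn⟩ := TB_kill lam hmul hsq hlamΓ htrick P hP g
  exact Kl_sum n _ Λ hΛ hper hn

theorem psi0_one : psi0 1 = 1 := by
  have h1 : (1 : GL (Fin 2) (Kfin vX)).1 0 1 = 0 := by simp
  have h2 : (1 : GL (Fin 2) (Kfin vX)).1 1 0 = 0 := by simp
  unfold psi0 sg
  rw [h1, h2]
  simp

include hmul hsq hlamΓ in
theorem TB_ne (hlamd : lam dV = 1) : TB lam ≠ 0 := by
  intro h
  have h1 : TB lam dV 1 = 0 := by rw [h]; rfl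
  have h2 : diagF 1 * (1 : GA).2 ∈ UB := by
    rw [map_one]; exact mul_mem (one_mem _) (one_mem _)
  rw [TB_eq lam hmul hsq hlamΓ dV 1 1 h2] at h1
  have e1 : (diagF 1 * (1 : GA).2) vX = 1 := by
    rw [map_one]
    change (1 : GL (Fin 2) (Kfin vX)) * 1 = 1
    rw [one_mul]
  have e2 : toInf 1 * (1 : GA).1 = 1 := by
    rw [map_one]
    exact one_mul _
  rw [e1, e2, rep_one, psi0_one, hlamd] at h1
  norm_num at h1

end Cusp

/-- equivariance of the functional under `Γ` -/
theorem lam_Gam (lam : VS Kinf →ₗ[ℂ] ℂ) (h1 : lam oneV = 0) (F : GL (Fin 2) Kinf → ℂ)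
    (hF : ∀ g, lam (rhoV Kinf g dV) = F g) (γ : GL (Fin 2) Kinf) (c : ℂ)
    (hΓ : ∀ g, F (γ * g) = c * F g) (f : VS Kinf) :
    lam (rhoV Kinf γ f) = c * lam f := by
  let W : Submodule ℂ (VS Kinf) :=
    { carrier := {f | ∀ g, lam (rhoV Kinf γ (rhoV Kinf g f)) = c * lam (rhoV Kinf g f)}
      add_mem' := by
        intro a b ha hb g
        rw [map_add, map_add, map_add, map_add, ha g, hb g, mul_add]
      zero_mem' := by
        intro g
        rw [map_zero, map_zero, map_zero, mul_zero]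
      smul_mem' := by
        intro d a ha g
        rw [map_smul, map_smul, map_smul, map_smul, ha g]
        simp only [smul_eq_mul]
        ring }
  have hW : W = ⊤ := by
    refine eq_top_of_nonconst W ?_ ?_ dV ?_ (dV_ne Kinf)
    · intro g f hf h
      rw [← rep_mul (rhoV Kinf) h g]
      exact hf (h * g)
    · intro g
      rw [rhoV_one, rhoV_one, h1, mul_zero]
    · intro g
      rw [← rep_mul, hF, hF, hΓ]
  have h2 : f ∈ W := by rw [hW]; trivial
  have h3 := h2 1
  rwa [rep_one] at h3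

end

end Pool.Agent.R423.AL
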