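import Pool.Agent.R423.AL.Defs

/-!
# Class number one for `GL(2)` over `F₂(t)`

Part II of the disproof of `MP_5ae62c_nt`: `GL₂(𝔸_f) = B(K) · GL₂(Ô)`, integral matrices, residue
fields and the expansion of an element of `K_∞`.
-/

namespace Pool.Agent.R423.AL

open scoped Polynomial WithZero RestrictedProduct
open Polynomial

noncomputable section

/-! ### Elementary facts on valuations -/

theorem valF (v : Pl) (x : K) : Valued.v (algebraMap K (Kfin v) x) = v.valuation K x :=
  IsDedekindDomain.HeightOneSpectrum.valuedAdicCompletion_eq_valuation' v x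

section GLOlem

variable {L : Type} [Field L] [Valued L ℤᵐ⁰]

theorem mem_GLO_of_det {g : GL (Fin 2) L}
    (h : ∀ i j, Valued.v ((g : Matrix (Fin 2) (Fin 2) L) i j) ≤ 1)
    (hd : Valued.v (g : Matrix (Fin 2) (Fin 2) L).det = 1) : g ∈ GLO L := by
  refine ⟨h, fun i j => ?_⟩
  have h1 : ((g⁻¹ : GL (Fin 2) L) : Matrix (Fin 2) (Fin 2) L) =
      ((g : Matrix (Fin 2) (Fin 2) L).det)⁻¹ • (g : Matrix (Fin 2) (Fin 2) L).adjugate := by
    rw [Matrix.coe_units_inv, Matrix.inv_def, Ring.inverse_eq_inv']
  rw [h1, Matrix.smul_apply, smul_eq_mul, map_mul, map_inv₀, hd, inv_one, one_mul,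
    Matrix.adjugate_fin_two]
  fin_cases i <;> fin_cases j
  · simpa using h 1 1
  · simpa [Valuation.map_neg] using h 0 1
  · simpa [Valuation.map_neg] using h 1 0
  · simpa using h 0 0

end GLOlem

/-- A generator of a prime ideal. -/
theorem exists_gen (v : Pl) : ∃ p : R, p ≠ 0 ∧ v.asIdeal = Ideal.span {p} := by
  obtain ⟨p, hp⟩ := (IsPrincipalIdealRing.principal v.asIdeal).principal
  refine ⟨p, ?_, hp⟩
  rintro rfl
  apply v.ne_bot
  rw [hp]
  simp

theorem gen_prime {v : Pl} {p : R} (hp : p ≠ 0) (hv : v.asIdeal = Ideal.span {p}) :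
    Prime p := by
  rw [← Ideal.span_singleton_prime hp, ← hv]
  exact v.isPrime

theorem val_gen_self {v : Pl} {p : R} (hp : p ≠ 0) (hv : v.asIdeal = Ideal.span {p}) :
    v.valuation K (algebraMap R K p) = WithZero.exp (-1 : ℤ) := by
  rw [v.valuation_of_algebraMap, v.intValuation_singleton hp hv]

theorem val_gen_ne {v w : Pl} {p : R} (hv : v.asIdeal = Ideal.span {p})
    (hw : w ≠ v) : w.valuation K (algebraMap R K p) = 1 := by
  rw [w.valuation_of_algebraMap, IsDedekindDomain.HeightOneSpectrum.intValuation_eq_one_iff]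
  intro hmem
  apply hw
  have h1 : v.asIdeal ≤ w.asIdeal := by
    rw [hv, Ideal.span_singleton_le_iff_mem]
    exact hmem
  have h2 : v.asIdeal = w.asIdeal := v.isMaximal.eq_of_le w.isPrime.ne_top h1
  exact (IsDedekindDomain.HeightOneSpectrum.ext h2).symm

/-- `K = R[1/p] + (K ∩ O_v)` -/
theorem exists_split {v : Pl} {p : R} (hp : p ≠ 0) (hv : v.asIdeal = Ideal.span {p}) (y₀ : K) :
    ∃ y : K, v.valuation K (y₀ - y) ≤ 1 ∧ ∀ w : Pl, w ≠ v → w.valuation K y ≤ 1 := by
  obtain ⟨n, d, hd, rfl⟩ := IsFractionRing.div_surjective (A := R) y₀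
  have hd0 : d ≠ 0 := nonZeroDivisors.ne_zero hd
  have hpp := gen_prime hp hv
  obtain ⟨k, m, hm, hdm⟩ := WfDvdMonoid.max_power_factor hd0 hpp.irreducible
  have hcop : IsCoprime (p ^ k) m :=
    IsCoprime.pow_left ((Irreducible.coprime_iff_not_dvd hpp.irreducible).2 hm)
  obtain ⟨r, s, hrs⟩ := hcop
  have hm0 : m ≠ 0 := by
    rintro rfl
    exact hm (dvd_zero _)
  have hpK : algebraMap R K p ≠ 0 := by
    simpa using hp
  have hmK : algebraMap R K m ≠ 0 := by
    simpa using hm0
  have hrsK : algebraMap R K r * algebraMap R K p ^ k + algebraMap R K s * algebraMap R K m = 1 := by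
    have := congrArg (algebraMap R K) hrs
    simpa only [map_add, map_mul, map_pow, map_one] using this
  have hdK : algebraMap R K d = algebraMap R K p ^ k * algebraMap R K m := by
    rw [hdm, map_mul, map_pow]
  refine ⟨algebraMap R K n * algebraMap R K s / algebraMap R K p ^ k, ?_, ?_⟩
  · have h1 : algebraMap R K n / algebraMap R K d -
        algebraMap R K n * algebraMap R K s / algebraMap R K p ^ k =
        algebraMap R K (n * r) / algebraMap R K m := by
      rw [hdK, map_mul]
      field_simp
      linear_combination (-(algebraMap R K n)) * hrsK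
    rw [h1, map_div₀]
    have h2 : v.valuation K (algebraMap R K m) = 1 := by
      rw [v.valuation_of_algebraMap, IsDedekindDomain.HeightOneSpectrum.intValuation_eq_one_iff]
      rw [hv, Ideal.mem_span_singleton]
      exact hm
    rw [h2, div_one]
    exact v.valuation_le_one _
  · intro w hw
    rw [map_div₀, map_pow, val_gen_ne hv hw, one_pow, div_one, ← map_mul]
    exact w.valuation_le_one _

/-- density of `K` in its completions -/
theorem exists_close {L : Type} [Field L] [Valued L ℤᵐ⁰] {f : K → L} (hf : DenseRange f) (x : L) :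
    ∃ y : K, Valued.v (x - f y) < 1 := by
  have h1 : IsOpen {z : L | Valued.v z < 1} := by
    have h := Valued.isOpen_ball (R := L) 1
    have he : {z : L | Valued.v z < 1} = {z : L | (Valued.v (R := L)).restrict z < 1} := by
      ext z
      simp only [Set.mem_ofPred_eq, Valuation.restrict_lt_one_iff]
    rw [he]
    exact h
  have h2 : IsOpen {z : L | Valued.v (x - z) < 1} := h1.preimage (continuous_const.sub continuous_id)
  obtain ⟨y, hy⟩ := hf.exists_mem_open h2 ⟨x, by simp⟩
  exact ⟨y, hy⟩

theorem exists_close_fin (v : Pl) (x : Kfin v) :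
    ∃ y : K, Valued.v (x - algebraMap K (Kfin v) y) < 1 :=
  exists_close (IsDedekindDomain.HeightOneSpectrum.denseRange_algebraMap K v) x

theorem exists_close_inf (x : Kinf) :
    ∃ y : K, Valued.v (x - algebraMap K Kinf y) < 1 := by
  refine exists_close ?_ x
  let _ : UniformSpace (RatFunc (ZMod 2)) := (RatFunc.inftyValued (ZMod 2)).toUniformSpace
  exact UniformSpace.Completion.denseRange_coe (α := RatFunc (ZMod 2))

theorem valInf (x : K) : Valued.v (algebraMap K Kinf x) = RatFunc.inftyValuation (ZMod 2) x := by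
  let _ : Valued (RatFunc (ZMod 2)) ℤᵐ⁰ := RatFunc.inftyValued (ZMod 2)
  exact Valued.extensionValuation_apply_coe (K := RatFunc (ZMod 2)) x

theorem v_inf_poly (p : R) (hp : p ≠ 0) :
    Valued.v (algebraMap K Kinf (algebraMap R K p)) = WithZero.exp (p.natDegree : ℤ) := by
  rw [valInf, RatFunc.inftyValuation_apply, RatFunc.inftyValuation.polynomial _ hp]

theorem exists_poly_near (x : Kinf) :
    ∃ p : R, Valued.v (x - algebraMap K Kinf (algebraMap R K p)) < 1 := by
  obtain ⟨y, hy⟩ := exists_close_inf x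
  obtain ⟨n, d, hd, rfl⟩ := IsFractionRing.div_surjective (A := R) y
  have hd0 : d ≠ 0 := nonZeroDivisors.ne_zero hd
  have hdK : algebraMap R K d ≠ 0 := by
    simpa using hd0
  refine ⟨n / d, ?_⟩
  have h1 : x - algebraMap K Kinf (algebraMap R K (n / d)) =
      (x - algebraMap K Kinf (algebraMap R K n / algebraMap R K d)) +
      algebraMap K Kinf (algebraMap R K (n % d) / algebraMap R K d) := by
    have h2 : algebraMap R K (n / d) = algebraMap R K n / algebraMap R K d -
        algebraMap R K (n % d) / algebraMap R K d := by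
      have h3 : algebraMap R K n = algebraMap R K d * algebraMap R K (n / d) +
          algebraMap R K (n % d) := by
        rw [← map_mul, ← map_add, EuclideanDomain.div_add_mod]
      rw [h3]
      field_simp
      ring
    rw [h2, map_sub]
    ring
  rw [h1]
  refine (Valuation.map_add _ _ _).trans_lt (max_lt hy ?_)
  rcases eq_or_ne (n % d) 0 with h0 | h0
  · rw [h0, map_zero, zero_div, map_zero, map_zero]
    exact zero_lt_one
  · rw [map_div₀, map_div₀, v_inf_poly _ h0, v_inf_poly _ hd0, ← WithZero.exp_sub,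
      ← WithZero.exp_zero, WithZero.exp_lt_exp]
    have h4 : (n % d).natDegree < d.natDegree :=
      Polynomial.natDegree_lt_natDegree h0 (EuclideanDomain.mod_lt n hd0)
    omega

theorem exists_poly_matrix (g : GL (Fin 2) K) (h : ∀ v : Pl, toFin v g ∈ GLO (Kfin v)) :
    ∃ M : GL (Fin 2) R, Matrix.GeneralLinearGroup.map (algebraMap R K) M = g := by
  have hinj : Function.Injective (algebraMap R K) := IsFractionRing.injective R K
  have h1 : ∀ i j, ∃ r : R, algebraMap R K r = (g : Matrix (Fin 2) (Fin 2) K) i j := by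
    intro i j
    apply IsDedekindDomain.HeightOneSpectrum.mem_integers_of_valuation_le_one (R := R) K
    intro v
    rw [← valF]
    exact (h v).1 i j
  have h2 : ∀ i j, ∃ r : R,
      algebraMap R K r = ((g⁻¹ : GL (Fin 2) K) : Matrix (Fin 2) (Fin 2) K) i j := by
    intro i j
    apply IsDedekindDomain.HeightOneSpectrum.mem_integers_of_valuation_le_one (R := R) K
    intro v
    rw [← valF]
    have h3 := (h v).2 i j
    rw [← map_inv] at h3
    exact h3
  choose A hA using h1
  choose B hB using h2
  have hA' : (Matrix.of A).map (algebraMap R K) = (g : Matrix (Fin 2) (Fin 2) K) := by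
    ext i j
    exact hA i j
  have hB' : (Matrix.of B).map (algebraMap R K) =
      ((g⁻¹ : GL (Fin 2) K) : Matrix (Fin 2) (Fin 2) K) := by
    ext i j
    exact hB i j
  have hmi : Function.Injective (fun M : Matrix (Fin 2) (Fin 2) R => M.map (algebraMap R K)) :=
    Matrix.map_injective hinj
  refine ⟨⟨Matrix.of A, Matrix.of B, ?_, ?_⟩, ?_⟩
  · apply hmi
    change (Matrix.of A * Matrix.of B).map (algebraMap R K) = (1 : Matrix (Fin 2) (Fin 2) R).map (algebraMap R K)
    rw [Matrix.map_mul, hA', hB', Matrix.map_one _ (map_zero _) (map_one _), ← Units.val_mul,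
      mul_inv_cancel, Units.val_one]
  · apply hmi
    change (Matrix.of B * Matrix.of A).map (algebraMap R K) = (1 : Matrix (Fin 2) (Fin 2) R).map (algebraMap R K)
    rw [Matrix.map_mul, hA', hB', Matrix.map_one _ (map_zero _) (map_one _), ← Units.val_mul,
      inv_mul_cancel, Units.val_one]
  · apply Units.ext
    exact hA'

theorem residue_fin_X (v : Pl) (hv : (X : R) ∈ v.asIdeal) (x : Kfin v) (hx : Valued.v x ≤ 1) :
    Valued.v x < 1 ∨ Valued.v (x - 1) < 1 := by
  obtain ⟨y, hy⟩ := exists_close_fin v x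
  have hy1 : v.valuation K y ≤ 1 := by
    rw [← valF]
    have : algebraMap K (Kfin v) y = x - (x - algebraMap K (Kfin v) y) := by ring
    rw [this]
    exact (Valuation.map_sub _ _ _).trans (max_le hx hy.le)
  obtain ⟨a, ha⟩ := v.exists_valuation_sub_lt_of_integer hy1 1
  rw [Units.val_one] at ha
  have h1 : Valued.v (x - algebraMap K (Kfin v) (algebraMap R K a)) < 1 := by
    have : x - algebraMap K (Kfin v) (algebraMap R K a) =
        (x - algebraMap K (Kfin v) y) - algebraMap K (Kfin v) (algebraMap R K a - y) := by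
      rw [map_sub]; ring
    rw [this]
    refine (Valuation.map_sub _ _ _).trans_lt (max_lt hy ?_)
    rw [valF]
    exact ha
  have h2 : Valued.v (algebraMap K (Kfin v) (algebraMap R K (a - C (a.coeff 0)))) < 1 := by
    rw [valF, v.valuation_lt_one_iff_mem]
    have h3 : a - C (a.coeff 0) = X * a.divX := by
      have := Polynomial.X_mul_divX_add a
      linear_combination (-1 : R) * this
    rw [h3]
    exact Ideal.mul_mem_right _ _ hv
  have h4 : Valued.v (x - algebraMap K (Kfin v) (algebraMap R K (C (a.coeff 0)))) < 1 := by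
    have : x - algebraMap K (Kfin v) (algebraMap R K (C (a.coeff 0))) =
        (x - algebraMap K (Kfin v) (algebraMap R K a)) +
        algebraMap K (Kfin v) (algebraMap R K (a - C (a.coeff 0))) := by
      rw [map_sub, map_sub]; ring
    rw [this]
    exact (Valuation.map_add _ _ _).trans_lt (max_lt h1 h2)
  have h5 : ∀ c : ZMod 2, c = 0 ∨ c = 1 := by decide
  rcases h5 (a.coeff 0) with h | h
  · left
    rw [h] at h4
    simpa using h4
  · right
    rw [h] at h4
    simpa using h4

/-! ### The Borel subgroup and `GL₂(Ô)` -/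

/-- The upper triangular matrix `(a, b; 0, d)`. -/
def upT (a b d : K) (ha : a ≠ 0) (hd : d ≠ 0) : GL (Fin 2) K :=
  Matrix.GeneralLinearGroup.mkOfDetNeZero !![a, b; 0, d] (by
    rw [Matrix.det_fin_two_of]
    simpa using ⟨ha, hd⟩)

theorem upT_coe (a b d : K) (ha : a ≠ 0) (hd : d ≠ 0) :
    (upT a b d ha hd : Matrix (Fin 2) (Fin 2) K) = !![a, b; 0, d] := rfl

theorem toFin_upT (v : Pl) (a b d : K) (ha : a ≠ 0) (hd : d ≠ 0) :
    (toFin v (upT a b d ha hd) : Matrix (Fin 2) (Fin 2) (Kfin v)) =
      !![algebraMap K (Kfin v) a, algebraMap K (Kfin v) b; 0, algebraMap K (Kfin v) d] := by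
  refine Matrix.ext fun i j => ?_
  change algebraMap K (Kfin v) ((upT a b d ha hd : Matrix (Fin 2) (Fin 2) K) i j) = _
  rw [upT_coe]
  fin_cases i <;> fin_cases j <;> simp

theorem exists_local (v : Pl) (A : GL (Fin 2) (Kfin v)) :
    ∃ D : GL (Fin 2) K, (D : Matrix (Fin 2) (Fin 2) K) 1 0 = 0 ∧
      (∀ w : Pl, w ≠ v → toFin w D ∈ GLO (Kfin w)) ∧ toFin v D * A ∈ GLO (Kfin v) := by
  obtain ⟨p, hp, hv⟩ := exists_gen v
  have hpK : algebraMap R K p ≠ 0 := by
    simpa using hp
  set a := (A : Matrix (Fin 2) (Fin 2) (Kfin v)) 0 0 with ha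
  set b := (A : Matrix (Fin 2) (Fin 2) (Kfin v)) 0 1 with hb
  set c := (A : Matrix (Fin 2) (Fin 2) (Kfin v)) 1 0 with hc
  set d := (A : Matrix (Fin 2) (Fin 2) (Kfin v)) 1 1 with hdd
  have hAm : (A : Matrix (Fin 2) (Fin 2) (Kfin v)) = !![a, b; c, d] := by
    ext i j
    fin_cases i <;> fin_cases j <;> rfl
  have hdet0 : (A : Matrix (Fin 2) (Fin 2) (Kfin v)).det ≠ 0 :=
    ((Matrix.isUnit_iff_isUnit_det _).1 A.isUnit).ne_zero
  have hdet : (A : Matrix (Fin 2) (Fin 2) (Kfin v)).det = a * d - b * c := by
    rw [Matrix.det_fin_two]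
  rw [hdet] at hdet0
  have hf : ∃ f : ℤ, Valued.v (a * d - b * c) = WithZero.exp f := by
    refine ⟨WithZero.log (Valued.v (a * d - b * c)), ?_⟩
    rw [WithZero.exp_log]
    simpa using hdet0
  obtain ⟨f, hf⟩ := hf
  have hmax0 : max (Valued.v c) (Valued.v d) ≠ 0 := by
    intro h0
    apply hdet0
    have h1 : Valued.v c = 0 := le_antisymm ((le_max_left _ _).trans h0.le) zero_le
    have h2 : Valued.v d = 0 := le_antisymm ((le_max_right _ _).trans h0.le) zero_le
    rw [(Valuation.zero_iff _).1 h1, (Valuation.zero_iff _).1 h2]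
    ring
  obtain ⟨e, he⟩ : ∃ e : ℤ, max (Valued.v c) (Valued.v d) = WithZero.exp e :=
    ⟨WithZero.log (max (Valued.v c) (Valued.v d)), (WithZero.exp_log hmax0).symm⟩
  -- valuations of the powers of `p`
  have hpv : ∀ n : ℤ, Valued.v (algebraMap K (Kfin v) (algebraMap R K p ^ n)) = WithZero.exp (-n) := by
    intro n
    rw [valF, map_zpow₀, val_gen_self hp hv, ← WithZero.exp_zsmul]
    congr 1
    simp
  set P : Kfin v := algebraMap K (Kfin v) (algebraMap R K p ^ (f - e)) with hP
  set Q : Kfin v := algebraMap K (Kfin v) (algebraMap R K p ^ e) with hQ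
  have hPv : Valued.v P = WithZero.exp (-(f - e)) := hpv _
  have hQv : Valued.v Q = WithZero.exp (-e) := hpv _
  set c1 := Q * c with hc1
  set d1 := Q * d with hd1
  have hc1v : Valued.v c1 ≤ 1 := by
    rw [hc1, map_mul, hQv]
    calc WithZero.exp (-e) * Valued.v c ≤ WithZero.exp (-e) * WithZero.exp e := by
          gcongr
          rw [← he]
          exact le_max_left _ _
      _ = 1 := by rw [← WithZero.exp_add]; simp
  have hd1v : Valued.v d1 ≤ 1 := by
    rw [hd1, map_mul, hQv]
    calc WithZero.exp (-e) * Valued.v d ≤ WithZero.exp (-e) * WithZero.exp e := by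
          gcongr
          rw [← he]
          exact le_max_right _ _
      _ = 1 := by rw [← WithZero.exp_add]; simp
  have hor : Valued.v c1 = 1 ∨ Valued.v d1 = 1 := by
    rcases max_choice (Valued.v c) (Valued.v d) with h | h
    · left
      rw [hc1, map_mul, hQv, ← h, he, ← WithZero.exp_add]
      simp
    · right
      rw [hd1, map_mul, hQv, ← h, he, ← WithZero.exp_add]
      simp
  have hdet1 : Valued.v (P * Q * (a * d - b * c)) = 1 := by
    rw [map_mul, map_mul, hPv, hQv, hf, ← WithZero.exp_add, ← WithZero.exp_add,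
      ← WithZero.exp_zero]
    congr 1
    ring
  -- the choice of `β`
  obtain ⟨β, hβ1, hβ2⟩ : ∃ β : K, (∀ w : Pl, w ≠ v → w.valuation K β ≤ 1) ∧
      Valued.v (P * a + algebraMap K (Kfin v) β * c1) ≤ 1 ∧
      Valued.v (P * b + algebraMap K (Kfin v) β * d1) ≤ 1 := by
    have happ : ∀ x : Kfin v, ∃ β : K, (∀ w : Pl, w ≠ v → w.valuation K β ≤ 1) ∧
        Valued.v (x - algebraMap K (Kfin v) β) ≤ 1 := by
      intro x
      obtain ⟨y, hy⟩ := exists_close_fin v x
      obtain ⟨z, hz1, hz2⟩ := exists_split hp hv y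
      refine ⟨z, hz2, ?_⟩
      have : x - algebraMap K (Kfin v) z = (x - algebraMap K (Kfin v) y) +
          algebraMap K (Kfin v) (y - z) := by
        rw [map_sub]; ring
      rw [this]
      refine (Valuation.map_add _ _ _).trans (max_le hy.le ?_)
      rw [valF]
      exact hz1
    rcases hor with h | h
    · have hc0 : c1 ≠ 0 := by
        intro h0
        rw [h0, map_zero] at h
        exact zero_ne_one h
      obtain ⟨β, hβ1, hβ2⟩ := happ (-(P * a) / c1)
      have h3 : Valued.v (P * a + algebraMap K (Kfin v) β * c1) ≤ 1 := by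
        have : P * a + algebraMap K (Kfin v) β * c1 =
            -((-(P * a) / c1 - algebraMap K (Kfin v) β) * c1) := by
          field_simp
          ring
        rw [this, Valuation.map_neg, map_mul, h, mul_one]
        exact hβ2
      refine ⟨β, hβ1, h3, ?_⟩
      have h4 : P * b + algebraMap K (Kfin v) β * d1 =
          ((P * a + algebraMap K (Kfin v) β * c1) * d1 - P * Q * (a * d - b * c)) / c1 := by
        rw [eq_div_iff hc0, hc1, hd1]
        ring
      rw [h4, map_div₀, h, div_one]
      refine (Valuation.map_sub _ _ _).trans (max_le ?_ hdet1.le)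
      rw [map_mul]
      exact mul_le_one' h3 hd1v
    · have hd0 : d1 ≠ 0 := by
        intro h0
        rw [h0, map_zero] at h
        exact zero_ne_one h
      obtain ⟨β, hβ1, hβ2⟩ := happ (-(P * b) / d1)
      have h3 : Valued.v (P * b + algebraMap K (Kfin v) β * d1) ≤ 1 := by
        have : P * b + algebraMap K (Kfin v) β * d1 =
            -((-(P * b) / d1 - algebraMap K (Kfin v) β) * d1) := by
          field_simp
          ring
        rw [this, Valuation.map_neg, map_mul, h, mul_one]
        exact hβ2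
      refine ⟨β, hβ1, ?_, h3⟩
      have h4 : P * a + algebraMap K (Kfin v) β * c1 =
          ((P * b + algebraMap K (Kfin v) β * d1) * c1 + P * Q * (a * d - b * c)) / d1 := by
        rw [eq_div_iff hd0, hc1, hd1]
        ring
      rw [h4, map_div₀, h, div_one]
      refine (Valuation.map_add _ _ _).trans (max_le ?_ hdet1.le)
      rw [map_mul]
      exact mul_le_one' h3 hc1v
  refine ⟨upT (algebraMap R K p ^ (f - e)) (β * algebraMap R K p ^ e) (algebraMap R K p ^ e)
    (zpow_ne_zero _ hpK) (zpow_ne_zero _ hpK), ?_, ?_, ?_⟩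
  · rw [upT_coe]
    simp
  · intro w hw
    have hpw : ∀ n : ℤ, Valued.v (algebraMap K (Kfin w) (algebraMap R K p ^ n)) = 1 := by
      intro n
      rw [valF, map_zpow₀, val_gen_ne hv hw, one_zpow]
    apply mem_GLO_of_det
    · intro i j
      rw [toFin_upT]
      fin_cases i <;> fin_cases j
      · exact (hpw _).le
      · change Valued.v (algebraMap K (Kfin w) (β * algebraMap R K p ^ e)) ≤ 1
        rw [map_mul, map_mul, hpw, mul_one, valF]
        exact hβ1 w hw
      · change Valued.v (0 : Kfin w) ≤ 1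
        rw [map_zero]
        exact zero_le
      · exact (hpw _).le
    · rw [toFin_upT, Matrix.det_fin_two_of, mul_zero, sub_zero, map_mul, hpw, hpw, mul_one]
  · have hprod : ((toFin v (upT (algebraMap R K p ^ (f - e)) (β * algebraMap R K p ^ e)
        (algebraMap R K p ^ e) (zpow_ne_zero _ hpK) (zpow_ne_zero _ hpK)) * A :
        GL (Fin 2) (Kfin v)) : Matrix (Fin 2) (Fin 2) (Kfin v)) =
        !![P * a + algebraMap K (Kfin v) β * c1, P * b + algebraMap K (Kfin v) β * d1; c1, d1] := by
      rw [Units.val_mul, toFin_upT, hAm, Matrix.mul_fin_two, map_mul, ← hP, ← hQ, hc1, hd1]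
      refine Matrix.ext fun i j => ?_
      fin_cases i <;> fin_cases j
      · change P * a + algebraMap K (Kfin v) β * Q * c = P * a + algebraMap K (Kfin v) β * (Q * c)
        ring
      · change P * b + algebraMap K (Kfin v) β * Q * d = P * b + algebraMap K (Kfin v) β * (Q * d)
        ring
      · change 0 * a + Q * c = Q * c
        ring
      · change 0 * b + Q * d = Q * d
        ring
    apply mem_GLO_of_det
    · intro i j
      rw [hprod]
      fin_cases i <;> fin_cases j
      · exact hβ2.1
      · exact hβ2.2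
      · exact hc1v
      · exact hd1v
    · rw [hprod, Matrix.det_fin_two_of]
      have : (P * a + algebraMap K (Kfin v) β * c1) * d1 - (P * b + algebraMap K (Kfin v) β * d1) * c1
          = P * Q * (a * d - b * c) := by
        rw [hc1, hd1]
        ring
      rw [this, hdet1]

theorem exists_borel_aux (S : Finset Pl) : ∀ a : (v : Pl) → GL (Fin 2) (Kfin v),
    (∀ v ∉ S, a v ∈ GLO (Kfin v)) →
    ∃ d : GL (Fin 2) K, (d : Matrix (Fin 2) (Fin 2) K) 1 0 = 0 ∧
      ∀ v : Pl, toFin v d * a v ∈ GLO (Kfin v) := by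
  induction S using Finset.induction_on with
  | empty =>
    intro a ha
    refine ⟨1, by simp, fun v => ?_⟩
    rw [map_one, one_mul]
    exact ha v (Finset.notMem_empty v)
  | insert v S hvS ih =>
    intro a ha
    obtain ⟨D, hD1, hD2, hD3⟩ := exists_local v (a v)
    obtain ⟨d, hd1, hd2⟩ := ih (fun w => toFin w D * a w) (by
      intro w hw
      rcases eq_or_ne w v with rfl | hwv
      · exact hD3
      · apply mul_mem (hD2 w hwv)
        apply ha
        rw [Finset.mem_insert, not_or]
        exact ⟨hwv, hw⟩)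
    refine ⟨d * D, ?_, fun w => ?_⟩
    · rw [Units.val_mul, Matrix.mul_apply, Fin.sum_univ_two, hd1, hD1]
      ring
    · rw [map_mul, mul_assoc]
      exact hd2 w

theorem exists_borel (a : GAf) : ∃ d : GL (Fin 2) K, (d : Matrix (Fin 2) (Fin 2) K) 1 0 = 0 ∧
    ∀ v : Pl, toFin v d * a v ∈ GLO (Kfin v) := by
  have h := a.2
  rw [Filter.eventually_cofinite] at h
  apply exists_borel_aux h.toFinset (fun v => a v)
  intro v hv
  by_contra h1
  apply hv
  rw [Set.Finite.mem_toFinset]
  exact h1

end

end Pool.Agent.R423.AL
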