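import Pool.Agent.R423.AL.Base

/-!
# Automorphic representations of `GL(2)` over `F₂(t)` and their isobaric liftings

The definitions of `Pool.Agent.R423.AL.Stmt` for the global field `K = F₂(t)`, its ring
`R = F₂[t]` and its place at infinity, as they are used in the proofs.
-/

namespace Pool.Agent.R423.AL

open scoped Polynomial WithZero RestrictedProduct

noncomputable section

/-! ### Local components, unramified representations, Langlands sums -/

/-- `σ` occurs in the restriction of `π` to `H` along `ι`: there is a nonzero `H`-equivariant linear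
map `σ → π`.  When `π` is an irreducible representation of a restricted product and `H` is one
factor, this says that `σ` is (isomorphic to) the local component of `π` at this factor. -/
def Occurs {G H : Type} [Group G] [TopologicalSpace G] [Group H] [TopologicalSpace H]
    (ι : H →* G) (π : Irr G) (σ : Irr H) : Prop :=
  ∃ T : σ.V →ₗ[ℂ] π.V, T ≠ 0 ∧ ∀ (h : H) (x : σ.V), T (σ.ρ h x) = π.ρ (ι h) (T x)

section Local

variable {L : Type} [Field L] [Valued L ℤᵐ⁰]

/-- A representation of `GL₂(L)` is unramified if it has a nonzero `GL₂(O)`-fixed vector. -/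
def IsUnramified (σ : Irr (GL (Fin 2) L)) : Prop :=
  ∃ x : σ.V, x ≠ 0 ∧ ∀ k ∈ GLO L, σ.ρ k x = x

/-- `σ` is a subrepresentation of `I(χ₁, χ₂)`, on which the group acts by right translations. -/
def EmbedsInd (q : ℕ) (χ₁ χ₂ : Lˣ →* ℂˣ) (σ : Irr (GL (Fin 2) L)) : Prop :=
  ∃ T : σ.V →ₗ[ℂ] (GL (Fin 2) L → ℂ), T ≠ 0 ∧ (∀ x, IsInduced q χ₁ χ₂ (T x)) ∧
    ∀ (h : GL (Fin 2) L) (x : σ.V) (g : GL (Fin 2) L), T (σ.ρ h x) g = T x (g * h)

/-- `σ` is the Langlands sum `χ₁ ⊞ χ₂`: if `|χ₁| = |·|^{s₁}` and `|χ₂| = |·|^{s₂}` are ordered with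
`s₁ ≥ s₂`, it is the Langlands quotient of `I(χ₁, χ₂)`, that is, the irreducible
subrepresentation of `I(χ₂, χ₁)`. -/
def IsLanglandsSum (q : ℕ) (χ₁ χ₂ : Lˣ →* ℂˣ) (σ : Irr (GL (Fin 2) L)) : Prop :=
  ((∀ x : Lˣ, Valued.v (x : L) ≤ 1 → ‖(χ₁ x : ℂ)‖ ≤ ‖(χ₂ x : ℂ)‖) ∧ EmbedsInd q χ₂ χ₁ σ) ∨
  ((∀ x : Lˣ, Valued.v (x : L) ≤ 1 → ‖(χ₂ x : ℂ)‖ ≤ ‖(χ₁ x : ℂ)‖) ∧ EmbedsInd q χ₁ χ₂ σ)

end Local

/-! ### The global field `K = F₂(t)` and its adeles -/

/-- The places of `K` different from infinity. -/
abbrev Pl := IsDedekindDomain.HeightOneSpectrum R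

instance instDecPl : DecidableEq Pl := Classical.decEq _

/-- The completion of `K` at a place different from infinity. -/
abbrev Kfin (v : Pl) := v.adicCompletion K

/-- The group of finite adelic points of `GL(2)`, a restricted product. -/
abbrev GAf := Πʳ v : Pl, [GL (Fin 2) (Kfin v), GLO (Kfin v)]

/-- The group `GL₂(𝔸)`. -/
abbrev GA := GL (Fin 2) Kinf × GAf

/-- The adele ring of `K`. -/
abbrev Adele := Kinf × IsDedekindDomain.FiniteAdeleRing R K

/-- The inclusion of `GL₂(K_∞)` in `GL₂(𝔸)`. -/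
def atInf : GL (Fin 2) Kinf →* GA := MonoidHom.inl _ _

/-- The inclusion of `GL₂(K_v)` in `GL₂(𝔸_f)`. -/
def atFinf (v : Pl) : GL (Fin 2) (Kfin v) →* GAf where
  toFun g := ⟨Function.update (fun w : Pl => (1 : GL (Fin 2) (Kfin w))) v g, by
    filter_upwards [show {v}ᶜ ∈ Filter.cofinite by simp] with w hw
    rw [Function.update_of_ne hw]
    exact one_mem (GLO (Kfin w))⟩
  map_one' := by
    apply RestrictedProduct.ext
    intro w
    change Function.update (fun w : Pl => (1 : GL (Fin 2) (Kfin w))) v 1 w = 1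
    rw [Function.update_eq_self_iff.2 rfl]
  map_mul' x y := by
    apply RestrictedProduct.ext
    intro w
    change Function.update (fun w : Pl => (1 : GL (Fin 2) (Kfin w))) v (x * y) w =
      Function.update (fun w : Pl => (1 : GL (Fin 2) (Kfin w))) v x w *
      Function.update (fun w : Pl => (1 : GL (Fin 2) (Kfin w))) v y w
    rcases eq_or_ne w v with rfl | hw
    · rw [Function.update_self, Function.update_self, Function.update_self]
    · rw [Function.update_of_ne hw, Function.update_of_ne hw, Function.update_of_ne hw, one_mul]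

/-- The inclusion of `GL₂(K_v)` in `GL₂(𝔸)`. -/
def atFin (v : Pl) : GL (Fin 2) (Kfin v) →* GA := (MonoidHom.inr _ _).comp (atFinf v)

/-- An element of `K` is integral at almost all places. -/
theorem eventually_integral (x : K) :
    ∀ᶠ v : Pl in Filter.cofinite, Valued.v (algebraMap K (Kfin v) x) ≤ 1 := by
  have h := IsDedekindDomain.HeightOneSpectrum.Support.finite R x
  have h2 : ∀ v : Pl, Valued.v (algebraMap K (Kfin v) x) = v.valuation K x := fun v =>
    IsDedekindDomain.HeightOneSpectrum.valuedAdicCompletion_eq_valuation' v x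
  rw [Filter.eventually_cofinite]
  refine h.subset fun v hv => ?_
  rw [Set.mem_ofPred_eq, h2 v, not_le] at hv
  exact hv

/-- The component at `v` of an element of `GL₂(K)`. -/
def toFin (v : Pl) : GL (Fin 2) K →* GL (Fin 2) (Kfin v) :=
  Matrix.GeneralLinearGroup.map (algebraMap K (Kfin v))

/-- The component at infinity of an element of `GL₂(K)`. -/
def toInf : GL (Fin 2) K →* GL (Fin 2) Kinf :=
  Matrix.GeneralLinearGroup.map (algebraMap K Kinf)

theorem eventually_toFin (γ : GL (Fin 2) K) :
    ∀ᶠ v : Pl in Filter.cofinite, toFin v γ ∈ GLO (Kfin v) := by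
  have h : ∀ δ : GL (Fin 2) K, ∀ᶠ v : Pl in Filter.cofinite,
      ∀ i j, Valued.v ((toFin v δ : Matrix (Fin 2) (Fin 2) (Kfin v)) i j) ≤ 1 := by
    intro δ
    rw [Filter.eventually_all]
    intro i
    rw [Filter.eventually_all]
    intro j
    exact eventually_integral _
  filter_upwards [h γ, h γ⁻¹] with v h1 h2
  refine ⟨h1, ?_⟩
  rw [← map_inv]
  exact h2

/-- The diagonal inclusion of `GL₂(K)` in `GL₂(𝔸_f)`. -/
def diagF : GL (Fin 2) K →* GAf where
  toFun γ := ⟨fun v => toFin v γ, eventually_toFin γ⟩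
  map_one' := by
    apply RestrictedProduct.ext
    intro v
    exact map_one (toFin v)
  map_mul' x y := by
    apply RestrictedProduct.ext
    intro v
    exact map_mul (toFin v) x y

/-- The diagonal inclusion of `GL₂(K)` in `GL₂(𝔸)`. -/
def diag : GL (Fin 2) K →* GA := toInf.prod diagF

/-- The element `n(x) = (1, x; 0, 1)` of `GL₂(𝔸)`, for an adele `x`. -/
def nA (x : Adele) : GA :=
  (uni x.1, ⟨fun v => uni (x.2 v), by
    filter_upwards [x.2.2] with v hv
    have h1 : Valued.v (x.2 v) ≤ 1 := hv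
    refine ⟨fun i j => ?_, fun i j => ?_⟩
    · fin_cases i <;> fin_cases j <;> simp [uni, h1]
    · change Valued.v ((!![1, -(x.2 v); 0, 1] : Matrix (Fin 2) (Fin 2) (Kfin v)) i j) ≤ 1
      fin_cases i <;> fin_cases j <;> simp [h1]⟩)

/-! ### Automorphic forms -/

/-- The span of the right translates of `f` by `GL₂(K_∞)`. -/
def spanInf (f : GA → ℂ) : Submodule ℂ (GA → ℂ) :=
  Submodule.span ℂ (Set.range fun (h : GL (Fin 2) Kinf) (g : GA) => f (g * atInf h))

/-- The functions which are right invariant under a subgroup of `GL₂(K_∞)`. -/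
def fixedInf (U : Subgroup (GL (Fin 2) Kinf)) : Submodule ℂ (GA → ℂ) where
  carrier := {f | ∀ u ∈ U, ∀ g, f (g * atInf u) = f g}
  add_mem' := by
    intro a b ha hb u hu g
    rw [Pi.add_apply, Pi.add_apply, ha u hu g, hb u hu g]
  zero_mem' := fun _ _ _ => rfl
  smul_mem' := by
    intro c a ha u hu g
    rw [Pi.smul_apply, Pi.smul_apply, ha u hu g]

/-- Automorphic forms on `GL₂(𝔸)` for the function field `K` (Borel-Jacquet, 5.8): functions which
are left invariant under `GL₂(K)`, right invariant under an open subgroup, and such that the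
representation of `GL₂(K_∞)` they generate is admissible. -/
structure IsAutForm (f : GA → ℂ) : Prop where
  left_inv : ∀ (γ : GL (Fin 2) K) (g : GA), f (diag γ * g) = f g
  smooth : ∃ U : Subgroup GA, IsOpen (U : Set GA) ∧ ∀ g, ∀ u ∈ U, f (g * u) = f g
  adm : ∀ U : Subgroup (GL (Fin 2) Kinf), IsOpen (U : Set (GL (Fin 2) Kinf)) →
    FiniteDimensional ℂ (spanInf f ⊓ fixedInf U : Submodule ℂ (GA → ℂ))

/-- Cusp forms: automorphic forms whose constant term `∫_{𝔸/K} f(n(x) g) dx` vanishes for all `g`.
The function `x ↦ f(n(x) g)` on `𝔸` is invariant under translation by `K` and by an open subgroup,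
so the integral is a finite sum: it is taken over the finite quotient of `𝔸` by any open subgroup
`Λ` of finite index containing `K` under which this function is invariant. -/
def IsCuspForm (f : GA → ℂ) : Prop :=
  IsAutForm f ∧ ∀ (g : GA) (Λ : AddSubgroup Adele), IsOpen (Λ : Set Adele) → Λ.FiniteIndex →
    (∀ x : K, ((algebraMap K Kinf x, algebraMap K _ x) : Adele) ∈ Λ) →
    (∀ x : Adele, ∀ y ∈ Λ, f (nA (x + y) * g) = f (nA x * g)) →
    ∑ᶠ c : Adele ⧸ Λ, f (nA (Quotient.out c) * g) = 0

/-- `π` is an irreducible subquotient of the space of functions with property `P`, on which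
`GL₂(𝔸)` acts by right translations: `π` is a quotient of a stable space `W` of such functions. -/
def IsSubquotient (P : (GA → ℂ) → Prop) (π : Irr GA) : Prop :=
  ∃ W : Submodule ℂ (GA → ℂ),
    (∀ f ∈ W, P f) ∧ ∃ hW : ∀ f ∈ W, ∀ h : GA, (fun g => f (g * h)) ∈ W,
    ∃ q : W →ₗ[ℂ] π.V, Function.Surjective q ∧
      ∀ (f : W) (h : GA), q ⟨fun g => f.1 (g * h), hW f.1 f.2 h⟩ = π.ρ h (q f)

/-- Automorphic representations: irreducible subquotients of the space of automorphic forms. -/
def IsAutomorphic (π : Irr GA) : Prop := IsSubquotient IsAutForm π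

/-- Cuspidal automorphic representations: irreducible subquotients of the space of cusp forms. -/
def IsCuspidal (π : Irr GA) : Prop := IsSubquotient IsCuspForm π

/-! ### Isobaric representations and global liftings -/

/-- A quasi-character of `𝔸ˣ / Kˣ`, given by its local components. -/
structure HeckeChar where
  /-- the component at infinity -/
  inf : Kinfˣ →* ℂˣ
  /-- the other components -/
  fin : ∀ v : Pl, (Kfin v)ˣ →* ℂˣ
  inf_smooth : IsOpen {x : Kinfˣ | inf x = 1}
  fin_smooth : ∀ v : Pl, IsOpen {x : (Kfin v)ˣ | fin v x = 1}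
  unram : ∀ᶠ v : Pl in Filter.cofinite, ∀ x : (Kfin v)ˣ, Valued.v (x : Kfin v) = 1 → fin v x = 1
  trivial_on_K : ∀ x : Kˣ, inf (Units.map (algebraMap K Kinf).toMonoidHom x) *
    ∏ᶠ v : Pl, fin v (Units.map (algebraMap K (Kfin v)).toMonoidHom x) = 1

/-- The residue field of `K_v` has `residueCard v` elements (for `v` different from infinity; the
residue field of `K_∞` has two elements). -/
def residueCard (v : Pl) : ℕ := Nat.card (R ⧸ v.asIdeal)

/-- `Θ = μ₁ ⊞ μ₂`: every local component of `Θ` is the Langlands sum of the local components of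
`μ₁` and `μ₂`. -/
def IsSumOfChars (μ₁ μ₂ : HeckeChar) (Θ : Irr GA) : Prop :=
  (∃ σ : Irr (GL (Fin 2) Kinf), Occurs atInf Θ σ ∧ IsLanglandsSum 2 μ₁.inf μ₂.inf σ) ∧
  ∀ v : Pl, ∃ σ : Irr (GL (Fin 2) (Kfin v)), Occurs (atFin v) Θ σ ∧
    IsLanglandsSum (residueCard v) (μ₁.fin v) (μ₂.fin v) σ

/-- Isobaric automorphic representations of `GL₂(𝔸)`: the cuspidal ones, and the sums
`μ₁ ⊞ μ₂` of two Hecke quasi-characters. -/
def IsIsobaric (Θ : Irr GA) : Prop :=
  IsAutomorphic Θ ∧ (IsCuspidal Θ ∨ ∃ μ₁ μ₂ : HeckeChar, IsSumOfChars μ₁ μ₂ Θ)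

/-- `Θ` is a global lifting of `π` with respect to the standard representation `ρ` of the dual group
`GL(2, ℂ)` of `GL(2)`: it is isobaric, and at every place where the local component of `π` is
unramified, the local component of `Θ` is the same (the unramified lifting with respect to `ρ` is
the identity map). -/
def IsGlobalLifting (π Θ : Irr GA) : Prop :=
  IsIsobaric Θ ∧
  (∀ σ : Irr (GL (Fin 2) Kinf), IsUnramified σ → Occurs atInf π σ → Occurs atInf Θ σ) ∧
  ∀ (v : Pl) (σ : Irr (GL (Fin 2) (Kfin v))), IsUnramified σ → Occurs (atFin v) π σ →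
    Occurs (atFin v) Θ σ

/-- The instance of the question with `F = K_∞ = F₂((1/t))`, `G = GL(2)`, `ρ` the standard
representation, and the global field `K = F₂(t)` with its place at infinity: there is a map `l` from
irreducible smooth representations of `GL₂(K_∞)` to irreducible smooth representations of
`GL₂(K_∞)` such that for every automorphic representation `π` of `GL₂(𝔸)` with local component `σ`
at infinity and with global lifting `Θ`, the local component of `Θ` at infinity is `l(σ)`. -/
def LocalLiftingExists : Prop :=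
  ∃ l : Irr (GL (Fin 2) Kinf) → Irr (GL (Fin 2) Kinf),
    ∀ π Θ : Irr GA, IsAutomorphic π → IsGlobalLifting π Θ →
      ∀ σ : Irr (GL (Fin 2) Kinf), Occurs atInf π σ → Occurs atInf Θ (l σ)

end

end Pool.Agent.R423.AL
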