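import Pool.Agent.R423.AL.Sh

/-!
# The sign character of `Γ⁰(t)` and the harmonic function supported on one orbit
-/

namespace Pool.Agent.R423.AL

open scoped WithZero Polynomial

noncomputable section

/-! ### entries -/

section Ent

variable {L : Type} [Field L]

theorem mulE (g h : GL (Fin 2) L) (i j : Fin 2) :
    (g * h).1 i j = g.1 i 0 * h.1 0 j + g.1 i 1 * h.1 1 j := by
  rw [Units.val_mul, Matrix.mul_apply, Fin.sum_univ_two]

theorem glExt {g h : GL (Fin 2) L} (h00 : g.1 0 0 = h.1 0 0) (h01 : g.1 0 1 = h.1 0 1)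
    (h10 : g.1 1 0 = h.1 1 0) (h11 : g.1 1 1 = h.1 1 1) : g = h := by
  apply Units.ext
  refine Matrix.ext fun i j => ?_
  fin_cases i <;> fin_cases j
  · exact h00
  · exact h01
  · exact h10
  · exact h11

/-- a matrix of determinant one -/
def mk1 (p q r s : L) (h : p * s - q * r = 1) : GL (Fin 2) L where
  val := !![p, q; r, s]
  inv := !![s, -q; -r, p]
  val_inv := by
    rw [Matrix.mul_fin_two, Matrix.one_fin_two]
    congr 1
    · refine funext fun i => ?_
      refine Fin.cases ?_ (fun i => ?_) i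
      · refine funext fun j => ?_
        refine Fin.cases ?_ (fun j => ?_) j
        · change p * s + q * (-r) = 1
          linear_combination h
        · have : j = 0 := Subsingleton.elim _ _
          subst this
          change p * (-q) + q * p = 0
          ring
      · have : i = 0 := Subsingleton.elim _ _
        subst this
        refine funext fun j => ?_
        refine Fin.cases ?_ (fun j => ?_) j
        · change r * s + s * (-r) = 0
          ring
        · have : j = 0 := Subsingleton.elim _ _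
          subst this
          change r * (-q) + s * p = 1
          linear_combination h
  inv_val := by
    rw [Matrix.mul_fin_two, Matrix.one_fin_two]
    congr 1
    · refine funext fun i => ?_
      refine Fin.cases ?_ (fun i => ?_) i
      · refine funext fun j => ?_
        refine Fin.cases ?_ (fun j => ?_) j
        · change s * p + (-q) * r = 1
          linear_combination h
        · have : j = 0 := Subsingleton.elim _ _
          subst this
          change s * q + (-q) * s = 0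
          ring
      · have : i = 0 := Subsingleton.elim _ _
        subst this
        refine funext fun j => ?_
        refine Fin.cases ?_ (fun j => ?_) j
        · change (-r) * p + p * r = 0
          ring
        · have : j = 0 := Subsingleton.elim _ _
          subst this
          change (-r) * q + p * s = 1
          linear_combination h

end Ent

section Ent2

variable {L : Type} [Field L] [Valued L ℤᵐ⁰]

omit [Valued L ℤᵐ⁰] in
theorem detE (g : GL (Fin 2) L) :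
    (g : Matrix (Fin 2) (Fin 2) L).det = g.1 0 0 * g.1 1 1 - g.1 0 1 * g.1 1 0 := by
  rw [Matrix.det_fin_two]

theorem GLO_det {g : GL (Fin 2) L} (hg : g ∈ GLO L) :
    Valued.v (g : Matrix (Fin 2) (Fin 2) L).det = 1 := by
  have key : ∀ h : GL (Fin 2) L, h ∈ GLO L →
      Valued.v (h : Matrix (Fin 2) (Fin 2) L).det ≤ 1 := by
    intro h hh
    rw [detE]
    refine (Valuation.map_sub _ _ _).trans (max_le ?_ ?_)
    · rw [map_mul]; exact mul_le_one' (hh.1 0 0) (hh.1 1 1)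
    · rw [map_mul]; exact mul_le_one' (hh.1 0 1) (hh.1 1 0)
  have h1 := key g hg
  have h2 := key g⁻¹ (inv_mem hg)
  have h3 : Valued.v (g : Matrix (Fin 2) (Fin 2) L).det *
      Valued.v ((g⁻¹ : GL (Fin 2) L) : Matrix (Fin 2) (Fin 2) L).det = 1 := by
    rw [← map_mul, ← Matrix.det_mul, ← Units.val_mul, mul_inv_cancel, Units.val_one,
      Matrix.det_one, map_one]
  refine le_antisymm h1 ?_
  calc (1 : ℤᵐ⁰) = _ := h3.symm
    _ ≤ Valued.v (g : Matrix (Fin 2) (Fin 2) L).det * 1 := by gcongr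
    _ = _ := mul_one _

/-- criterion for integrality -/
theorem mem_GLO_of_B {g : GL (Fin 2) L} (h00 : B 0 (g.1 0 0)) (h01 : B 0 (g.1 0 1))
    (h10 : B 0 (g.1 1 0)) (h11 : B 0 (g.1 1 1))
    (hd : Valued.v (g.1 0 0 * g.1 1 1 - g.1 0 1 * g.1 1 0) = 1) : g ∈ GLO L := by
  apply mem_GLO_of_det
  · intro i j
    fin_cases i <;> fin_cases j
    · exact B_zero_iff.1 h00
    · exact B_zero_iff.1 h01
    · exact B_zero_iff.1 h10
    · exact B_zero_iff.1 h11
  · rw [detE]; exact hd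

theorem GLO_B {g : GL (Fin 2) L} (hg : g ∈ GLO L) (i j : Fin 2) : B 0 (g.1 i j) :=
  B_zero_iff.2 (hg.1 i j)

/-- two factors of a unit, with the other product small, are units -/
theorem unit_of {a b c d : L} (ha : B 0 a) (hd : B 0 d) (hbc : B 1 (b * c))
    (h : Valued.v (a * d - b * c) = 1) : Valued.v a = 1 ∧ Valued.v d = 1 := by
  have h1 : Valued.v (a * d) = 1 := by
    have e : a * d = (a * d - b * c) + b * c := by ring
    rw [e, Valuation.map_add_eq_of_lt_left, h]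
    rw [h]
    exact B_one_iff.1 hbc
  rw [map_mul] at h1
  rw [B_zero_iff] at ha hd
  constructor
  · refine le_antisymm ha ?_
    calc (1 : ℤᵐ⁰) = _ := h1.symm
      _ ≤ Valued.v a * 1 := by gcongr
      _ = _ := mul_one _
  · refine le_antisymm hd ?_
    calc (1 : ℤᵐ⁰) = _ := h1.symm
      _ ≤ 1 * Valued.v d := by gcongr
      _ = _ := one_mul _

/-- with residue field of two elements, units are congruent to one -/
theorem sub_one_of_unit [LF L] {a : L} (ha : Valued.v a = 1) : B 1 (a - 1) := by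
  rcases LF.residue a ha.le with h | h
  · rw [ha] at h
    exact absurd h (lt_irrefl _)
  · exact B_one_iff.2 h

theorem B1_of_mul {a b : L} (ha : B 0 a) (hb : B 1 b) : B 1 (a * b) := by
  simpa using B_mul ha hb

theorem B1_of_mul' {a b : L} (ha : B 1 a) (hb : B 0 b) : B 1 (a * b) := by
  simpa using B_mul ha hb

theorem B0_of_mul {a b : L} (ha : B 0 a) (hb : B 0 b) : B 0 (a * b) := by
  simpa using B_mul ha hb

theorem cusp_trick_aux [LF L] (g : GL (Fin 2) L) :
    ∃ (y : L) (m : GL (Fin 2) L), m ∈ GLO L ∧ B 1 (m.1 0 1) ∧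
      ((m.1 0 1 = LF.pi ∧ B 1 (m.1 1 0)) ∨ (B (1 + 1) (m.1 0 1) ∧ m.1 1 0 = -1)) ∧
      uni y * g = g * m := by
  obtain ⟨a, ha⟩ : ∃ a, a = g.1 0 0 := ⟨_, rfl⟩
  obtain ⟨b, hb⟩ : ∃ b, b = g.1 0 1 := ⟨_, rfl⟩
  obtain ⟨c, hc⟩ : ∃ c, c = g.1 1 0 := ⟨_, rfl⟩
  obtain ⟨d, hd⟩ : ∃ d, d = g.1 1 1 := ⟨_, rfl⟩
  obtain ⟨p, hp⟩ : ∃ p : L, p = LF.pi := ⟨_, rfl⟩
  have hpB : B 1 p := by unfold B; rw [hp, LF.v_pi]
  have hdet0 : a * d - b * c ≠ 0 := by
    have h1 : (g : Matrix (Fin 2) (Fin 2) L).det ≠ 0 :=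
      ((Matrix.isUnit_iff_isUnit_det _).1 g.isUnit).ne_zero
    rw [detE] at h1
    rw [ha, hb, hc, hd]
    exact h1
  rcases le_or_gt (Valued.v c) (Valued.v d) with hcd | hcd
  · have hd0 : d ≠ 0 := by
      intro h0
      rw [h0, map_zero, le_zero_iff, Valuation.zero_iff] at hcd
      apply hdet0
      rw [h0, hcd]; ring
    have hr : B 0 (c / d) := by
      rw [B_zero_iff, map_div₀]
      exact div_le_one_of_le₀ hcd zero_le
    obtain ⟨r, hr'⟩ : ∃ r, r = c / d := ⟨_, rfl⟩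
    rw [← hr'] at hr
    have hcr : c = r * d := by rw [hr']; field_simp
    have hone : (1 + p * r) * (1 - p * r) - p * (-(p * (r * r))) = 1 := by ring
    refine ⟨p * (a * d - b * c) / (d * d),
      mk1 (1 + p * r) p (-(p * (r * r))) (1 - p * r) hone, ?_, ?_, ?_, ?_⟩
    · refine mem_GLO_of_B ?_ ?_ ?_ ?_ ?_
      · exact B_add B_one (B_mono (by norm_num) (B1_of_mul' hpB hr))
      · exact B_mono (by norm_num) hpB
      · exact B_neg (B_mono (by norm_num) (B1_of_mul' hpB (B0_of_mul hr hr)))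
      · exact B_sub B_one (B_mono (by norm_num) (B1_of_mul' hpB hr))
      · change Valued.v ((1 + p * r) * (1 - p * r) - p * (-(p * (r * r)))) = 1
        rw [hone, map_one]
    · exact hpB
    · exact Or.inl ⟨hp, B_neg (B1_of_mul' hpB (B0_of_mul hr hr))⟩
    · have hy : p * (a * d - b * c) / (d * d) = p * (a - b * r) / d := by
        rw [hcr]; field_simp
      rw [hy]
      apply glExt
      · rw [mulE, mulE, ← ha, ← hb, ← hc]
        change 1 * a + (p * (a - b * r) / d) * c = a * (1 + p * r) + b * (-(p * (r * r)))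
        rw [hcr]; field_simp; ring
      · rw [mulE, mulE, ← ha, ← hb, ← hd]
        change 1 * b + (p * (a - b * r) / d) * d = a * p + b * (1 - p * r)
        field_simp; ring
      · rw [mulE, mulE, ← ha, ← hc, ← hd]
        change 0 * a + 1 * c = c * (1 + p * r) + d * (-(p * (r * r)))
        rw [hcr]; ring
      · rw [mulE, mulE, ← hb, ← hc, ← hd]
        change 0 * b + 1 * d = c * p + d * (1 - p * r)
        rw [hcr]; ring
  · have hc0 : c ≠ 0 := by
      intro h0
      rw [h0, map_zero] at hcd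
      exact absurd hcd not_lt_zero
    have hvc : Valued.v c ≠ 0 := (Valuation.ne_zero_iff _).2 hc0
    have hr : B 1 (d / c) := by
      rw [B_one_iff, map_div₀]
      exact (div_lt_one₀ (zero_lt_iff.2 hvc)).2 hcd
    obtain ⟨r, hr'⟩ : ∃ r, r = d / c := ⟨_, rfl⟩
    rw [← hr'] at hr
    have hdr : d = r * c := by rw [hr']; field_simp
    have hr0 : B 0 r := B_mono (by norm_num) hr
    have hone : (1 + r) * (1 - r) - (r * r) * (-1) = 1 := by ring
    refine ⟨(a * d - b * c) / (c * c), mk1 (1 + r) (r * r) (-1) (1 - r) hone, ?_, ?_, ?_, ?_⟩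
    · refine mem_GLO_of_B ?_ ?_ ?_ ?_ ?_
      · exact B_add B_one hr0
      · exact B0_of_mul hr0 hr0
      · exact B_neg B_one
      · exact B_sub B_one hr0
      · change Valued.v ((1 + r) * (1 - r) - (r * r) * (-1)) = 1
        rw [hone, map_one]
    · exact B1_of_mul' hr hr0
    · exact Or.inr ⟨B_mul hr hr, rfl⟩
    · have hy : (a * d - b * c) / (c * c) = (a * r - b) / c := by
        rw [hdr]; field_simp
      rw [hy]
      apply glExt
      · rw [mulE, mulE, ← ha, ← hb, ← hc]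
        change 1 * a + ((a * r - b) / c) * c = a * (1 + r) + b * (-1)
        field_simp; ring
      · rw [mulE, mulE, ← ha, ← hb, ← hd]
        change 1 * b + ((a * r - b) / c) * d = a * (r * r) + b * (1 - r)
        rw [hdr]; field_simp; ring
      · rw [mulE, mulE, ← ha, ← hc, ← hd]
        change 0 * a + 1 * c = c * (1 + r) + d * (-1)
        rw [hdr]; ring
      · rw [mulE, mulE, ← hb, ← hc, ← hd]
        change 0 * b + 1 * d = c * (r * r) + d * (1 - r)
        rw [hdr]; ring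

end Ent2

/-! ### the place `t = 0` -/

instance instLFX : LF (Kfin vX) where
  pi := tX
  v_pi := v_tX
  residue := fun x hx => residue_fin_X vX (by
    have h : Valued.v (algebraMap K (Kfin vX) (algebraMap R K Polynomial.X)) < 1 := by
      change Valued.v tX < 1
      rw [v_tX, ← WithZero.exp_zero, WithZero.exp_lt_exp]
      norm_num
    rw [valF, vX.valuation_lt_one_iff_mem] at h
    exact h) x hx
  two := by
    intro x
    have h : (1 : Kfin vX) + 1 = 0 := by
      have := congrArg (algebraMap K (Kfin vX)) (two_K 1)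
      simpa only [map_add, map_one, map_zero] using this
    calc x + x = (1 + 1) * x := by ring
      _ = 0 := by rw [h, zero_mul]

theorem sg_of_B1 {x : Kfin vX} (hx : B 1 x) : sg x = 1 := by
  unfold sg
  rw [if_pos (B_one_iff.1 hx)]

theorem sg_of_not {x : Kfin vX} (hx : ¬ B 1 x) : sg x = -1 := by
  unfold sg
  rw [if_neg (fun h => hx (B_one_iff.2 h))]

theorem sg_congr {x y : Kfin vX} (h : B 1 (x - y)) : sg x = sg y := by
  by_cases hy : B 1 y
  · have hx : B 1 x := by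
      have e : x = (x - y) + y := by ring
      rw [e]; exact B_add h hy
    rw [sg_of_B1 hx, sg_of_B1 hy]
  · have hx : ¬ B 1 x := by
      intro hx
      apply hy
      have e : y = x - (x - y) := by ring
      rw [e]; exact B_sub hx h
    rw [sg_of_not hx, sg_of_not hy]

theorem not_B1_of {x : Kfin vX} (h : B 1 (x - 1)) : ¬ B 1 x := by
  intro hx
  have h1 : B 1 (1 : Kfin vX) := by
    have e : (1 : Kfin vX) = x - (x - 1) := by ring
    rw [e]; exact B_sub hx h
  have h2 := B_one_iff.1 h1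
  rw [map_one] at h2
  exact lt_irrefl _ h2

theorem sg_add {x y : Kfin vX} (hx : B 0 x) (hy : B 0 y) : sg (x + y) = sg x * sg y := by
  by_cases h1 : B 1 x
  · rw [sg_of_B1 h1, one_mul]
    apply sg_congr
    have e : x + y - y = x := by ring
    rw [e]; exact h1
  · have hx1 : B 1 (x - 1) := by
      rcases LF.residue x (B_zero_iff.1 hx) with h | h
      · exact absurd (B_one_iff.2 h) h1
      · exact B_one_iff.2 h
    by_cases h2 : B 1 y
    · rw [sg_of_B1 h2, mul_one]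
      apply sg_congr
      have e : x + y - x = y := by ring
      rw [e]; exact h2
    · have hy1 : B 1 (y - 1) := by
        rcases LF.residue y (B_zero_iff.1 hy) with h | h
        · exact absurd (B_one_iff.2 h) h2
        · exact B_one_iff.2 h
      have h3 : B 1 (x + y) := by
        have e : x + y = (x - 1) + (y - 1) + (1 + 1) := by ring
        rw [e, LF.two]
        exact B_add (B_add hx1 hy1) (B_zero _)
      rw [sg_of_B1 h3, sg_of_not h1, sg_of_not h2]
      ring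

theorem sg_sq (x : Kfin vX) : sg x * sg x = 1 := by
  by_cases h : B 1 x
  · rw [sg_of_B1 h, one_mul]
  · rw [sg_of_not h]; ring

theorem sg_zero : sg 0 = 1 := sg_of_B1 (B_zero 1)

theorem sg_one : sg 1 = -1 := sg_of_not (not_B1_of (by rw [sub_self]; exact B_zero 1))

theorem B_div_tX {n : ℤ} {x : Kfin vX} (hx : B (n + 1) x) : B n (x / tX) := by
  have h : B (-1) (tX⁻¹ : Kfin vX) := by
    unfold B
    rw [map_inv₀, v_tX, ← WithZero.exp_neg]
  have := B_mul hx h
  rw [div_eq_mul_inv]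
  exact B_mono (by omega) this

theorem tX_ne_zero : (tX : Kfin vX) ≠ 0 := ord_ne_zero (n := 1) v_tX

theorem UX_GLO {u : GL (Fin 2) (Kfin vX)} (hu : u ∈ UX) : u ∈ GLO (Kfin vX) := hu.1

theorem UX_01 {u : GL (Fin 2) (Kfin vX)} (hu : u ∈ UX) : B 1 (u.1 0 1) := hu.2

theorem UX_units {u : GL (Fin 2) (Kfin vX)} (hu : u ∈ UX) :
    B 1 (u.1 0 0 - 1) ∧ B 1 (u.1 1 1 - 1) := by
  have hd := GLO_det hu.1
  rw [detE] at hd
  obtain ⟨h1, h2⟩ := unit_of (GLO_B hu.1 0 0) (GLO_B hu.1 1 1)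
    (B1_of_mul' hu.2 (GLO_B hu.1 1 0)) hd
  exact ⟨sub_one_of_unit h1, sub_one_of_unit h2⟩

theorem psi0_mul {u w : GL (Fin 2) (Kfin vX)} (hu : u ∈ UX) (hw : w ∈ UX) :
    psi0 (u * w) = psi0 u * psi0 w := by
  unfold psi0
  have hu1 : B 0 (u.1 0 1 / tX) := B_div_tX (by simpa using hu.2)
  have hw1 : B 0 (w.1 0 1 / tX) := B_div_tX (by simpa using hw.2)
  have e1 : sg ((u * w).1 0 1 / tX) = sg (u.1 0 1 / tX) * sg (w.1 0 1 / tX) := by
    rw [← sg_add hu1 hw1]
    apply sg_congr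
    have e : (u * w).1 0 1 / tX - (u.1 0 1 / tX + w.1 0 1 / tX) =
        (u.1 0 0 - 1) * (w.1 0 1 / tX) + (u.1 0 1 / tX) * (w.1 1 1 - 1) := by
      rw [mulE]
      ring
    rw [e]
    exact B_add (B1_of_mul' (UX_units hu).1 hw1) (B1_of_mul hu1 (UX_units hw).2)
  have e2 : sg ((u * w).1 1 0) = sg (u.1 1 0) * sg (w.1 1 0) := by
    rw [← sg_add (GLO_B hu.1 1 0) (GLO_B hw.1 1 0)]
    apply sg_congr
    have e : (u * w).1 1 0 - (u.1 1 0 + w.1 1 0) =
        u.1 1 0 * (w.1 0 0 - 1) + (u.1 1 1 - 1) * w.1 1 0 := by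
      rw [mulE]
      ring
    rw [e]
    exact B_add (B1_of_mul (GLO_B hu.1 1 0) (UX_units hw).1)
      (B1_of_mul' (UX_units hu).2 (GLO_B hw.1 1 0))
  rw [e1, e2]
  ring

theorem psi0_sq (u : GL (Fin 2) (Kfin vX)) : psi0 u * psi0 u = 1 := by
  unfold psi0
  have h1 := sg_sq (u.1 0 1 / tX)
  have h2 := sg_sq (u.1 1 0)
  calc _ = (sg (u.1 0 1 / tX) * sg (u.1 0 1 / tX)) * (sg (u.1 1 0) * sg (u.1 1 0)) := by ring
    _ = 1 := by rw [h1, h2, one_mul]

theorem psi0_open : ∃ U : Subgroup (GL (Fin 2) (Kfin vX)),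
    IsOpen (U : Set (GL (Fin 2) (Kfin vX))) ∧ U ≤ UX ∧ ∀ u ∈ U, psi0 u = 1 := by
  refine ⟨KK (Kfin vX) 2, isOpen_KK 2, ?_, ?_⟩
  · intro u hu
    refine ⟨KK_le_GLO 2 hu, ?_⟩
    have h := hu.2 0 1
    rw [Matrix.sub_apply, Matrix.one_apply_ne (by decide), sub_zero] at h
    exact B_mono (by norm_num) h
  · intro u hu
    have h := hu.2 0 1
    rw [Matrix.sub_apply, Matrix.one_apply_ne (by decide), sub_zero] at h
    have h' := hu.2 1 0
    rw [Matrix.sub_apply, Matrix.one_apply_ne (by decide), sub_zero] at h'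
    unfold psi0
    rw [sg_of_B1 (B_div_tX (by simpa using h)), sg_of_B1 (B_mono (by norm_num) h'), one_mul]

theorem psi0_one : psi0 1 = 1 := by
  unfold psi0
  rw [Units.val_one, Matrix.one_apply_ne (by decide), Matrix.one_apply_ne (by decide), zero_div,
    sg_zero, one_mul]

theorem cusp_trick (g : GL (Fin 2) (Kfin vX)) :
    ∃ (y : Kfin vX) (m : GL (Fin 2) (Kfin vX)), m ∈ UX ∧ psi0 m = -1 ∧ uni y * g = g * m := by
  obtain ⟨y, m, hm, hm1, hm2, hm3⟩ := cusp_trick_aux g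
  refine ⟨y, m, ⟨hm, hm1⟩, ?_, hm3⟩
  unfold psi0
  rcases hm2 with ⟨h1, h2⟩ | ⟨h1, h2⟩
  · have h3 : m.1 0 1 / tX = 1 := by
      rw [h1]
      exact div_self tX_ne_zero
    rw [h3, sg_one, sg_of_B1 h2, mul_one]
  · rw [sg_of_B1 (B_div_tX h1), sg_of_not, one_mul]
    intro h
    rw [h2] at h
    have h1 := B_neg h
    rw [neg_neg] at h1
    have h2 := B_one_iff.1 h1
    rw [map_one] at h2
    exact lt_irrefl _ h2

/-! ### the Iwahori subgroup and its normaliser -/

section Iwa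

variable {L : Type} [Field L] [Valued L ℤᵐ⁰] [LF L]

omit [LF L] in
theorem isIw_one : IsIw (1 : GL (Fin 2) L) :=
  ⟨one_mem _, by rw [Units.val_one, Matrix.one_apply_ne (by decide)]; exact B_zero _⟩

omit [LF L] in
theorem isIw_mul {i j : GL (Fin 2) L} (hi : IsIw i) (hj : IsIw j) : IsIw (i * j) := by
  refine ⟨mul_mem hi.1 hj.1, ?_⟩
  rw [mulE]
  exact B_add (B1_of_mul' hi.2 (GLO_B hj.1 0 0)) (B1_of_mul (GLO_B hi.1 1 1) hj.2)

omit [LF L] in
theorem isIw_inv {i : GL (Fin 2) L} (hi : IsIw i) : IsIw i⁻¹ := by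
  refine ⟨inv_mem hi.1, ?_⟩
  have h1 : (i⁻¹ * i).1 1 0 = 0 := by
    rw [inv_mul_cancel, Units.val_one, Matrix.one_apply_ne (by decide)]
  have h2 : (i⁻¹ * i).1 1 1 = 1 := by
    rw [inv_mul_cancel, Units.val_one, Matrix.one_apply_eq]
  rw [mulE] at h1 h2
  -- r * a + s * c = 0, r * b + s * d = 1 where (r, s) is the bottom row of the inverse
  have h3 : (i * i⁻¹).1 0 0 = 1 := by
    rw [mul_inv_cancel, Units.val_one, Matrix.one_apply_eq]
  rw [mulE] at h3
  have e : (i⁻¹).1 1 0 = i.1 1 0 *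
      ((i⁻¹).1 1 0 * (i⁻¹).1 0 1 - (i⁻¹).1 0 0 * (i⁻¹).1 1 1) := by
    have h4 : (i * i⁻¹).1 1 0 = 0 := by
      rw [mul_inv_cancel, Units.val_one, Matrix.one_apply_ne (by decide)]
    have h5 : (i * i⁻¹).1 1 1 = 1 := by
      rw [mul_inv_cancel, Units.val_one, Matrix.one_apply_eq]
    rw [mulE] at h4 h5
    linear_combination (-(i⁻¹).1 1 0) * h5 + (i⁻¹).1 1 1 * h4
  rw [e]
  have hI := GLO_B (inv_mem hi.1)
  exact B1_of_mul' hi.2 (B_sub (B0_of_mul (hI 1 0) (hI 0 1)) (B0_of_mul (hI 0 0) (hI 1 1)))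

omit [Valued L ℤᵐ⁰] [LF L] in
theorem dg_comm (z : L) (hz : z ≠ 0) (g : GL (Fin 2) L) :
    dgM z z hz hz * g = g * dgM z z hz hz := by
  apply glExt
  · rw [mulE, mulE]
    change z * g.1 0 0 + 0 * g.1 1 0 = g.1 0 0 * z + g.1 0 1 * 0
    ring
  · rw [mulE, mulE]
    change z * g.1 0 1 + 0 * g.1 1 1 = g.1 0 0 * 0 + g.1 0 1 * z
    ring
  · rw [mulE, mulE]
    change 0 * g.1 0 0 + z * g.1 1 0 = g.1 1 0 * z + g.1 1 1 * 0
    ring
  · rw [mulE, mulE]
    change 0 * g.1 0 1 + z * g.1 1 1 = g.1 1 0 * 0 + g.1 1 1 * z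
    ring

omit [Valued L ℤᵐ⁰] [LF L] in
theorem dg_mul (z w : L) (hz : z ≠ 0) (hw : w ≠ 0) :
    dgM z z hz hz * dgM w w hw hw = dgM (z * w) (z * w) (mul_ne_zero hz hw) (mul_ne_zero hz hw) := by
  apply glExt
  · rw [mulE]
    change z * w + 0 * 0 = z * w
    ring
  · rw [mulE]
    change z * 0 + 0 * w = 0
    ring
  · rw [mulE]
    change 0 * w + z * 0 = 0
    ring
  · rw [mulE]
    change 0 * 0 + z * w = z * w
    ring

omit [Valued L ℤᵐ⁰] [LF L] in
theorem dg_one (h : (1 : L) ≠ 0) : dgM (1 : L) 1 h h = 1 := by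
  apply glExt <;> rfl

omit [Valued L ℤᵐ⁰] [LF L] in
theorem dg_inv (z : L) (hz : z ≠ 0) :
    (dgM z z hz hz)⁻¹ = dgM z⁻¹ z⁻¹ (inv_ne_zero hz) (inv_ne_zero hz) := by
  rw [inv_eq_iff_mul_eq_one, dg_mul]
  apply glExt
  · change z * z⁻¹ = 1
    exact mul_inv_cancel₀ hz
  · rfl
  · rfl
  · change z * z⁻¹ = 1
    exact mul_inv_cancel₀ hz

theorem pi_ne : (LF.pi : L) ≠ 0 := ord_ne_zero LF.v_pi

theorem wM_sq : (wM : GL (Fin 2) L) * wM = dgM LF.pi LF.pi pi_ne pi_ne := by
  apply glExt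
  · rw [mulE]
    change 0 * 0 + 1 * (LF.pi : L) = LF.pi
    ring
  · rw [mulE]
    change 0 * 1 + 1 * (0 : L) = 0
    ring
  · rw [mulE]
    change (LF.pi : L) * 0 + 0 * LF.pi = 0
    ring
  · rw [mulE]
    change (LF.pi : L) * 1 + 0 * 0 = LF.pi
    ring

theorem wM_conj {i : GL (Fin 2) L} (hi : IsIw i) : IsIw (wM * i * wM⁻¹) := by
  have h00 : (wM * i * wM⁻¹).1 0 0 = i.1 1 1 := by
    rw [mulE, mulE, mulE]
    change (0 * i.1 0 0 + 1 * i.1 1 0) * 0 + (0 * i.1 0 1 + 1 * i.1 1 1) * 1 = i.1 1 1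
    ring
  have h01 : (wM * i * wM⁻¹).1 0 1 = i.1 1 0 * (LF.pi : L)⁻¹ := by
    rw [mulE, mulE, mulE]
    change (0 * i.1 0 0 + 1 * i.1 1 0) * (LF.pi : L)⁻¹ + (0 * i.1 0 1 + 1 * i.1 1 1) * 0 = _
    ring
  have h10 : (wM * i * wM⁻¹).1 1 0 = LF.pi * i.1 0 1 := by
    rw [mulE, mulE, mulE]
    change ((LF.pi : L) * i.1 0 0 + 0 * i.1 1 0) * 0 + (LF.pi * i.1 0 1 + 0 * i.1 1 1) * 1 = _
    ring
  have h11 : (wM * i * wM⁻¹).1 1 1 = i.1 0 0 := by
    rw [mulE, mulE, mulE]
    change ((LF.pi : L) * i.1 0 0 + 0 * i.1 1 0) * (LF.pi : L)⁻¹ +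
      (LF.pi * i.1 0 1 + 0 * i.1 1 1) * 0 = _
    have := pi_ne (L := L)
    field_simp
    ring
  have hpi : B 1 (LF.pi : L) := by unfold B; rw [LF.v_pi]
  have hpi' : B (-1) ((LF.pi : L)⁻¹) := by
    unfold B; rw [map_inv₀, LF.v_pi, ← WithZero.exp_neg]
  refine ⟨mem_GLO_of_B ?_ ?_ ?_ ?_ ?_, ?_⟩
  · rw [h00]; exact GLO_B hi.1 1 1
  · rw [h01]; simpa using B_mul hi.2 hpi'
  · rw [h10]; exact B_mono (by norm_num) (B1_of_mul' hpi (GLO_B hi.1 0 1))
  · rw [h11]; exact GLO_B hi.1 0 0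
  · rw [h00, h01, h10, h11]
    have h := GLO_det hi.1
    rw [detE] at h
    rw [← h]
    congr 1
    have := pi_ne (L := L)
    field_simp
  · rw [h10]; exact B1_of_mul' hpi (GLO_B hi.1 0 1)

/-- the normaliser of the Iwahori subgroup; `e` counts the elements `wM` -/
def IN (n : GL (Fin 2) L) (e : ℕ) : Prop :=
  ∃ (z : L) (hz : z ≠ 0) (i : GL (Fin 2) L), IsIw i ∧ n = dgM z z hz hz * i * wM ^ e

theorem IN_iw {i : GL (Fin 2) L} (hi : IsIw i) : IN i 0 :=
  ⟨1, one_ne_zero, i, hi, by rw [dg_one, one_mul, pow_zero, mul_one]⟩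

theorem IN_one : IN (1 : GL (Fin 2) L) 0 := IN_iw isIw_one

theorem IN_dg (z : L) (hz : z ≠ 0) : IN (dgM z z hz hz) 0 :=
  ⟨z, hz, 1, isIw_one, by rw [mul_one, pow_zero, mul_one]⟩

theorem IN_wM : IN (wM : GL (Fin 2) L) 1 :=
  ⟨1, one_ne_zero, 1, isIw_one, by rw [dg_one, one_mul, one_mul, pow_one]⟩

theorem wM_pow_conj (e : ℕ) {i : GL (Fin 2) L} (hi : IsIw i) :
    ∃ i' : GL (Fin 2) L, IsIw i' ∧ wM ^ e * i = i' * wM ^ e := by
  induction e with
  | zero => exact ⟨i, hi, by rw [pow_zero, one_mul, mul_one]⟩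
  | succ e ih =>
    obtain ⟨i', hi', h⟩ := ih
    refine ⟨wM * i' * wM⁻¹, wM_conj hi', ?_⟩
    rw [pow_succ', mul_assoc, h]
    group

theorem IN_mul {n m : GL (Fin 2) L} {e f : ℕ} (hn : IN n e) (hm : IN m f) :
    IN (n * m) (e + f) := by
  obtain ⟨z, hz, i, hi, rfl⟩ := hn
  obtain ⟨w, hw, j, hj, rfl⟩ := hm
  obtain ⟨j', hj', h⟩ := wM_pow_conj e hj
  refine ⟨z * w, mul_ne_zero hz hw, i * j', isIw_mul hi hj', ?_⟩
  rw [← dg_mul z w hz hw, pow_add]
  calc dgM z z hz hz * i * wM ^ e * (dgM w w hw hw * j * wM ^ f)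
      = dgM z z hz hz * i * (wM ^ e * dgM w w hw hw) * j * wM ^ f := by
        simp only [mul_assoc]
    _ = dgM z z hz hz * i * (dgM w w hw hw * wM ^ e) * j * wM ^ f := by
        rw [dg_comm w hw (wM ^ e)]
    _ = dgM z z hz hz * (i * dgM w w hw hw) * (wM ^ e * j) * wM ^ f := by
        simp only [mul_assoc]
    _ = dgM z z hz hz * (dgM w w hw hw * i) * (j' * wM ^ e) * wM ^ f := by
        rw [h, dg_comm w hw i]
    _ = _ := by simp only [mul_assoc]

theorem IN_wM_inv : IN ((wM : GL (Fin 2) L)⁻¹) 1 := by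
  refine ⟨(LF.pi : L)⁻¹, inv_ne_zero pi_ne, 1, isIw_one, ?_⟩
  rw [mul_one, pow_one, inv_eq_iff_mul_eq_one, ← mul_assoc, ← dg_comm, mul_assoc, wM_sq, dg_mul]
  apply glExt
  · change (LF.pi : L)⁻¹ * LF.pi = 1
    exact inv_mul_cancel₀ pi_ne
  · rfl
  · rfl
  · change (LF.pi : L)⁻¹ * LF.pi = 1
    exact inv_mul_cancel₀ pi_ne

theorem IN_inv {n : GL (Fin 2) L} {e : ℕ} (hn : IN n e) : IN n⁻¹ e := by
  obtain ⟨z, hz, i, hi, rfl⟩ := hn
  have h1 : ∀ k : ℕ, IN ((wM : GL (Fin 2) L)⁻¹ ^ k) k := by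
    intro k
    induction k with
    | zero => rw [pow_zero]; exact IN_one
    | succ k ih => rw [pow_succ]; exact IN_mul ih IN_wM_inv
  rw [mul_inv_rev, mul_inv_rev, ← inv_pow, dg_inv]
  have h2 := IN_mul (h1 e) (IN_mul (IN_iw (isIw_inv hi)) (IN_dg z⁻¹ (inv_ne_zero hz)))
  simpa using h2

omit [LF L] in
theorem det_mulE (g h : GL (Fin 2) L) :
    Valued.v ((g * h : GL (Fin 2) L) : Matrix (Fin 2) (Fin 2) L).det =
    Valued.v (g : Matrix (Fin 2) (Fin 2) L).det * Valued.v (h : Matrix (Fin 2) (Fin 2) L).det := by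
  rw [Units.val_mul, Matrix.det_mul, map_mul]

omit [LF L] in
theorem det_dg (z : L) (hz : z ≠ 0) :
    Valued.v (dgM z z hz hz : Matrix (Fin 2) (Fin 2) L).det = Valued.v z * Valued.v z := by
  rw [detE, ← map_mul]
  change Valued.v (z * z - 0 * 0) = _
  congr 1
  ring

theorem det_wM : Valued.v ((wM : GL (Fin 2) L) : Matrix (Fin 2) (Fin 2) L).det =
    WithZero.exp (-1 : ℤ) := by
  rw [detE]
  change Valued.v ((0 : L) * 0 - 1 * LF.pi) = _
  rw [← LF.v_pi (L := L), ← Valuation.map_neg _ (LF.pi : L)]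
  congr 1
  ring

theorem wM_pow_even (f : ℕ) : ∃ (z : L) (hz : z ≠ 0),
    (wM : GL (Fin 2) L) ^ (2 * f) = dgM z z hz hz := by
  induction f with
  | zero => exact ⟨1, one_ne_zero, by rw [dg_one, mul_zero, pow_zero]⟩
  | succ f ih =>
    obtain ⟨z, hz, h⟩ := ih
    refine ⟨z * LF.pi, mul_ne_zero hz pi_ne, ?_⟩
    rw [mul_add, pow_add, h, mul_one, pow_two, wM_sq, dg_mul]

/-- an element of the normaliser with unit determinant is a unit scalar times an element of the
Iwahori subgroup, and `e` is even -/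
theorem IN_unit {n : GL (Fin 2) L} {e : ℕ} (hn : IN n e)
    (hd : Valued.v (n : Matrix (Fin 2) (Fin 2) L).det = 1) : Even e ∧ IsIw n := by
  obtain ⟨z, hz, i, hi, rfl⟩ := hn
  have hpow : ∀ k : ℕ, Valued.v (((wM : GL (Fin 2) L) ^ k : GL (Fin 2) L) :
      Matrix (Fin 2) (Fin 2) L).det = WithZero.exp (-(k : ℤ)) := by
    intro k
    induction k with
    | zero => rw [pow_zero, Units.val_one, Matrix.det_one, map_one]; simp
    | succ k ih =>
      rw [pow_succ, det_mulE, ih, det_wM, ← WithZero.exp_add]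
      congr 1
      push_cast
      ring
  obtain ⟨k, hk⟩ := exists_ord hz
  rw [det_mulE, det_mulE, det_dg, GLO_det hi.1, hpow, mul_one, hk, ← WithZero.exp_add,
    ← WithZero.exp_add, ← WithZero.exp_zero, WithZero.exp_inj] at hd
  have he : Even e := by
    rw [← Int.even_coe_nat]
    exact ⟨-k, by omega⟩
  refine ⟨he, ?_⟩
  obtain ⟨f, hf⟩ := he
  have hf2 : e = 2 * f := by omega
  obtain ⟨w, hw, h⟩ := wM_pow_even (L := L) f
  rw [hf2, h, mul_assoc, ← dg_comm w hw i, ← mul_assoc, dg_mul]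
  have hv : Valued.v (z * w) = 1 := by
    have h1 : Valued.v w * Valued.v w = WithZero.exp (-(e : ℤ)) := by
      rw [← det_dg w hw, ← h, ← hf2, hpow]
    obtain ⟨l, hl⟩ := exists_ord hw
    rw [hl, ← WithZero.exp_add, WithZero.exp_inj] at h1
    rw [map_mul, hk, hl, ← WithZero.exp_add, ← WithZero.exp_zero]
    congr 1
    omega
  refine isIw_mul ⟨mem_GLO_of_B ?_ ?_ ?_ ?_ ?_, ?_⟩ hi
  · exact B_zero_iff.2 hv.le
  · exact B_zero _
  · exact B_zero _
  · exact B_zero_iff.2 hv.le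
  · change Valued.v (z * w * (z * w) - 0 * 0) = 1
    rw [mul_zero, sub_zero, map_mul, hv, mul_one]
  · exact B_zero _

/-! ### the three cosets of the Iwahori subgroup in `GL₂(O)` -/

omit [LF L] in
theorem wK_mem : (wK : GL (Fin 2) L) ∈ GLO L := by
  refine mem_GLO_of_B ?_ ?_ ?_ ?_ ?_
  · exact B_zero _
  · exact B_one
  · exact B_one
  · exact B_zero _
  · change Valued.v ((0 : L) * 0 - 1 * 1) = 1
    rw [mul_zero, mul_one, zero_sub, Valuation.map_neg, map_one]

omit [Valued L ℤᵐ⁰] [LF L] in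
theorem wK_sq : (wK : GL (Fin 2) L) * wK = 1 := by
  apply glExt
  · rw [mulE]
    change (0 : L) * 0 + 1 * 1 = 1
    ring
  · rw [mulE]
    change (0 : L) * 1 + 1 * 0 = 0
    ring
  · rw [mulE]
    change (1 : L) * 0 + 0 * 1 = 0
    ring
  · rw [mulE]
    change (1 : L) * 1 + 0 * 0 = 1
    ring

theorem low_sq : (lowM 1 : GL (Fin 2) L) * lowM 1 = 1 := by
  rw [lowM_mul, LF.two, lowM_zero]

omit [LF L] in
theorem coset_l {k : GL (Fin 2) L} (hk : k ∈ GLO L) (h : B 1 (k.1 1 0 - k.1 0 0)) :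
    IsIw ((lowM 1)⁻¹ * k) := by
  refine ⟨mul_mem (inv_mem (lowM_mem_GLO B_one)) hk, ?_⟩
  rw [lowM_inv, mulE]
  change B 1 ((-1 : L) * k.1 0 0 + 1 * k.1 1 0)
  have e : (-1 : L) * k.1 0 0 + 1 * k.1 1 0 = k.1 1 0 - k.1 0 0 := by ring
  rw [e]
  exact h

omit [LF L] in
theorem coset_w {k : GL (Fin 2) L} (hk : k ∈ GLO L) (h : B 1 (k.1 0 0)) :
    IsIw (wK⁻¹ * k) := by
  refine ⟨mul_mem (inv_mem wK_mem) hk, ?_⟩
  have e : (wK : GL (Fin 2) L)⁻¹ = wK := by
    rw [inv_eq_iff_mul_eq_one, wK_sq]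
  rw [e, mulE]
  change B 1 ((1 : L) * k.1 0 0 + 0 * k.1 1 0)
  rw [one_mul, zero_mul, add_zero]
  exact h

/-- the sum over the three cosets -/
def S3 (F : GL (Fin 2) L → ℂ) (g : GL (Fin 2) L) : ℂ := F g + F (g * lowM 1) + F (g * wK)

section S3

variable {F : GL (Fin 2) L → ℂ} (hF : ∀ g i, IsIw i → F (g * i) = F g)

include hF

omit [LF L] in
theorem F_coset {g k h : GL (Fin 2) L} (hi : IsIw (h⁻¹ * k)) : F (g * k) = F (g * h) := by
  have e : g * k = g * h * (h⁻¹ * k) := by group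
  rw [e, hF _ _ hi]

theorem S3_low (g : GL (Fin 2) L) : S3 F (g * lowM 1) = S3 F g := by
  unfold S3
  have h1 : F (g * lowM 1 * lowM 1) = F g := by rw [mul_assoc, low_sq, mul_one]
  have h2 : F (g * lowM 1 * wK) = F (g * wK) := by
    rw [mul_assoc]
    apply F_coset hF
    apply coset_w (mul_mem (lowM_mem_GLO B_one) wK_mem)
    rw [mulE]
    change B 1 ((1 : L) * 0 + 0 * 1)
    simpa using B_zero (L := L) 1
  rw [h1, h2]
  ring

omit [LF L] in
theorem S3_wK (g : GL (Fin 2) L) : S3 F (g * wK) = S3 F g := by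
  unfold S3
  have h1 : F (g * wK * wK) = F g := by rw [mul_assoc, wK_sq, mul_one]
  have h2 : F (g * wK * lowM 1) = F (g * lowM 1) := by
    rw [mul_assoc]
    apply F_coset hF
    apply coset_l (mul_mem wK_mem (lowM_mem_GLO B_one))
    rw [mulE, mulE]
    change B 1 (((1 : L) * 1 + 0 * 1) - (0 * 1 + 1 * 1))
    have e : ((1 : L) * 1 + 0 * 1) - (0 * 1 + 1 * 1) = 0 := by ring
    rw [e]
    exact B_zero 1
  rw [h1, h2]
  ring

/-- the three cosets are permuted by the Iwahori subgroup -/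
theorem S3_iw (g i : GL (Fin 2) L) (hi : IsIw i) : S3 F (g * i) = S3 F g := by
  have hd := GLO_det hi.1
  rw [detE] at hd
  have hu := unit_of (GLO_B hi.1 0 0) (GLO_B hi.1 1 1) (B1_of_mul (GLO_B hi.1 0 1) hi.2) hd
  have ha := sub_one_of_unit hu.1
  have hdd := sub_one_of_unit hu.2
  have hl : i * lowM 1 ∈ GLO L := mul_mem hi.1 (lowM_mem_GLO B_one)
  have hw : i * wK ∈ GLO L := mul_mem hi.1 wK_mem
  have l00 : (i * lowM 1).1 0 0 = i.1 0 0 + i.1 0 1 := by
    rw [mulE]
    change i.1 0 0 * 1 + i.1 0 1 * 1 = _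
    ring
  have l10 : (i * lowM 1).1 1 0 = i.1 1 0 + i.1 1 1 := by
    rw [mulE]
    change i.1 1 0 * 1 + i.1 1 1 * 1 = _
    ring
  have w00 : (i * wK).1 0 0 = i.1 0 1 := by
    rw [mulE]
    change i.1 0 0 * 0 + i.1 0 1 * 1 = _
    ring
  have w10 : (i * wK).1 1 0 = i.1 1 1 := by
    rw [mulE]
    change i.1 1 0 * 0 + i.1 1 1 * 1 = _
    ring
  unfold S3
  rw [hF _ _ hi]
  rcases LF.residue (i.1 0 1) (hi.1.1 0 1) with hb | hb
  · rw [← B_one_iff] at hb
    have h1 : F (g * i * lowM 1) = F (g * lowM 1) := by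
      rw [mul_assoc]
      apply F_coset hF
      apply coset_l hl
      rw [l00, l10]
      have e : i.1 1 0 + i.1 1 1 - (i.1 0 0 + i.1 0 1) =
          i.1 1 0 + (i.1 1 1 - 1) - (i.1 0 0 - 1) - i.1 0 1 := by ring
      rw [e]
      exact B_sub (B_sub (B_add hi.2 hdd) ha) hb
    have h2 : F (g * i * wK) = F (g * wK) := by
      rw [mul_assoc]
      apply F_coset hF
      apply coset_w hw
      rw [w00]
      exact hb
    rw [h1, h2]
  · rw [← B_one_iff] at hb
    have h1 : F (g * i * lowM 1) = F (g * wK) := by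
      rw [mul_assoc]
      apply F_coset hF
      apply coset_w hl
      rw [l00]
      have e : i.1 0 0 + i.1 0 1 = (i.1 0 0 - 1) + (i.1 0 1 - 1) + (1 + 1) := by ring
      rw [e, LF.two]
      exact B_add (B_add ha hb) (B_zero _)
    have h2 : F (g * i * wK) = F (g * lowM 1) := by
      rw [mul_assoc]
      apply F_coset hF
      apply coset_l hw
      rw [w00, w10]
      have e : i.1 1 1 - i.1 0 1 = (i.1 1 1 - 1) - (i.1 0 1 - 1) := by ring
      rw [e]
      exact B_sub hdd hb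
    rw [h1, h2]
    ring

end S3

end Iwa

/-! ### the group `Γ⁰(t)` -/

/-- the sign character of `Γ⁰(t)` -/
def psiG (γ : GL (Fin 2) K) : ℂ := psi0 (toFin vX γ)

theorem psiG_mul {γ δ : GL (Fin 2) K} (hγ : γ ∈ Gam) (hδ : δ ∈ Gam) :
    psiG (γ * δ) = psiG γ * psiG δ := by
  unfold psiG
  rw [map_mul, psi0_mul hγ.2 hδ.2]

theorem psiG_one : psiG 1 = 1 := by
  unfold psiG
  rw [map_one, psi0_one]

theorem toInf_apply (γ : GL (Fin 2) K) (i j : Fin 2) :
    (toInf γ).1 i j = algebraMap K Kinf (γ.1 i j) := rfl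

theorem toFin_apply (v : Pl) (γ : GL (Fin 2) K) (i j : Fin 2) :
    (toFin v γ).1 i j = algebraMap K (Kfin v) (γ.1 i j) := rfl

/-- entries of elements of `Γ⁰(t)` -/
theorem Gam_entries {γ : GL (Fin 2) K} (hγ : γ ∈ Gam) :
    ∃ p : Fin 2 → Fin 2 → R, (∀ i j, γ.1 i j = algebraMap R K (p i j)) ∧
      p 0 0 * p 1 1 - p 0 1 * p 1 0 = 1 := by
  obtain ⟨M, hM⟩ := exists_poly_matrix γ hγ.1
  refine ⟨fun i j => M.1 i j, fun i j => ?_, ?_⟩
  · rw [← hM]; rfl
  · have h1 : IsUnit (M : Matrix (Fin 2) (Fin 2) R).det :=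
      (Matrix.isUnit_iff_isUnit_det _).1 M.isUnit
    rw [Matrix.det_fin_two] at h1
    rw [Polynomial.isUnit_iff] at h1
    obtain ⟨c, hc, h⟩ := h1
    have hc1 : c = 1 := by
      have hne : c ≠ 0 := hc.ne_zero
      revert hne
      clear hc h
      revert c
      decide
    rw [hc1, Polynomial.C_1] at h
    exact h.symm

theorem pinf_small {p : R} (h : Valued.v (pinf p) ≤ 1) : p = 0 ∨ p = 1 := by
  rcases eq_or_ne p 0 with h0 | h0
  · exact Or.inl h0
  · right
    rw [v_pinf h0, ← WithZero.exp_zero, WithZero.exp_le_exp] at h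
    have hd : p.natDegree = 0 := by omega
    rw [Polynomial.eq_C_of_natDegree_eq_zero hd] at h0 ⊢
    have : p.coeff 0 = 1 := by
      have hne : p.coeff 0 ≠ 0 := by
        intro h; apply h0; rw [h]; simp
      revert hne
      generalize p.coeff 0 = a
      revert a
      decide
    rw [this]; simp

/-- `Γ⁰(t)` meets the normaliser of the Iwahori subgroup trivially -/
theorem Gam_IN {γ : GL (Fin 2) K} (hγ : γ ∈ Gam) {e : ℕ} (h : IN (toInf γ) e) :
    γ = 1 ∧ Even e := by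
  obtain ⟨p, hp, hdet⟩ := Gam_entries hγ
  have hent : ∀ i j, (toInf γ).1 i j = pinf (p i j) := by
    intro i j
    rw [toInf_apply, hp, pinf_apply]
  have hd : Valued.v ((toInf γ : GL (Fin 2) Kinf) : Matrix (Fin 2) (Fin 2) Kinf).det = 1 := by
    rw [detE, hent, hent, hent, hent, ← map_mul, ← map_mul, ← map_sub, hdet, map_one, map_one]
  obtain ⟨he, hI⟩ := IN_unit h hd
  refine ⟨?_, he⟩
  have hs : ∀ i j, p i j = 0 ∨ p i j = 1 := by
    intro i j
    apply pinf_small
    rw [← hent]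
    exact hI.1.1 i j
  have h10 : p 1 0 = 0 := by
    rcases hs 1 0 with h | h
    · exact h
    · have h2 := hI.2
      rw [hent, h, map_one] at h2
      have h3 := B_one_iff.1 h2
      rw [map_one] at h3
      exact absurd h3 (lt_irrefl _)
  have h01 : p 0 1 = 0 := by
    rcases hs 0 1 with h | h
    · exact h
    · have h2 : B 1 ((toFin vX γ).1 0 1) := hγ.2.2
      rw [toFin_apply, hp, h, map_one, map_one] at h2
      have h3 := B_one_iff.1 h2
      rw [map_one] at h3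
      exact absurd h3 (lt_irrefl _)
  rw [h10, h01, mul_zero, sub_zero] at hdet
  have h00 : p 0 0 = 1 := by
    rcases hs 0 0 with h | h
    · rw [h, zero_mul] at hdet
      exact absurd hdet zero_ne_one
    · exact h
  have h11 : p 1 1 = 1 := by
    rw [h00, one_mul] at hdet
    exact hdet
  apply glExt
  · rw [hp, h00, map_one]; rfl
  · rw [hp, h01, map_zero]; rfl
  · rw [hp, h10, map_zero]; rfl
  · rw [hp, h11, map_one]; rfl

/-- `g` is in the support of `F`, with value `c` -/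
def FRep (g : GL (Fin 2) Kinf) (c : ℂ) : Prop :=
  ∃ (γ : GL (Fin 2) K) (n : GL (Fin 2) Kinf) (e : ℕ), γ ∈ Gam ∧ IN n e ∧
    g = toInf γ * n ∧ c = psiG γ * (-1) ^ e

theorem FRep_unique {g : GL (Fin 2) Kinf} {c c' : ℂ} (h : FRep g c) (h' : FRep g c') : c = c' := by
  obtain ⟨γ, n, e, hγ, hn, hg, hc⟩ := h
  obtain ⟨γ', n', e', hγ', hn', hg', hc'⟩ := h'
  have h1 : toInf (γ'⁻¹ * γ) = n' * n⁻¹ := by
    rw [map_mul, map_inv]
    have h2 : toInf γ * n = toInf γ' * n' := by rw [← hg, ← hg']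
    calc (toInf γ')⁻¹ * toInf γ = (toInf γ')⁻¹ * (toInf γ * n) * n⁻¹ := by group
      _ = (toInf γ')⁻¹ * (toInf γ' * n') * n⁻¹ := by rw [h2]
      _ = n' * n⁻¹ := by group
  have h3 : IN (toInf (γ'⁻¹ * γ)) (e' + e) := by
    rw [h1]
    exact IN_mul hn' (IN_inv hn)
  obtain ⟨h4, h5⟩ := Gam_IN (mul_mem (inv_mem hγ') hγ) h3
  have h6 : γ = γ' := by
    have := congrArg (γ' * ·) h4
    simpa using this
  rw [hc, hc', h6]
  congr 1
  rcases Nat.even_or_odd e with he | he
  · have he' : Even e' := by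
      rw [Nat.even_add] at h5
      exact h5.2 he
    rw [he.neg_one_pow, he'.neg_one_pow]
  · have he' : Odd e' := by
      rw [Nat.even_add] at h5
      rw [← Nat.not_even_iff_odd] at he ⊢
      exact fun h => he (h5.1 h)
    rw [he.neg_one_pow, he'.neg_one_pow]

open Classical in
/-- the harmonic function supported on `Γ⁰(t)` times the normaliser of the Iwahori subgroup -/
def FBfun (g : GL (Fin 2) Kinf) : ℂ := if h : ∃ c, FRep g c then h.choose else 0

theorem FB_of {g : GL (Fin 2) Kinf} {c : ℂ} (h : FRep g c) : FBfun g = c := by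
  have h1 : ∃ c, FRep g c := ⟨c, h⟩
  unfold FBfun
  rw [dif_pos h1]
  exact FRep_unique h1.choose_spec h

theorem FB_not {g : GL (Fin 2) Kinf} (h : ¬ ∃ c, FRep g c) : FBfun g = 0 := by
  unfold FBfun
  rw [dif_neg h]

theorem FRep_right {g n : GL (Fin 2) Kinf} {e : ℕ} {c : ℂ} (h : FRep g c) (hn : IN n e) :
    FRep (g * n) (c * (-1) ^ e) := by
  obtain ⟨γ, m, f, hγ, hm, hg, hc⟩ := h
  refine ⟨γ, m * n, f + e, hγ, IN_mul hm hn, ?_, ?_⟩
  · rw [hg, mul_assoc]
  · rw [hc, pow_add, mul_assoc]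

theorem FB_right (g : GL (Fin 2) Kinf) {n : GL (Fin 2) Kinf} {e : ℕ} (hn : IN n e) :
    FBfun (g * n) = FBfun g * (-1) ^ e := by
  by_cases h : ∃ c, FRep g c
  · obtain ⟨c, hc⟩ := h
    rw [FB_of hc, FB_of (FRep_right hc hn)]
  · rw [FB_not h, zero_mul, FB_not]
    rintro ⟨c, hc⟩
    apply h
    have := FRep_right hc (IN_inv hn)
    rw [mul_inv_cancel_right] at this
    exact ⟨_, this⟩

theorem FRep_left {g : GL (Fin 2) Kinf} {δ : GL (Fin 2) K} {c : ℂ} (h : FRep g c)
    (hδ : δ ∈ Gam) : FRep (toInf δ * g) (psiG δ * c) := by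
  obtain ⟨γ, m, f, hγ, hm, hg, hc⟩ := h
  refine ⟨δ * γ, m, f, mul_mem hδ hγ, hm, ?_, ?_⟩
  · rw [hg, map_mul, mul_assoc]
  · rw [hc, psiG_mul hδ hγ, mul_assoc]

theorem FB_left {δ : GL (Fin 2) K} (hδ : δ ∈ Gam) (g : GL (Fin 2) Kinf) :
    FBfun (toInf δ * g) = psiG δ * FBfun g := by
  by_cases h : ∃ c, FRep g c
  · obtain ⟨c, hc⟩ := h
    rw [FB_of hc, FB_of (FRep_left hc hδ)]
  · rw [FB_not h, mul_zero, FB_not]
    rintro ⟨c, hc⟩
    apply h
    have := FRep_left hc (inv_mem hδ)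
    rw [map_inv, inv_mul_cancel_left] at this
    exact ⟨_, this⟩

theorem FB_one : FBfun 1 = 1 := by
  apply FB_of
  refine ⟨1, 1, 0, one_mem _, IN_one, ?_, ?_⟩
  · rw [map_one, one_mul]
  · rw [psiG_one, pow_zero, one_mul]

theorem FB_iw (g i : GL (Fin 2) Kinf) (hi : IsIw i) : FBfun (g * i) = FBfun g := by
  rw [FB_right g (IN_iw hi), pow_zero, mul_one]

/-! ### two elements of `Γ⁰(t)` -/

/-- `(1, 0; 1, 1)` over `K` -/
def lK : GL (Fin 2) K := mk1 1 0 1 1 (by ring)

theorem toFin_lK (v : Pl) : toFin v lK = lowM 1 := by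
  apply glExt
  · rw [toFin_apply]
    change algebraMap K (Kfin v) 1 = 1
    exact map_one _
  · rw [toFin_apply]
    change algebraMap K (Kfin v) 0 = 0
    exact map_zero _
  · rw [toFin_apply]
    change algebraMap K (Kfin v) 1 = 1
    exact map_one _
  · rw [toFin_apply]
    change algebraMap K (Kfin v) 1 = 1
    exact map_one _

theorem toInf_lK : toInf lK = lowM 1 := by
  apply glExt
  · rw [toInf_apply]
    change algebraMap K Kinf 1 = 1
    exact map_one _
  · rw [toInf_apply]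
    change algebraMap K Kinf 0 = 0
    exact map_zero _
  · rw [toInf_apply]
    change algebraMap K Kinf 1 = 1
    exact map_one _
  · rw [toInf_apply]
    change algebraMap K Kinf 1 = 1
    exact map_one _

theorem lK_mem : lK ∈ Gam := by
  refine ⟨fun v => ?_, ?_, ?_⟩
  · rw [toFin_lK]; exact lowM_mem_GLO B_one
  · rw [toFin_lK]; exact lowM_mem_GLO B_one
  · rw [toFin_lK]; exact B_zero _

theorem psiG_lK : psiG lK = -1 := by
  unfold psiG psi0
  rw [toFin_lK]
  change sg (0 / tX) * sg 1 = -1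
  rw [zero_div, sg_zero, sg_one, one_mul]

/-- `(1, t; 0, 1)` over `K` -/
def uK : GL (Fin 2) K := mk1 1 (algebraMap R K Polynomial.X) 0 1 (by ring)

theorem toFin_uK (v : Pl) :
    toFin v uK = uni (algebraMap K (Kfin v) (algebraMap R K Polynomial.X)) := by
  apply glExt
  · rw [toFin_apply]
    change algebraMap K (Kfin v) 1 = 1
    exact map_one _
  · rfl
  · rw [toFin_apply]
    change algebraMap K (Kfin v) 0 = 0
    exact map_zero _
  · rw [toFin_apply]
    change algebraMap K (Kfin v) 1 = 1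
    exact map_one _

theorem toInf_uK : toInf uK = uni tinf := by
  apply glExt
  · rw [toInf_apply]
    change algebraMap K Kinf 1 = 1
    exact map_one _
  · rfl
  · rw [toInf_apply]
    change algebraMap K Kinf 0 = 0
    exact map_zero _
  · rw [toInf_apply]
    change algebraMap K Kinf 1 = 1
    exact map_one _

theorem uK_mem : uK ∈ Gam := by
  have h : ∀ v : Pl, toFin v uK ∈ GLO (Kfin v) := by
    intro v
    rw [toFin_uK]
    apply uni_mem_GLO
    rw [B_zero_iff, valF]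
    exact v.valuation_le_one _
  refine ⟨h, h vX, ?_⟩
  rw [toFin_uK]
  change B 1 tX
  unfold B
  rw [v_tX]

theorem psiG_uK : psiG uK = -1 := by
  unfold psiG psi0
  rw [toFin_uK]
  change sg (tX / tX) * sg 0 = -1
  rw [div_self tX_ne_zero, sg_one, sg_zero, mul_one]

/-! ### harmonicity -/

theorem uni_isIw (c : Kinf) (hc : B 0 c) : IsIw (uni c) := ⟨uni_mem_GLO hc, B_zero _⟩

theorem S3_one : S3 FBfun 1 = 0 := by
  unfold S3
  rw [one_mul, one_mul]
  have h1 : FBfun (lowM 1) = -1 := by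
    have := FB_left lK_mem 1
    rw [toInf_lK, mul_one, psiG_lK, FB_one, mul_one] at this
    exact this
  have h2 : FBfun wK = 0 := by
    have h3 : FBfun (lowM 1 * wK) = - FBfun wK := by
      have := FB_left lK_mem wK
      rw [toInf_lK, psiG_lK] at this
      rw [this]; ring
    have h4 : (lowM 1 : GL (Fin 2) Kinf) * wK = wK * uni 1 := by
      apply glExt
      · rw [mulE, mulE]
        change (1 : Kinf) * 0 + 0 * 1 = 0 * 1 + 1 * 0
        ring
      · rw [mulE, mulE]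
        change (1 : Kinf) * 1 + 0 * 0 = 0 * 1 + 1 * 1
        ring
      · rw [mulE, mulE]
        change (1 : Kinf) * 0 + 1 * 1 = 1 * 1 + 0 * 0
        ring
      · rw [mulE, mulE]
        change (1 : Kinf) * 1 + 1 * 0 = 1 * 1 + 0 * 1
        ring
    rw [h4, FB_iw _ _ (uni_isIw 1 B_one)] at h3
    linear_combination (1 / 2 : ℂ) * h3
  rw [FB_one, h1, h2]
  ring

theorem S3_wM : S3 FBfun wM = 0 := by
  unfold S3
  have h0 : FBfun wM = -1 := by
    have := FB_right 1 (IN_wM (L := Kinf))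
    rw [one_mul, FB_one, one_mul, pow_one] at this
    exact this
  have e1 : (wM : GL (Fin 2) Kinf) * lowM 1 = toInf uK * wM := by
    rw [toInf_uK]
    have hpi : (LF.pi : Kinf) = tinf⁻¹ := pi_eq
    have ht : (tinf : Kinf) * tinf⁻¹ = 1 := mul_inv_cancel₀ tinf_ne_zero
    apply glExt
    · rw [mulE, mulE]
      change (0 : Kinf) * 1 + 1 * 1 = 1 * 0 + tinf * LF.pi
      rw [hpi, ht]
      ring
    · rw [mulE, mulE]
      change (0 : Kinf) * 0 + 1 * 1 = 1 * 1 + tinf * 0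
      ring
    · rw [mulE, mulE]
      change (LF.pi : Kinf) * 1 + 0 * 1 = 0 * 0 + 1 * LF.pi
      ring
    · rw [mulE, mulE]
      change (LF.pi : Kinf) * 0 + 0 * 1 = 0 * 1 + 1 * 0
      ring
  have h1 : FBfun (wM * lowM 1) = 1 := by
    rw [e1, FB_left uK_mem, psiG_uK, h0]
    ring
  have h2 : FBfun (wM * wK) = 0 := by
    have h3 : FBfun (toInf uK * (wM * wK)) = - FBfun (wM * wK) := by
      rw [FB_left uK_mem, psiG_uK]; ring
    have h4 : toInf uK * (wM * wK) = wM * wK * uni 1 := by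
      rw [← mul_assoc, ← e1, mul_assoc, mul_assoc]
      congr 1
      apply glExt
      · rw [mulE, mulE]
        change (1 : Kinf) * 0 + 0 * 1 = 0 * 1 + 1 * 0
        ring
      · rw [mulE, mulE]
        change (1 : Kinf) * 1 + 0 * 0 = 0 * 1 + 1 * 1
        ring
      · rw [mulE, mulE]
        change (1 : Kinf) * 0 + 1 * 1 = 1 * 1 + 0 * 0
        ring
      · rw [mulE, mulE]
        change (1 : Kinf) * 1 + 1 * 0 = 1 * 1 + 0 * 1
        ring
    rw [h4, FB_iw _ _ (uni_isIw 1 B_one)] at h3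
    linear_combination (1 / 2 : ℂ) * h3
  rw [h0, h1, h2]
  ring

theorem S3_left {δ : GL (Fin 2) K} (hδ : δ ∈ Gam) (g : GL (Fin 2) Kinf) :
    S3 FBfun (toInf δ * g) = psiG δ * S3 FBfun g := by
  unfold S3
  rw [mul_assoc, mul_assoc, FB_left hδ, FB_left hδ, FB_left hδ]
  ring

/-- harmonicity at the powers of `wM` -/
theorem S3_wM_pow (e : ℕ) : S3 FBfun (wM ^ e) = 0 := by
  have hz : ∀ (z : Kinf) (hz : z ≠ 0) (g : GL (Fin 2) Kinf),
      S3 FBfun (dgM z z hz hz * g) = S3 FBfun g := by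
    intro z hz g
    unfold S3
    have h : ∀ k : GL (Fin 2) Kinf, FBfun (dgM z z hz hz * k) = FBfun k := by
      intro k
      rw [dg_comm, FB_right k (IN_dg z hz), pow_zero, mul_one]
    rw [mul_assoc, mul_assoc, h, h, h]
  rcases Nat.even_or_odd' e with ⟨f, hf | hf⟩
  · obtain ⟨z, hz', h⟩ := wM_pow_even (L := Kinf) f
    rw [hf, h, ← mul_one (dgM z z hz' hz'), hz, S3_one]
  · obtain ⟨z, hz', h⟩ := wM_pow_even (L := Kinf) f
    rw [hf, pow_add, h, pow_one, hz, S3_wM]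

theorem S3_dg (z : Kinf) (hz : z ≠ 0) (g : GL (Fin 2) Kinf) :
    S3 FBfun (dgM z z hz hz * g) = S3 FBfun g := by
  unfold S3
  have h : ∀ k : GL (Fin 2) Kinf, FBfun (dgM z z hz hz * k) = FBfun k := by
    intro k
    rw [dg_comm, FB_right k (IN_dg z hz), pow_zero, mul_one]
  rw [mul_assoc, mul_assoc, h, h, h]

theorem S3_of_rep {g : GL (Fin 2) Kinf} (h : ∃ c, FRep g c) : S3 FBfun g = 0 := by
  obtain ⟨c, γ, n, e, hγ, hn, hg, hc⟩ := h
  obtain ⟨z, hz, i, hi, hn'⟩ := hn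
  obtain ⟨i', hi', h⟩ := wM_pow_conj e hi
  obtain ⟨w, hw, h2⟩ := wM_pow_even (L := Kinf) e
  have h3 : i * wM ^ e = wM ^ e * i' := by
    have h4 : dgM w w hw hw * (i * wM ^ e) = dgM w w hw hw * (wM ^ e * i') := by
      calc dgM w w hw hw * (i * wM ^ e) = wM ^ (2 * e) * (i * wM ^ e) := by rw [h2]
        _ = wM ^ e * (wM ^ e * i) * wM ^ e := by
          rw [two_mul, pow_add]; simp only [mul_assoc]
        _ = wM ^ e * (i' * wM ^ e) * wM ^ e := by rw [h]
        _ = wM ^ e * i' * wM ^ (2 * e) := by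
          rw [two_mul, pow_add]; simp only [mul_assoc]
        _ = wM ^ e * i' * dgM w w hw hw := by rw [h2]
        _ = dgM w w hw hw * (wM ^ e * i') := (dg_comm w hw _).symm
    exact mul_left_cancel h4
  rw [hg, hn', S3_left hγ, mul_assoc, S3_dg, h3, S3_iw FB_iw _ _ hi', S3_wM_pow, mul_zero]

theorem S3_zero (g : GL (Fin 2) Kinf) : S3 FBfun g = 0 := by
  by_cases h0 : ∃ c, FRep g c
  · exact S3_of_rep h0
  by_cases h1 : ∃ c, FRep (g * lowM 1) c
  · rw [← S3_low FB_iw]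
    exact S3_of_rep h1
  by_cases h2 : ∃ c, FRep (g * wK) c
  · rw [← S3_wK FB_iw]
    exact S3_of_rep h2
  unfold S3
  rw [FB_not h0, FB_not h1, FB_not h2, add_zero, add_zero]

theorem isHarm_FB : IsHarm FBfun where
  iw := FB_iw
  ctr := by
    intro g z hz
    rw [FB_right g (IN_dg z hz), pow_zero, mul_one]
  sgn := by
    intro g
    rw [FB_right g IN_wM, pow_one]
    ring
  harm := S3_zero

theorem exists_FB : ∃ F : GL (Fin 2) Kinf → ℂ, IsHarm F ∧ F 1 = 1 ∧
    ∀ g0 ∈ Gam, ∀ g, F (toInf g0 * g) = psi0 (toFin vX g0) * F g :=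
  ⟨FBfun, isHarm_FB, FB_one, fun _ h0 g => FB_left h0 g⟩

end

end Pool.Agent.R423.AL
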