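import Pool.Agent.R423.AL.Sh

/-!
# Spaces of functions on `GL₂(𝔸)` generated by equivariant images of `VS`
-/

namespace Pool.Agent.R423.AL

open scoped WithZero

noncomputable section

/-- right translations on functions on `GL₂(𝔸)` -/
def RT : Representation ℂ GA (GA → ℂ) where
  toFun h :=
    { toFun := fun f g => f (g * h)
      map_add' := fun _ _ => rfl
      map_smul' := fun _ _ => rfl }
  map_one' := by
    refine LinearMap.ext fun f => funext fun g => ?_
    change f (g * 1) = f g
    rw [mul_one]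
  map_mul' h k := by
    refine LinearMap.ext fun f => funext fun g => ?_
    change f (g * (h * k)) = f (g * h * k)
    rw [mul_assoc]

theorem RT_apply (h : GA) (f : GA → ℂ) (g : GA) : RT h f g = f (g * h) := rfl

/-- the space generated by the image of `T` -/
def WT (T : VS Kinf →ₗ[ℂ] (GA → ℂ)) : Submodule ℂ (GA → ℂ) :=
  Submodule.span ℂ {φ | ∃ (h : GA) (f : VS Kinf), φ = RT h (T f)}

theorem WT_stable (T : VS Kinf →ₗ[ℂ] (GA → ℂ)) (h : GA) (φ : GA → ℂ) (hφ : φ ∈ WT T) :
    RT h φ ∈ WT T := by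
  unfold WT at *
  induction hφ using Submodule.span_induction with
  | mem x hx =>
    obtain ⟨k, f, rfl⟩ := hx
    refine Submodule.subset_span ⟨h * k, f, ?_⟩
    rw [rep_mul]
  | zero => rw [map_zero]; exact Submodule.zero_mem _
  | add x y _ _ hx hy => rw [map_add]; exact Submodule.add_mem _ hx hy
  | smul c x _ hx => rw [map_smul]; exact Submodule.smul_mem _ c hx

theorem mem_WT (T : VS Kinf →ₗ[ℂ] (GA → ℂ)) (h : GA) (f : VS Kinf) : RT h (T f) ∈ WT T :=
  Submodule.subset_span ⟨h, f, rfl⟩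

/-- `T` is equivariant for `GL₂(K_∞)` -/
def IsEqv (T : VS Kinf →ₗ[ℂ] (GA → ℂ)) : Prop :=
  ∀ (h : GL (Fin 2) Kinf) (f : VS Kinf), T (rhoV Kinf h f) = RT (atInf h) (T f)

end

end Pool.Agent.R423.AL
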