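import Pool.Agent.R423.AL.Loc

/-!
# Congruence subgroups of `GL₂(L)` and the action on row vectors
-/

namespace Pool.Agent.R423.AL

open scoped WithZero
open Topology Filter

noncomputable section

variable {L : Type} [Field L] [Valued L ℤᵐ⁰]

/-- all entries of a matrix are in the ball -/
def BM (n : ℤ) (M : Matrix (Fin 2) (Fin 2) L) : Prop := ∀ i j, B n (M i j)

theorem BM_add {n : ℤ} {M N : Matrix (Fin 2) (Fin 2) L} (h1 : BM n M) (h2 : BM n N) :
    BM n (M + N) := fun i j => B_add (h1 i j) (h2 i j)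

theorem BM_neg {n : ℤ} {M : Matrix (Fin 2) (Fin 2) L} (h1 : BM n M) :
    BM n (-M) := fun i j => B_neg (h1 i j)

theorem BM_mul {n m : ℤ} {M N : Matrix (Fin 2) (Fin 2) L} (h1 : BM n M) (h2 : BM m N) :
    BM (n + m) (M * N) := by
  intro i j
  rw [Matrix.mul_apply, Fin.sum_univ_two]
  exact B_add (B_mul (h1 i 0) (h2 0 j)) (B_mul (h1 i 1) (h2 1 j))

theorem BM_mono {n m : ℤ} {M : Matrix (Fin 2) (Fin 2) L} (h : m ≤ n) (h1 : BM n M) : BM m M :=
  fun i j => B_mono h (h1 i j)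

theorem BM_one : BM 0 (1 : Matrix (Fin 2) (Fin 2) L) := by
  intro i j
  rw [Matrix.one_apply]
  split_ifs
  · exact B_one
  · exact B_zero _

theorem BM_zero (n : ℤ) : BM n (0 : Matrix (Fin 2) (Fin 2) L) := fun _ _ => B_zero _

/-- bound for the entries of a matrix -/
theorem exists_BM (M : Matrix (Fin 2) (Fin 2) L) : ∃ n : ℕ, BM (-n) M := by
  choose f hf using fun (x : L) => exists_B x
  refine ⟨f (M 0 0) + f (M 0 1) + f (M 1 0) + f (M 1 1), fun i j => ?_⟩
  refine B_mono ?_ (hf (M i j))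
  fin_cases i <;> fin_cases j <;> simp <;> omega

theorem mem_GLO_iff (g : GL (Fin 2) L) : g ∈ GLO L ↔ BM 0 g.1 ∧ BM 0 (g⁻¹).1 := by
  constructor
  · rintro ⟨h1, h2⟩
    exact ⟨fun i j => B_zero_iff.2 (h1 i j), fun i j => B_zero_iff.2 (h2 i j)⟩
  · rintro ⟨h1, h2⟩
    exact ⟨fun i j => B_zero_iff.1 (h1 i j), fun i j => B_zero_iff.1 (h2 i j)⟩

omit [Valued L ℤᵐ⁰] in
theorem inv_val_mul (g : GL (Fin 2) L) : (g⁻¹).1 * g.1 = 1 := by
  rw [← Units.val_mul, inv_mul_cancel, Units.val_one]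

omit [Valued L ℤᵐ⁰] in
theorem val_mul_inv (g : GL (Fin 2) L) : g.1 * (g⁻¹).1 = 1 := by
  rw [← Units.val_mul, mul_inv_cancel, Units.val_one]

variable (L) in
/-- The principal congruence subgroup of level `n`. -/
def KK (n : ℕ) : Subgroup (GL (Fin 2) L) where
  carrier := {g | (BM 0 g.1 ∧ BM 0 (g⁻¹).1) ∧ BM n (g.1 - 1)}
  mul_mem' := by
    rintro a b ⟨⟨ha, ha'⟩, ha2⟩ ⟨⟨hb, hb'⟩, hb2⟩
    refine ⟨⟨?_, ?_⟩, ?_⟩
    · rw [Units.val_mul]; simpa using BM_mul ha hb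
    · rw [mul_inv_rev, Units.val_mul]; simpa using BM_mul hb' ha'
    · rw [Units.val_mul]
      have e : a.1 * b.1 - 1 = (a.1 - 1) * b.1 + (b.1 - 1) := by noncomm_ring
      rw [e]
      exact BM_add (by simpa using BM_mul ha2 hb) hb2
  one_mem' := by
    refine ⟨⟨?_, ?_⟩, ?_⟩
    · rw [Units.val_one]; exact BM_one
    · rw [inv_one, Units.val_one]; exact BM_one
    · rw [Units.val_one, sub_self]; exact BM_zero _
  inv_mem' := by
    rintro a ⟨⟨ha, ha'⟩, ha2⟩
    refine ⟨⟨ha', by rwa [inv_inv]⟩, ?_⟩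
    have e : (a⁻¹).1 - 1 = -((a⁻¹).1 * (a.1 - 1)) := by
      rw [mul_sub, inv_val_mul, mul_one]; noncomm_ring
    rw [e]
    exact BM_neg (by simpa using BM_mul ha' ha2)

theorem KK_le_GLO (n : ℕ) : KK L n ≤ GLO L := by
  intro g hg
  rw [mem_GLO_iff]
  exact hg.1

theorem KK_anti {n m : ℕ} (h : n ≤ m) : KK L m ≤ KK L n := by
  intro g hg
  exact ⟨hg.1, BM_mono (by exact_mod_cast h) hg.2⟩

/-- two elements of `GL₂(O)` which are close differ by an element of `KK n` -/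
theorem inv_mul_mem_KK {n : ℕ} {g h : GL (Fin 2) L} (hg : g ∈ GLO L) (hh : h ∈ GLO L)
    (hd : BM n (h.1 - g.1)) : g⁻¹ * h ∈ KK L n := by
  have h1 : g⁻¹ * h ∈ GLO L := mul_mem (inv_mem hg) hh
  rw [mem_GLO_iff] at h1
  refine ⟨h1, ?_⟩
  have e : (g⁻¹ * h).1 - 1 = (g⁻¹).1 * (h.1 - g.1) := by
    rw [Units.val_mul, mul_sub, inv_val_mul]
  rw [e]
  have := BM_mul ((mem_GLO_iff g).1 hg).2 hd
  simpa using this

theorem tendsto_mat {α : Type} (F : Filter α) (f : α → Matrix (Fin 2) (Fin 2) L)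
    (M : Matrix (Fin 2) (Fin 2) L) (h : ∀ i j, Tendsto (fun a => f a i j) F (𝓝 (M i j))) :
    Tendsto f F (𝓝 M) := by
  have h2 : Tendsto (fun a => (fun i => f a i : Fin 2 → (Fin 2 → L))) F (𝓝 (fun i => M i)) :=
    tendsto_pi_nhds.2 (fun i => tendsto_pi_nhds.2 (fun j => h i j))
  exact h2

section Pi

variable [LF L]

theorem isOpen_KK (n : ℕ) : IsOpen (KK L n : Set (GL (Fin 2) L)) := by
  have hv : Continuous fun g : GL (Fin 2) L => (g.1 : Matrix (Fin 2) (Fin 2) L) :=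
    Units.continuous_val
  have hc : ∀ i j : Fin 2, Continuous fun g : GL (Fin 2) L => g.1 i j := fun i j =>
    hv.matrix_elem i j
  have hc' : ∀ i j : Fin 2, Continuous fun g : GL (Fin 2) L => (g⁻¹).1 i j := fun i j =>
    (hc i j).comp continuous_inv
  have e : (KK L n : Set (GL (Fin 2) L)) =
      ((⋂ i, ⋂ j, {g | B 0 (g.1 i j)}) ∩ (⋂ i, ⋂ j, {g | B 0 ((g⁻¹).1 i j)})) ∩
      ⋂ i, ⋂ j, {g | B n (g.1 i j - (1 : Matrix (Fin 2) (Fin 2) L) i j)} := by
    ext g
    simp only [Set.mem_inter_iff, Set.mem_iInter, Set.mem_ofPred_eq, SetLike.mem_coe]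
    exact Iff.rfl
  rw [e]
  refine ((isOpen_iInter_of_finite fun i => isOpen_iInter_of_finite fun j => ?_).inter
    (isOpen_iInter_of_finite fun i => isOpen_iInter_of_finite fun j => ?_)).inter
    (isOpen_iInter_of_finite fun i => isOpen_iInter_of_finite fun j => ?_)
  · exact (isOpen_B 0).preimage (hc i j)
  · exact (isOpen_B 0).preimage (hc' i j)
  · exact (isOpen_B_sub n _).preimage (hc i j)

omit [LF L] in
/-- Every open subgroup contains some `KK n`. -/
theorem exists_KK_le (U : Set (GL (Fin 2) L)) (hU : U ∈ 𝓝 (1 : GL (Fin 2) L)) :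
    ∃ n : ℕ, ∀ g ∈ KK L n, g ∈ U := by
  have hdir : Directed (· ≥ ·) fun n : ℕ => (KK L n : Set (GL (Fin 2) L)) := by
    intro n m
    exact ⟨max n m, KK_anti (le_max_left _ _), KK_anti (le_max_right _ _)⟩
  have hbasis := hasBasis_iInf_principal hdir
  have hle : (⨅ n : ℕ, 𝓟 (KK L n : Set (GL (Fin 2) L))) ≤ 𝓝 1 := by
    have ht : Tendsto id (⨅ n : ℕ, 𝓟 (KK L n : Set (GL (Fin 2) L))) (𝓝 1) := by
      rw [Units.isEmbedding_embedProduct.tendsto_nhds_iff]
      rw [Prod.tendsto_iff]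
      constructor
      · have h1 : Tendsto (fun g : GL (Fin 2) L => g.1)
            (⨅ n : ℕ, 𝓟 (KK L n : Set (GL (Fin 2) L))) (𝓝 1) := by
          refine tendsto_mat _ _ _ fun i j => ?_
          intro s hs
          obtain ⟨n, hn⟩ := exists_ball_of_mem_nhds hs
          rw [Filter.mem_map, hbasis.mem_iff]
          refine ⟨n, trivial, fun g hg => ?_⟩
          exact hn _ (hg.2 i j)
        exact h1
      · have h1 : Tendsto (fun g : GL (Fin 2) L => (g⁻¹).1)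
            (⨅ n : ℕ, 𝓟 (KK L n : Set (GL (Fin 2) L))) (𝓝 1) := by
          refine tendsto_mat _ _ _ fun i j => ?_
          intro s hs
          obtain ⟨n, hn⟩ := exists_ball_of_mem_nhds hs
          rw [Filter.mem_map, hbasis.mem_iff]
          refine ⟨n, trivial, fun g hg => ?_⟩
          exact hn _ (((KK L n).inv_mem hg).2 i j)
        exact (MulOpposite.continuous_op.tendsto _).comp h1
    exact ht
  obtain ⟨n, -, hn⟩ := hbasis.mem_iff.1 (hle hU)
  exact ⟨n, fun g hg => hn hg⟩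

end Pi

/-! ### the action on row vectors -/

/-- the action on row vectors -/
def act (g : GL (Fin 2) L) (p : L × L) : L × L :=
  (p.1 * g.1 0 0 + p.2 * g.1 1 0, p.1 * g.1 0 1 + p.2 * g.1 1 1)

omit [Valued L ℤᵐ⁰] in
theorem act_one (p : L × L) : act (1 : GL (Fin 2) L) p = p := by
  simp [act]

omit [Valued L ℤᵐ⁰] in
theorem act_mul (g h : GL (Fin 2) L) (p : L × L) : act (g * h) p = act h (act g p) := by
  simp only [act, Units.val_mul, Matrix.mul_apply, Fin.sum_univ_two]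
  ext <;> simp only [] <;> ring

omit [Valued L ℤᵐ⁰] in
theorem act_add (g : GL (Fin 2) L) (p q : L × L) : act g (p + q) = act g p + act g q := by
  ext <;> simp only [act, Prod.fst_add, Prod.snd_add] <;> ring

omit [Valued L ℤᵐ⁰] in
theorem act_smul (g : GL (Fin 2) L) (c : L) (p : L × L) : act g (c • p) = c • act g p := by
  ext <;> simp only [act, Prod.smul_fst, Prod.smul_snd, smul_eq_mul] <;> ring

omit [Valued L ℤᵐ⁰] in
theorem act_zero (g : GL (Fin 2) L) : act g (0 : L × L) = 0 := by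
  ext <;> simp [act]

omit [Valued L ℤᵐ⁰] in
theorem act_inv_act (g : GL (Fin 2) L) (p : L × L) : act g⁻¹ (act g p) = p := by
  rw [← act_mul, mul_inv_cancel, act_one]

omit [Valued L ℤᵐ⁰] in
theorem act_act_inv (g : GL (Fin 2) L) (p : L × L) : act g (act g⁻¹ p) = p := by
  rw [← act_mul, inv_mul_cancel, act_one]

omit [Valued L ℤᵐ⁰] in
theorem act_ne_zero {g : GL (Fin 2) L} {p : L × L} (hp : p ≠ 0) : act g p ≠ 0 := by
  intro h
  apply hp
  rw [← act_inv_act g p, h, act_zero]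

/-- `‖p‖ ≤ q^(-n)` -/
def Bp (n : ℤ) (p : L × L) : Prop := B n p.1 ∧ B n p.2

theorem Bp_add {n : ℤ} {p q : L × L} (h1 : Bp n p) (h2 : Bp n q) : Bp n (p + q) :=
  ⟨B_add h1.1 h2.1, B_add h1.2 h2.2⟩

theorem Bp_neg {n : ℤ} {p : L × L} (h1 : Bp n p) : Bp n (-p) :=
  ⟨B_neg h1.1, B_neg h1.2⟩

theorem Bp_sub {n : ℤ} {p q : L × L} (h1 : Bp n p) (h2 : Bp n q) : Bp n (p - q) :=
  ⟨B_sub h1.1 h2.1, B_sub h1.2 h2.2⟩

theorem Bp_mono {n m : ℤ} {p : L × L} (h : m ≤ n) (h1 : Bp n p) : Bp m p :=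
  ⟨B_mono h h1.1, B_mono h h1.2⟩

theorem Bp_zero (n : ℤ) : Bp n (0 : L × L) := ⟨B_zero _, B_zero _⟩

theorem Bp_act {n m : ℤ} {g : GL (Fin 2) L} {p : L × L} (hg : BM n g.1) (hp : Bp m p) :
    Bp (n + m) (act g p) := by
  constructor
  · unfold act
    refine B_add ?_ ?_
    · have := B_mul hp.1 (hg 0 0); rwa [add_comm] at this
    · have := B_mul hp.2 (hg 1 0); rwa [add_comm] at this
  · unfold act
    refine B_add ?_ ?_
    · have := B_mul hp.1 (hg 0 1); rwa [add_comm] at this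
    · have := B_mul hp.2 (hg 1 1); rwa [add_comm] at this

theorem Bp_smul_iff {c : L} {n : ℤ} (hc : Valued.v c = WithZero.exp (-n)) (m : ℤ) (p : L × L) :
    Bp (m + n) (c • p) ↔ Bp m p :=
  and_congr (B_mul_iff hc m) (B_mul_iff hc m)

/-- `Bp 0` is preserved by `GL₂(O)` in both directions -/
theorem Bp_act_iff {m : ℤ} {g : GL (Fin 2) L} (hg : g ∈ GLO L) (p : L × L) :
    Bp m (act g p) ↔ Bp m p := by
  rw [mem_GLO_iff] at hg
  constructor
  · intro h
    have := Bp_act hg.2 h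
    rw [act_inv_act] at this
    simpa using this
  · intro h
    have := Bp_act hg.1 h
    simpa using this

end

end Pool.Agent.R423.AL
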