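import Pool.Agent.R423.AL.Defs

/-!
# A discretely valued field with residue field of two elements: balls, nets, congruence subgroups
-/

namespace Pool.Agent.R423.AL

open scoped WithZero
open Topology

noncomputable section

/-- Hypotheses on a local field: a uniformiser, residue field of two elements,
characteristic two. -/
class LF (L : Type) [Field L] [Valued L ℤᵐ⁰] where
  /-- uniformiser -/
  pi : L
  v_pi : Valued.v pi = WithZero.exp (-1 : ℤ)
  residue : ∀ x : L, Valued.v x ≤ 1 → Valued.v x < 1 ∨ Valued.v (x - 1) < 1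
  two : ∀ x : L, x + x = 0

variable {L : Type} [Field L] [Valued L ℤᵐ⁰]

/-- `|x| ≤ q^(-n)` -/
def B (n : ℤ) (x : L) : Prop := Valued.v x ≤ WithZero.exp (-n)

theorem B_zero (n : ℤ) : B n (0 : L) := by simp [B]

theorem B_add {n : ℤ} {x y : L} (hx : B n x) (hy : B n y) : B n (x + y) :=
  (Valuation.map_add _ _ _).trans (max_le hx hy)

theorem B_neg {n : ℤ} {x : L} (hx : B n x) : B n (-x) := by
  unfold B; rw [Valuation.map_neg]; exact hx

theorem B_sub {n : ℤ} {x y : L} (hx : B n x) (hy : B n y) : B n (x - y) := by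
  rw [sub_eq_add_neg]; exact B_add hx (B_neg hy)

theorem B_mul {n m : ℤ} {x y : L} (hx : B n x) (hy : B m y) : B (n + m) (x * y) := by
  unfold B at *
  rw [map_mul, neg_add, WithZero.exp_add]
  exact mul_le_mul' hx hy

theorem B_mono {n m : ℤ} {x : L} (h : m ≤ n) (hx : B n x) : B m x := by
  unfold B at *
  refine hx.trans ?_
  rw [WithZero.exp_le_exp]
  omega

theorem B_one : B 0 (1 : L) := by simp [B]

theorem B_zero_iff {x : L} : B 0 x ↔ Valued.v x ≤ 1 := by simp [B]

theorem B_one_iff {x : L} : B 1 x ↔ Valued.v x < 1 := by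
  unfold B
  constructor
  · intro h
    refine h.trans_lt ?_
    rw [← WithZero.exp_zero, WithZero.exp_lt_exp]
    norm_num
  · intro h
    rcases eq_or_ne x 0 with rfl | hx
    · simp
    · have hx0 : Valued.v x ≠ 0 := (Valuation.ne_zero_iff _).2 hx
      rw [← WithZero.exp_log hx0] at h ⊢
      rw [← WithZero.exp_zero, WithZero.exp_lt_exp] at h
      rw [WithZero.exp_le_exp]
      omega

/-- every element lies in some ball -/
theorem exists_B (x : L) : ∃ n : ℕ, B (-n) x := by
  rcases eq_or_ne x 0 with rfl | hx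
  · exact ⟨0, B_zero _⟩
  · have hx0 : Valued.v x ≠ 0 := (Valuation.ne_zero_iff _).2 hx
    refine ⟨(WithZero.log (Valued.v x)).toNat, ?_⟩
    unfold B
    rw [← WithZero.exp_log hx0, WithZero.exp_le_exp, WithZero.log_exp]
    have := Int.self_le_toNat (WithZero.log (Valued.v x))
    omega

/-- a nonzero element lies outside of some ball -/
theorem exists_not_B {x : L} (hx : x ≠ 0) : ∃ n : ℕ, ¬ B n x := by
  have hx0 : Valued.v x ≠ 0 := (Valuation.ne_zero_iff _).2 hx
  refine ⟨(-(WithZero.log (Valued.v x)) + 1).toNat, ?_⟩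
  unfold B
  rw [← WithZero.exp_log hx0, WithZero.exp_le_exp, WithZero.log_exp]
  have := Int.self_le_toNat (-(WithZero.log (Valued.v x)) + 1)
  omega

/-- exact order of a nonzero element -/
theorem exists_ord {x : L} (hx : x ≠ 0) :
    ∃ n : ℤ, Valued.v x = WithZero.exp (-n) := by
  have hx0 : Valued.v x ≠ 0 := (Valuation.ne_zero_iff _).2 hx
  exact ⟨-(WithZero.log (Valued.v x)), by rw [neg_neg, WithZero.exp_log hx0]⟩

theorem B_iff_of_ord {x : L} {n : ℤ} (hx : Valued.v x = WithZero.exp (-n)) (m : ℤ) :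
    B m x ↔ m ≤ n := by
  unfold B
  rw [hx, WithZero.exp_le_exp]
  constructor <;> intro h <;> omega

theorem B_mul_iff {x c : L} {n : ℤ} (hc : Valued.v c = WithZero.exp (-n)) (m : ℤ) :
    B (m + n) (c * x) ↔ B m x := by
  have hc0 : c ≠ 0 := by
    rintro rfl
    rw [map_zero] at hc
    exact WithZero.exp_ne_zero hc.symm
  constructor
  · intro h
    have h2 : B (-n) c⁻¹ := by
      unfold B
      rw [map_inv₀, hc, neg_neg, ← WithZero.exp_neg, neg_neg]
    have h3 := B_mul h2 h
    rw [← mul_assoc, inv_mul_cancel₀ hc0, one_mul] at h3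
    exact B_mono (by omega) h3
  · intro h
    have h2 : B n c := by unfold B; rw [hc]
    exact B_mono (by omega) (B_mul h2 h)

theorem ord_mul {x y : L} {n m : ℤ} (hx : Valued.v x = WithZero.exp (-n))
    (hy : Valued.v y = WithZero.exp (-m)) : Valued.v (x * y) = WithZero.exp (-(n + m)) := by
  rw [map_mul, hx, hy, ← WithZero.exp_add]
  congr 1
  ring

theorem ord_inv {x : L} {n : ℤ} (hx : Valued.v x = WithZero.exp (-n)) :
    Valued.v x⁻¹ = WithZero.exp (-(-n)) := by
  rw [map_inv₀, hx, ← WithZero.exp_neg]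

theorem ord_ne_zero {x : L} {n : ℤ} (hx : Valued.v x = WithZero.exp (-n)) : x ≠ 0 := by
  rintro rfl
  rw [map_zero] at hx
  exact WithZero.exp_ne_zero hx.symm

theorem ord_zpow {x : L} {n : ℤ} (hx : Valued.v x = WithZero.exp (-n)) (k : ℤ) :
    Valued.v (x ^ k) = WithZero.exp (-(n * k)) := by
  rw [map_zpow₀, hx, ← WithZero.exp_zsmul]
  congr 1
  simp
  ring

/-- if `x` has order `n` and `e` is smaller, then `x + e` has order `n` -/
theorem ord_add {x e : L} {n : ℤ} (hx : Valued.v x = WithZero.exp (-n)) (he : B (n + 1) e) :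
    Valued.v (x + e) = WithZero.exp (-n) := by
  rw [Valuation.map_add_eq_of_lt_left, hx]
  rw [hx]
  refine lt_of_le_of_lt he ?_
  rw [WithZero.exp_lt_exp]
  omega

section Pi

variable [LF L]

/-- powers of the uniformiser -/
def pw (n : ℤ) : L := (LF.pi : L) ^ n

theorem v_pw (n : ℤ) : Valued.v (pw n : L) = WithZero.exp (-n) := by
  unfold pw
  rw [ord_zpow LF.v_pi]
  simp

theorem pw_ne_zero (n : ℤ) : (pw n : L) ≠ 0 := ord_ne_zero (v_pw n)

theorem pw_add (n m : ℤ) : (pw (n + m) : L) = pw n * pw m := by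
  unfold pw
  rw [zpow_add₀]
  have := pw_ne_zero (L := L) 1
  unfold pw at this
  simpa using this

theorem pw_zero : (pw 0 : L) = 1 := by simp [pw]

theorem B_pw (n : ℤ) : B n (pw n : L) := by unfold B; rw [v_pw]

theorem B_pw_mul {n k : ℤ} {x : L} (hx : B n x) : B (n + k) (pw k * x) := by
  have := B_mul (B_pw (L := L) k) hx
  rwa [add_comm] at this

theorem B_pw_mul_iff {n k : ℤ} {x : L} : B (n + k) (pw k * x) ↔ B n x :=
  B_mul_iff (v_pw k) n

theorem pw_mul_cancel (k : ℤ) (x : L) : pw (-k) * (pw k * x) = x := by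
  rw [← mul_assoc, ← pw_add]
  simp [pw_zero]

/-- splitting a ball in two halves -/
theorem B_split {n : ℤ} {x : L} (hx : B n x) : B (n + 1) x ∨ B (n + 1) (x - pw n) := by
  have h1 : B 0 (pw (-n) * x) := by
    have := B_pw_mul (k := -n) hx
    simpa using this
  rcases LF.residue _ (B_zero_iff.1 h1) with h | h
  · left
    rw [← B_one_iff] at h
    have h2 := B_pw_mul (k := n) h
    have h3 : pw n * (pw (-n) * x) = x := by
      have := pw_mul_cancel (-n) x
      simpa using this
    rw [h3] at h2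
    rwa [add_comm] at h2
  · right
    rw [← B_one_iff] at h
    have h2 := B_pw_mul (k := n) h
    have h3 : pw n * (pw (-n) * x - 1) = x - pw n := by
      have := pw_mul_cancel (-n) x
      simp only [neg_neg] at this
      rw [mul_sub, this, mul_one]
    rw [h3] at h2
    rwa [add_comm] at h2

/-- finite nets -/
theorem exists_net (m : ℤ) (k : ℕ) :
    ∃ C : Finset L, (∀ c ∈ C, B m c) ∧ ∀ x : L, B m x → ∃ c ∈ C, B (m + k) (x - c) := by
  classical
  induction k with
  | zero =>
    refine ⟨{0}, ?_, ?_⟩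
    · intro c hc
      rw [Finset.mem_singleton] at hc
      rw [hc]; exact B_zero _
    · intro x hx
      exact ⟨0, by simp, by simpa using hx⟩
  | succ k ih =>
    obtain ⟨C, h1, h2⟩ := ih
    refine ⟨C ∪ C.image (fun c => c + pw (m + k)), ?_, ?_⟩
    · intro c hc
      rw [Finset.mem_union, Finset.mem_image] at hc
      rcases hc with hc | ⟨d, hd, rfl⟩
      · exact h1 c hc
      · exact B_add (h1 d hd) (B_mono (by omega) (B_pw (m + k)))
    · intro x hx
      obtain ⟨c, hc, hxc⟩ := h2 x hx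
      rcases B_split hxc with h | h
      · refine ⟨c, Finset.mem_union_left _ hc, ?_⟩
        have e : m + ((k + 1 : ℕ) : ℤ) = m + k + 1 := by push_cast; ring
        rw [e]; exact h
      · refine ⟨c + pw (m + k), Finset.mem_union_right _ (Finset.mem_image_of_mem _ hc), ?_⟩
        have e : m + ((k + 1 : ℕ) : ℤ) = m + k + 1 := by push_cast; ring
        rw [e]
        have e2 : x - (c + pw (m + k)) = x - c - pw (m + k) := by ring
        rw [e2]; exact h

/-- balls are open -/
theorem isOpen_B (n : ℤ) : IsOpen {x : L | B n x} := by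
  rw [isOpen_iff_mem_nhds]
  intro x hx
  rw [Valued.mem_nhds]
  have h0 : Valued.v.restrict (pw n : L) ≠ 0 := by
    simpa using pw_ne_zero (L := L) n
  refine ⟨Units.mk0 _ h0, ?_⟩
  intro y hy
  rw [Set.mem_ofPred_eq, Units.val_mk0] at hy
  have h1 : Valued.v (y - x) < Valued.v (pw n : L) := Valued.v.restrict_lt_iff.1 hy
  have h2 : B n (y - x) := by
    unfold B; rw [← v_pw (L := L) n]; exact h1.le
  have h3 : y = (y - x) + x := by ring
  rw [Set.mem_ofPred_eq, h3]
  exact B_add h2 hx

theorem isOpen_B_sub (n : ℤ) (c : L) : IsOpen {x : L | B n (x - c)} :=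
  (isOpen_B n).preimage (continuous_id.sub continuous_const)

omit [LF L] in
/-- neighbourhoods contain balls -/
theorem exists_ball_of_mem_nhds {x : L} {s : Set L} (hs : s ∈ 𝓝 x) :
    ∃ n : ℕ, ∀ y, B n (y - x) → y ∈ s := by
  rw [Valued.mem_nhds] at hs
  obtain ⟨γ, hγ⟩ := hs
  obtain ⟨g, hg⟩ : ∃ g : ℤᵐ⁰, g ≠ 0 ∧ ∀ z : L, Valued.v z < g → Valued.v.restrict z < γ.1 := by
    refine ⟨MonoidWithZeroHom.ValueGroup₀.embedding γ.1, ?_, ?_⟩
    · exact (map_ne_zero _).2 γ.ne_zero
    · intro z hz
      exact (Valuation.restrict_lt_iff_lt_embedding _).2 hz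
  refine ⟨(-(WithZero.log g) + 1).toNat, fun y hy => hγ ?_⟩
  refine hg.2 _ ?_
  refine lt_of_le_of_lt hy ?_
  rw [← WithZero.exp_log hg.1, WithZero.exp_lt_exp]
  have := Int.self_le_toNat (-(WithZero.log g) + 1)
  rw [WithZero.exp_log hg.1]
  omega

end Pi

end

end Pool.Agent.R423.AL
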