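import Pool.Agent.R423.AL.RegLam

/-!
# The regularised sum: existence of the functional `μ`
-/

namespace Pool.Agent.R423.AL

noncomputable section

/-- The functional attached to a harmonic function. -/
theorem exists_lambda (F : GL (Fin 2) Kinf → ℂ) (hF : IsHarm F) :
    ∃ Lam : VS Kinf →ₗ[ℂ] ℂ, Lam oneV = 0 ∧ ∀ g, Lam (rhoV Kinf g dV) = F g :=
  Reg.exists_lambda_inf F hF

/-- The regularised sum over the lattice. -/
theorem exists_reg : ∃ mu : VS Kinf →ₗ[ℂ] ℂ, (∀ (M : GL (Fin 2) R) (f : VS Kinf),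
      mu (rhoV Kinf (Matrix.GeneralLinearGroup.map pinf M) f) = mu f) ∧
    ∀ (d : GL (Fin 2) Kinf), (d : Matrix (Fin 2) (Fin 2) Kinf) 1 0 = 0 → ∀ f : VS Kinf,
      ∀ᶠ k : ℕ in Filter.atTop,
        mu (rhoV Kinf (d * dgM (tinf ^ (k + 1)) 1 (pow_ne_zero _ tinf_ne_zero) one_ne_zero) f) =
        2 * mu (rhoV Kinf (d * dgM (tinf ^ k) 1 (pow_ne_zero _ tinf_ne_zero) one_ne_zero) f) +
          f.1 (0, 1) :=
  Reg.exists_reg_of fun F hF => exists_lambda F hF

end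

end Pool.Agent.R423.AL
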