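import Pool.Agent.R423.AL.CaseB
import Pool.Agent.R423.AL.Reg
import Pool.Agent.R423.AL.FB
import Pool.Agent.R423.AL.Adm

/-!
# No local lifting is compatible with all global liftings
-/

namespace Pool.Agent.R423.AL

noncomputable section

/-- `St_∞ ⊗ 1` is an automorphic representation. -/
theorem piA_aut : IsAutomorphic piA := by
  obtain ⟨μ, h1, h2⟩ := exists_reg
  refine piA_automorphic μ h1 h2 ?_
  exact isAutForm_of_mem (TA μ) (TA_eqv μ) (TA_left μ h1) (TA_smooth μ h1)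

/-- the trivial representation is a global lifting of `St_∞ ⊗ 1` -/
theorem lifting_piA : IsGlobalLifting piA (trivIrr GA) := by
  refine ⟨trivA_isobaric, ?_, ?_⟩
  · rintro σ ⟨x, hx, hxf⟩ ⟨T, hT, hTe⟩
    exfalso
    have hinj := injective_of_irred σ (ρ' := (StI Kinf).ρ) T hT hTe
    have h1 : T x = 0 := StI_no_fixed (T x) fun k hk => by
      have := hTe k x
      rw [hxf k hk] at this
      exact this.symm
    exact hx (hinj (h1.trans (map_zero T).symm))
  · rintro v σ - ⟨T, hT, hTe⟩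
    refine occurs_triv _ σ fun h x => ?_
    have hinj : Function.Injective T := by
      rcases σ.irred.2 (LinearMap.ker T) (fun g x hx => by
        rw [LinearMap.mem_ker] at hx ⊢
        rw [hTe, hx, map_zero]) with h | h
      · exact LinearMap.ker_eq_bot.1 h
      · exact absurd (LinearMap.ker_eq_top.1 h) hT
    apply hinj
    rw [hTe]
    exact rep_one (StI Kinf).ρ (T x)

/-- There is a cuspidal automorphic representation with local component `St_∞`. -/
theorem exists_piB : ∃ π : Irr GA, IsCuspidal π ∧ Occurs atInf π (StI Kinf) ∧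
    ∀ x : π.V, (∀ k ∈ GLO Kinf, π.ρ (atInf k) x = x) → x = 0 := by
  obtain ⟨F, hF, hF1, hFΓ⟩ := exists_FB
  obtain ⟨lam, hl1, hlF⟩ := exists_lambda F hF
  have hlΓ : ∀ γ ∈ Gam, ∀ f, lam (rhoV Kinf (toInf γ) f) = psi0 (toFin vX γ) * lam f :=
    fun γ hγ f => lam_Gam lam hl1 F hlF (toInf γ) _ (hFΓ γ hγ) f
  have hmul : ∀ u ∈ UX, ∀ w ∈ UX, psi0 (u * w) = psi0 u * psi0 w :=
    fun u hu w hw => psi0_mul hu hw
  have hld : lam dV = 1 := by
    have := hlF 1
    rwa [rep_one, hF1] at this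
  have hsm := TB_smooth lam hmul psi0_sq hlΓ psi0_open
  obtain ⟨π, q, hq, hqe, hocc, hfix⟩ := exists_irr (TB lam) (TB_eqv lam) hsm (TB_one lam hl1)
    (TB_ne lam hmul psi0_sq hlΓ hld)
  refine ⟨π, ⟨WT (TB lam), ?_, fun f hf h => WT_stable _ h f hf, q, hq, ?_⟩, hocc, hfix⟩
  · exact TB_cusp lam hmul psi0_sq hlΓ cusp_trick
      (isAutForm_of_mem (TB lam) (TB_eqv lam) (TB_left lam hmul psi0_sq hlΓ) hsm)
  · intro f h
    exact hqe f h

theorem cusp_aut {π : Irr GA} (h : IsCuspidal π) : IsAutomorphic π := by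
  obtain ⟨W, h1, h2⟩ := h
  exact ⟨W, fun f hf => (h1 f hf).1, h2⟩

/-- Two automorphic representations of `GL₂(𝔸)` with the same local component at infinity and
global liftings whose local components at infinity are different. -/
theorem two_liftings : ∃ (σ : Irr (GL (Fin 2) Kinf)) (π Θ π' : Irr GA),
    IsAutomorphic π ∧ IsGlobalLifting π Θ ∧ IsCuspidal π' ∧ IsGlobalLifting π' π' ∧
    Occurs atInf π σ ∧ Occurs atInf π' σ ∧
    ∀ τ : Irr (GL (Fin 2) Kinf), ¬ (Occurs atInf Θ τ ∧ Occurs atInf π' τ) := by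
  obtain ⟨π, hπ, hocc, hfix⟩ := exists_piB
  refine ⟨StI Kinf, piA, trivIrr GA, π, piA_aut, lifting_piA, hπ,
    ⟨⟨cusp_aut hπ, Or.inl hπ⟩, fun σ _ h => h, fun v σ _ h => h⟩, occurs_piA, hocc, ?_⟩
  rintro τ ⟨⟨T, hT, hTe⟩, ⟨T', hT', hTe'⟩⟩
  have htriv : ∀ h x, τ.ρ h x = x := by
    intro h x
    have hinj : Function.Injective T := by
      rcases τ.irred.2 (LinearMap.ker T) (fun g x hx => by
        rw [LinearMap.mem_ker] at hx ⊢
        rw [hTe, hx, map_zero]) with h | h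
      · exact LinearMap.ker_eq_bot.1 h
      · exact absurd (LinearMap.ker_eq_top.1 h) hT
    apply hinj
    rw [hTe, trivIrr_rho]
  apply hT'
  refine LinearMap.ext fun x => ?_
  exact hfix _ fun k _ => by rw [← hTe', htriv]

theorem main : ¬ LocalLiftingExists := by
  rintro ⟨l, hl⟩
  obtain ⟨σ, π₁, Θ₁, π₂, h1, h2, h3, h4, h5, h6, h7⟩ := two_liftings
  exact h7 (l σ) ⟨hl _ _ h1 h2 σ h5, hl _ _ (cusp_aut h3) h4 σ h6⟩

end

end Pool.Agent.R423.AL
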