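import Pool.Agent.R423.AL.RegRed

/-!
# The function `F` on `GL₂(K_∞)`
-/

namespace Pool.Agent.R423.AL.Reg

open scoped WithZero Polynomial

noncomputable section

theorem two_inf (x : Kinf) : x + x = 0 := LF.two x

theorem neg_inf (x : Kinf) : -x = x := by
  rw [neg_eq_iff_add_eq_zero]; exact two_inf x

theorem entries {k : GL (Fin 2) Kinf} (hk : k ∈ GLO Kinf) (i j : Fin 2) : B 0 (k.1 i j) :=
  ((mem_GLO_iff k).1 hk).1 i j

theorem iw_inv {i : GL (Fin 2) Kinf} (h : IsIw i) : IsIw i⁻¹ := by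
  refine ⟨inv_mem h.1, ?_⟩
  have h1 := val_mul_inv i
  have e5 : i.1 1 0 * (i⁻¹).1 0 0 + i.1 1 1 * (i⁻¹).1 1 0 = 0 := by
    have := congrFun (congrFun h1 1) 0
    rw [Matrix.mul_apply, Fin.sum_univ_two] at this
    simpa using this
  have e4 : i.1 1 0 * (i⁻¹).1 0 1 + i.1 1 1 * (i⁻¹).1 1 1 = 1 := by
    have := congrFun (congrFun h1 1) 1
    rw [Matrix.mul_apply, Fin.sum_univ_two] at this
    simpa using this
  have e : (i⁻¹).1 1 0 = (i.1 1 0) * ((i⁻¹).1 0 1 * (i⁻¹).1 1 0 - (i⁻¹).1 1 1 * (i⁻¹).1 0 0) := by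
    linear_combination (-(i⁻¹).1 1 0) * e4 + (i⁻¹).1 1 1 * e5
  rw [e]
  have hi := entries (inv_mem h.1)
  have := B_mul h.2 (B_sub (B_mul (hi 0 1) (hi 1 0)) (B_mul (hi 1 1) (hi 0 0)))
  simpa using this

theorem wM_inv_val : ((wM : GL (Fin 2) Kinf)⁻¹).1 = !![0, (LF.pi : Kinf)⁻¹; 1, 0] := rfl

theorem wM_val : (wM : GL (Fin 2) Kinf).1 = !![0, 1; (LF.pi : Kinf), 0] := rfl

theorem pi_ne : (LF.pi : Kinf) ≠ 0 := ord_ne_zero LF.v_pi

theorem conj_w_aux {i : GL (Fin 2) Kinf} (h : IsIw i) : BM 0 (wM⁻¹ * i * wM).1 := by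
  have he := entries h.1
  have e : (wM⁻¹ * i * wM).1 = !![i.1 1 1, (LF.pi : Kinf)⁻¹ * i.1 1 0;
      LF.pi * i.1 0 1, i.1 0 0] := by
    rw [Units.val_mul, Units.val_mul, wM_inv_val, wM_val]
    ext a b
    fin_cases a <;> fin_cases b <;>
      simp [Matrix.mul_apply, Fin.sum_univ_two, pi_ne, mul_comm, Matrix.vecMul, dotProduct]
  rw [e]
  intro a b
  fin_cases a <;> fin_cases b
  · exact he 1 1
  · have h1 : B (-1) (LF.pi : Kinf)⁻¹ := by
      unfold B; rw [ord_inv LF.v_pi]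
    have := B_mul h1 h.2
    simpa using this
  · have h1 : B 1 (LF.pi : Kinf) := by
      unfold B; rw [LF.v_pi]
    have := B_mul h1 (he 0 1)
    exact B_mono (by norm_num) this
  · exact he 0 0

theorem conj_w {i : GL (Fin 2) Kinf} (h : IsIw i) : wM⁻¹ * i * wM ∈ GLO Kinf := by
  rw [mem_GLO_iff]
  refine ⟨conj_w_aux h, ?_⟩
  have e : (wM⁻¹ * i * wM)⁻¹ = wM⁻¹ * i⁻¹ * wM := by group
  rw [e]
  exact conj_w_aux (iw_inv h)

theorem iw_of {k : GL (Fin 2) Kinf} (hk : k ∈ GLO Kinf) (h : B 1 (k.1 1 0)) : IsIw k := ⟨hk, h⟩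

theorem low_mem : (lowM 1 : GL (Fin 2) Kinf) ∈ GLO Kinf := lowM_mem_GLO B_one

theorem low_inv : (lowM 1 : GL (Fin 2) Kinf)⁻¹ = lowM 1 := by
  rw [lowM_inv, neg_inf]

theorem wK_inv : (wK : GL (Fin 2) Kinf)⁻¹ = wK := inv_eq_of_mul_eq_one_left wK_mul_wK

/-- invariance of the sum over `K / I` -/
def Perm (k : GL (Fin 2) Kinf) : Prop :=
  ∀ φ : GL (Fin 2) Kinf → ℂ, (∀ g i, IsIw i → φ (g * i) = φ g) →
    φ k + φ (k * lowM 1) + φ (k * wK) = φ 1 + φ (lowM 1) + φ wK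

theorem Perm.mul {k l : GL (Fin 2) Kinf} (hk : Perm k) (hl : Perm l) : Perm (k * l) := by
  intro φ hφ
  have h1 := hl (fun g => φ (k * g)) (fun g i hi => by
    rw [← mul_assoc]; exact hφ _ _ hi)
  have h2 := hk φ hφ
  simp only [mul_one] at h1
  rw [mul_assoc, mul_assoc, h1, h2]

theorem split0 {x : Kinf} (hx : B 0 x) : B 1 x ∨ B 1 (x - 1) := by
  have := B_split hx
  simpa [pw_zero] using this

theorem Perm.wK : Perm wK := by
  intro φ hφ
  have h1 : φ (AL.wK * lowM 1) = φ (lowM 1) := by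
    have e : (AL.wK * lowM 1 : GL (Fin 2) Kinf) = lowM 1 * ((lowM 1)⁻¹ * AL.wK * lowM 1) := by group
    rw [e]
    apply hφ
    refine ⟨mul_mem (mul_mem (inv_mem low_mem) wK_mem) low_mem, ?_⟩
    rw [low_inv]
    have : (lowM 1 * AL.wK * lowM 1 : GL (Fin 2) Kinf).1 1 0 = 0 := by
      simp [lowM, AL.wK, Matrix.mul_apply, Fin.sum_univ_two, two_inf]
    rw [this]; exact B_zero _
  rw [wK_mul_wK, h1]
  ring

theorem Perm.low : Perm (lowM 1) := by
  intro φ hφ
  have h1 : φ (lowM 1 * AL.wK) = φ AL.wK := by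
    have e : (lowM 1 * AL.wK : GL (Fin 2) Kinf) = AL.wK * (AL.wK⁻¹ * lowM 1 * AL.wK) := by group
    rw [e]
    apply hφ
    refine ⟨mul_mem (mul_mem (inv_mem wK_mem) low_mem) wK_mem, ?_⟩
    rw [wK_inv]
    have : (AL.wK * lowM 1 * AL.wK : GL (Fin 2) Kinf).1 1 0 = 0 := by
      simp [lowM, AL.wK, Matrix.mul_apply, Fin.sum_univ_two]
    rw [this]; exact B_zero _
  have h2 : (lowM 1 * lowM 1 : GL (Fin 2) Kinf) = 1 := by
    rw [lowM_mul, two_inf, lowM_zero]
  rw [h2, h1]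
  ring

theorem unit_entries {i : GL (Fin 2) Kinf} (h : IsIw i) : ¬ B 1 (i.1 0 0) ∧ ¬ B 1 (i.1 1 1) := by
  have hd := v_det_GLO h.1
  have he := entries h.1
  have key : ¬ B 1 (i.1 0 0 * i.1 1 1) := by
    intro h1
    have h2 : B 1 i.1.det := by
      rw [Matrix.det_fin_two]
      have := B_mul (he 0 1) h.2
      exact B_sub h1 (by simpa using this)
    rw [B_one_iff, hd] at h2
    exact lt_irrefl _ h2
  constructor
  · intro h1
    apply key
    have := B_mul h1 (he 1 1)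
    simpa using this
  · intro h1
    apply key
    have := B_mul (he 0 0) h1
    simpa using this

theorem Perm.iw {i : GL (Fin 2) Kinf} (h : IsIw i) : Perm i := by
  intro φ hφ
  have he := entries h.1
  obtain ⟨ha, hd⟩ := unit_entries h
  have ha1 : B 1 (i.1 0 0 - 1) := (split0 (he 0 0)).resolve_left ha
  have hd1 : B 1 (i.1 1 1 - 1) := (split0 (he 1 1)).resolve_left hd
  have h0 : φ i = φ 1 := by
    have := hφ 1 i h
    rwa [one_mul] at this
  rcases split0 (he 0 1) with hb | hb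
  · have h1 : φ (i * AL.wK) = φ AL.wK := by
      have e : (i * AL.wK : GL (Fin 2) Kinf) = AL.wK * (AL.wK⁻¹ * i * AL.wK) := by group
      rw [e]
      apply hφ
      refine ⟨mul_mem (mul_mem (inv_mem wK_mem) h.1) wK_mem, ?_⟩
      rw [wK_inv]
      have : (AL.wK * i * AL.wK : GL (Fin 2) Kinf).1 1 0 = i.1 0 1 := by
        simp [AL.wK, Matrix.mul_apply, Fin.sum_univ_two, Matrix.vecMul, dotProduct]
      rw [this]; exact hb
    have h2 : φ (i * lowM 1) = φ (lowM 1) := by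
      have e : (i * lowM 1 : GL (Fin 2) Kinf) = lowM 1 * ((lowM 1)⁻¹ * i * lowM 1) := by group
      rw [e]
      apply hφ
      refine ⟨mul_mem (mul_mem (inv_mem low_mem) h.1) low_mem, ?_⟩
      have : ((lowM 1)⁻¹ * i * lowM 1 : GL (Fin 2) Kinf).1 1 0 =
          (i.1 1 0 - i.1 0 1) + ((i.1 1 1 - 1) - (i.1 0 0 - 1)) := by
        rw [lowM_inv]
        simp [lowM, Matrix.mul_apply, Fin.sum_univ_two, Matrix.vecMul, dotProduct]
        ring
      rw [this]
      exact B_add (B_sub h.2 hb) (B_sub hd1 ha1)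
    rw [h0, h1, h2]
  · have h1 : φ (i * lowM 1) = φ AL.wK := by
      have e : (i * lowM 1 : GL (Fin 2) Kinf) = AL.wK * (AL.wK⁻¹ * i * lowM 1) := by group
      rw [e]
      apply hφ
      refine ⟨mul_mem (mul_mem (inv_mem wK_mem) h.1) low_mem, ?_⟩
      rw [wK_inv]
      have : (AL.wK * i * lowM 1 : GL (Fin 2) Kinf).1 1 0 = (i.1 0 0 - 1) + (i.1 0 1 - 1) := by
        have e2 : (AL.wK * i * lowM 1 : GL (Fin 2) Kinf).1 1 0 = i.1 0 0 + i.1 0 1 := by
          simp [AL.wK, lowM, Matrix.mul_apply, Fin.sum_univ_two, Matrix.vecMul, dotProduct]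
        rw [e2]
        linear_combination two_inf 1
      rw [this]; exact B_add ha1 hb
    have h2 : φ (i * AL.wK) = φ (lowM 1) := by
      have e : (i * AL.wK : GL (Fin 2) Kinf) = lowM 1 * ((lowM 1)⁻¹ * i * AL.wK) := by group
      rw [e]
      apply hφ
      refine ⟨mul_mem (mul_mem (inv_mem low_mem) h.1) wK_mem, ?_⟩
      have : ((lowM 1)⁻¹ * i * AL.wK : GL (Fin 2) Kinf).1 1 0 = (i.1 1 1 - 1) - (i.1 0 1 - 1) := by
        rw [lowM_inv]
        simp [lowM, AL.wK, Matrix.mul_apply, Fin.sum_univ_two, Matrix.vecMul, dotProduct]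
        ring
      rw [this]
      exact B_sub hd1 hb
    rw [h0, h1, h2]
    ring

theorem coset_cases {k : GL (Fin 2) Kinf} (hk : k ∈ GLO Kinf) :
    IsIw k ∨ IsIw ((wK)⁻¹ * k) ∨ IsIw ((lowM 1)⁻¹ * k) := by
  have he := entries hk
  rcases split0 (he 1 0) with h1 | h1
  · exact Or.inl ⟨hk, h1⟩
  · right
    rcases split0 (he 0 0) with h2 | h2
    · left
      refine ⟨mul_mem (inv_mem wK_mem) hk, ?_⟩
      rw [wK_inv]
      have : (wK * k : GL (Fin 2) Kinf).1 1 0 = k.1 0 0 := by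
        simp [wK, Matrix.mul_apply, Fin.sum_univ_two]
      rw [this]; exact h2
    · right
      refine ⟨mul_mem (inv_mem low_mem) hk, ?_⟩
      have : ((lowM 1)⁻¹ * k : GL (Fin 2) Kinf).1 1 0 = (k.1 1 0 - 1) - (k.1 0 0 - 1) := by
        rw [lowM_inv]
        simp [lowM, Matrix.mul_apply, Fin.sum_univ_two]
        ring
      rw [this]
      exact B_sub h1 h2

/-- The sum over `K / I` is invariant under `K`. -/
theorem perm_of_mem {k : GL (Fin 2) Kinf} (hk : k ∈ GLO Kinf) : Perm k := by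
  rcases coset_cases hk with h | h | h
  · exact Perm.iw h
  · have := Perm.wK.mul (Perm.iw h)
    rwa [mul_inv_cancel_left] at this
  · have := Perm.low.mul (Perm.iw h)
    rwa [mul_inv_cancel_left] at this

/-! ### the function -/

/-- `H(n) = (4/3)(2^n - 1) - n` -/
def H (n : ℕ) : ℂ := 4 / 3 * (2 ^ n - 1) - n

/-- The function `F`. -/
def F (g : GL (Fin 2) Kinf) : ℂ := (H (nn (g * wM)) - H (nn g) - 1) / 2

theorem nn_mul_w {g i : GL (Fin 2) Kinf} (h : IsIw i) : nn (g * i * wM) = nn (g * wM) := by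
  have e : g * i * wM = g * wM * (wM⁻¹ * i * wM) := by group
  rw [e, nn_mul_GLO _ (conj_w h)]

theorem F_iw (g i : GL (Fin 2) Kinf) (h : IsIw i) : F (g * i) = F g := by
  rw [F, F, nn_mul_w h, nn_mul_GLO _ h.1]

theorem F_left (M : GL (Fin 2) R) (g : GL (Fin 2) Kinf) : F (mp M * g) = F g := by
  rw [F, F, mul_assoc, nn_mul_left, nn_mul_left]

theorem F_ctr (g : GL (Fin 2) Kinf) (z : Kinf) (hz : z ≠ 0) : F (g * Z z hz) = F g := by
  rw [F, F, mul_assoc, Z_comm, ← mul_assoc, nn_mul_Z, nn_mul_Z]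

theorem wM_mul_wM : (wM * wM : GL (Fin 2) Kinf) = Z LF.pi pi_ne := by
  apply ext4 <;> simp [wM, Z, dgM]

theorem F_w (g : GL (Fin 2) Kinf) : F g + F (g * wM) = -1 := by
  rw [F, F, mul_assoc g wM wM, wM_mul_wM, nn_mul_Z]
  ring

theorem pi_mul_tinf : (LF.pi : Kinf) * tinf = 1 := by
  rw [pi_eq, inv_mul_cancel₀ tinf_ne_zero]

theorem nn_A_w (n : ℕ) : nn (A n * wM) = n + 1 := by
  have e : (A n * wM : GL (Fin 2) Kinf) = A (n + 1) * Z LF.pi pi_ne * wK := by
    have h1 := pi_mul_tinf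
    apply ext4
    · simp [A, dgM, wM, Z, wK, Matrix.mul_apply, Fin.sum_univ_two]
    · simp [A, dgM, wM, Z, wK, Matrix.mul_apply, Fin.sum_univ_two]
      rw [pow_succ, mul_assoc, mul_comm tinf, h1, mul_one]
    · simp [A, dgM, wM, Z, wK, Matrix.mul_apply, Fin.sum_univ_two]
    · simp [A, dgM, wM, Z, wK, Matrix.mul_apply, Fin.sum_univ_two]
  rw [e, nn_mul_GLO _ wK_mem, nn_mul_Z, nn_A]

theorem nn_A_wK_w_succ (n : ℕ) : nn (A (n + 1) * wK * wM) = n := by
  have e : (A (n + 1) * wK * wM : GL (Fin 2) Kinf) = A n := by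
    have h1 := pi_mul_tinf
    apply ext4
    · simp [A, dgM, wM, wK, Matrix.mul_apply, Fin.sum_univ_two]
      rw [pow_succ, mul_assoc, mul_comm tinf, h1, mul_one]
    · simp [A, dgM, wM, wK, Matrix.mul_apply, Fin.sum_univ_two]
    · simp [A, dgM, wM, wK, Matrix.mul_apply, Fin.sum_univ_two]
    · simp [A, dgM, wM, wK, Matrix.mul_apply, Fin.sum_univ_two]
  rw [e, nn_A]

theorem nn_A_wK_w_zero : nn (A 0 * wK * wM) = 1 := by
  have e : (A 0 * wK * wM : GL (Fin 2) Kinf) = mp wR * (A 1 * Z LF.pi pi_ne * wK) := by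
    have h1 := pi_mul_tinf
    rw [mp_wR]
    apply ext4
    · simp [A, dgM, wM, wK, Z, Matrix.mul_apply, Fin.sum_univ_two]
    · simp [A, dgM, wM, wK, Z, Matrix.mul_apply, Fin.sum_univ_two]
    · simp [A, dgM, wM, wK, Z, Matrix.mul_apply, Fin.sum_univ_two]
    · simp [A, dgM, wM, wK, Z, Matrix.mul_apply, Fin.sum_univ_two]
      rw [mul_comm, h1]
  rw [e, nn_mul_left, nn_mul_GLO _ wK_mem, nn_mul_Z, nn_A]

theorem nn_A_low_w (n : ℕ) : nn (A n * lowM 1 * wM) = nn (A n * wK * wM) := by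
  have hpi : B 0 (LF.pi : Kinf) := by
    have : B 1 (LF.pi : Kinf) := by unfold B; rw [LF.v_pi]
    exact B_mono (by norm_num) this
  have e : (A n * lowM 1 * wM : GL (Fin 2) Kinf) =
      mp (uR (Polynomial.X ^ n)) * (A n * wK * wM * lowM LF.pi) := by
    have h3 : pinf (Polynomial.X ^ n) = tinf ^ n := by rw [map_pow]; rfl
    rw [mp_uR, h3]
    apply ext4
    · simp [A, dgM, wM, wK, lowM, uni, Matrix.mul_apply, Fin.sum_univ_two]
      exact (two_inf _).symm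
    · simp [A, dgM, wM, wK, lowM, uni, Matrix.mul_apply, Fin.sum_univ_two]
    · simp [A, dgM, wM, wK, lowM, uni, Matrix.mul_apply, Fin.sum_univ_two]
    · simp [A, dgM, wM, wK, lowM, uni, Matrix.mul_apply, Fin.sum_univ_two]
  rw [e, nn_mul_left, nn_mul_GLO _ (lowM_mem_GLO hpi)]

theorem H_sum (n : ℕ) : H (nn (A n * wM)) + H (nn (A n * lowM 1 * wM)) +
    H (nn (A n * wK * wM)) = 3 * H n + 1 := by
  rw [nn_A_low_w, nn_A_w]
  cases n with
  | zero =>
    rw [nn_A_wK_w_zero]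
    simp [H]
    norm_num
  | succ n =>
    rw [nn_A_wK_w_succ]
    simp only [H]
    push_cast
    ring

theorem F_harm (g : GL (Fin 2) Kinf) : F g + F (g * lowM 1) + F (g * wK) = -1 := by
  obtain ⟨M, z, hz, k, hk, hg⟩ := nn_spec g
  set n := nn g with hn
  have h1 : F g + F (g * lowM 1) + F (g * wK) =
      (H (nn (g * wM)) + H (nn (g * lowM 1 * wM)) + H (nn (g * wK * wM)) - 3 * H n - 3) / 2 := by
    rw [F, F, F, nn_mul_GLO _ low_mem, nn_mul_GLO _ wK_mem, ← hn]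
    ring
  have h2 : ∀ c : GL (Fin 2) Kinf, nn (g * c * wM) = nn (A n * (k * c) * wM) := by
    intro c
    have e : g * c * wM = mp M * (A n * (k * c) * wM * Z z hz) := by
      rw [← Z_comm z hz (A n * (k * c) * wM), hg]
      calc mp M * A n * Z z hz * k * c * wM = mp M * (A n * Z z hz) * (k * c * wM) := by group
        _ = mp M * (Z z hz * A n) * (k * c * wM) := by rw [Z_comm z hz (A n)]
        _ = _ := by group
    rw [e, nn_mul_left, nn_mul_Z]
  have h3 := perm_of_mem hk (fun c => H (nn (A n * c * wM))) (fun c i hi => by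
    rw [← mul_assoc, nn_mul_w hi])
  have h4 : nn (g * wM) = nn (A n * k * wM) := by
    have := h2 1
    simpa using this
  rw [h1, h4, h2, h2, h3, mul_one, H_sum]
  ring

theorem up_iw {ε y : Kinf} (hε : ε ≠ 0) (h1 : Valued.v ε = 1) (hy : B 0 y) :
    IsIw (up ε y hε) := by
  refine ⟨up_mem hε h1 hy, ?_⟩
  have : (up ε y hε).1 1 0 = 0 := by simp [up]
  rw [this]
  exact B_zero _

theorem F_up (x y : Kinf) (hx : x ≠ 0) (n : ℕ) (hv : Valued.v x = WithZero.exp (n : ℤ)) :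
    F (up x y hx) = 2 / 3 * 2 ^ n - 1 := by
  obtain ⟨p, ε, y', hε, h1, h2, h3⟩ := up_eq n x y hx hv
  rw [h3, F_iw _ _ (up_iw hε h1 (B_mono (by omega) h2)), ← mp_uR, F_left, F, nn_A_w, nn_A]
  simp only [H]
  push_cast
  ring

end

end Pool.Agent.R423.AL.Reg
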