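import Mathlib

/-!
# Balls in a local field with residue field `F₂` and additive functions of balls
-/

namespace Pool.Agent.R423.AL.St

open scoped WithZero

noncomputable section

variable {F : Type} [Field F] [Valued F ℤᵐ⁰]

/-- `|x| ≤ exp (-j)` -/
def inB (j : ℤ) (x : F) : Prop := Valued.v x ≤ WithZero.exp (-j)

theorem lt_exp_iff (a : ℤᵐ⁰) (j : ℤ) :
    a < WithZero.exp (-j) ↔ a ≤ WithZero.exp (-(j + 1)) := by
  have h := WithZero.lt_mul_exp_iff_le (x := a) (y := WithZero.exp (-(j + 1)))
    WithZero.exp_ne_zero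
  rw [← WithZero.exp_add] at h
  rw [← h]
  have : -(j + 1) + 1 = -j := by ring
  rw [this]

theorem inB_zero (j : ℤ) : inB j (0 : F) := by simp [inB]

theorem inB_add {j : ℤ} {x y : F} (hx : inB j x) (hy : inB j y) : inB j (x + y) :=
  (Valuation.map_add _ _ _).trans (max_le hx hy)

theorem inB_neg {j : ℤ} {x : F} (hx : inB j x) : inB j (-x) := by
  rw [inB, Valuation.map_neg]; exact hx

theorem inB_sub {j : ℤ} {x y : F} (hx : inB j x) (hy : inB j y) : inB j (x - y) :=
  (Valuation.map_sub _ _ _).trans (max_le hx hy)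

theorem inB_mono {i j : ℤ} (h : i ≤ j) {x : F} (hx : inB j x) : inB i x :=
  hx.trans (WithZero.exp_le_exp.2 (by omega))

/-- `ϖ` is a uniformiser and the residue field has two elements. -/
structure Unif (ϖ : F) : Prop where
  v : Valued.v ϖ = WithZero.exp (-1 : ℤ)
  res : ∀ x : F, Valued.v x ≤ 1 → Valued.v x < 1 ∨ Valued.v (x - 1) < 1

variable {ϖ : F}

theorem Unif.ne_zero (h : Unif ϖ) : ϖ ≠ 0 := by
  intro h0
  have := h.v
  rw [h0, map_zero] at this
  exact WithZero.exp_ne_zero this.symm

theorem Unif.v_zpow (h : Unif ϖ) (j : ℤ) : Valued.v (ϖ ^ j) = WithZero.exp (-j) := by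
  rw [map_zpow₀, h.v, ← WithZero.exp_zsmul]
  simp

theorem Unif.inB_zpow (h : Unif ϖ) (j : ℤ) : inB j (ϖ ^ j) := (h.v_zpow j).le

theorem Unif.not_inB_zpow (h : Unif ϖ) (j : ℤ) : ¬ inB (j + 1) (ϖ ^ j) := by
  rw [inB, h.v_zpow, WithZero.exp_le_exp]
  omega

theorem Unif.split (h : Unif ϖ) {j : ℤ} {x : F} (hx : inB j x) :
    inB (j + 1) x ∨ inB (j + 1) (x - ϖ ^ j) := by
  have h0 := h.v_zpow j
  have hne : ϖ ^ j ≠ 0 := zpow_ne_zero _ h.ne_zero
  have h1 : Valued.v (x / ϖ ^ j) ≤ 1 := by
    rw [map_div₀, h0]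
    exact div_le_one_of_le₀ hx zero_le
  have key : ∀ y : F, Valued.v (y / ϖ ^ j) < 1 → inB (j + 1) y := by
    intro y hy
    rw [map_div₀, h0, div_lt_one₀ (by simp)] at hy
    exact (lt_exp_iff _ _).1 hy
  rcases h.res _ h1 with h2 | h2
  · exact Or.inl (key _ h2)
  · refine Or.inr (key _ ?_)
    rwa [sub_div, div_self hne]

/-- Representatives of `ϖ^j O` modulo `ϖ^(j+k) O`. -/
def reps (ϖ : F) : ℕ → ℤ → List F
  | 0, _ => [0]
  | k + 1, j => reps ϖ k (j + 1) ++ (reps ϖ k (j + 1)).map (ϖ ^ j + ·)

theorem reps_mem (h : Unif ϖ) (k : ℕ) : ∀ (j : ℤ) (b : F), b ∈ reps ϖ k j → inB j b := by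
  induction k with
  | zero =>
    intro j b hb
    simp only [reps, List.mem_singleton] at hb
    rw [hb]
    exact inB_zero j
  | succ k ih =>
    intro j b hb
    simp only [reps, List.mem_append, List.mem_map] at hb
    rcases hb with hb | ⟨c, hc, rfl⟩
    · exact inB_mono (by omega) (ih _ _ hb)
    · exact inB_add (h.inB_zpow j) (inB_mono (by omega) (ih _ _ hc))

theorem reps_cover (h : Unif ϖ) (k : ℕ) : ∀ (j : ℤ) (y : F), inB j y →
    ∃ b ∈ reps ϖ k j, inB (j + k) (y - b) := by
  induction k with
  | zero =>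
    intro j y hy
    exact ⟨0, by simp [reps], by simpa using hy⟩
  | succ k ih =>
    intro j y hy
    have e : j + ((k + 1 : ℕ) : ℤ) = j + 1 + k := by push_cast; ring
    rw [e]
    rcases h.split hy with h1 | h1
    · obtain ⟨b, hb, hyb⟩ := ih _ _ h1
      exact ⟨b, by simp [reps, hb], hyb⟩
    · obtain ⟨b, hb, hyb⟩ := ih _ _ h1
      refine ⟨ϖ ^ j + b, by simp [reps, hb], ?_⟩
      rwa [← sub_sub]

omit [Valued F ℤᵐ⁰] in
theorem reps_length (k : ℕ) : ∀ j : ℤ, (reps ϖ k j).length = 2 ^ k := by
  induction k with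
  | zero => intro j; simp [reps]
  | succ k ih =>
    intro j
    simp only [reps, List.length_append, List.length_map, ih]
    ring

/-- Additive functions of balls `a + ϖ^j O`. -/
structure BallFn (ϖ : F) {M : Type*} [AddCommGroup M] (e : F → ℤ → M) : Prop where
  congr : ∀ a a' j, inB j (a - a') → e a j = e a' j
  add : ∀ a j, e a j = e a (j + 1) + e (a + ϖ ^ j) (j + 1)

variable {M : Type*} [AddCommGroup M] {e : F → ℤ → M}

theorem BallFn.sub (he : BallFn ϖ e) (k : ℕ) : ∀ (a : F) (j : ℤ),
    ((reps ϖ k j).map (fun b => e (a + b) (j + k))).sum = e a j := by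
  induction k with
  | zero => intro a j; simp [reps]
  | succ k ih =>
    intro a j
    have e' : j + ((k + 1 : ℕ) : ℤ) = j + 1 + k := by push_cast; ring
    rw [e', he.add a j, ← ih a (j + 1), ← ih (a + ϖ ^ j) (j + 1)]
    simp only [reps, List.map_append, List.sum_append, List.map_map]
    congr 3
    funext b
    simp [add_assoc]

theorem BallFn.avg (he : BallFn ϖ e) (h : Unif ϖ) (r k : ℕ) : ∀ (a : F) (i : ℤ),
    ((reps ϖ (r + k) i).map (fun b => e (a + b) (i + r))).sum = 2 ^ k • e a i := by
  induction r with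
  | zero =>
    intro a i
    have h1 : (reps ϖ (0 + k) i).map (fun b => e (a + b) (i + ((0 : ℕ) : ℤ))) =
        (reps ϖ (0 + k) i).map (fun _ => e a i) := by
      apply List.map_congr_left
      intro b hb
      have h2 := reps_mem h _ _ _ hb
      have h3 : i + ((0 : ℕ) : ℤ) = i := by simp
      rw [h3]
      exact he.congr _ _ _ (by simpa using h2)
    rw [h1]
    simp [reps_length]
  | succ r ih =>
    intro a i
    have e' : i + ((r + 1 : ℕ) : ℤ) = i + 1 + r := by push_cast; ring
    have e'' : r + 1 + k = (r + k) + 1 := by ring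
    rw [e', e'', he.add a i, smul_add, ← ih a (i + 1), ← ih (a + ϖ ^ i) (i + 1)]
    simp only [reps, List.map_append, List.sum_append, List.map_map]
    congr 3
    funext b
    simp [add_assoc]

open Classical in
theorem BallFn.decomp (he : BallFn ϖ e) (h : Unif ϖ) (r k : ℕ) : ∀ (a c : F) (i : ℤ),
    inB i (a - c) →
    ((reps ϖ (r + k) i).map (fun b => if inB (i + r) (c + b - a) then
      e (c + b) (i + r + k) else 0)).sum = e a (i + r) := by
  induction r with
  | zero =>
    intro a c i hac
    have h1 : (reps ϖ (0 + k) i).map (fun b => if inB (i + ((0 : ℕ) : ℤ)) (c + b - a) then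
      e (c + b) (i + ((0 : ℕ) : ℤ) + k) else 0) =
        (reps ϖ k i).map (fun b => e (c + b) (i + k)) := by
      rw [zero_add]
      apply List.map_congr_left
      intro b hb
      have h2 := reps_mem h _ _ _ hb
      have h3 : i + ((0 : ℕ) : ℤ) = i := by simp
      rw [h3, if_pos]
      have : c + b - a = b - (a - c) := by ring
      rw [this]
      exact inB_sub h2 hac
    rw [h1, he.sub]
    simp only [Nat.cast_zero, add_zero]
    exact he.congr _ _ _ (by have := inB_neg hac; rwa [neg_sub] at this)
  | succ r ih =>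
    intro a c i hac
    have e' : i + ((r + 1 : ℕ) : ℤ) = i + 1 + r := by push_cast; ring
    have e'' : r + 1 + k = (r + k) + 1 := by ring
    rw [e', e'']
    simp only [reps, List.map_append, List.sum_append, List.map_map]
    have hz : ∀ c' : F, ¬ inB (i + 1) (a - c') →
        ((reps ϖ (r + k) (i + 1)).map (fun b => if inB (i + 1 + r) (c' + b - a) then
          e (c' + b) (i + 1 + r + k) else 0)).sum = 0 := by
      intro c' hc'
      have : (reps ϖ (r + k) (i + 1)).map (fun b => if inB (i + 1 + r) (c' + b - a) then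
          e (c' + b) (i + 1 + r + k) else 0) =
          (reps ϖ (r + k) (i + 1)).map (fun _ => (0 : M)) := by
        apply List.map_congr_left
        intro b hb
        rw [if_neg]
        intro h4
        apply hc'
        have h5 := inB_sub (reps_mem h _ _ _ hb) (inB_mono (by omega) h4 : inB (i + 1) (c' + b - a))
        have h6 : b - (c' + b - a) = a - c' := by ring
        rwa [h6] at h5
      rw [this]
      simp
    have hcomp : ((fun b => if inB (i + 1 + r) (c + b - a) then e (c + b) (i + 1 + r + k) else 0) ∘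
        (ϖ ^ i + ·)) = (fun b => if inB (i + 1 + r) (c + ϖ ^ i + b - a) then
          e (c + ϖ ^ i + b) (i + 1 + r + k) else 0) := by
      funext b
      simp [add_assoc]
    rw [hcomp]
    rcases h.split hac with h1 | h1
    · rw [ih a c (i + 1) h1, hz (c + ϖ ^ i), add_zero]
      intro h2
      have h3 := inB_sub h1 h2
      have h4 : a - c - (a - (c + ϖ ^ i)) = ϖ ^ i := by ring
      rw [h4] at h3
      exact h.not_inB_zpow i h3
    · rw [sub_sub] at h1
      rw [ih a (c + ϖ ^ i) (i + 1) h1, hz c, zero_add]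
      intro h2
      have h3 := inB_sub h2 h1
      have h4 : a - c - (a - (c + ϖ ^ i)) = ϖ ^ i := by ring
      rw [h4] at h3
      exact h.not_inB_zpow i h3

theorem list_sum_finset_sum {ι β N : Type*} [AddCommMonoid N] (l : List β) (s : Finset ι)
    (φ : ι → β → N) :
    (l.map (fun b => ∑ i ∈ s, φ i b)).sum = ∑ i ∈ s, (l.map (φ i)).sum := by
  induction l with
  | nil => simp
  | cons b l ih => simp [ih, Finset.sum_add_distrib]

theorem list_smul_sum {β N : Type*} [AddCommMonoid N] [Module ℂ N] (l : List β)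
    (φ : β → N) (c : ℂ) : (l.map (fun b => c • φ b)).sum = c • (l.map φ).sum := by
  induction l with
  | nil => simp
  | cons b l ih => simp [ih]

theorem exists_bound {ι : Type*} (s : Finset ι) (a : ι → F) (j : ι → ℤ) :
    ∃ N : ℕ, ∀ i ∈ s, inB (-(N : ℤ)) (a i) ∧ -(N : ℤ) ≤ j i ∧ j i ≤ N := by
  classical
  induction s using Finset.induction_on with
  | empty => exact ⟨0, by simp⟩
  | insert x s hx ih =>
    obtain ⟨N, hN⟩ := ih
    refine ⟨N + (WithZero.log (Valued.v (a x))).natAbs + (j x).natAbs, ?_⟩
    intro i hi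
    rcases Finset.mem_insert.1 hi with rfl | hi
    · refine ⟨?_, by omega, by omega⟩
      refine (WithZero.le_exp_log).trans (WithZero.exp_le_exp.2 ?_)
      omega
    · obtain ⟨h1, h2, h3⟩ := hN i hi
      refine ⟨inB_mono (by omega) h1, by omega, by omega⟩

variable {V : Type*} [AddCommGroup V] [Module ℂ V] {ε : F → ℤ → V}

open Classical in
/-- Every linear relation between indicator functions of balls holds for every additive function of
balls. -/
theorem BallFn.relation (he : BallFn ϖ ε) (h : Unif ϖ) {ι : Type*} (s : Finset ι) (c : ι → ℂ)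
    (a : ι → F) (j : ι → ℤ)
    (H : ∀ y : F, ∑ i ∈ s, c i * (if inB (j i) (y - a i) then (1 : ℂ) else 0) = 0) :
    ∑ i ∈ s, c i • ε (a i) (j i) = 0 := by
  obtain ⟨N, hN⟩ := exists_bound s a j
  have key : ∀ i ∈ s, c i • ε (a i) (j i) = ((reps ϖ (N + N) (-(N : ℤ))).map (fun b =>
      (c i * (if inB (j i) (b - a i) then (1 : ℂ) else 0)) • ε b N)).sum := by
    intro i hi
    obtain ⟨h1, h2, h3⟩ := hN i hi
    obtain ⟨r, hr⟩ : ∃ r : ℕ, j i = -(N : ℤ) + r := ⟨(j i + N).toNat, by omega⟩
    obtain ⟨k, hk⟩ : ∃ k : ℕ, N + N = r + k := ⟨N + N - r, by omega⟩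
    have h4 := he.decomp h r k (a i) 0 (-(N : ℤ)) (by simpa using h1)
    have h5 : -(N : ℤ) + r + k = N := by omega
    simp only [zero_add] at h4
    rw [h5, ← hk, ← hr] at h4
    rw [← h4, ← list_smul_sum]
    congr 1
    apply List.map_congr_left
    intro b _
    split_ifs <;> simp
  rw [Finset.sum_congr rfl key, ← list_sum_finset_sum]
  have : (fun b => ∑ i ∈ s, (c i * (if inB (j i) (b - a i) then (1 : ℂ) else 0)) • ε b (N : ℤ)) =
      fun _ => (0 : V) := by
    funext b
    rw [← Finset.sum_smul, H b, zero_smul]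
  rw [this]
  simp

open Classical in
/-- The indicator functions of balls, evaluated at a point. -/
theorem ballFn_ind (h : Unif ϖ) (y : F) :
    BallFn ϖ (fun (a : F) (j : ℤ) => if inB j (y - a) then (1 : ℂ) else 0) where
  congr := by
    intro a a' j haa
    have : inB j (y - a) ↔ inB j (y - a') := by
      constructor
      · intro h1
        have := inB_add h1 haa
        have e' : y - a + (a - a') = y - a' := by ring
        rwa [e'] at this
      · intro h1
        have := inB_sub h1 haa
        have e' : y - a' - (a - a') = y - a := by ring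
        rwa [e'] at this
    simp only [this]
  add := by
    intro a j
    by_cases h1 : inB j (y - a)
    · rw [if_pos h1]
      rcases h.split h1 with h2 | h2
      · rw [if_pos h2, if_neg]
        · simp
        · intro h3
          have h4 := inB_sub h2 h3
          have e' : y - a - (y - (a + ϖ ^ j)) = ϖ ^ j := by ring
          rw [e'] at h4
          exact h.not_inB_zpow j h4
      · rw [sub_sub] at h2
        rw [if_pos h2, if_neg]
        · simp
        · intro h3
          have h4 := inB_sub h3 h2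
          have e' : y - a - (y - (a + ϖ ^ j)) = ϖ ^ j := by ring
          rw [e'] at h4
          exact h.not_inB_zpow j h4
    · rw [if_neg h1, if_neg, if_neg]
      · simp
      · intro h2
        apply h1
        have h3 := inB_add (inB_mono (by omega) h2 : inB j _) (h.inB_zpow j)
        have e' : y - (a + ϖ ^ j) + ϖ ^ j = y - a := by ring
        rwa [e'] at h3
      · intro h2
        exact h1 (inB_mono (by omega) h2)

end

end Pool.Agent.R423.AL.St
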