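import Pool.Agent.R423.AL.RegMu
import Pool.Agent.R423.AL.StBall

/-!
# The functional attached to a harmonic function
-/

namespace Pool.Agent.R423.AL.Reg

open scoped WithZero Polynomial

noncomputable section

theorem gM_eq (c : Kinf) (m : ℤ) :
    gM c m = dgM (pw (-m)) 1 (pw_ne_zero _) one_ne_zero * lowM (-c * pw (-m)) := by
  apply ext4 <;> simp [gM, lowM, dgM]

theorem iw_low {c : Kinf} (h : B 1 c) : IsIw (lowM c) := by
  refine ⟨lowM_mem_GLO (B_mono (by norm_num) h), ?_⟩
  have : (lowM c : GL (Fin 2) Kinf).1 1 0 = c := by simp [lowM]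
  rw [this]; exact h

theorem iw_uni {c : Kinf} (h : B 0 c) : IsIw (uni c) := by
  refine ⟨uni_mem_GLO h, ?_⟩
  have : (uni c : GL (Fin 2) Kinf).1 1 0 = 0 := by simp [uni]
  rw [this]; exact B_zero _

theorem unif : St.Unif (LF.pi : Kinf) := ⟨LF.v_pi, LF.residue⟩

variable {Fn : GL (Fin 2) Kinf → ℂ}

theorem ballFn (hF : IsHarm Fn) :
    St.BallFn (LF.pi : Kinf) (fun (c : Kinf) (k : ℤ) => Fn (gM c (k - 1))) where
  congr := by
    intro c c' k hcc
    have h1 : B k (c - c') := hcc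
    have e : gM c' (k - 1) = gM c (k - 1) * lowM ((c - c') * pw (-(k - 1))) := by
      rw [gM_eq, gM_eq, mul_assoc, lowM_mul]
      congr 2
      ring
    have h2 : B 1 ((c - c') * pw (-(k - 1))) := by
      rw [mul_comm]
      have := (B_pw_mul_iff (k := -(k - 1)) (n := k)).2 h1
      have e2 : k + -(k - 1) = 1 := by ring
      rwa [e2] at this
    change Fn (gM c (k - 1)) = Fn (gM c' (k - 1))
    rw [e, hF.iw _ _ (iw_low h2)]
  add := by
    intro c k
    change Fn (gM c (k - 1)) = Fn (gM c (k + 1 - 1)) + Fn (gM (c + LF.pi ^ k) (k + 1 - 1))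
    have h1 := hF.sgn (gM c (k - 1))
    have h2 := hF.harm (gM c (k - 1) * wM)
    have h3 : Fn (gM c (k - 1) * wM * wK) = Fn (gM c (k + 1 - 1)) := by
      have e : gM c (k - 1) * wM * wK = gM c (k + 1 - 1) * Z LF.pi pi_ne := by
        have h4 : (wM * wK : GL (Fin 2) Kinf) = dgM (pw (-1)) 1 (pw_ne_zero _) one_ne_zero *
            Z LF.pi pi_ne := by
          have hp : (pw (-1) : Kinf) * LF.pi = 1 := by
            unfold pw
            rw [zpow_neg, zpow_one, inv_mul_cancel₀ pi_ne]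
          apply ext4
          · simp [wM, wK, dgM, Z, hp]
          · simp [wM, wK, dgM, Z]
          · simp [wM, wK, dgM, Z]
          · simp [wM, wK, dgM, Z]
        have h5 : gM c (k - 1) * dgM (pw (-1)) 1 (pw_ne_zero _) one_ne_zero = gM c (k + 1 - 1) := by
          have e3 : (pw (1 - k) : Kinf) * pw (-1) = pw (-k) := by
            rw [← pw_add]; congr 1; ring
          unfold gM
          apply ext4
          · simp [lowM, dgM, e3]
          · simp [lowM, dgM]
          · simp [lowM, dgM, e3, mul_assoc]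
          · simp [lowM, dgM]
        rw [mul_assoc, h4, ← mul_assoc, h5]
      rw [e]
      exact hF.ctr _ _ _
    have h6 : Fn (gM c (k - 1) * wM * lowM 1) = Fn (gM (c + LF.pi ^ k) (k + 1 - 1)) := by
      have e : gM c (k - 1) * wM * lowM 1 = gM (c + LF.pi ^ k) (k + 1 - 1) * Z LF.pi pi_ne *
          uni 1 := by
        have hp : (pw (1 - k) : Kinf) = pw (-k) * LF.pi := by
          have : (LF.pi : Kinf) = pw 1 := by unfold pw; rw [zpow_one]
          rw [this, ← pw_add]; congr 1; ring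
        have hq : (LF.pi : Kinf) ^ k * pw (-k) = 1 := by
          change (pw k : Kinf) * pw (-k) = 1
          rw [← pw_add]
          have : k + -k = 0 := by ring
          rw [this, pw_zero]
        unfold gM
        apply ext4
        · simp [lowM, dgM, wM, Z, uni, Matrix.mul_apply, Fin.sum_univ_two]
          exact hp
        · simp [lowM, dgM, wM, Z, uni, Matrix.mul_apply, Fin.sum_univ_two]
          exact hp
        · simp [lowM, dgM, wM, Z, uni, Matrix.mul_apply, Fin.sum_univ_two]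
          rw [hp]
          linear_combination two_inf LF.pi + LF.pi * hq
        · simp [lowM, dgM, wM, Z, uni, Matrix.mul_apply, Fin.sum_univ_two]
          rw [hp]
          linear_combination LF.pi * hq
      rw [e, hF.iw _ _ (iw_uni B_one)]
      exact hF.ctr _ _ _
    rw [h3, h6] at h2
    rw [h1] at h2
    linear_combination -h2

theorem sub_mem_balls (W : Submodule ℂ (VS Kinf)) (hW : ∀ c k, ballV c k ∈ W) (f : VS Kinf) :
    f - f.1 (1, 0) • oneV ∈ W := by
  obtain ⟨n, hn⟩ := f.2.2.2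
  refine ball_induction W hW (2 * n) 0 (-n) _ ?_ ?_ ?_
  · change f.1 (1, 0) - f.1 (1, 0) * (oneV : VS Kinf).1 (1, 0) = 0
    rw [oneV_apply (by intro h; exact one_ne_zero (congrArg Prod.fst h))]
    ring
  · intro x hx
    change f.1 (x, 1) - f.1 (1, 0) * (oneV : VS Kinf).1 (x, 1) = 0
    rw [oneV_apply (by intro h; exact one_ne_zero (congrArg Prod.snd h))]
    rw [sub_zero] at hx
    obtain ⟨hx0, hx1⟩ := not_B_inv hx
    have e : (x, (1 : Kinf)) = x • (((1 : Kinf), (0 : Kinf)) + (0, x⁻¹)) := by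
      ext
      · simp
      · simp [hx0]
    rw [e, f.2.2.1 x hx0, hn (1, 0) (0, x⁻¹) not_Bp_one_of_fst ⟨B_zero _, hx1⟩]
    ring
  · intro x y hxy
    change f.1 (x, 1) - f.1 (1, 0) * (oneV : VS Kinf).1 (x, 1) =
      f.1 (y, 1) - f.1 (1, 0) * (oneV : VS Kinf).1 (y, 1)
    rw [oneV_apply (by intro h; exact one_ne_zero (congrArg Prod.snd h)),
      oneV_apply (by intro h; exact one_ne_zero (congrArg Prod.snd h))]
    congr 1
    have e : (x, (1 : Kinf)) = (y, 1) + (x - y, 0) := by ext <;> simp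
    rw [e]
    refine hn _ _ not_Bp_one_of_snd ⟨?_, B_zero _⟩
    have : (-(n : ℤ) + ((2 * n : ℕ) : ℤ)) = n := by push_cast; ring
    rwa [this] at hxy

/-- formal combinations of balls -/
def PP : (Kinf × ℤ →₀ ℂ) →ₗ[ℂ] VS Kinf :=
  Finsupp.linearCombination ℂ (fun p => ballV p.1 p.2)

/-- the values of `F` on formal combinations of balls -/
def EE (Fn : GL (Fin 2) Kinf → ℂ) : (Kinf × ℤ →₀ ℂ) →ₗ[ℂ] ℂ :=
  Finsupp.linearCombination ℂ (fun p => Fn (gM p.1 (p.2 - 1)))

theorem EE_eq_zero (hF : IsHarm Fn) (x : Kinf × ℤ →₀ ℂ) (hx : PP x = 0) : EE Fn x = 0 := by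
  classical
  rw [EE, Finsupp.linearCombination_apply, Finsupp.sum]
  refine (ballFn hF).relation unif x.support x (fun p => p.1) (fun p => p.2) ?_
  intro y
  have h1 : (PP x).1 (y, 1) = 0 := by rw [hx]; rfl
  rw [PP, Finsupp.linearCombination_apply, Finsupp.sum] at h1
  have h2 : (∑ a ∈ x.support, x a • ballV a.1 a.2 : VS Kinf).1 =
      ∑ a ∈ x.support, (x a • ballV a.1 a.2 : VS Kinf).1 := map_sum (Submodule.subtype (VS Kinf)) _ _
  rw [h2, Finset.sum_apply] at h1
  refine Eq.trans ?_ h1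
  refine Finset.sum_congr rfl fun p _ => ?_
  change _ = x p * (ballV p.1 p.2).1 (y, 1)
  rw [ballV_fst]
  rfl

theorem rho_iw (g : GL (Fin 2) Kinf) {i : GL (Fin 2) Kinf} (hi : IsIw i) :
    rhoV Kinf (g * i) dV = rhoV Kinf g dV := by
  apply Subtype.ext
  funext p
  rw [rhoV_apply, rhoV_apply, act_mul, dV_iw hi]

theorem rho_Z (g : GL (Fin 2) Kinf) (z : Kinf) (hz : z ≠ 0) :
    rhoV Kinf (g * Z z hz) dV = rhoV Kinf g dV := by
  apply Subtype.ext
  funext p
  rw [rhoV_apply, rhoV_apply]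
  have e : (act (g * Z z hz) p : Kinf × Kinf) = z • act g p := by
    rw [act_mul, Z, act_dgM]
    ext <;> simp [mul_comm]
  rw [e, (dV : VS Kinf).2.2.1 z hz]

/-- one half of the Bruhat decomposition -/
theorem bruhat (g : GL (Fin 2) Kinf) (h : Valued.v (g.1 0 1) ≤ Valued.v (g.1 0 0)) :
    ∃ (p : Kinf) (m : ℤ) (z : Kinf) (hz : z ≠ 0) (i : GL (Fin 2) Kinf), IsIw i ∧
      g = gM p m * Z z hz * i := by
  have hdet : g.1.det ≠ 0 := ((Matrix.isUnit_iff_isUnit_det _).1 g.isUnit).ne_zero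
  have ha : g.1 0 0 ≠ 0 := by
    intro h0
    rw [h0, map_zero] at h
    have h1 : g.1 0 1 = 0 := by
      have := le_antisymm h zero_le
      simpa using this
    apply hdet
    rw [Matrix.det_fin_two, h0, h1]
    ring
  obtain ⟨a, ha'⟩ : ∃ a, g.1 0 0 = a := ⟨_, rfl⟩
  obtain ⟨b, hb'⟩ : ∃ b, g.1 0 1 = b := ⟨_, rfl⟩
  obtain ⟨c, hc'⟩ : ∃ c, g.1 1 0 = c := ⟨_, rfl⟩
  obtain ⟨d, hd'⟩ : ∃ d, g.1 1 1 = d := ⟨_, rfl⟩
  rw [Matrix.det_fin_two, ha', hb', hc', hd'] at hdet
  rw [ha'] at ha h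
  rw [hb'] at h
  obtain ⟨D, hD⟩ : ∃ D, a * d - b * c = D := ⟨_, rfl⟩
  rw [hD] at hdet
  have hdd : d = (D + b * c) / a := by
    rw [eq_div_iff ha, ← hD]; ring
  have hα : a ^ 2 / D ≠ 0 := div_ne_zero (pow_ne_zero _ ha) hdet
  obtain ⟨n, hn⟩ := exists_ord hα
  have hz : D / a ≠ 0 := div_ne_zero hdet ha
  have hε : a ^ 2 / D * pw (-n) ≠ 0 := mul_ne_zero hα (pw_ne_zero _)
  have hvε : Valued.v (a ^ 2 / D * pw (-n) : Kinf) = 1 := by
    rw [ord_mul hn (v_pw (-n))]
    simp
  have hpp : (pw n : Kinf) * pw (-n) = 1 := by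
    rw [← pw_add, add_neg_cancel, pw_zero]
  have hba : B 0 (b / a) := by
    rw [B_zero_iff, map_div₀]
    exact div_le_one_of_le₀ h zero_le
  refine ⟨-(c / a), -n, D / a, hz,
    up (a ^ 2 / D * pw (-n)) 0 hε * uni (b / a), ?_, ?_⟩
  · have h1 := up_iw hε hvε (B_zero 0)
    have h2 := iw_uni hba
    refine ⟨mul_mem h1.1 h2.1, ?_⟩
    have : (up (a ^ 2 / D * pw (-n)) 0 hε * uni (b / a)).1 1 0 = 0 := by
      simp [up, uni, Matrix.mul_apply, Fin.sum_univ_two]
    rw [this]; exact B_zero _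
  · have hpn : (pw (-n) : Kinf) ≠ 0 := pw_ne_zero _
    have hpn' : (pw n : Kinf) = (pw (-n))⁻¹ := eq_inv_of_mul_eq_one_left hpp
    unfold gM
    apply ext4
    · simp [lowM, dgM, Z, up, uni, Matrix.mul_apply, Fin.sum_univ_two, ha', hpn']
      field_simp
    · simp [lowM, dgM, Z, up, uni, Matrix.mul_apply, Fin.sum_univ_two, hb', hpn']
      field_simp
    · simp [lowM, dgM, Z, up, uni, Matrix.mul_apply, Fin.sum_univ_two, hc', hpn']
      field_simp
    · simp [lowM, dgM, Z, up, uni, Matrix.mul_apply, Fin.sum_univ_two, hd', hpn']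
      rw [hdd]
      field_simp
      ring

theorem exists_lambda_inf (Fn : GL (Fin 2) Kinf → ℂ) (hF : IsHarm Fn) :
    ∃ Lam : VS Kinf →ₗ[ℂ] ℂ, Lam oneV = 0 ∧ ∀ g, Lam (rhoV Kinf g dV) = Fn g := by
  classical
  have hsurj : ∀ f : VS Kinf, ∃ x, PP x = f - f.1 (1, 0) • oneV := by
    intro f
    have h1 := sub_mem_balls (LinearMap.range PP) (fun c k => ⟨Finsupp.single (c, k) 1, by
      simp [PP]⟩) f
    exact h1
  choose s hs using hsurj
  have hker : ∀ x y, PP x = PP y → EE Fn x = EE Fn y := by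
    intro x y hxy
    have h1 : PP (x - y) = 0 := by rw [map_sub, hxy, sub_self]
    have h2 := EE_eq_zero hF _ h1
    rwa [map_sub, sub_eq_zero] at h2
  let Lam : VS Kinf →ₗ[ℂ] ℂ :=
    { toFun := fun f => EE Fn (s f)
      map_add' := by
        intro a b
        rw [← map_add]
        apply hker
        rw [map_add, hs, hs, hs]
        have : (a + b).1 (1, 0) = a.1 (1, 0) + b.1 (1, 0) := rfl
        rw [this, add_smul]
        abel
      map_smul' := by
        intro c a
        rw [RingHom.id_apply, ← map_smul]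
        apply hker
        rw [map_smul, hs, hs]
        have : (c • a).1 (1, 0) = c * a.1 (1, 0) := rfl
        rw [this, smul_sub, mul_smul] }
  have hLone : Lam oneV = 0 := by
    change EE Fn (s oneV) = 0
    apply EE_eq_zero hF
    rw [hs, oneV_apply (by intro h; exact one_ne_zero (congrArg Prod.fst h)), one_smul, sub_self]
  have hLball : ∀ (p : Kinf) (k : ℤ), Lam (ballV p k) = Fn (gM p (k - 1)) := by
    intro p k
    change EE Fn (s (ballV p k)) = _
    have h1 : EE Fn (Finsupp.single (p, k) 1) = Fn (gM p (k - 1)) := by simp [EE]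
    rw [← h1]
    apply hker
    rw [hs, ballV_inf, zero_smul, sub_zero]
    simp [PP]
  have hLg : ∀ g : GL (Fin 2) Kinf, Valued.v (g.1 0 1) ≤ Valued.v (g.1 0 0) →
      Lam (rhoV Kinf g dV) = Fn g := by
    intro g hg
    obtain ⟨p, m, z, hz, i, hi, rfl⟩ := bruhat g hg
    rw [rho_iw _ hi, rho_Z, hF.iw _ _ hi]
    have h1 := hF.ctr (gM p m) z hz
    change Fn (gM p m * Z z hz) = _ at h1
    rw [h1]
    have h2 := hLball p (m + 1)
    rw [add_sub_cancel_right] at h2
    rw [← h2, ballV, add_sub_cancel_right]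
  refine ⟨Lam, hLone, fun g => ?_⟩
  by_cases h : Valued.v (g.1 0 1) ≤ Valued.v (g.1 0 0)
  · exact hLg g h
  · have e1 : (g * wM).1 0 1 = g.1 0 0 := by
      rw [Units.val_mul, wM_val, Matrix.mul_apply, Fin.sum_univ_two]
      simp
    have e2 : (g * wM).1 0 0 = g.1 0 1 * LF.pi := by
      rw [Units.val_mul, wM_val, Matrix.mul_apply, Fin.sum_univ_two]
      simp
    have h1 : Valued.v ((g * wM).1 0 1) ≤ Valued.v ((g * wM).1 0 0) := by
      rw [e1, e2, map_mul, LF.v_pi]
      rw [not_le] at h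
      have hb : g.1 0 1 ≠ 0 := by
        intro h0
        rw [h0, map_zero] at h
        exact not_lt_zero h
      obtain ⟨m, hm⟩ := exists_ord hb
      rw [hm] at h ⊢
      rcases eq_or_ne (g.1 0 0) 0 with h0 | h0
      · rw [h0, map_zero]; exact zero_le
      · obtain ⟨n, hn⟩ := exists_ord h0
        rw [hn, WithZero.exp_lt_exp] at h
        rw [hn, ← WithZero.exp_add, WithZero.exp_le_exp]
        omega
    have h2 := hLg _ h1
    rw [hF.sgn] at h2
    have h3 : rhoV Kinf g dV = oneV - rhoV Kinf (g * wM) dV := by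
      apply Subtype.ext
      funext p
      rcases eq_or_ne p 0 with rfl | hp
      · exact (rhoV Kinf g dV).2.1.trans ((oneV : VS Kinf) - rhoV Kinf (g * wM) dV).2.1.symm
      · change (dV : VS Kinf).1 (act g p) = (oneV : VS Kinf).1 p - (dV : VS Kinf).1 (act (g * wM) p)
        rw [oneV_apply hp, act_mul]
        have := dV_w (act_ne_zero (g := g) hp)
        linear_combination this
    rw [h3, map_sub, hLone, h2]
    ring

end

end Pool.Agent.R423.AL.Reg
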