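import Pool.Agent.R423.AL.RegF

/-!
# The regularised sum
-/

namespace Pool.Agent.R423.AL.Reg

open scoped WithZero Polynomial

noncomputable section

open Classical in
theorem dV_apply (p : Kinf × Kinf) :
    (dV : VS Kinf).1 p = if Valued.v p.1 < Valued.v p.2 then 1 else 0 := rfl

theorem dV_congr {p q : Kinf × Kinf}
    (h : Valued.v p.1 < Valued.v p.2 ↔ Valued.v q.1 < Valued.v q.2) :
    (dV : VS Kinf).1 p = (dV : VS Kinf).1 q := by
  classical
  rw [dV_apply, dV_apply]
  exact if_congr h rfl rfl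

theorem dV_iw_aux {i : GL (Fin 2) Kinf} (h : IsIw i) (p : Kinf × Kinf)
    (hp : Valued.v p.1 < Valued.v p.2) : Valued.v (act i p).1 < Valued.v (act i p).2 := by
  have he := entries h.1
  have hp2 : 0 < Valued.v p.2 := lt_of_le_of_lt zero_le hp
  have h1 : Valued.v (act i p).1 < Valued.v p.2 := by
    unfold act
    refine (Valuation.map_add _ _ _).trans_lt (max_lt ?_ ?_)
    · rw [map_mul]
      exact lt_of_le_of_lt (mul_le_of_le_one_right' (B_zero_iff.1 (he 0 0))) hp
    · rw [map_mul]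
      calc Valued.v p.2 * Valued.v (i.1 1 0) < Valued.v p.2 * 1 :=
            (mul_lt_mul_iff_right₀ hp2).2 (B_one_iff.1 h.2)
        _ = Valued.v p.2 := mul_one _
  have hd : Valued.v (i.1 1 1) = 1 := by
    apply le_antisymm (B_zero_iff.1 (he 1 1))
    have := (unit_entries h).2
    rw [B_one_iff, not_lt] at this
    exact this
  have h2 : Valued.v (act i p).2 = Valued.v p.2 := by
    unfold act
    have h3 : Valued.v (p.2 * i.1 1 1) = Valued.v p.2 := by rw [map_mul, hd, mul_one]
    rw [Valuation.map_add_eq_of_lt_right, h3]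
    rw [h3, map_mul]
    exact lt_of_le_of_lt (mul_le_of_le_one_right' (B_zero_iff.1 (he 0 1))) hp
  rw [h2]
  exact h1

theorem dV_iw {i : GL (Fin 2) Kinf} (h : IsIw i) (p : Kinf × Kinf) :
    (dV : VS Kinf).1 (act i p) = (dV : VS Kinf).1 p := by
  apply dV_congr
  constructor
  · intro h1
    have := dV_iw_aux (iw_inv h) _ h1
    rwa [act_inv_act] at this
  · exact dV_iw_aux h p

theorem dV_w {p : Kinf × Kinf} (hp : p ≠ 0) :
    (dV : VS Kinf).1 p + (dV : VS Kinf).1 (act wM p) = 1 := by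
  classical
  have h1 : act (wM : GL (Fin 2) Kinf) p = (p.2 * LF.pi, p.1) := by
    simp [act, wM]
  rw [h1, dV_apply, dV_apply]
  have hpi : Valued.v (LF.pi : Kinf) = WithZero.exp (-1 : ℤ) := LF.v_pi
  by_cases h : Valued.v p.1 < Valued.v p.2
  · rw [if_pos h, if_neg]
    · ring
    · intro h2
      simp only [map_mul, hpi] at h2
      have hp2 : p.2 ≠ 0 := by
        intro h0
        rw [h0, map_zero] at h
        exact not_lt_zero h
      obtain ⟨m, hm⟩ := exists_ord hp2
      rw [hm] at h h2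
      have hp1 : p.1 ≠ 0 := by
        intro h0
        rw [h0, map_zero] at h2
        exact not_lt_zero h2
      obtain ⟨n, hn⟩ := exists_ord hp1
      rw [hn, WithZero.exp_lt_exp] at h
      rw [hn, ← WithZero.exp_add, WithZero.exp_lt_exp] at h2
      omega
  · rw [if_neg h, if_pos]
    · ring
    · simp only [map_mul, hpi]
      rw [not_lt] at h
      have hp1 : p.1 ≠ 0 := by
        intro h0
        rw [h0, map_zero] at h
        apply hp
        have h3 : p.2 = 0 := by
          have := le_antisymm h zero_le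
          simpa using this
        exact Prod.ext h0 h3
      obtain ⟨n, hn⟩ := exists_ord hp1
      rcases eq_or_ne p.2 0 with h0 | h0
      · rw [h0, map_zero, zero_mul, hn]
        exact WithZero.exp_pos
      · obtain ⟨m, hm⟩ := exists_ord h0
        rw [hn, hm, WithZero.exp_le_exp] at h
        rw [hn, hm, ← WithZero.exp_add, WithZero.exp_lt_exp]
        omega

theorem dV_harm {p : Kinf × Kinf} (hp : p ≠ 0) :
    (dV : VS Kinf).1 p + (dV : VS Kinf).1 (act (lowM 1) p) + (dV : VS Kinf).1 (act wK p) = 1 := by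
  classical
  have h1 : act (wK : GL (Fin 2) Kinf) p = (p.2, p.1) := by
    simp [act, wK]
  have h2 : act (lowM 1 : GL (Fin 2) Kinf) p = (p.1 + p.2, p.2) := by
    rw [act_lowM, mul_one]
  rw [h1, h2, dV_apply, dV_apply, dV_apply]
  simp only
  rcases lt_trichotomy (Valued.v p.1) (Valued.v p.2) with h | h | h
  · rw [if_pos h, if_neg, if_neg (not_lt.2 h.le)]
    · ring
    · rw [Valuation.map_add_eq_of_lt_right _ h]
      exact lt_irrefl _
  · rw [if_neg (not_lt.2 h.ge), if_neg (not_lt.2 h.le), if_pos]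
    · ring
    · have hp2 : p.2 ≠ 0 := by
        intro h0
        rw [h0, map_zero] at h
        exact hp (Prod.ext (by simpa using h) h0)
      have hv2 : 0 < Valued.v p.2 := (Valuation.pos_iff _).2 hp2
      have h3 : Valued.v (p.1 / p.2) = 1 := by
        rw [map_div₀, h, div_self hv2.ne']
      rcases LF.residue (p.1 / p.2) h3.le with h4 | h4
      · rw [h3] at h4; exact absurd h4 (lt_irrefl _)
      · have h5 : p.1 + p.2 = (p.1 / p.2 - 1) * p.2 := by
          rw [sub_mul, div_mul_cancel₀ _ hp2, one_mul]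
          linear_combination two_inf p.2
        rw [h5, map_mul]
        calc _ < 1 * Valued.v p.2 := (mul_lt_mul_iff_left₀ hv2).2 h4
          _ = _ := one_mul _
  · rw [if_neg (not_lt.2 h.le), if_neg, if_pos h]
    · ring
    · rw [Valuation.map_add_eq_of_lt_left _ h]
      exact not_lt.2 h.le

theorem ne01 : ((0 : Kinf), (1 : Kinf)) ≠ 0 := by
  intro h
  have := congrArg Prod.snd h
  simp at this

/-- The harmonic function. -/
def Gf (g : GL (Fin 2) Kinf) : ℂ := F g + (dV : VS Kinf).1 (act g (0, 1))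

theorem isHarm_Gf : IsHarm Gf where
  iw g i hi := by
    rw [Gf, Gf, F_iw _ _ hi, act_mul, dV_iw hi]
  ctr g z hz := by
    have e : (act (g * Z z hz) (0, 1) : Kinf × Kinf) = z • act g (0, 1) := by
      rw [act_mul, Z, act_dgM]
      ext <;> simp [mul_comm]
    change F (g * Z z hz) + (dV : VS Kinf).1 (act (g * Z z hz) (0, 1)) = _
    rw [F_ctr, e, (dV : VS Kinf).2.2.1 z hz]
    rfl
  sgn g := by
    have h1 := F_w g
    have h2 := dV_w (act_ne_zero (g := g) ne01)
    rw [Gf, Gf, act_mul]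
    linear_combination h1 + h2
  harm g := by
    have h1 := F_harm g
    have h2 := dV_harm (act_ne_zero (g := g) ne01)
    rw [Gf, Gf, Gf, act_mul, act_mul]
    linear_combination h1 + h2

/-- evaluation at `(0, 1)` -/
def ev : VS Kinf →ₗ[ℂ] ℂ where
  toFun f := f.1 (0, 1)
  map_add' _ _ := rfl
  map_smul' _ _ := rfl

/-- The functional. -/
theorem exists_mu (hl : ∀ F : GL (Fin 2) Kinf → ℂ, IsHarm F →
    ∃ Lam : VS Kinf →ₗ[ℂ] ℂ, Lam oneV = 0 ∧ ∀ g, Lam (rhoV Kinf g dV) = F g) :
    ∃ mu : VS Kinf →ₗ[ℂ] ℂ, mu oneV = -1 ∧ ∀ g, mu (rhoV Kinf g dV) = F g := by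
  obtain ⟨Lam, h1, h2⟩ := hl Gf isHarm_Gf
  refine ⟨Lam - ev, ?_, fun g => ?_⟩
  · rw [LinearMap.sub_apply, h1]
    change 0 - (oneV : VS Kinf).1 (0, 1) = -1
    rw [oneV_apply ne01]
    ring
  · rw [LinearMap.sub_apply, h2]
    change Gf g - (rhoV Kinf g dV).1 (0, 1) = F g
    rw [rhoV_apply, Gf]
    ring

theorem up_mul_up (x y x' y' : Kinf) (hx : x ≠ 0) (hx' : x' ≠ 0) :
    up x y hx * up x' y' hx' = up (x * x') (x * y' + y) (mul_ne_zero hx hx') := by
  apply ext4 <;> simp [up]

theorem up_mul_A (x y : Kinf) (hx : x ≠ 0) (n : ℕ) :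
    up x y hx * A n = up (x * tinf ^ n) y (mul_ne_zero hx (pow_ne_zero _ tinf_ne_zero)) := by
  apply ext4 <;> simp [up, A, dgM]

theorem up_mul_dg (x y w : Kinf) (hx : x ≠ 0) (hw : w ≠ 0) :
    up x y hx * dgM w 1 hw one_ne_zero = up (x * w) y (mul_ne_zero hx hw) := by
  apply ext4 <;> simp [up, dgM]

/-- The asymptotic behaviour of `F`. -/
theorem F_asymp (d : GL (Fin 2) Kinf) (hd : d.1 1 0 = 0) (c : Kinf) (m : ℤ) :
    ∀ᶠ k : ℕ in Filter.atTop, F (d * A (k + 1) * gM c m) =
      2 * F (d * A k * gM c m) + (ballV c (m + 1)).1 (0, 1) := by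
  classical
  have hdet : d.1.det ≠ 0 := ((Matrix.isUnit_iff_isUnit_det _).1 d.isUnit).ne_zero
  rw [Matrix.det_fin_two, hd, mul_zero, sub_zero] at hdet
  have ha : d.1 0 0 ≠ 0 := left_ne_zero_of_mul hdet
  have he : d.1 1 1 ≠ 0 := right_ne_zero_of_mul hdet
  set x := d.1 0 0 / d.1 1 1 with hx
  set y := d.1 0 1 / d.1 1 1 with hy
  have hx0 : x ≠ 0 := div_ne_zero ha he
  have hd' : d = up x y hx0 * Z (d.1 1 1) he := by
    apply ext4
    · simp [up, Z, dgM]; rw [hx]; field_simp
    · simp [up, Z, dgM]; rw [hy]; field_simp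
    · simp [up, Z, dgM, hd]
    · simp [up, Z, dgM]
  set w : Kinf := pw (-m) with hw
  have hw0 : w ≠ 0 := pw_ne_zero _
  have hg : gM c m = dgM w 1 hw0 one_ne_zero * lowM (-c * w) := by
    apply ext4
    · simp [gM, lowM, dgM, hw]
    · simp [gM, lowM, dgM, hw]
    · simp [gM, lowM, dgM, hw]
    · simp [gM, lowM, dgM, hw]
  -- the matrix, up to the centre
  have hmat : ∀ k : ℕ, F (d * A k * gM c m) = F (up (x * tinf ^ k * w) y
      (mul_ne_zero (mul_ne_zero hx0 (pow_ne_zero _ tinf_ne_zero)) hw0) * lowM (-c * w)) := by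
    intro k
    have e : d * A k * gM c m = up (x * tinf ^ k * w) y
      (mul_ne_zero (mul_ne_zero hx0 (pow_ne_zero _ tinf_ne_zero)) hw0) * lowM (-c * w) *
      Z (d.1 1 1) he := by
      rw [hg, ← up_mul_dg (x * tinf ^ k) y w (mul_ne_zero hx0 (pow_ne_zero _ tinf_ne_zero)) hw0,
        ← up_mul_A x y hx0 k]
      conv_lhs => rw [hd']
      calc up x y hx0 * Z (d.1 1 1) he * A k * (dgM w 1 hw0 one_ne_zero * lowM (-c * w)) =
          up x y hx0 * (Z (d.1 1 1) he * (A k * (dgM w 1 hw0 one_ne_zero * lowM (-c * w)))) := by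
            group
        _ = up x y hx0 * ((A k * (dgM w 1 hw0 one_ne_zero * lowM (-c * w))) *
            Z (d.1 1 1) he) := by rw [Z_comm]
        _ = _ := by group
    rw [e, F_ctr]
  obtain ⟨nx, hnx⟩ := exists_ord hx0
  have hvt : ∀ k : ℕ, Valued.v ((tinf : Kinf) ^ k) = WithZero.exp (-(-(k : ℤ))) := by
    intro k
    rw [map_pow, v_tinf, ← WithZero.exp_nsmul]
    simp
  have hball : (ballV c (m + 1)).1 (0, 1) = if B 1 (-c * w) then (1 : ℂ) else 0 := by
    rw [ballV_fst]
    apply if_congr _ rfl rfl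
    rw [zero_sub]
    have := B_mul_iff (x := -c) (v_pw (L := Kinf) (-m)) (m + 1)
    rw [← hw, mul_comm] at this
    rw [← this]
    have e : m + 1 + -m = 1 := by ring
    rw [e]
  rw [hball]
  by_cases hcw : B 1 (-c * w)
  · rw [if_pos hcw]
    have hiw : IsIw (lowM (-c * w)) := by
      refine ⟨lowM_mem_GLO (B_mono (by norm_num) hcw), ?_⟩
      have : (lowM (-c * w) : GL (Fin 2) Kinf).1 1 0 = -c * w := by simp [lowM]
      rw [this]; exact hcw
    filter_upwards [Filter.eventually_ge_atTop (nx - m).toNat] with k hk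
    have h1 : Valued.v (x * tinf ^ k * w) = WithZero.exp (((k : ℤ) - nx + m).toNat : ℤ) := by
      rw [ord_mul (ord_mul hnx (hvt k)) (v_pw (-m))]
      congr 1
      omega
    have h2 : Valued.v (x * tinf ^ (k + 1) * w) =
        WithZero.exp ((((k : ℤ) - nx + m).toNat + 1 : ℕ) : ℤ) := by
      rw [ord_mul (ord_mul hnx (hvt (k + 1))) (v_pw (-m))]
      congr 1
      omega
    rw [hmat, hmat, F_iw _ _ hiw, F_iw _ _ hiw, F_up _ _ _ _ h1, F_up _ _ _ _ h2, pow_succ]
    ring
  · rw [if_neg hcw]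
    set C : Kinf := -c * w with hC
    have hC0 : C ≠ 0 := by
      intro h0
      rw [h0] at hcw
      exact hcw (B_zero _)
    obtain ⟨nC, hnC⟩ := exists_ord hC0
    rw [B_iff_of_ord hnC] at hcw
    have hx'0 : -LF.pi / C ^ 2 ≠ 0 := div_ne_zero (neg_ne_zero.2 pi_ne) (pow_ne_zero _ hC0)
    have hlow : (lowM C * wM : GL (Fin 2) Kinf) =
        up (-LF.pi / C ^ 2) (1 / C) hx'0 * Z C hC0 * lowM (LF.pi / C) := by
      apply ext4
      · simp [lowM, wM, up, Z, dgM, Matrix.mul_apply, Fin.sum_univ_two]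
        field_simp
        ring
      · simp [lowM, wM, up, Z, dgM, Matrix.mul_apply, Fin.sum_univ_two]
        field_simp
      · simp [lowM, wM, up, Z, dgM, Matrix.mul_apply, Fin.sum_univ_two]
        field_simp
      · simp [lowM, wM, up, Z, dgM, Matrix.mul_apply, Fin.sum_univ_two]
    have hiw : IsIw (lowM (LF.pi / C)) := by
      have h1 : B 1 (LF.pi / C) := by
        rw [div_eq_mul_inv, B_iff_of_ord (ord_mul LF.v_pi (ord_inv hnC))]
        omega
      refine ⟨lowM_mem_GLO (B_mono (by norm_num) h1), ?_⟩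
      have : (lowM (LF.pi / C) : GL (Fin 2) Kinf).1 1 0 = LF.pi / C := by simp [lowM]
      rw [this]; exact h1
    have hval : ∀ k : ℕ, F (up (x * tinf ^ k * w) y
        (mul_ne_zero (mul_ne_zero hx0 (pow_ne_zero _ tinf_ne_zero)) hw0) * lowM C) =
        -1 - F (up (x * tinf ^ k * w * (-LF.pi / C ^ 2)) (x * tinf ^ k * w * (1 / C) + y)
          (mul_ne_zero (mul_ne_zero (mul_ne_zero hx0 (pow_ne_zero _ tinf_ne_zero)) hw0) hx'0)) := by
      intro k
      have h1 := F_w (up (x * tinf ^ k * w) y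
        (mul_ne_zero (mul_ne_zero hx0 (pow_ne_zero _ tinf_ne_zero)) hw0) * lowM C)
      have e : ∀ U : GL (Fin 2) Kinf, U * lowM C * wM =
          U * up (-LF.pi / C ^ 2) (1 / C) hx'0 * Z C hC0 * lowM (LF.pi / C) := by
        intro U
        rw [mul_assoc U, hlow]
        group
      rw [e, F_iw _ _ hiw, F_ctr, up_mul_up] at h1
      linear_combination h1
    have hnx' : Valued.v (-LF.pi / C ^ 2 : Kinf) = WithZero.exp (-(1 - 2 * nC)) := by
      rw [neg_inf, div_eq_mul_inv, sq, mul_inv,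
        ord_mul LF.v_pi (ord_mul (ord_inv hnC) (ord_inv hnC))]
      congr 1
      ring
    filter_upwards [Filter.eventually_ge_atTop (nx - m + 1 - 2 * nC).toNat] with k hk
    have h1 : Valued.v (x * tinf ^ k * w * (-LF.pi / C ^ 2)) =
        WithZero.exp (((k : ℤ) - nx + m - 1 + 2 * nC).toNat : ℤ) := by
      rw [ord_mul (ord_mul (ord_mul hnx (hvt k)) (v_pw (-m))) hnx']
      congr 1
      omega
    have h2 : Valued.v (x * tinf ^ (k + 1) * w * (-LF.pi / C ^ 2)) =
        WithZero.exp ((((k : ℤ) - nx + m - 1 + 2 * nC).toNat + 1 : ℕ) : ℤ) := by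
      rw [ord_mul (ord_mul (ord_mul hnx (hvt (k + 1))) (v_pw (-m))) hnx']
      congr 1
      omega
    rw [hmat, hmat, hval, hval, F_up _ _ _ _ h1, F_up _ _ _ _ h2, pow_succ]
    ring

theorem exists_reg_of (hl : ∀ F : GL (Fin 2) Kinf → ℂ, IsHarm F →
    ∃ Lam : VS Kinf →ₗ[ℂ] ℂ, Lam oneV = 0 ∧ ∀ g, Lam (rhoV Kinf g dV) = F g) :
    ∃ mu : VS Kinf →ₗ[ℂ] ℂ, (∀ (M : GL (Fin 2) R) (f : VS Kinf),
      mu (rhoV Kinf (Matrix.GeneralLinearGroup.map pinf M) f) = mu f) ∧
    ∀ (d : GL (Fin 2) Kinf), (d : Matrix (Fin 2) (Fin 2) Kinf) 1 0 = 0 → ∀ f : VS Kinf,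
      ∀ᶠ k : ℕ in Filter.atTop,
        mu (rhoV Kinf (d * dgM (tinf ^ (k + 1)) 1 (pow_ne_zero _ tinf_ne_zero) one_ne_zero) f) =
        2 * mu (rhoV Kinf (d * dgM (tinf ^ k) 1 (pow_ne_zero _ tinf_ne_zero) one_ne_zero) f) +
          f.1 (0, 1) := by
  obtain ⟨mu, h1, h2⟩ := exists_mu hl
  refine ⟨mu, ?_, ?_⟩
  · intro M f
    let W : Submodule ℂ (VS Kinf) := LinearMap.ker (mu ∘ₗ (rhoV Kinf (mp M)) - mu)
    have hW : W = ⊤ := by
      refine span_balls W (fun c k => ?_) ?_
      · rw [LinearMap.mem_ker, LinearMap.sub_apply, LinearMap.comp_apply, ballV, ← rep_mul, h2, h2,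
          F_left, sub_self]
      · rw [LinearMap.mem_ker, LinearMap.sub_apply, LinearMap.comp_apply, rhoV_one, sub_self]
    have : f ∈ W := by rw [hW]; trivial
    rw [LinearMap.mem_ker, LinearMap.sub_apply, LinearMap.comp_apply, sub_eq_zero] at this
    exact this
  · intro d hd f
    let W : Submodule ℂ (VS Kinf) :=
      { carrier := {f | ∀ᶠ k : ℕ in Filter.atTop, mu (rhoV Kinf (d * A (k + 1)) f) =
          2 * mu (rhoV Kinf (d * A k) f) + f.1 (0, 1)}
        add_mem' := by
          intro a b ha hb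
          filter_upwards [ha, hb] with k hka hkb
          rw [map_add, map_add, map_add, map_add, hka, hkb]
          change _ = _ + (a.1 (0, 1) + b.1 (0, 1))
          ring
        zero_mem' := by
          refine Filter.Eventually.of_forall fun k => ?_
          rw [map_zero, map_zero, map_zero, map_zero]
          change (0 : ℂ) = 2 * 0 + 0
          ring
        smul_mem' := by
          intro c a ha
          filter_upwards [ha] with k hka
          rw [map_smul, map_smul, map_smul, map_smul, hka]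
          change _ = _ + c * a.1 (0, 1)
          simp only [smul_eq_mul]
          ring }
    have hW : W = ⊤ := by
      refine span_balls W (fun c k => ?_) ?_
      · have h3 := F_asymp d hd c (k - 1)
        change ∀ᶠ j : ℕ in Filter.atTop, _
        filter_upwards [h3] with j hj
        rw [ballV, ← rep_mul, ← rep_mul, h2, h2, hj, sub_add_cancel]
        rfl
      · change ∀ᶠ j : ℕ in Filter.atTop, _
        refine Filter.Eventually.of_forall fun j => ?_
        rw [rhoV_one, rhoV_one, h1, oneV_apply ne01]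
        ring
    have : f ∈ W := by rw [hW]; trivial
    exact this

end

end Pool.Agent.R423.AL.Reg
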