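import Pool.Agent.R423.AL.Sh

/-!
# Reduction theory for `GL₂(F₂[t])` in `GL₂(K_∞)`
-/

namespace Pool.Agent.R423.AL.Reg

open scoped WithZero Polynomial

noncomputable section

/-- the inclusion of `GL₂(F₂[t])` -/
def mp : GL (Fin 2) R →* GL (Fin 2) Kinf := Matrix.GeneralLinearGroup.map pinf

theorem mp_val (M : GL (Fin 2) R) (i j : Fin 2) : (mp M).1 i j = pinf (M.1 i j) := rfl

/-- scalar matrices -/
def Z (z : Kinf) (hz : z ≠ 0) : GL (Fin 2) Kinf := dgM z z hz hz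

/-- `(x, y; 0, 1)` -/
def up (x y : Kinf) (hx : x ≠ 0) : GL (Fin 2) Kinf where
  val := !![x, y; 0, 1]
  inv := !![x⁻¹, -y * x⁻¹; 0, 1]
  val_inv := by
    ext i j; fin_cases i <;> fin_cases j <;> simp [hx]
    field_simp; ring
  inv_val := by
    ext i j; fin_cases i <;> fin_cases j <;> simp [hx]
    field_simp; ring

/-- `diag(t^n, 1)` -/
def A (n : ℕ) : GL (Fin 2) Kinf := dgM (tinf ^ n) 1 (pow_ne_zero _ tinf_ne_zero) one_ne_zero

theorem ext4 {g h : GL (Fin 2) Kinf} (h00 : g.1 0 0 = h.1 0 0) (h01 : g.1 0 1 = h.1 0 1)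
    (h10 : g.1 1 0 = h.1 1 0) (h11 : g.1 1 1 = h.1 1 1) : g = h := by
  apply Units.ext
  ext i j
  fin_cases i <;> fin_cases j
  · exact h00
  · exact h01
  · exact h10
  · exact h11

theorem Z_comm (z : Kinf) (hz : z ≠ 0) (g : GL (Fin 2) Kinf) : Z z hz * g = g * Z z hz := by
  apply ext4 <;> simp [Z, dgM, Matrix.mul_apply, Fin.sum_univ_two, mul_comm]

theorem Z_mul (z w : Kinf) (hz : z ≠ 0) (hw : w ≠ 0) : Z z hz * Z w hw = Z (z * w) (mul_ne_zero hz hw) := by
  apply ext4 <;> simp [Z, dgM]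

theorem Z_one : Z 1 one_ne_zero = 1 := by
  apply ext4 <;> simp [Z, dgM]

theorem wK_mul_wK : (wK : GL (Fin 2) Kinf) * wK = 1 := by
  apply ext4 <;> simp [wK]

theorem wK_mem : (wK : GL (Fin 2) Kinf) ∈ GLO Kinf := by
  rw [mem_GLO_iff]
  constructor
  · intro i j
    fin_cases i <;> fin_cases j <;> simp [wK, B_one, B_zero]
  · intro i j
    change B 0 ((!![0, 1; 1, 0] : Matrix (Fin 2) (Fin 2) Kinf) i j)
    fin_cases i <;> fin_cases j <;> simp [B_one, B_zero]

theorem A_zero : A 0 = 1 := by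
  apply ext4 <;> simp [A, dgM]

/-- `g` is in `Γ diag(t^n, 1) Z K` -/
def IsRed (g : GL (Fin 2) Kinf) (n : ℕ) : Prop :=
  ∃ (M : GL (Fin 2) R) (z : Kinf) (hz : z ≠ 0) (k : GL (Fin 2) Kinf), k ∈ GLO Kinf ∧
    g = mp M * A n * Z z hz * k

theorem IsRed.mul_left {g : GL (Fin 2) Kinf} {n : ℕ} (h : IsRed g n) (M : GL (Fin 2) R) :
    IsRed (mp M * g) n := by
  obtain ⟨N, z, hz, k, hk, rfl⟩ := h
  refine ⟨M * N, z, hz, k, hk, ?_⟩
  rw [map_mul]
  group

theorem IsRed.mul_GLO {g : GL (Fin 2) Kinf} {n : ℕ} (h : IsRed g n) {k : GL (Fin 2) Kinf}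
    (hk : k ∈ GLO Kinf) : IsRed (g * k) n := by
  obtain ⟨N, z, hz, k', hk', rfl⟩ := h
  refine ⟨N, z, hz, k' * k, mul_mem hk' hk, ?_⟩
  group

theorem IsRed.mul_Z {g : GL (Fin 2) Kinf} {n : ℕ} (h : IsRed g n) (w : Kinf) (hw : w ≠ 0) :
    IsRed (g * Z w hw) n := by
  obtain ⟨N, z, hz, k', hk', rfl⟩ := h
  refine ⟨N, z * w, mul_ne_zero hz hw, k', hk', ?_⟩
  rw [← Z_mul z w hz hw]
  calc mp N * A n * Z z hz * k' * Z w hw = mp N * A n * Z z hz * (k' * Z w hw) := by group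
    _ = mp N * A n * Z z hz * (Z w hw * k') := by rw [Z_comm w hw k']
    _ = _ := by group

/-- an upper triangular matrix with large diagonal quotient -/
theorem up_eq (n : ℕ) (x y : Kinf) (hx : x ≠ 0) (hv : Valued.v x = WithZero.exp (n : ℤ)) :
    ∃ (p : R) (ε y' : Kinf) (hε : ε ≠ 0), Valued.v ε = 1 ∧ B (n + 1) y' ∧
      up x y hx = uni (pinf p) * A n * up ε y' hε := by
  obtain ⟨p, hp⟩ := exists_poly_near y
  rw [← pinf_apply] at hp
  have ht : (tinf : Kinf) ^ n ≠ 0 := pow_ne_zero _ tinf_ne_zero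
  have hvt : Valued.v ((tinf : Kinf) ^ n) = WithZero.exp (n : ℤ) := by
    rw [map_pow, v_tinf, ← WithZero.exp_nsmul]
    simp
  refine ⟨p, x / tinf ^ n, (y - pinf p) / tinf ^ n, div_ne_zero hx ht, ?_, ?_, ?_⟩
  · rw [map_div₀, hv, hvt]
    exact div_self WithZero.exp_ne_zero
  · have h1 : B 1 (y - pinf p) := B_one_iff.2 hp
    have h2 : Valued.v ((tinf : Kinf) ^ n)⁻¹ = WithZero.exp (-(n : ℤ)) := by
      rw [map_inv₀, hvt, ← WithZero.exp_neg]
    have h3 : B n ((tinf : Kinf) ^ n)⁻¹ := by unfold B; rw [h2]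
    have := B_mul h3 h1
    rw [div_eq_inv_mul]
    exact this
  · apply ext4
    · simp [uni, A, dgM, up]
      field_simp
    · simp [uni, A, dgM, up]
      field_simp
      ring
    · simp [uni, A, dgM, up]
    · simp [uni, A, dgM, up]

theorem up_mem {ε y : Kinf} (hε : ε ≠ 0) (h1 : Valued.v ε = 1) (hy : B 0 y) :
    up ε y hε ∈ GLO Kinf := by
  have h2 : B 0 ε := B_zero_iff.2 h1.le
  have h3 : B 0 ε⁻¹ := by
    rw [B_zero_iff, map_inv₀, h1, inv_one]
  rw [mem_GLO_iff]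
  constructor
  · intro i j
    fin_cases i <;> fin_cases j <;> simp [up, B_one, B_zero, hy, h2]
  · intro i j
    change B 0 ((!![ε⁻¹, -y * ε⁻¹; 0, 1] : Matrix (Fin 2) (Fin 2) Kinf) i j)
    fin_cases i <;> fin_cases j
    · exact h3
    · have := B_mul (B_neg hy) h3
      simpa using this
    · simp [B_zero]
    · simp [B_one]

/-- upper unipotent matrices with polynomial entries -/
def uR (p : R) : GL (Fin 2) R where
  val := !![1, p; 0, 1]
  inv := !![1, -p; 0, 1]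
  val_inv := by ext i j; fin_cases i <;> fin_cases j <;> simp
  inv_val := by ext i j; fin_cases i <;> fin_cases j <;> simp

/-- the Weyl element -/
def wR : GL (Fin 2) R where
  val := !![0, 1; 1, 0]
  inv := !![0, 1; 1, 0]
  val_inv := by ext i j; fin_cases i <;> fin_cases j <;> simp
  inv_val := by ext i j; fin_cases i <;> fin_cases j <;> simp

theorem mp_uR (p : R) : mp (uR p) = uni (pinf p) := by
  apply ext4 <;> rw [mp_val] <;> simp [uR, uni]

theorem mp_wR : mp wR = wK := by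
  apply ext4 <;> rw [mp_val] <;> simp [wR, wK]

theorem isRed_up_of_le (x y : Kinf) (hx : x ≠ 0) (h : ¬ B 1 x) : ∃ n, IsRed (up x y hx) n := by
  obtain ⟨m, hm⟩ := exists_ord hx
  rw [B_iff_of_ord hm] at h
  obtain ⟨n, hn⟩ : ∃ n : ℕ, -m = n := ⟨(-m).toNat, by omega⟩
  rw [hn] at hm
  obtain ⟨p, ε, y', hε, h1, h2, h3⟩ := up_eq n x y hx hm
  refine ⟨n, uR p, 1, one_ne_zero, up ε y' hε, up_mem hε h1 (B_mono (by omega) h2), ?_⟩
  rw [mp_uR, Z_one, mul_one]
  exact h3

/-- Iwasawa decomposition -/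
theorem iwasawa1 (g : GL (Fin 2) Kinf) (h : Valued.v (g.1 1 0) ≤ Valued.v (g.1 1 1)) :
    ∃ (x y : Kinf) (hx : x ≠ 0) (hz : g.1 1 1 ≠ 0),
      g = up x y hx * Z (g.1 1 1) hz * lowM (g.1 1 0 / g.1 1 1) ∧
      Valued.v g.1.det = Valued.v x * Valued.v (g.1 1 1) ^ 2 ∧ B 0 (g.1 1 0 / g.1 1 1) := by
  have hdet : g.1.det ≠ 0 := ((Matrix.isUnit_iff_isUnit_det _).1 g.isUnit).ne_zero
  have hz : g.1 1 1 ≠ 0 := by
    intro h0
    rw [h0, map_zero] at h
    have h1 : g.1 1 0 = 0 := by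
      have := le_antisymm h zero_le
      simpa using this
    apply hdet
    rw [Matrix.det_fin_two, h0, h1]
    ring
  have hx : g.1.det / g.1 1 1 ^ 2 ≠ 0 := div_ne_zero hdet (pow_ne_zero _ hz)
  refine ⟨g.1.det / g.1 1 1 ^ 2, g.1 0 1 / g.1 1 1, hx, hz, ?_, ?_, ?_⟩
  · apply ext4
    · simp [up, Z, dgM, lowM, Matrix.mul_apply, Fin.sum_univ_two, Matrix.det_fin_two]
      field_simp
      ring
    · simp [up, Z, dgM, lowM, Matrix.mul_apply, Fin.sum_univ_two, Matrix.det_fin_two]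
      field_simp
    · simp [up, Z, dgM, lowM, Matrix.mul_apply, Fin.sum_univ_two, Matrix.det_fin_two]
      field_simp
    · simp [up, Z, dgM, lowM, Matrix.mul_apply, Fin.sum_univ_two, Matrix.det_fin_two]
  · rw [← map_pow, ← map_mul, div_mul_cancel₀ _ (pow_ne_zero _ hz)]
  · rw [B_zero_iff, map_div₀]
    exact div_le_one_of_le₀ h zero_le

theorem det_wK : (wK : GL (Fin 2) Kinf).1.det = -1 := by
  simp [wK, Matrix.det_fin_two]

theorem mul_wK_10 (g : GL (Fin 2) Kinf) : (g * wK).1 1 0 = g.1 1 1 := by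
  simp [wK, Matrix.mul_apply, Fin.sum_univ_two]

theorem mul_wK_11 (g : GL (Fin 2) Kinf) : (g * wK).1 1 1 = g.1 1 0 := by
  simp [wK, Matrix.mul_apply, Fin.sum_univ_two]

/-- Iwasawa decomposition, with the size of the diagonal entries -/
theorem iwasawa (g : GL (Fin 2) Kinf) :
    ∃ (x y z : Kinf) (hx : x ≠ 0) (hz : z ≠ 0) (k : GL (Fin 2) Kinf), k ∈ GLO Kinf ∧
      g = up x y hx * Z z hz * k ∧ Valued.v g.1.det = Valued.v x * Valued.v z ^ 2 ∧
      Valued.v z = max (Valued.v (g.1 1 0)) (Valued.v (g.1 1 1)) := by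
  rcases le_total (Valued.v (g.1 1 0)) (Valued.v (g.1 1 1)) with h | h
  · obtain ⟨x, y, hx, hz, h1, h2, h3⟩ := iwasawa1 g h
    exact ⟨x, y, _, hx, hz, _, lowM_mem_GLO h3, h1, h2, (max_eq_right h).symm⟩
  · have h' : Valued.v ((g * wK).1 1 0) ≤ Valued.v ((g * wK).1 1 1) := by
      rw [mul_wK_10, mul_wK_11]; exact h
    obtain ⟨x, y, hx, hz, h1, h2, h3⟩ := iwasawa1 (g * wK) h'
    refine ⟨x, y, _, hx, hz, _ * wK, mul_mem (lowM_mem_GLO h3) wK_mem, ?_, ?_, ?_⟩
    · rw [← mul_assoc, ← h1, mul_assoc, wK_mul_wK, mul_one]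
    · rw [← h2, Units.val_mul, Matrix.det_mul, det_wK]
      simp
    · rw [mul_wK_11]
      exact (max_eq_left h).symm

theorem isRed_up (N : ℕ) : ∀ (x y : Kinf) (hx : x ≠ 0), ¬ B (N + 1) x →
    ∃ n, IsRed (up x y hx) n := by
  induction N with
  | zero => intro x y hx h; exact isRed_up_of_le x y hx (by simpa using h)
  | succ N ih =>
    intro x y hx h
    by_cases hx1 : B 1 x
    · -- reduce `y`
      obtain ⟨p, hp⟩ := exists_poly_near y
      rw [← pinf_apply] at hp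
      set y' := y - pinf p with hy'
      have e1 : up x y hx = uni (pinf p) * up x y' hx := by
        apply ext4 <;> simp [up, uni, hy']
      obtain ⟨x1, y1, z1, hx1', hz1, k, hk, h1, h2, h3⟩ := iwasawa (wK * up x y' hx)
      have e2 : (wK * up x y' hx).1 1 0 = x := by
        simp [wK, up, Matrix.mul_apply, Fin.sum_univ_two]
      have e3 : (wK * up x y' hx).1 1 1 = y' := by
        simp [wK, up, Matrix.mul_apply, Fin.sum_univ_two]
      have e4 : Valued.v (wK * up x y' hx).1.det = Valued.v x := by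
        rw [Units.val_mul, Matrix.det_mul, det_wK]
        simp [up, Matrix.det_fin_two]
      rw [e2, e3] at h3
      rw [e4] at h2
      have hz1B : B 1 z1 := by
        rw [B_one_iff, h3]
        exact max_lt (B_one_iff.1 hx1) hp
      have hx1N : ¬ B (N + 1) x1 := by
        intro hcon
        apply h
        have h5 := B_mul hcon (B_mul hz1B hz1B)
        have h6 : Valued.v x = Valued.v (x1 * (z1 * z1)) := by
          rw [h2, map_mul, map_mul, sq]
        unfold B at h5 ⊢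
        rw [h6]
        refine h5.trans (WithZero.exp_le_exp.2 ?_)
        push_cast
        omega
      obtain ⟨n, hn⟩ := ih x1 y1 hx1' hx1N
      refine ⟨n, ?_⟩
      have e5 : up x y hx = mp (uR p * wR) * (up x1 y1 hx1' * Z z1 hz1 * k) := by
        rw [← h1, map_mul, mp_uR, mp_wR, e1]
        calc uni (pinf p) * up x y' hx = uni (pinf p) * (wK * wK) * up x y' hx := by
              rw [wK_mul_wK, mul_one]
          _ = _ := by group
      rw [e5]
      exact ((hn.mul_Z z1 hz1).mul_GLO hk).mul_left _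
    · exact isRed_up_of_le x y hx hx1

/-- Reduction theory. -/
theorem exists_isRed (g : GL (Fin 2) Kinf) : ∃ n, IsRed g n := by
  obtain ⟨x, y, z, hx, hz, k, hk, h1, -, -⟩ := iwasawa g
  obtain ⟨N, hN⟩ := exists_not_B hx
  have hN' : ¬ B (N + 1) x := fun h => hN (B_mono (by omega) h)
  obtain ⟨n, hn⟩ := isRed_up N x y hx hN'
  rw [h1]
  exact ⟨n, (hn.mul_Z z hz).mul_GLO hk⟩

/-! ### uniqueness -/

theorem det_mp (M : GL (Fin 2) R) : Valued.v (mp M).1.det = 1 := by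
  have h1 : (mp M).1.det = pinf M.1.det := by
    rw [Matrix.det_fin_two, Matrix.det_fin_two, mp_val, mp_val, mp_val, mp_val]
    simp
  have h2 : IsUnit M.1.det := (Matrix.isUnit_iff_isUnit_det _).1 M.isUnit
  have h3 := Polynomial.natDegree_eq_zero_of_isUnit h2
  rw [h1, v_pinf h2.ne_zero, h3]
  simp

theorem v_det_GLO {k : GL (Fin 2) Kinf} (hk : k ∈ GLO Kinf) : Valued.v k.1.det = 1 := by
  have h : ∀ k : GL (Fin 2) Kinf, k ∈ GLO Kinf → Valued.v k.1.det ≤ 1 := by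
    intro k hk
    rw [mem_GLO_iff] at hk
    rw [← B_zero_iff, Matrix.det_fin_two]
    exact B_sub (by simpa using B_mul (hk.1 0 0) (hk.1 1 1)) (by simpa using B_mul (hk.1 0 1) (hk.1 1 0))
  have h1 := h k hk
  have h2 := h k⁻¹ (inv_mem hk)
  have h3 : Valued.v k.1.det * Valued.v (k⁻¹).1.det = 1 := by
    rw [← map_mul, ← Matrix.det_mul, val_mul_inv]
    simp
  apply le_antisymm h1
  rw [← h3]
  exact mul_le_of_le_one_right' h2

theorem det_A (n : ℕ) : Valued.v (A n).1.det = WithZero.exp (n : ℤ) := by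
  have : (A n).1.det = tinf ^ n := by simp [A, dgM, Matrix.det_fin_two]
  rw [this, map_pow, v_tinf, ← WithZero.exp_nsmul]
  simp

theorem det_Z (z : Kinf) (hz : z ≠ 0) : Valued.v (Z z hz).1.det = Valued.v z ^ 2 := by
  have : (Z z hz).1.det = z ^ 2 := by simp [Z, dgM, Matrix.det_fin_two, sq]
  rw [this, map_pow]

theorem le_of_isRed {n m : ℕ} {M : GL (Fin 2) R} {z z' : Kinf} {hz : z ≠ 0} {hz' : z' ≠ 0}
    {k : GL (Fin 2) Kinf} (hk : k ∈ GLO Kinf)
    (h : mp M * A n * Z z hz * k = A m * Z z' hz') : Valued.v z ≤ Valued.v z' := by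
  obtain ⟨j, hj⟩ := exists_ord hz'
  obtain ⟨i, hi⟩ := exists_ord hz
  -- the bottom row
  have h1 : act (A m * Z z' hz') (0, 1) = (0, z') := by
    simp [act, A, Z, dgM]
  have h2 : Bp j (act (A m * Z z' hz') (0, 1)) := by
    rw [h1]
    exact ⟨B_zero _, by unfold B; rw [hj]⟩
  rw [← h, act_mul, Bp_act_iff hk] at h2
  have h3 : act (mp M * A n * Z z hz) (0, 1) =
      (pinf (M.1 1 0) * tinf ^ n * z, pinf (M.1 1 1) * z) := by
    rw [act_mul, act_mul]
    simp [act, A, Z, dgM, mp_val]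
  rw [h3] at h2
  obtain ⟨h4, h5⟩ := h2
  have hne : M.1 1 0 ≠ 0 ∨ M.1 1 1 ≠ 0 := by
    by_contra hcon
    push Not at hcon
    have h6 : IsUnit M.1.det := (Matrix.isUnit_iff_isUnit_det _).1 M.isUnit
    rw [Matrix.det_fin_two, hcon.1, hcon.2] at h6
    simp at h6
  rw [hi, hj, WithZero.exp_le_exp]
  rcases hne with h6 | h6
  · have h7 : Valued.v (pinf (M.1 1 0) * tinf ^ n * z) =
        WithZero.exp (-(-((M.1 1 0).natDegree : ℤ) + -(n : ℤ) + i)) := by
      apply ord_mul _ hi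
      apply ord_mul
      · rw [v_pinf h6, neg_neg]
      · rw [map_pow, v_tinf, ← WithZero.exp_nsmul, neg_neg]
        simp
    rw [B_iff_of_ord h7] at h4
    omega
  · have h7 : Valued.v (pinf (M.1 1 1) * z) =
        WithZero.exp (-(-((M.1 1 1).natDegree : ℤ) + i)) := by
      apply ord_mul _ hi
      rw [v_pinf h6, neg_neg]
    rw [B_iff_of_ord h7] at h5
    omega

theorem IsRed.unique {g : GL (Fin 2) Kinf} {n m : ℕ} (h1 : IsRed g n) (h2 : IsRed g m) :
    n = m := by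
  obtain ⟨M, z, hz, k, hk, hg⟩ := h1
  obtain ⟨M', z', hz', k', hk', hg'⟩ := h2
  have e1 : mp (M'⁻¹ * M) * A n * Z z hz * (k * k'⁻¹) = A m * Z z' hz' := by
    have : mp M * A n * Z z hz * k = mp M' * A m * Z z' hz' * k' := by rw [← hg, hg']
    calc mp (M'⁻¹ * M) * A n * Z z hz * (k * k'⁻¹) =
        (mp M')⁻¹ * (mp M * A n * Z z hz * k) * k'⁻¹ := by rw [map_mul, map_inv]; group
      _ = (mp M')⁻¹ * (mp M' * A m * Z z' hz' * k') * k'⁻¹ := by rw [this]
      _ = _ := by group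
  have e2 : mp (M⁻¹ * M') * A m * Z z' hz' * (k' * k⁻¹) = A n * Z z hz := by
    have : mp M * A n * Z z hz * k = mp M' * A m * Z z' hz' * k' := by rw [← hg, hg']
    calc mp (M⁻¹ * M') * A m * Z z' hz' * (k' * k⁻¹) =
        (mp M)⁻¹ * (mp M' * A m * Z z' hz' * k') * k⁻¹ := by rw [map_mul, map_inv]; group
      _ = (mp M)⁻¹ * (mp M * A n * Z z hz * k) * k⁻¹ := by rw [this]
      _ = _ := by group
  have h3 : Valued.v z = Valued.v z' :=
    le_antisymm (le_of_isRed (mul_mem hk (inv_mem hk')) e1) (le_of_isRed (mul_mem hk' (inv_mem hk)) e2)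
  have h4 := congrArg (fun g : GL (Fin 2) Kinf => Valued.v g.1.det) e1
  simp only [Units.val_mul, Matrix.det_mul, map_mul] at h4
  rw [det_mp, det_mp, det_A, det_A, det_Z, det_Z, v_det_GLO hk, v_det_GLO (inv_mem hk'), h3] at h4
  have hv : Valued.v z' ^ 2 ≠ 0 := pow_ne_zero _ ((Valuation.ne_zero_iff _).2 hz')
  have h5 : WithZero.exp (n : ℤ) = WithZero.exp (m : ℤ) := by
    apply mul_right_cancel₀ hv
    simpa using h4
  have := WithZero.exp_injective h5
  exact_mod_cast this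

/-- the invariant `n` of a matrix -/
def nn (g : GL (Fin 2) Kinf) : ℕ := Classical.choose (exists_isRed g)

theorem nn_spec (g : GL (Fin 2) Kinf) : IsRed g (nn g) := Classical.choose_spec (exists_isRed g)

theorem nn_eq {g : GL (Fin 2) Kinf} {n : ℕ} (h : IsRed g n) : nn g = n := (nn_spec g).unique h

theorem nn_mul_left (M : GL (Fin 2) R) (g : GL (Fin 2) Kinf) : nn (mp M * g) = nn g :=
  nn_eq ((nn_spec g).mul_left M)

theorem nn_mul_GLO (g : GL (Fin 2) Kinf) {k : GL (Fin 2) Kinf} (hk : k ∈ GLO Kinf) :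
    nn (g * k) = nn g := nn_eq ((nn_spec g).mul_GLO hk)

theorem nn_mul_Z (g : GL (Fin 2) Kinf) (w : Kinf) (hw : w ≠ 0) : nn (g * Z w hw) = nn g :=
  nn_eq ((nn_spec g).mul_Z w hw)

theorem nn_A (n : ℕ) : nn (A n) = n := by
  apply nn_eq
  exact ⟨1, 1, one_ne_zero, 1, one_mem _, by rw [map_one, Z_one]; group⟩

theorem nn_up (x y : Kinf) (hx : x ≠ 0) (n : ℕ) (hv : Valued.v x = WithZero.exp (n : ℤ)) :
    nn (up x y hx) = n := by
  obtain ⟨p, ε, y', hε, h1, h2, h3⟩ := up_eq n x y hx hv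
  rw [h3, nn_mul_GLO _ (up_mem hε h1 (B_mono (by omega) h2)), ← mp_uR, nn_mul_left, nn_A]

end

end Pool.Agent.R423.AL.Reg
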