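import Pool.Agent.R423.AL.Defs

/-!
# The trivial representation of `GL₂(𝔸)` is automorphic and isobaric

It is the sum `|·|^{1/2} ⊞ |·|^{-1/2}`.
-/

namespace Pool.Agent.R423.AL

open scoped Polynomial WithZero RestrictedProduct

noncomputable section

/-! ### Trivial representations -/

/-- The trivial one dimensional representation. -/
def trivIrr (G : Type) [Group G] [TopologicalSpace G] : Irr G where
  V := ℂ
  ρ := 1
  smooth := by
    intro x
    have h : {g : G | (1 : Representation ℂ G ℂ) g x = x} = Set.univ := by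
      ext g
      simp
    rw [h]
    exact isOpen_univ
  irred := ⟨⟨1, one_ne_zero⟩, fun N _ => eq_bot_or_eq_top N⟩

theorem trivIrr_rho {G : Type} [Group G] [TopologicalSpace G] (g : G) (x : (trivIrr G).V) :
    (trivIrr G).ρ g x = x := by
  rfl

theorem occurs_triv {G H : Type} [Group G] [TopologicalSpace G] [Group H] [TopologicalSpace H]
    (ι : H →* G) (s : Irr H) (h : ∀ g x, s.ρ g x = x) : Occurs ι (trivIrr G) s := by
  obtain ⟨x, hx⟩ := s.irred.1
  obtain ⟨f, hf⟩ : ∃ f : Module.Dual ℂ s.V, f x ≠ 0 := by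
    by_contra hcon
    push Not at hcon
    exact hx ((Module.forall_dual_apply_eq_zero_iff ℂ x).1 hcon)
  refine ⟨f, fun h0 => hf (by rw [h0]; rfl), fun g y => ?_⟩
  rw [h g y]
  rfl

/-! ### The trivial representation is automorphic -/

theorem const_isAutForm (c : ℂ) : IsAutForm (fun _ : GA => c) := by
  refine ⟨fun _ _ => rfl, ⟨⊤, isOpen_univ, fun _ _ _ => rfl⟩, fun U _ => ?_⟩
  have h1 : spanInf (fun _ : GA => c) = Submodule.span ℂ {fun _ : GA => c} := by
    rw [spanInf]
    congr 1
    ext f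
    simp only [Set.mem_range, Set.mem_singleton_iff]
    constructor
    · rintro ⟨_, h⟩
      exact h.symm
    · intro h
      exact ⟨1, h.symm⟩
  have : FiniteDimensional ℂ (spanInf (fun _ : GA => c)) := by
    rw [h1]
    infer_instance
  exact Submodule.finiteDimensional_inf_left _ _

/-- The space of constant functions. -/
def constSpace : Submodule ℂ (GA → ℂ) where
  carrier := {f | ∃ c : ℂ, f = fun _ => c}
  add_mem' := by
    rintro _ _ ⟨a, rfl⟩ ⟨b, rfl⟩
    exact ⟨a + b, rfl⟩
  zero_mem' := ⟨0, rfl⟩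
  smul_mem' := by
    rintro r _ ⟨a, rfl⟩
    exact ⟨r * a, rfl⟩

theorem trivA_automorphic : IsAutomorphic (trivIrr GA) := by
  refine ⟨constSpace, ?_, ?_, ?_⟩
  · rintro f ⟨c, rfl⟩
    exact const_isAutForm c
  · rintro f ⟨c, rfl⟩ h
    exact ⟨c, rfl⟩
  · refine ⟨{ toFun := fun f => f.1 1, map_add' := fun _ _ => rfl, map_smul' := fun _ _ => rfl },
      ?_, ?_⟩
    · intro c
      exact ⟨⟨fun _ => c, c, rfl⟩, rfl⟩
    · rintro ⟨f, c, rfl⟩ h
      rfl

/-! ### The absolute value characters -/

section AbsChar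

variable {L : Type} [Field L] [Valued L ℤᵐ⁰]

theorem v_ne_zero {x : L} (hx : x ≠ 0) : Valued.v x ≠ 0 :=
  (Valuation.ne_zero_iff _).2 hx

theorem lg_mul {x y : L} (hx : x ≠ 0) (hy : y ≠ 0) : lg (x * y) = lg x + lg y := by
  rw [lg, map_mul, WithZero.log_mul (v_ne_zero hx) (v_ne_zero hy)]
  rfl

theorem lg_nonpos {x : L} (hx : Valued.v x ≤ 1) : lg x ≤ 0 := by
  rcases eq_or_ne x 0 with rfl | h0
  · simp [lg]
  · have h := v_ne_zero h0
    rw [lg]
    have := (WithZero.log_le_log h one_ne_zero).2 hx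
    simpa using this

/-- The character `x ↦ c ^ lg x` -/
def absChar (c : ℂˣ) : Lˣ →* ℂˣ where
  toFun x := c ^ lg (x : L)
  map_one' := by simp [lg]
  map_mul' x y := by rw [Units.val_mul, lg_mul x.ne_zero y.ne_zero, zpow_add]

theorem absChar_apply (c : ℂˣ) (x : Lˣ) : absChar c x = c ^ lg (x : L) := rfl

theorem absChar_open (c : ℂˣ) : IsOpen {x : Lˣ | absChar c x = 1} := by
  rw [isOpen_iff_mem_nhds]
  intro x hx
  have h := Units.continuous_val.continuousAt.preimage_mem_nhds
    (Valued.locally_const (v_ne_zero x.ne_zero))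
  filter_upwards [h] with y hy
  change c ^ lg (y : L) = 1
  rw [lg, show Valued.v (y : L) = Valued.v (x : L) from hy]
  exact hx

theorem absChar_eq_one (c : ℂˣ) (x : Lˣ) (hx : Valued.v (x : L) = 1) : absChar c x = 1 := by
  rw [absChar_apply, lg, hx]
  simp

end AbsChar

/-- `√q` as a unit of `ℂ`. -/
def sqU (q : ℕ) : ℂˣ :=
  if h : ((Real.sqrt q : ℝ) : ℂ) ≠ 0 then Units.mk0 _ h else 1

theorem sqU_val {q : ℕ} (hq : 0 < q) : (sqU q : ℂ) = ((Real.sqrt q : ℝ) : ℂ) := by
  have h : ((Real.sqrt q : ℝ) : ℂ) ≠ 0 := by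
    rw [Complex.ofReal_ne_zero]
    exact (Real.sqrt_pos.2 (by exact_mod_cast hq)).ne'
  rw [sqU, dif_pos h]
  rfl

theorem sqU_pow (d : ℕ) : sqU (2 ^ d) = sqU 2 ^ d := by
  ext
  rw [sqU_val (by positivity), Units.val_pow_eq_pow_val, sqU_val (by norm_num)]
  rw [← Complex.ofReal_pow]
  congr 1
  rw [Real.sqrt_eq_iff_mul_self_eq (by positivity) (by positivity), ← mul_pow,
    Real.mul_self_sqrt (by positivity)]
  push_cast
  rfl

/-! ### Valuations of polynomials -/

theorem v_fin (v : Pl) (x : K) : Valued.v (algebraMap K (Kfin v) x) = v.valuation K x :=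
  IsDedekindDomain.HeightOneSpectrum.valuedAdicCompletion_eq_valuation' v x

theorem v_inf (x : K) : Valued.v (algebraMap K Kinf x) = RatFunc.inftyValuationDef (ZMod 2) x := by
  let _ := RatFunc.inftyValued (ZMod 2)
  exact Valued.valuedCompletion_apply (K := RatFunc (ZMod 2)) x

theorem v_inf_polynomial {p : R} (hp : p ≠ 0) :
    Valued.v (algebraMap K Kinf (algebraMap R K p)) = WithZero.exp (p.natDegree : ℤ) := by
  rw [v_inf]
  exact RatFunc.inftyValuation.polynomial (ZMod 2) hp

theorem residueCard_eq {p : R} (hp : p ≠ 0) {v : Pl} (hv : v.asIdeal = Ideal.span {p}) :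
    residueCard v = 2 ^ p.natDegree := by
  rw [residueCard, hv]
  have h1 : Module.Finite (ZMod 2) (R ⧸ Ideal.span {p}) := (AdjoinRoot.powerBasis hp).finite
  rw [Module.natCard_eq_pow_finrank (K := ZMod 2), finrank_quotient_span_eq_natDegree]
  simp

theorem residueCard_pos (v : Pl) : 0 < residueCard v := by
  obtain ⟨p, hp⟩ := (IsPrincipalIdealRing.principal v.asIdeal)
  have hp0 : p ≠ 0 := by
    rintro rfl
    apply v.ne_bot
    rw [hp]
    simp
  rw [residueCard_eq hp0 hp]
  positivity

/-- The place of an irreducible polynomial. -/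
def placeOf {p : R} (hp : Prime p) : Pl where
  asIdeal := Ideal.span {p}
  isPrime := (Ideal.span_singleton_prime hp.ne_zero).2 hp
  ne_bot := by
    rw [Ne, Ideal.span_singleton_eq_bot]
    exact hp.ne_zero

theorem v_placeOf {p : R} (hp : Prime p) :
    Valued.v (algebraMap K (Kfin (placeOf hp)) (algebraMap R K p)) = WithZero.exp (-1 : ℤ) := by
  rw [v_fin, IsDedekindDomain.HeightOneSpectrum.valuation_of_algebraMap,
    IsDedekindDomain.HeightOneSpectrum.intValuation_singleton _ hp.ne_zero rfl]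

theorem v_of_ne {p : R} (hp : Prime p) {v : Pl} (hv : v ≠ placeOf hp) :
    Valued.v (algebraMap K (Kfin v) (algebraMap R K p)) = 1 := by
  rw [v_fin]
  refine le_antisymm (v.valuation_le_one p) ?_
  rw [← not_lt, IsDedekindDomain.HeightOneSpectrum.valuation_lt_one_iff_mem]
  intro hmem
  apply hv
  apply IsDedekindDomain.HeightOneSpectrum.ext
  have hmax : (Ideal.span {p}).IsMaximal := (placeOf hp).isMaximal
  exact (hmax.eq_of_le v.isPrime.ne_top (by rwa [Ideal.span_singleton_le_iff_mem])).symm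

/-! ### The product formula -/

section Product

variable (c0 : ℂˣ) (c : Pl → ℂˣ)

/-- The component at infinity of a unit of `K`. -/
abbrev uInf : Kˣ →* Kinfˣ := Units.map (algebraMap K Kinf).toMonoidHom

/-- The component at `v` of a unit of `K`. -/
abbrev uFin (v : Pl) : Kˣ →* (Kfin v)ˣ := Units.map (algebraMap K (Kfin v)).toMonoidHom

theorem finite_support (x : Kˣ) : {v : Pl | absChar (c v) (uFin v x) ≠ 1}.Finite := by
  have h1 := eventually_integral (x : K)
  have h2 := eventually_integral ((x⁻¹ : Kˣ) : K)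
  have h3 : ∀ᶠ v : Pl in Filter.cofinite, absChar (c v) (uFin v x) = 1 := by
    filter_upwards [h1, h2] with v a b
    apply absChar_eq_one
    refine le_antisymm a ?_
    have hx : algebraMap K (Kfin v) (x : K) * algebraMap K (Kfin v) ((x⁻¹ : Kˣ) : K) = 1 := by
      rw [← map_mul, Units.mul_inv, map_one]
    have hv : Valued.v (algebraMap K (Kfin v) (x : K)) *
        Valued.v (algebraMap K (Kfin v) ((x⁻¹ : Kˣ) : K)) = 1 := by
      rw [← map_mul, hx, map_one]
    calc (1 : ℤᵐ⁰) = Valued.v (algebraMap K (Kfin v) (x : K)) *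
        Valued.v (algebraMap K (Kfin v) ((x⁻¹ : Kˣ) : K)) := hv.symm
      _ ≤ Valued.v (algebraMap K (Kfin v) (x : K)) * 1 := mul_le_mul_right b _
      _ = _ := mul_one _
  exact Filter.eventually_cofinite.1 h3

/-- The product of the local characters. -/
def glob : Kˣ →* ℂˣ where
  toFun x := absChar c0 (uInf x) * ∏ᶠ v : Pl, absChar (c v) (uFin v x)
  map_one' := by simp
  map_mul' x y := by
    have h : ∀ v : Pl, absChar (c v) (uFin v (x * y)) =
        absChar (c v) (uFin v x) * absChar (c v) (uFin v y) := fun v => by rw [map_mul, map_mul]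
    rw [finprod_congr h, finprod_mul_distrib (finite_support c x) (finite_support c y), map_mul,
      map_mul]
    exact mul_mul_mul_comm _ _ _ _

theorem glob_prime {p : R} (hp : Prime p) (x : Kˣ) (hx : (x : K) = algebraMap R K p)
    (hc : c (placeOf hp) = c0 ^ p.natDegree) : glob c0 c x = 1 := by
  have h1 : absChar c0 (uInf x) = c0 ^ (p.natDegree : ℤ) := by
    rw [absChar_apply]
    congr 1
    change WithZero.log (Valued.v (algebraMap K Kinf (x : K))) = _
    rw [hx, v_inf_polynomial hp.ne_zero, WithZero.log_exp]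
  have h2 : ∏ᶠ v : Pl, absChar (c v) (uFin v x) = (c0 ^ p.natDegree) ^ (-1 : ℤ) := by
    rw [finprod_eq_single _ (placeOf hp), absChar_apply, hc]
    · congr 1
      change WithZero.log (Valued.v (algebraMap K (Kfin _) (x : K))) = _
      rw [hx, v_placeOf hp, WithZero.log_exp]
    · intro v hv
      apply absChar_eq_one
      change Valued.v (algebraMap K (Kfin v) (x : K)) = 1
      rw [hx]
      exact v_of_ne hp hv
  change absChar c0 (uInf x) * ∏ᶠ v : Pl, absChar (c v) (uFin v x) = 1
  rw [h1, h2, zpow_natCast, zpow_neg_one, mul_inv_cancel]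

theorem glob_polynomial (hc : ∀ (p : R) (hp : Prime p), c (placeOf hp) = c0 ^ p.natDegree)
    (a : R) : ∀ x : Kˣ, (x : K) = algebraMap R K a → glob c0 c x = 1 := by
  refine UniqueFactorizationMonoid.induction_on_prime a ?_ ?_ ?_
  · intro x hx
    rw [map_zero] at hx
    exact absurd hx x.ne_zero
  · intro a ha x hx
    have h1 : a = 1 := by
      obtain ⟨r, hr, rfl⟩ := Polynomial.isUnit_iff.1 ha
      have h2 : ∀ r : ZMod 2, r ≠ 0 → r = 1 := by decide
      rw [h2 r hr.ne_zero, Polynomial.C_1]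
    have h2 : x = 1 := by
      ext
      rw [hx, h1, map_one, Units.val_one]
    rw [h2, map_one]
  · intro a p ha hp ih x hx
    have hinj := IsFractionRing.injective R K
    have ha' : algebraMap R K a ≠ 0 := by
      rw [Ne, map_eq_zero_iff _ hinj]
      exact ha
    have hp' : algebraMap R K p ≠ 0 := by
      rw [Ne, map_eq_zero_iff _ hinj]
      exact hp.ne_zero
    have h3 : x = Units.mk0 _ hp' * Units.mk0 _ ha' := by
      ext
      rw [hx, map_mul, Units.val_mul, Units.val_mk0, Units.val_mk0]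
    rw [h3, map_mul, ih _ (Units.val_mk0 _), glob_prime c0 c hp _ (Units.val_mk0 _) (hc p hp),
      mul_one]

theorem glob_eq_one (hc : ∀ (p : R) (hp : Prime p), c (placeOf hp) = c0 ^ p.natDegree)
    (x : Kˣ) : glob c0 c x = 1 := by
  obtain ⟨a, b, hb, hx⟩ := IsFractionRing.div_surjective (A := R) (x : K)
  have hinj := IsFractionRing.injective R K
  have hb' : algebraMap R K b ≠ 0 := by
    rw [Ne, map_eq_zero_iff _ hinj]
    exact nonZeroDivisors.ne_zero hb
  have ha' : algebraMap R K a ≠ 0 := by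
    intro h0
    rw [h0, zero_div] at hx
    exact x.ne_zero hx.symm
  have h3 : x = Units.mk0 _ ha' * (Units.mk0 _ hb')⁻¹ := by
    ext
    rw [← hx, Units.val_mul, Units.val_mk0, Units.val_inv_eq_inv_val, Units.val_mk0, div_eq_mul_inv]
  rw [h3, map_mul, map_inv, glob_polynomial c0 c hc a _ (Units.val_mk0 _),
    glob_polynomial c0 c hc b _ (Units.val_mk0 _), inv_one, mul_one]

end Product

/-- The character `|·|^{n/2}` of `𝔸ˣ / Kˣ`. -/
def half (n : ℤ) : HeckeChar where
  inf := absChar (sqU 2 ^ n)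
  fin v := absChar (sqU (residueCard v) ^ n)
  inf_smooth := absChar_open _
  fin_smooth v := absChar_open _
  unram := Filter.Eventually.of_forall fun v x hx => absChar_eq_one _ x hx
  trivial_on_K x := by
    refine glob_eq_one _ _ ?_ x
    intro p hp
    rw [residueCard_eq hp.ne_zero (v := placeOf hp) rfl, sqU_pow]
    rw [← zpow_natCast, ← zpow_natCast, ← zpow_mul, ← zpow_mul, mul_comm]

/-! ### The trivial representation is isobaric -/

section Local

variable {L : Type} [Field L] [Valued L ℤᵐ⁰]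

theorem triv_langlandsSum {q : ℕ} (hq : 1 ≤ q) :
    IsLanglandsSum q (absChar (sqU q ^ (1 : ℤ))) (absChar (sqU q ^ (-1 : ℤ)))
      (trivIrr (GL (Fin 2) L)) := by
  have hs0 : (1 : ℝ) ≤ Real.sqrt q := by
    rw [Real.one_le_sqrt]
    exact_mod_cast hq
  have hpos : (0 : ℝ) < Real.sqrt q := by linarith
  have hval : ∀ (n : ℤ) (x : Lˣ), (absChar (sqU q ^ n) x : ℂ) =
      ((Real.sqrt q ^ (n * lg (x : L)) : ℝ) : ℂ) := by
    intro n x
    rw [absChar_apply, ← zpow_mul, Units.val_zpow_eq_zpow_val, sqU_val hq, Complex.ofReal_zpow]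
  left
  refine ⟨?_, ?_⟩
  · intro x hx
    have h := lg_nonpos hx
    rw [hval, hval, Complex.norm_real, Complex.norm_real, Real.norm_of_nonneg (by positivity),
      Real.norm_of_nonneg (by positivity)]
    exact zpow_le_zpow_right₀ hs0 (by linarith)
  · refine ⟨LinearMap.pi fun _ => LinearMap.id, ?_, ?_, ?_⟩
    · intro h0
      have h1 := congrFun (LinearMap.congr_fun h0 (1 : ℂ)) 1
      exact one_ne_zero h1
    · intro x
      refine ⟨?_, ⊤, isOpen_univ, fun _ _ _ => rfl⟩
      intro b g a d _ _ _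
      have h1 : (absChar (sqU q ^ (-1 : ℤ)) a : ℂ) * (absChar (sqU q ^ (1 : ℤ)) d : ℂ) *
          ((Real.sqrt q ^ (lg (a : L) - lg (d : L)) : ℝ) : ℂ) = 1 := by
        rw [hval, hval, ← Complex.ofReal_mul, ← Complex.ofReal_mul, ← zpow_add₀ hpos.ne',
          ← zpow_add₀ hpos.ne']
        rw [show -1 * lg (a : L) + 1 * lg (d : L) + (lg (a : L) - lg (d : L)) = 0 by ring]
        simp
      rw [h1, one_mul]
      rfl
    · intro h x g
      rfl

end Local

theorem trivA_isobaric : IsIsobaric (trivIrr GA) := by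
  refine ⟨trivA_automorphic, Or.inr ⟨half 1, half (-1), ?_, ?_⟩⟩
  · exact ⟨trivIrr _, occurs_triv _ _ fun _ _ => rfl, triv_langlandsSum (by norm_num)⟩
  · intro v
    exact ⟨trivIrr _, occurs_triv _ _ fun _ _ => rfl, triv_langlandsSum (residueCard_pos v)⟩

end

end Pool.Agent.R423.AL
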