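import Pool.Agent.R423.AL.StRep
import Pool.Agent.R423.AL.Triv
import Pool.Agent.R423.AL.ClassOne

/-!
# Shared set-up: the field `K_∞`, the place `t = 0`, the group `Γ` and its sign character
-/

namespace Pool.Agent.R423.AL

open scoped WithZero Polynomial

noncomputable section

/-- polynomials in `K_∞` -/
def pinf : R →+* Kinf := (algebraMap K Kinf).comp (algebraMap R K)

theorem pinf_apply (p : R) : pinf p = algebraMap K Kinf (algebraMap R K p) := rfl

theorem v_pinf {p : R} (hp : p ≠ 0) : Valued.v (pinf p) = WithZero.exp (p.natDegree : ℤ) :=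
  v_inf_poly p hp

/-- `t` in `K_∞` -/
def tinf : Kinf := pinf Polynomial.X

theorem v_tinf : Valued.v tinf = WithZero.exp (1 : ℤ) := by
  rw [tinf, v_pinf Polynomial.X_ne_zero, Polynomial.natDegree_X]
  simp

theorem tinf_ne_zero : tinf ≠ 0 := by
  intro h
  have := v_tinf
  rw [h, map_zero] at this
  exact WithZero.exp_ne_zero this.symm

theorem two_R (x : R) : x + x = 0 := CharTwo.add_self_eq_zero x

theorem two_K (x : K) : x + x = 0 := by
  have h : (1 : K) + 1 = 0 := by
    have := congrArg (algebraMap R K) (two_R 1)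
    simpa using this
  calc x + x = (1 + 1) * x := by ring
    _ = 0 := by rw [h, zero_mul]

instance instLFKinf : LF Kinf where
  pi := tinf⁻¹
  v_pi := by
    rw [map_inv₀, v_tinf, ← WithZero.exp_neg]
  residue := by
    intro x hx
    obtain ⟨p, hp⟩ := exists_poly_near x
    rw [← pinf_apply] at hp
    have hp1 : Valued.v (pinf p) ≤ 1 := by
      have e : pinf p = x - (x - pinf p) := by ring
      rw [e]
      exact (Valuation.map_sub _ _ _).trans (max_le hx hp.le)
    have hc : p = 0 ∨ p = 1 := by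
      rcases eq_or_ne p 0 with h0 | h0
      · exact Or.inl h0
      · right
        rw [v_pinf h0, ← WithZero.exp_zero, WithZero.exp_le_exp] at hp1
        have hd : p.natDegree = 0 := by omega
        rw [Polynomial.eq_C_of_natDegree_eq_zero hd] at h0 ⊢
        have : p.coeff 0 = 1 := by
          have hne : p.coeff 0 ≠ 0 := by
            intro h; apply h0; rw [h]; simp
          revert hne
          generalize p.coeff 0 = a
          revert a
          decide
        rw [this]; simp
    rcases hc with h | h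
    · left
      rw [h, map_zero, sub_zero] at hp
      exact hp
    · right
      rw [h, map_one] at hp
      exact hp
  two := by
    intro x
    have h : (1 : Kinf) + 1 = 0 := by
      have := congrArg (algebraMap K Kinf) (two_K 1)
      simpa using this
    calc x + x = (1 + 1) * x := by ring
      _ = 0 := by rw [h, zero_mul]

theorem pi_eq : (LF.pi : Kinf) = tinf⁻¹ := rfl

theorem tinf_eq : tinf = pw (-1) := by
  unfold pw
  rw [pi_eq, zpow_neg, zpow_one, inv_inv]

theorem pw_neg_nat (k : ℕ) : (pw (-(k : ℤ)) : Kinf) = tinf ^ k := by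
  unfold pw
  rw [pi_eq, zpow_neg, inv_zpow, inv_inv, zpow_natCast]

/-! ### the place `t = 0` -/

/-- the place `t = 0` -/
def vX : Pl := placeOf (Polynomial.prime_X : Prime (Polynomial.X : R))

/-- `t` in `K_{t=0}` -/
def tX : Kfin vX := algebraMap K (Kfin vX) (algebraMap R K Polynomial.X)

theorem v_tX : Valued.v tX = WithZero.exp (-1 : ℤ) := by
  exact v_placeOf _

/-- matrices in `GL₂(O)` at the place `t = 0` which are lower triangular modulo `t` -/
def UX : Subgroup (GL (Fin 2) (Kfin vX)) where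
  carrier := {u | u ∈ GLO (Kfin vX) ∧ B 1 (u.1 0 1)}
  mul_mem' := by
    rintro a b ⟨ha, ha1⟩ ⟨hb, hb1⟩
    refine ⟨mul_mem ha hb, ?_⟩
    rw [Units.val_mul, Matrix.mul_apply, Fin.sum_univ_two]
    refine B_add ?_ ?_
    · simpa using B_mul (((mem_GLO_iff a).1 ha).1 0 0) hb1
    · simpa using B_mul ha1 (((mem_GLO_iff b).1 hb).1 1 1)
  one_mem' := ⟨one_mem _, by simpa using B_zero 1⟩
  inv_mem' := by
    rintro a ⟨ha, ha1⟩
    refine ⟨inv_mem ha, ?_⟩
    have h1 := val_mul_inv a
    have e5 : a.1 0 0 * (a⁻¹).1 0 0 + a.1 0 1 * (a⁻¹).1 1 0 = 1 := by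
      have := congrFun (congrFun h1 0) 0
      rw [Matrix.mul_apply, Fin.sum_univ_two] at this
      simpa using this
    have e4 : a.1 0 0 * (a⁻¹).1 0 1 + a.1 0 1 * (a⁻¹).1 1 1 = 0 := by
      have := congrFun (congrFun h1 0) 1
      rw [Matrix.mul_apply, Fin.sum_univ_two] at this
      simpa using this
    have e : (a⁻¹).1 0 1 = (a.1 0 1) * ((a⁻¹).1 1 0 * (a⁻¹).1 0 1 - (a⁻¹).1 0 0 * (a⁻¹).1 1 1) := by
      linear_combination (-(a⁻¹).1 0 1) * e5 + (a⁻¹).1 0 0 * e4
    rw [e]
    have hi := ((mem_GLO_iff a).1 ha).2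
    have := B_mul ha1 (B_sub (B_mul (hi 1 0) (hi 0 1)) (B_mul (hi 0 0) (hi 1 1)))
    simpa using this

open Classical in
/-- the nontrivial character of the residue field of `K_{t=0}` -/
def sg (x : Kfin vX) : ℂ := if Valued.v x < 1 then 1 else -1

/-- the sign character of `UX` -/
def psi0 (u : GL (Fin 2) (Kfin vX)) : ℂ := sg (u.1 0 1 / tX) * sg (u.1 1 0)

/-- the group `Γ⁰(t)` -/
def Gam : Subgroup (GL (Fin 2) K) where
  carrier := {γ | (∀ v, toFin v γ ∈ GLO (Kfin v)) ∧ toFin vX γ ∈ UX}
  mul_mem' := by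
    rintro a b ⟨ha, ha1⟩ ⟨hb, hb1⟩
    refine ⟨fun v => ?_, ?_⟩
    · rw [map_mul]; exact mul_mem (ha v) (hb v)
    · rw [map_mul]; exact mul_mem ha1 hb1
  one_mem' := ⟨fun v => by rw [map_one]; exact one_mem _, by rw [map_one]; exact one_mem _⟩
  inv_mem' := by
    rintro a ⟨ha, ha1⟩
    refine ⟨fun v => ?_, ?_⟩
    · rw [map_inv]; exact inv_mem (ha v)
    · rw [map_inv]; exact inv_mem ha1

/-! ### matrices at infinity -/

section Loc

variable {L : Type} [Field L] [Valued L ℤᵐ⁰]

/-- the Weyl element -/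
def wK : GL (Fin 2) L where
  val := !![0, 1; 1, 0]
  inv := !![0, 1; 1, 0]
  val_inv := by ext i j; fin_cases i <;> fin_cases j <;> simp
  inv_val := by ext i j; fin_cases i <;> fin_cases j <;> simp

/-- the element `(0, 1; pi, 0)` normalising the Iwahori subgroup -/
def wM [LF L] : GL (Fin 2) L where
  val := !![0, 1; (LF.pi : L), 0]
  inv := !![0, (LF.pi : L)⁻¹; 1, 0]
  val_inv := by
    have : (LF.pi : L) ≠ 0 := ord_ne_zero LF.v_pi
    ext i j; fin_cases i <;> fin_cases j <;> simp [this]
  inv_val := by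
    have : (LF.pi : L) ≠ 0 := ord_ne_zero LF.v_pi
    ext i j; fin_cases i <;> fin_cases j <;> simp [this]

/-- the Iwahori subgroup, as a set: upper triangular modulo the maximal ideal -/
def IsIw (i : GL (Fin 2) L) : Prop := i ∈ GLO L ∧ B 1 (i.1 1 0)

/-- The conditions on the function `F` used to construct a functional on `VS` killing constants:
right invariance under `Z · Iwahori`, sign `-1` under `wM`, and harmonicity. -/
structure IsHarm [LF L] (F : GL (Fin 2) L → ℂ) : Prop where
  iw : ∀ g i, IsIw i → F (g * i) = F g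
  ctr : ∀ g (z : L) (hz : z ≠ 0), F (g * dgM z z hz hz) = F g
  sgn : ∀ g, F (g * wM) = - F g
  harm : ∀ g, F g + F (g * lowM 1) + F (g * wK) = 0

end Loc

end

end Pool.Agent.R423.AL
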