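import Pool.Agent.R423.AL.Avg

/-!
# The Steinberg representation
-/

namespace Pool.Agent.R423.AL

open scoped WithZero
open Topology

noncomputable section

variable {L : Type} [Field L] [Valued L ℤᵐ⁰]

/-! ### some matrices -/

/-- `(1, 0; c, 1)` -/
def lowM (c : L) : GL (Fin 2) L where
  val := !![1, 0; c, 1]
  inv := !![1, 0; -c, 1]
  val_inv := by ext i j; fin_cases i <;> fin_cases j <;> simp
  inv_val := by ext i j; fin_cases i <;> fin_cases j <;> simp

/-- diagonal matrices -/
def dgM (a b : L) (ha : a ≠ 0) (hb : b ≠ 0) : GL (Fin 2) L where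
  val := !![a, 0; 0, b]
  inv := !![a⁻¹, 0; 0, b⁻¹]
  val_inv := by ext i j; fin_cases i <;> fin_cases j <;> simp [ha, hb]
  inv_val := by ext i j; fin_cases i <;> fin_cases j <;> simp [ha, hb]

omit [Valued L ℤᵐ⁰] in
theorem act_lowM (c : L) (p : L × L) : act (lowM c) p = (p.1 + p.2 * c, p.2) := by
  simp [act, lowM]

omit [Valued L ℤᵐ⁰] in
theorem act_uni (c : L) (p : L × L) : act (uni c) p = (p.1, p.1 * c + p.2) := by
  simp [act, uni]

omit [Valued L ℤᵐ⁰] in
theorem act_dgM (a b : L) (ha : a ≠ 0) (hb : b ≠ 0) (p : L × L) :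
    act (dgM a b ha hb) p = (p.1 * a, p.2 * b) := by
  simp [act, dgM]

theorem lowM_mem_GLO {c : L} (hc : B 0 c) : lowM c ∈ GLO L := by
  rw [mem_GLO_iff]
  constructor
  · intro i j
    fin_cases i <;> fin_cases j <;> simp [lowM, B_one, B_zero, hc]
  · intro i j
    change B 0 ((!![1, 0; -c, 1] : Matrix (Fin 2) (Fin 2) L) i j)
    fin_cases i <;> fin_cases j <;> simp [B_one, B_zero, B_neg hc]

theorem uni_mem_GLO {c : L} (hc : B 0 c) : uni c ∈ GLO L := by
  rw [mem_GLO_iff]
  constructor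
  · intro i j
    fin_cases i <;> fin_cases j <;> simp [uni, B_one, B_zero, hc]
  · intro i j
    change B 0 ((!![1, -c; 0, 1] : Matrix (Fin 2) (Fin 2) L) i j)
    fin_cases i <;> fin_cases j <;> simp [B_one, B_zero, B_neg hc]

omit [Valued L ℤᵐ⁰] in
theorem lowM_mul (c d : L) : lowM c * lowM d = lowM (c + d) := by
  apply Units.ext
  ext i j
  fin_cases i <;> fin_cases j <;> simp [lowM]

omit [Valued L ℤᵐ⁰] in
theorem lowM_zero : lowM (0 : L) = 1 := by
  apply Units.ext
  ext i j
  fin_cases i <;> fin_cases j <;> simp [lowM]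

omit [Valued L ℤᵐ⁰] in
theorem lowM_inv (c : L) : (lowM c)⁻¹ = lowM (-c) := by
  rw [inv_eq_iff_mul_eq_one, lowM_mul, add_neg_cancel, lowM_zero]

omit [Valued L ℤᵐ⁰] in
theorem uni_mul (c d : L) : uni c * uni d = uni (c + d) := by
  apply Units.ext
  ext i j
  fin_cases i <;> fin_cases j <;> simp [uni, add_comm]

omit [Valued L ℤᵐ⁰] in
theorem uni_zero : uni (0 : L) = 1 := by
  apply Units.ext
  ext i j
  fin_cases i <;> fin_cases j <;> simp [uni]

variable (L) in
/-- integral lower unipotent matrices -/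
def UL : Subgroup (GL (Fin 2) L) where
  carrier := {g | ∃ c : L, B 0 c ∧ g = lowM c}
  mul_mem' := by
    rintro _ _ ⟨c, hc, rfl⟩ ⟨d, hd, rfl⟩
    exact ⟨c + d, B_add hc hd, lowM_mul c d⟩
  one_mem' := ⟨0, B_zero _, lowM_zero.symm⟩
  inv_mem' := by
    rintro _ ⟨c, hc, rfl⟩
    exact ⟨-c, B_neg hc, lowM_inv c⟩

theorem UL_le : UL L ≤ GLO L := by
  rintro _ ⟨c, hc, rfl⟩
  exact lowM_mem_GLO hc

/-! ### finiteness -/

variable [LF L]

/-- finitely many points suffice for functions of level `n` -/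
theorem exists_points (n : ℕ) : ∃ S : Finset (L × L), (∀ p ∈ S, p ≠ 0) ∧ S.Nonempty ∧
    ∀ f : VS L, Lev n f.1 → ∀ p, p ≠ 0 → ∃ s ∈ S, f.1 p = f.1 s := by
  classical
  obtain ⟨C, hC0, hC⟩ := exists_net (L := L) 0 n
  refine ⟨C.image (fun c => (c, (1 : L))) ∪ C.image (fun c => ((1 : L), c)), ?_, ?_, ?_⟩
  · intro p hp
    rw [Finset.mem_union, Finset.mem_image, Finset.mem_image] at hp
    rcases hp with ⟨c, -, rfl⟩ | ⟨c, -, rfl⟩
    · intro h; exact one_ne_zero (congrArg Prod.snd h)
    · intro h; exact one_ne_zero (congrArg Prod.fst h)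
  · obtain ⟨c, hc, -⟩ := hC 0 (B_zero _)
    exact ⟨_, Finset.mem_union_left _ (Finset.mem_image_of_mem _ hc)⟩
  · intro f hf p hp
    rcases normal_form hp with ⟨c, hc, x, hx, rfl⟩ | ⟨c, hc, y, hy, rfl⟩
    · obtain ⟨d, hd, hxd⟩ := hC x hx
      refine ⟨(d, 1), Finset.mem_union_left _ (Finset.mem_image_of_mem _ hd), ?_⟩
      rw [f.2.2.1 c hc]
      have e : (x, (1 : L)) = (d, 1) + (x - d, 0) := by ext <;> simp
      rw [e]
      exact hf _ _ not_Bp_one_of_snd ⟨by simpa using hxd, B_zero _⟩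
    · obtain ⟨d, hd, hyd⟩ := hC y (B_mono (by norm_num) hy)
      refine ⟨(1, d), Finset.mem_union_right _ (Finset.mem_image_of_mem _ hd), ?_⟩
      rw [f.2.2.1 c hc]
      have e : ((1 : L), y) = (1, d) + (0, y - d) := by ext <;> simp
      rw [e]
      exact hf _ _ not_Bp_one_of_fst ⟨B_zero _, by simpa using hyd⟩

omit [LF L] [Valued L ℤᵐ⁰] in
theorem exists_row_matrix {p : L × L} (hp : p ≠ 0) : ∃ g : GL (Fin 2) L, act g (1, 0) = p := by
  by_cases h : p.1 = 0
  · have h2 : p.2 ≠ 0 := by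
      intro h2; exact hp (Prod.ext h h2)
    refine ⟨⟨!![0, p.2; 1, 0], !![0, 1; p.2⁻¹, 0], ?_, ?_⟩, ?_⟩
    · ext i j; fin_cases i <;> fin_cases j <;> simp [h2]
    · ext i j; fin_cases i <;> fin_cases j <;> simp [h2]
    · ext <;> simp [act, h]
  · refine ⟨⟨!![p.1, p.2; 0, 1], !![p.1⁻¹, -p.2 * p.1⁻¹; 0, 1], ?_, ?_⟩, ?_⟩
    · ext i j
      fin_cases i <;> fin_cases j <;> simp [h]
      field_simp
      ring
    · ext i j
      fin_cases i <;> fin_cases j <;> simp [h]
      field_simp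
      ring
    · ext <;> simp [act]

/-- the `KK n`-fixed vectors of `VS` have level `n` -/
theorem lev_of_fixed {n : ℕ} (hn : 1 ≤ n) (f : VS L) (hf : ∀ g ∈ KK L n, rhoV L g f = f) :
    Lev n f.1 := by
  intro p e hp he
  have hn' : (1 : ℤ) ≤ n := by exact_mod_cast hn
  have key : ∀ (c : L), c ≠ 0 → ∀ q : L × L, p = c • q → Bp 0 q → ¬ Bp 1 q → Bp n (c⁻¹ • e) := by
    intro c hc q hpq hq0 hq1
    obtain ⟨k, hk⟩ := exists_ord hc
    have h1 : k ≤ 0 := by
      by_contra hk0
      push Not at hk0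
      apply hp
      rw [hpq]
      have := (Bp_smul_iff hk 0 q).2 hq0
      exact Bp_mono (by omega) this
    have := (Bp_smul_iff (ord_inv hk) n e).2 he
    exact Bp_mono (by omega) this
  have hf' : ∀ g ∈ KK L n, ∀ q, f.1 (act g q) = f.1 q := by
    intro g hg q
    rw [← rhoV_apply, hf g hg]
  have hp0 := ne_zero_of_not_Bp hp
  rcases normal_form hp0 with ⟨c, hc, x, hx, hpx⟩ | ⟨c, hc, y, hy, hpy⟩
  · have h1 := key c hc _ hpx ⟨hx, B_one⟩ not_Bp_one_of_snd
    set e' := c⁻¹ • e with he'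
    have h2 : e = c • e' := by rw [he', smul_smul, mul_inv_cancel₀ hc, one_smul]
    rw [hpx, h2, ← smul_add, f.2.2.1 c hc, f.2.2.1 c hc]
    have hd : Valued.v (1 + e'.2) = WithZero.exp (-0 : ℤ) := by
      refine ord_add (by simp) (B_mono (by omega) h1.2)
    have hd0 : (1 + e'.2) ≠ 0 := ord_ne_zero hd
    let g : GL (Fin 2) L := ⟨!![1, 0; e'.1, 1 + e'.2],
      !![1, 0; -e'.1 * (1 + e'.2)⁻¹, (1 + e'.2)⁻¹],
      by
        ext i j
        fin_cases i <;> fin_cases j <;> simp [hd0]
        field_simp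
        ring,
      by
        ext i j
        fin_cases i <;> fin_cases j <;> simp [hd0]
        ring⟩
    have hinv : B 0 (1 + e'.2)⁻¹ := by
      rw [B_iff_of_ord (ord_inv hd)]; simp
    have hg : g ∈ KK L n := by
      refine ⟨⟨?_, ?_⟩, ?_⟩
      · intro i j
        change B 0 ((!![1, 0; e'.1, 1 + e'.2] : Matrix (Fin 2) (Fin 2) L) i j)
        fin_cases i <;> fin_cases j
        · exact B_one
        · exact B_zero _
        · exact B_mono (by omega) h1.1
        · exact B_add B_one (B_mono (by omega) h1.2)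
      · intro i j
        change B 0 ((!![1, 0; -e'.1 * (1 + e'.2)⁻¹, (1 + e'.2)⁻¹] : Matrix (Fin 2) (Fin 2) L) i j)
        fin_cases i <;> fin_cases j
        · exact B_one
        · exact B_zero _
        · have := B_mul (B_neg (B_mono (m := 0) (by omega) h1.1)) hinv
          simpa using this
        · exact hinv
      · intro i j
        change B n ((!![1, 0; e'.1, 1 + e'.2] - 1 : Matrix (Fin 2) (Fin 2) L) i j)
        fin_cases i <;> fin_cases j
        · simp [B_zero]
        · simp [B_zero]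
        · simpa using h1.1
        · simpa using h1.2
    have h3 := hf' g hg (x, 1)
    have h4 : act g (x, 1) = (x, 1) + e' := by
      change (x * 1 + 1 * e'.1, x * 0 + 1 * (1 + e'.2)) = _
      ext <;> simp
    rw [← h3, h4]
  · have h1 := key c hc _ hpy ⟨B_one, B_mono (by norm_num) hy⟩ not_Bp_one_of_fst
    set e' := c⁻¹ • e with he'
    have h2 : e = c • e' := by rw [he', smul_smul, mul_inv_cancel₀ hc, one_smul]
    rw [hpy, h2, ← smul_add, f.2.2.1 c hc, f.2.2.1 c hc]
    have hd : Valued.v (1 + e'.1) = WithZero.exp (-0 : ℤ) := by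
      refine ord_add (by simp) (B_mono (by omega) h1.1)
    have hd0 : (1 + e'.1) ≠ 0 := ord_ne_zero hd
    let g : GL (Fin 2) L := ⟨!![1 + e'.1, e'.2; 0, 1],
      !![(1 + e'.1)⁻¹, -e'.2 * (1 + e'.1)⁻¹; 0, 1],
      by
        ext i j
        fin_cases i <;> fin_cases j <;> simp [hd0]
        field_simp
        ring,
      by
        ext i j
        fin_cases i <;> fin_cases j <;> simp [hd0]
        field_simp
        ring⟩
    have hinv : B 0 (1 + e'.1)⁻¹ := by
      rw [B_iff_of_ord (ord_inv hd)]; simp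
    have hg : g ∈ KK L n := by
      refine ⟨⟨?_, ?_⟩, ?_⟩
      · intro i j
        change B 0 ((!![1 + e'.1, e'.2; 0, 1] : Matrix (Fin 2) (Fin 2) L) i j)
        fin_cases i <;> fin_cases j
        · exact B_add B_one (B_mono (by omega) h1.1)
        · exact B_mono (by omega) h1.2
        · exact B_zero _
        · exact B_one
      · intro i j
        change B 0 ((!![(1 + e'.1)⁻¹, -e'.2 * (1 + e'.1)⁻¹; 0, 1] : Matrix (Fin 2) (Fin 2) L) i j)
        fin_cases i <;> fin_cases j
        · exact hinv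
        · have := B_mul (B_neg (B_mono (m := 0) (by omega) h1.2)) hinv
          simpa using this
        · exact B_zero _
        · exact B_one
      · intro i j
        change B n ((!![1 + e'.1, e'.2; 0, 1] - 1 : Matrix (Fin 2) (Fin 2) L) i j)
        fin_cases i <;> fin_cases j
        · simpa using h1.1
        · simpa using h1.2
        · simp [B_zero]
        · simp [B_zero]
    have h3 := hf' g hg (1, y)
    have h4 : act g (1, y) = (1, y) + e' := by
      change (1 * (1 + e'.1) + y * 0, 1 * e'.2 + y * 1) = _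
      ext
      · simp
      · simp [add_comm]
    rw [← h3, h4]

variable (L) in
/-- the vectors of `VS` fixed by `KK n` -/
def fixV (n : ℕ) : Submodule ℂ (VS L) where
  carrier := {f | ∀ g ∈ KK L n, rhoV L g f = f}
  add_mem' := by
    intro a b ha hb g hg
    rw [map_add, ha g hg, hb g hg]
  zero_mem' := fun g _ => map_zero _
  smul_mem' := by
    intro c a ha g hg
    rw [map_smul, ha g hg]

theorem finite_fixV {n : ℕ} (hn : 1 ≤ n) : FiniteDimensional ℂ (fixV L n) := by
  obtain ⟨S, -, -, hS⟩ := exists_points (L := L) n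
  let T : fixV L n →ₗ[ℂ] (S → ℂ) :=
    { toFun := fun f s => f.1.1 s.1
      map_add' := fun _ _ => rfl
      map_smul' := fun _ _ => rfl }
  refine FiniteDimensional.of_injective T ?_
  have hker : ∀ f : fixV L n, T f = 0 → f = 0 := ?_
  · intro a b hab
    have h1 : T (a - b) = 0 := by
      funext s
      have h2 := congrFun hab s
      change a.1.1 s.1 - b.1.1 s.1 = 0
      exact sub_eq_zero.2 h2
    exact sub_eq_zero.1 (hker _ h1)
  intro f hf
  apply Subtype.ext
  apply Subtype.ext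
  funext p
  change f.1.1 p = 0
  rcases eq_or_ne p 0 with rfl | hp
  · exact f.1.2.1
  · obtain ⟨s, hs, hps⟩ := hS f.1 (lev_of_fixed hn f.1 f.2) p hp
    rw [hps]
    exact congrFun hf ⟨s, hs⟩

end

end Pool.Agent.R423.AL
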