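import Pool.Agent.R423.AL.St

/-!
# Irreducibility of the Steinberg representation
-/

namespace Pool.Agent.R423.AL

open scoped WithZero
open Topology

noncomputable section

variable {L : Type} [Field L] [Valued L ℤᵐ⁰] [LF L]

/-- pointwise product -/
def mulV (f g : VS L) : VS L := ⟨fun p => f.1 p * g.1 p, by
  obtain ⟨n, hn⟩ := f.2.2.2
  obtain ⟨m, hm⟩ := g.2.2.2
  refine ⟨by simp [f.2.1], fun c hc p => ?_, max n m, fun p e hp he => ?_⟩
  · change f.1 (c • p) * g.1 (c • p) = f.1 p * g.1 p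
    rw [f.2.2.1 c hc, g.2.2.1 c hc]
  · change f.1 (p + e) * g.1 (p + e) = f.1 p * g.1 p
    rw [Lev_mono (le_max_left n m) hn p e hp he, Lev_mono (le_max_right n m) hm p e hp he]⟩

open Classical in
/-- the indicator function of `{|x| < |y|}` -/
def dV : VS L := ⟨fun p => if Valued.v p.1 < Valued.v p.2 then 1 else 0, by
  refine ⟨by simp, fun c hc p => ?_, 1, fun p e hp he => ?_⟩
  · have hc0 : 0 < Valued.v c := (Valuation.pos_iff _).2 hc
    have h : Valued.v (c • p).1 < Valued.v (c • p).2 ↔ Valued.v p.1 < Valued.v p.2 := by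
      simp only [Prod.smul_fst, Prod.smul_snd, smul_eq_mul, map_mul]
      exact mul_lt_mul_iff_right₀ hc0
    simp only [h]
  · have h : Valued.v (p + e).1 < Valued.v (p + e).2 ↔ Valued.v p.1 < Valued.v p.2 := by
      have he1 : Valued.v e.1 < 1 := B_one_iff.1 (by simpa using he.1)
      have he2 : Valued.v e.2 < 1 := B_one_iff.1 (by simpa using he.2)
      have hp' : 1 ≤ Valued.v p.1 ∨ 1 ≤ Valued.v p.2 := by
        by_contra hcon
        push Not at hcon
        exact hp ⟨B_one_iff.2 hcon.1, B_one_iff.2 hcon.2⟩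
      simp only [Prod.fst_add, Prod.snd_add]
      by_cases h1 : 1 ≤ Valued.v p.1
      · have e1 : Valued.v (p.1 + e.1) = Valued.v p.1 :=
          Valuation.map_add_eq_of_lt_left _ (he1.trans_le h1)
        rw [e1]
        by_cases h2 : 1 ≤ Valued.v p.2
        · rw [Valuation.map_add_eq_of_lt_left _ (he2.trans_le h2)]
        · push Not at h2
          have h3 : Valued.v (p.2 + e.2) < 1 :=
            (Valuation.map_add _ _ _).trans_lt (max_lt h2 he2)
          constructor
          · intro h4; exact absurd (h4.trans (h3.trans_le h1)) (lt_irrefl _)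
          · intro h4; exact absurd (h4.trans (h2.trans_le h1)) (lt_irrefl _)
      · push Not at h1
        have h2 : 1 ≤ Valued.v p.2 := by
          rcases hp' with h | h
          · exact absurd h1 (not_lt.2 h)
          · exact h
        rw [Valuation.map_add_eq_of_lt_left _ (he2.trans_le h2)]
        have h3 : Valued.v (p.1 + e.1) < 1 :=
          (Valuation.map_add _ _ _).trans_lt (max_lt h1 he1)
        constructor
        · intro _; exact h1.trans_le h2
        · intro _; exact h3.trans_le h2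
    simp only [h]⟩

/-- the matrix moving the standard disc to `{x : |x - c| < q^(-m)}` -/
def gM (c : L) (m : ℤ) : GL (Fin 2) L := lowM (-c) * dgM (pw (-m)) 1 (pw_ne_zero _) one_ne_zero

theorem act_gM (c : L) (m : ℤ) (p : L × L) : act (gM c m) p = ((p.1 - p.2 * c) * pw (-m), p.2) := by
  rw [gM, act_mul, act_lowM, act_dgM]
  ext
  · simp only []
    ring
  · simp

/-- the indicator function of the affine ball `{x : |x - c| ≤ q^(-k)}` -/
def ballV (c : L) (k : ℤ) : VS L := rhoV L (gM c (k - 1)) dV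

open Classical in
theorem ballV_fst (c x : L) (k : ℤ) : (ballV c k).1 (x, 1) = if B k (x - c) then 1 else 0 := by
  rw [ballV, rhoV_apply, act_gM]
  change (if Valued.v ((x - 1 * c) * pw (-(k - 1))) < Valued.v (1 : L) then (1 : ℂ) else 0) = _
  have h : Valued.v ((x - 1 * c) * pw (-(k - 1))) < Valued.v (1 : L) ↔ B k (x - c) := by
    rw [map_one, ← B_one_iff, one_mul, mul_comm]
    have := B_mul_iff (x := x - c) (v_pw (L := L) (-(k - 1))) k
    rw [← this]
    have e : k + (-(k - 1)) = 1 := by ring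
    rw [e]
  simp only [h]

open Classical in
theorem ballV_inf (c : L) (k : ℤ) : (ballV c k).1 (1, 0) = 0 := by
  rw [ballV, rhoV_apply, act_gM]
  change (if Valued.v ((1 - 0 * c) * pw (-(k - 1))) < Valued.v (0 : L) then (1 : ℂ) else 0) = _
  simp

omit [LF L] in
/-- two elements of `VS` agree if they agree on the affine line and at infinity -/
theorem VS_ext' {f g : VS L} (h1 : ∀ x : L, f.1 (x, 1) = g.1 (x, 1))
    (h2 : f.1 (1, 0) = g.1 (1, 0)) : f = g := by
  refine VS_ext (fun x _ => h1 x) fun y _ => ?_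
  rcases eq_or_ne y 0 with rfl | hy
  · exact h2
  · have e : ((1 : L), y) = y • (y⁻¹, (1 : L)) := by
      ext
      · simp [hy]
      · simp
    rw [e, f.2.2.1 y hy, g.2.2.1 y hy, h1]

/-- a function supported in a ball and constant on smaller balls is a combination of indicators
of balls -/
theorem ball_induction (W : Submodule ℂ (VS L)) (hW : ∀ c k, ballV c k ∈ W) (N : ℕ) :
    ∀ (c : L) (k : ℤ) (f : VS L), f.1 (1, 0) = 0 → (∀ x, ¬ B k (x - c) → f.1 (x, 1) = 0) →
      (∀ x y, B (k + N) (x - y) → f.1 (x, 1) = f.1 (y, 1)) → f ∈ W := by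
  classical
  induction N with
  | zero =>
    intro c k f h0 h1 h2
    have e : f = f.1 (c, 1) • ballV c k := by
      refine VS_ext' (fun x => ?_) ?_
      · change f.1 (x, 1) = f.1 (c, 1) * (ballV c k).1 (x, 1)
        rw [ballV_fst]
        split_ifs with h
        · rw [mul_one]; exact h2 x c (by simpa using h)
        · rw [mul_zero]; exact h1 x h
      · change f.1 (1, 0) = f.1 (c, 1) * (ballV c k).1 (1, 0)
        rw [ballV_inf, h0, mul_zero]
    rw [e]
    exact W.smul_mem _ (hW c k)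
  | succ N ih =>
    intro c k f h0 h1 h2
    have hsub : ∀ (d : L) (x y : L), B (k + 1 + N) (x - y) →
        (mulV f (ballV d (k + 1))).1 (x, 1) = (mulV f (ballV d (k + 1))).1 (y, 1) := by
      intro d x y hxy
      change f.1 (x, 1) * (ballV d (k + 1)).1 (x, 1) = f.1 (y, 1) * (ballV d (k + 1)).1 (y, 1)
      rw [h2 x y (by push_cast; exact B_mono (by omega) hxy)]
      congr 1
      rw [ballV_fst, ballV_fst]
      have : B (k + 1) (x - d) ↔ B (k + 1) (y - d) := by
        have hxy' : B (k + 1) (x - y) := B_mono (by omega) hxy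
        constructor
        · intro h
          have e : y - d = (x - d) - (x - y) := by ring
          rw [e]; exact B_sub h hxy'
        · intro h
          have e : x - d = (y - d) + (x - y) := by ring
          rw [e]; exact B_add h hxy'
      simp only [this]
    have hsupp : ∀ (d : L) (x : L), ¬ B (k + 1) (x - d) →
        (mulV f (ballV d (k + 1))).1 (x, 1) = 0 := by
      intro d x hx
      change f.1 (x, 1) * (ballV d (k + 1)).1 (x, 1) = 0
      rw [ballV_fst, if_neg hx, mul_zero]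
    have hinf : ∀ d : L, (mulV f (ballV d (k + 1))).1 (1, 0) = 0 := by
      intro d
      change f.1 (1, 0) * (ballV d (k + 1)).1 (1, 0) = 0
      rw [ballV_inf, mul_zero]
    have m1 := ih c (k + 1) _ (hinf c) (hsupp c) (hsub c)
    have m2 := ih (c + pw k) (k + 1) _ (hinf _) (hsupp _) (hsub _)
    have e : f = mulV f (ballV c (k + 1)) + mulV f (ballV (c + pw k) (k + 1)) := by
      refine VS_ext' (fun x => ?_) ?_
      · change f.1 (x, 1) = f.1 (x, 1) * (ballV c (k + 1)).1 (x, 1) +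
          f.1 (x, 1) * (ballV (c + pw k) (k + 1)).1 (x, 1)
        rw [ballV_fst, ballV_fst, ← sub_sub]
        by_cases hx : B k (x - c)
        · rcases B_split hx with h | h
          · have h' : ¬ B (k + 1) (x - c - pw k) := by
              intro h3
              have h4 : B (k + 1) (pw k : L) := by
                have e : (pw k : L) = (x - c) - (x - c - pw k) := by ring
                rw [e]; exact B_sub h h3
              rw [B_iff_of_ord (v_pw k)] at h4
              omega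
            rw [if_pos h, if_neg h']; ring
          · have h' : ¬ B (k + 1) (x - c) := by
              intro h3
              have h4 : B (k + 1) (pw k : L) := by
                have e : (pw k : L) = (x - c) - (x - c - pw k) := by ring
                rw [e]; exact B_sub h3 h
              rw [B_iff_of_ord (v_pw k)] at h4
              omega
            rw [if_pos h, if_neg h']; ring
        · rw [h1 x hx]; ring
      · change f.1 (1, 0) = f.1 (1, 0) * (ballV c (k + 1)).1 (1, 0) +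
          f.1 (1, 0) * (ballV (c + pw k) (k + 1)).1 (1, 0)
        rw [h0]; ring
    rw [e]
    exact W.add_mem m1 m2

omit [LF L] in
theorem not_B_inv {x : L} {k : ℤ} (hx : ¬ B (-k) x) : x ≠ 0 ∧ B k x⁻¹ := by
  have hx0 : x ≠ 0 := by
    rintro rfl
    exact hx (B_zero _)
  refine ⟨hx0, ?_⟩
  obtain ⟨m, hm⟩ := exists_ord hx0
  rw [B_iff_of_ord hm] at hx
  rw [B_iff_of_ord (ord_inv hm)]
  omega

/-- `VS` is spanned by the indicators of balls and the constant function -/
theorem span_balls (W : Submodule ℂ (VS L)) (hW : ∀ c k, ballV c k ∈ W) (h1 : oneV ∈ W) :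
    W = ⊤ := by
  rw [eq_top_iff]
  intro f _
  obtain ⟨n, hn⟩ := f.2.2.2
  have h2 : f - f.1 (1, 0) • oneV ∈ W := by
    refine ball_induction W hW (2 * n) 0 (-n) _ ?_ ?_ ?_
    · change f.1 (1, 0) - f.1 (1, 0) * (oneV : VS L).1 (1, 0) = 0
      rw [oneV_apply (by intro h; exact one_ne_zero (congrArg Prod.fst h))]
      ring
    · intro x hx
      change f.1 (x, 1) - f.1 (1, 0) * (oneV : VS L).1 (x, 1) = 0
      rw [oneV_apply (by intro h; exact one_ne_zero (congrArg Prod.snd h))]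
      rw [sub_zero] at hx
      obtain ⟨hx0, hx1⟩ := not_B_inv hx
      have e : (x, (1 : L)) = x • (((1 : L), (0 : L)) + (0, x⁻¹)) := by
        ext
        · simp
        · simp [hx0]
      rw [e, f.2.2.1 x hx0, hn (1, 0) (0, x⁻¹) not_Bp_one_of_fst ⟨B_zero _, hx1⟩]
      ring
    · intro x y hxy
      change f.1 (x, 1) - f.1 (1, 0) * (oneV : VS L).1 (x, 1) =
        f.1 (y, 1) - f.1 (1, 0) * (oneV : VS L).1 (y, 1)
      rw [oneV_apply (by intro h; exact one_ne_zero (congrArg Prod.snd h)),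
        oneV_apply (by intro h; exact one_ne_zero (congrArg Prod.snd h))]
      congr 1
      have e : (x, (1 : L)) = (y, 1) + (x - y, 0) := by ext <;> simp
      rw [e]
      refine hn _ _ not_Bp_one_of_snd ⟨?_, B_zero _⟩
      have : (-(n : ℤ) + ((2 * n : ℕ) : ℤ)) = n := by push_cast; ring
      rwa [this] at hxy
  have e : f = (f - f.1 (1, 0) • oneV) + f.1 (1, 0) • oneV := by abel
  rw [e]
  exact W.add_mem h2 (W.smul_mem _ h1)

/-- all balls are translates of each other -/
theorem ballV_mem_of_mem (W : Submodule ℂ (VS L)) (hW : ∀ g, ∀ f ∈ W, rhoV L g f ∈ W) {c₀ : L}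
    {k₀ : ℤ} (h : ballV c₀ k₀ ∈ W) (c : L) (k : ℤ) : ballV c k ∈ W := by
  have h1 : (dV : VS L) ∈ W := by
    have := hW (gM c₀ (k₀ - 1))⁻¹ _ h
    rw [ballV, rep_inv_apply] at this
    exact this
  exact hW _ _ h1

/-- A stable subspace which contains the constants and a function which is not constant is
everything. -/
theorem eq_top_of_nonconst (W : Submodule ℂ (VS L)) (hW : ∀ g, ∀ f ∈ W, rhoV L g f ∈ W)
    (h1 : oneV ∈ W) (f : VS L) (hf : f ∈ W) (hne : ∀ c : ℂ, f ≠ c • oneV) : W = ⊤ := by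
  classical
  refine span_balls W ?_ h1
  suffices h : ballV 0 0 ∈ W from ballV_mem_of_mem W hW h
  -- a point where `f` differs from another value
  obtain ⟨p, hp0, q, hq0, hpq⟩ : ∃ p : L × L, p ≠ 0 ∧ ∃ q : L × L, q ≠ 0 ∧ f.1 p ≠ f.1 q := by
    by_contra hcon
    push Not at hcon
    have h10 : ((1 : L), (0 : L)) ≠ 0 := by
      intro h; exact one_ne_zero (congrArg Prod.fst h)
    exact hne (f.1 (1, 0)) (eq_smul_oneV f _ fun p hp => hcon p hp _ h10)
  -- make the real part nonconstant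
  obtain ⟨a, ha⟩ : ∃ a : ℂ, (a * f.1 p).re ≠ (a * f.1 q).re := by
    refine ⟨(starRingEnd ℂ) (f.1 p - f.1 q), ?_⟩
    intro h
    have h2 : ((starRingEnd ℂ) (f.1 p - f.1 q) * (f.1 p - f.1 q)).re = 0 := by
      rw [mul_sub, Complex.sub_re, h, sub_self]
    rw [mul_comm, Complex.mul_conj, Complex.ofReal_re] at h2
    exact hpq (sub_eq_zero.1 (Complex.normSq_eq_zero.1 h2))
  set f₁ : VS L := a • f with hf₁
  have hf₁W : f₁ ∈ W := W.smul_mem _ hf
  have hf₁a : ∀ r, f₁.1 r = a * f.1 r := fun r => rfl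
  obtain ⟨n, hn⟩ := f₁.2.2.2
  obtain ⟨S, hS0, hSne, hS⟩ := exists_points (L := L) n
  obtain ⟨p₀, hp₀S, hp₀⟩ := S.exists_max_image (fun r => (f₁.1 r).re) hSne
  have hmax : ∀ r, r ≠ 0 → (f₁.1 r).re ≤ (f₁.1 p₀).re := by
    intro r hr
    obtain ⟨s, hs, hrs⟩ := hS f₁ hn r hr
    rw [hrs]; exact hp₀ s hs
  obtain ⟨r, hr0, hr⟩ : ∃ r, r ≠ 0 ∧ (f₁.1 r).re < (f₁.1 p₀).re := by
    by_contra hcon
    push Not at hcon
    apply ha
    rw [← hf₁a, ← hf₁a]
    rw [le_antisymm (hmax p hp0) (hcon p hp0), le_antisymm (hmax q hq0) (hcon q hq0)]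
  obtain ⟨g, hg⟩ := exists_row_matrix (hS0 p₀ hp₀S)
  -- move the maximum to infinity and subtract the constant
  set f₂ : VS L := rhoV L g f₁ - f₁.1 p₀ • oneV with hf₂
  have hf₂W : f₂ ∈ W := W.sub_mem (hW g _ hf₁W) (W.smul_mem _ h1)
  have hf₂a : ∀ r, r ≠ 0 → f₂.1 r = f₁.1 (act g r) - f₁.1 p₀ := by
    intro r hr
    change f₁.1 (act g r) - f₁.1 p₀ * (oneV : VS L).1 r = _
    rw [oneV_apply hr, mul_one]
  have h10 : ((1 : L), (0 : L)) ≠ 0 := by
    intro h; exact one_ne_zero (congrArg Prod.fst h)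
  have hx1 : ∀ x : L, (x, (1 : L)) ≠ 0 := by
    intro x h; exact one_ne_zero (congrArg Prod.snd h)
  have hf₂inf : f₂.1 (1, 0) = 0 := by
    rw [hf₂a _ h10, hg, sub_self]
  have hf₂le : ∀ r, r ≠ 0 → (f₂.1 r).re ≤ 0 := by
    intro r hr
    rw [hf₂a _ hr, Complex.sub_re]
    exact sub_nonpos.2 (hmax _ (act_ne_zero hr))
  obtain ⟨x₀, hx₀⟩ : ∃ x₀ : L, (f₂.1 (x₀, 1)).re < 0 := by
    by_contra hcon
    push Not at hcon
    have hz : (f₂.1 (act g⁻¹ r)).re < 0 := by
      rw [hf₂a _ (act_ne_zero hr0), act_act_inv, Complex.sub_re]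
      exact sub_neg.2 hr
    have hr' : act g⁻¹ r ≠ 0 := act_ne_zero hr0
    by_cases h2 : (act g⁻¹ r).2 = 0
    · have e : act g⁻¹ r = (act g⁻¹ r).1 • ((1 : L), (0 : L)) := by
        ext
        · simp
        · simp [h2]
      have h3 : (act g⁻¹ r).1 ≠ 0 := by
        intro h3; exact hr' (Prod.ext h3 h2)
      rw [e, f₂.2.2.1 _ h3, hf₂inf] at hz
      simp at hz
    · have e : act g⁻¹ r = (act g⁻¹ r).2 • ((act g⁻¹ r).1 / (act g⁻¹ r).2, (1 : L)) := by
        ext
        · simp only [Prod.smul_fst, smul_eq_mul]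
          rw [mul_div_cancel₀ _ h2]
        · simp
      rw [e, f₂.2.2.1 _ h2] at hz
      exact absurd hz (not_lt.2 (hcon _))
  obtain ⟨m, hm⟩ := f₂.2.2.2
  -- the support of `f₂` is in a ball
  have hf₂supp : ∀ x : L, ¬ B (-m) x → f₂.1 (x, 1) = 0 := by
    intro x hx
    obtain ⟨hx0, hx1⟩ := not_B_inv hx
    have e : (x, (1 : L)) = x • (((1 : L), (0 : L)) + (0, x⁻¹)) := by
      ext
      · simp
      · simp [hx0]
    rw [e, f₂.2.2.1 x hx0, hm (1, 0) (0, x⁻¹) not_Bp_one_of_fst ⟨B_zero _, hx1⟩, hf₂inf]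
  -- rescale
  set d : GL (Fin 2) L := dgM (pw (-m)) 1 (pw_ne_zero _) one_ne_zero with hd
  set f₃ : VS L := rhoV L d f₂ with hf₃
  have hf₃W : f₃ ∈ W := hW d _ hf₂W
  have hf₃a : ∀ x : L, f₃.1 (x, 1) = f₂.1 (x * pw (-m), 1) := by
    intro x
    rw [hf₃, rhoV_apply, hd, act_dgM]
    simp
  have hf₃inf : f₃.1 (1, 0) = 0 := by
    rw [hf₃, rhoV_apply, hd, act_dgM]
    have e : (((1 : L), (0 : L)).1 * pw (-m), ((1 : L), (0 : L)).2 * 1) =
        (pw (-m) : L) • ((1 : L), (0 : L)) := by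
      ext <;> simp
    rw [e, f₂.2.2.1 _ (pw_ne_zero _), hf₂inf]
  have hf₃supp : ∀ x : L, ¬ B 0 x → f₃.1 (x, 1) = 0 := by
    intro x hx
    rw [hf₃a]
    apply hf₂supp
    intro h
    apply hx
    rw [mul_comm] at h
    have := (B_mul_iff (x := x) (v_pw (L := L) (-m)) 0).1 (B_mono (by omega) h)
    exact this
  have hf₃le : ∀ x : L, (f₃.1 (x, 1)).re ≤ 0 := by
    intro x
    rw [hf₃a]; exact hf₂le _ (hx1 _)
  obtain ⟨x₁, hx₁⟩ : ∃ x₁ : L, (f₃.1 (x₁, 1)).re < 0 := by
    refine ⟨x₀ * pw m, ?_⟩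
    rw [hf₃a, mul_assoc, ← pw_add]
    simpa [pw_zero] using hx₀
  have hx₁B : B 0 x₁ := by
    by_contra h
    rw [hf₃supp x₁ h] at hx₁
    simp at hx₁
  obtain ⟨k, hk⟩ := f₃.2.2.2
  obtain ⟨S', hS'1, hS'2, -, hS'4, hS'5⟩ := exists_average (rhoV L) (UL L) f₃
    (finite_orbit (rhoV L) f₃ k (fun g hg => KK_fixes f₃ hk hg) (UL L) UL_le)
  set y : VS L := ∑ u ∈ S', rhoV L u f₃ with hy
  have hyW : y ∈ W := W.sum_mem fun u _ => hW u _ hf₃W
  have hya : ∀ p, y.1 p = ∑ u ∈ S', f₃.1 (act u p) := by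
    intro p
    have h2 : y.1 = ∑ u ∈ S', (rhoV L u f₃).1 := by
      rw [hy]
      exact map_sum (Submodule.subtype (VS L)) _ _
    rw [h2, Finset.sum_apply]
    rfl
  have hyinf : y.1 (1, 0) = 0 := by
    rw [hya]
    refine Finset.sum_eq_zero fun u hu => ?_
    obtain ⟨c, hc, rfl⟩ := hS'1 u hu
    rw [act_lowM]
    simpa using hf₃inf
  have hysupp : ∀ x : L, ¬ B 0 x → y.1 (x, 1) = 0 := by
    intro x hx
    rw [hya]
    refine Finset.sum_eq_zero fun u hu => ?_
    obtain ⟨c, hc, rfl⟩ := hS'1 u hu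
    rw [act_lowM]
    apply hf₃supp
    intro h
    apply hx
    have e : x = (x + 1 * c) - c := by ring
    rw [e]
    exact B_sub h hc
  have hyconst : ∀ x : L, B 0 x → y.1 (x, 1) = y.1 (0, 1) := by
    intro x hx
    have h2 : rhoV L (lowM x) y = y := hS'5 _ ⟨x, hx, rfl⟩
    have h3 : (rhoV L (lowM x) y).1 (0, 1) = y.1 (x, 1) := by
      rw [rhoV_apply, act_lowM]
      simp
    rw [← h3, h2]
  have hyneg : (y.1 (0, 1)).re < 0 := by
    rw [hya, Complex.re_sum]
    have hle : ∀ u ∈ S', (f₃.1 (act u (0, 1))).re ≤ 0 := by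
      intro u hu
      obtain ⟨c, hc, rfl⟩ := hS'1 u hu
      rw [act_lowM]
      exact hf₃le _
    obtain ⟨u, hu, hux⟩ := hS'4 (lowM x₁) ⟨x₁, hx₁B, rfl⟩
    have h4 : (f₃.1 (act u (0, 1))).re < 0 := by
      have h5 : f₃.1 (act u (0, 1)) = f₃.1 (act (lowM x₁) (0, 1)) :=
        congrFun (congrArg Subtype.val hux) (0, 1)
      rw [h5, act_lowM]
      simpa using hx₁
    exact Finset.sum_neg' hle ⟨u, hu, h4⟩
  have hκ : y.1 (0, 1) ≠ 0 := by
    intro h
    rw [h] at hyneg
    simp at hyneg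
  have hyeq : y = y.1 (0, 1) • ballV 0 0 := by
    refine VS_ext' (fun x => ?_) ?_
    · change y.1 (x, 1) = y.1 (0, 1) * (ballV 0 0).1 (x, 1)
      rw [ballV_fst, sub_zero]
      split_ifs with h
      · rw [mul_one]; exact hyconst x h
      · rw [mul_zero]; exact hysupp x h
    · change y.1 (1, 0) = y.1 (0, 1) * (ballV 0 0).1 (1, 0)
      rw [ballV_inf, hyinf, mul_zero]
  have h6 : (y.1 (0, 1))⁻¹ • y ∈ W := W.smul_mem _ hyW
  rw [hyeq, smul_smul] at h6
  have h7 : (y.1 (0, 1) • ballV 0 0 : VS L).1 (0, 1) = y.1 (0, 1) := by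
    rw [← hyeq]
  rw [h7, inv_mul_cancel₀ hκ, one_smul] at h6
  exact h6

end

end Pool.Agent.R423.AL
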