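import Pool.Agent.R423.AL.Defs
import Pool.Agent.R423.AL.StBall

/-!
# Matrices in `GL₂` of a local field with residue field `F₂`
-/

namespace Pool.Agent.R423.AL.St

open Pool.Agent.R423.AL
open scoped WithZero

noncomputable section

section Mat

variable {F : Type} [Field F]

/-- `(a, 0; 0, 1)` -/
def dia (a : Fˣ) : GL (Fin 2) F where
  val := !![(a : F), 0; 0, 1]
  inv := !![((a⁻¹ : Fˣ) : F), 0; 0, 1]
  val_inv := by
    ext i j
    fin_cases i <;> fin_cases j <;> simp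
  inv_val := by
    ext i j
    fin_cases i <;> fin_cases j <;> simp

/-- `(z, 0; 0, z)` -/
def sca (z : Fˣ) : GL (Fin 2) F where
  val := !![(z : F), 0; 0, z]
  inv := !![((z⁻¹ : Fˣ) : F), 0; 0, ((z⁻¹ : Fˣ) : F)]
  val_inv := by
    ext i j
    fin_cases i <;> fin_cases j <;> simp
  inv_val := by
    ext i j
    fin_cases i <;> fin_cases j <;> simp

/-- `(0, 1; 1, 0)` -/
def sM : GL (Fin 2) F where
  val := !![0, 1; 1, 0]
  inv := !![0, 1; 1, 0]
  val_inv := by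
    ext i j
    fin_cases i <;> fin_cases j <;> simp
  inv_val := by
    ext i j
    fin_cases i <;> fin_cases j <;> simp

/-- `(0, 1; ϖ, 0)` -/
def wM (ϖ : Fˣ) : GL (Fin 2) F where
  val := !![0, 1; (ϖ : F), 0]
  inv := !![0, ((ϖ⁻¹ : Fˣ) : F); 1, 0]
  val_inv := by
    ext i j
    fin_cases i <;> fin_cases j <;> simp
  inv_val := by
    ext i j
    fin_cases i <;> fin_cases j <;> simp

/-- `(ε, 0; c, 1)` -/
def lowM (ε : Fˣ) (c : F) : GL (Fin 2) F where
  val := !![(ε : F), 0; c, 1]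
  inv := !![((ε⁻¹ : Fˣ) : F), 0; -c * ((ε⁻¹ : Fˣ) : F), 1]
  val_inv := by
    ext i j
    fin_cases i <;> fin_cases j <;> simp
  inv_val := by
    ext i j
    fin_cases i <;> fin_cases j <;> simp

theorem dia_val (a : Fˣ) : ((dia a : GL (Fin 2) F) : Matrix (Fin 2) (Fin 2) F) =
    !![(a : F), 0; 0, 1] := rfl
theorem sca_val (z : Fˣ) : ((sca z : GL (Fin 2) F) : Matrix (Fin 2) (Fin 2) F) =
    !![(z : F), 0; 0, z] := rfl
theorem sM_val : ((sM : GL (Fin 2) F) : Matrix (Fin 2) (Fin 2) F) = !![0, 1; 1, 0] := rfl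
theorem wM_val (ϖ : Fˣ) : ((wM ϖ : GL (Fin 2) F) : Matrix (Fin 2) (Fin 2) F) =
    !![0, 1; (ϖ : F), 0] := rfl
theorem lowM_val (ε : Fˣ) (c : F) : ((lowM ε c : GL (Fin 2) F) : Matrix (Fin 2) (Fin 2) F) =
    !![(ε : F), 0; c, 1] := rfl
theorem uni_val (x : F) : ((uni x : GL (Fin 2) F) : Matrix (Fin 2) (Fin 2) F) =
    !![1, x; 0, 1] := rfl

theorem inv_val_eq (g : GL (Fin 2) F) :
    (((g⁻¹ : GL (Fin 2) F)) : Matrix (Fin 2) (Fin 2) F) =
      (g : Matrix (Fin 2) (Fin 2) F).det⁻¹ •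
        !![(g : Matrix (Fin 2) (Fin 2) F) 1 1, -(g : Matrix (Fin 2) (Fin 2) F) 0 1;
          -(g : Matrix (Fin 2) (Fin 2) F) 1 0, (g : Matrix (Fin 2) (Fin 2) F) 0 0] := by
  rw [Matrix.coe_units_inv, Matrix.inv_def, Ring.inverse_eq_inv', Matrix.adjugate_fin_two]

theorem det_ne (g : GL (Fin 2) F) : (g : Matrix (Fin 2) (Fin 2) F).det ≠ 0 := by
  have := (Matrix.isUnit_iff_isUnit_det _).1 g.isUnit
  exact this.ne_zero

theorem ext4 {g h : GL (Fin 2) F}
    (h00 : (g : Matrix (Fin 2) (Fin 2) F) 0 0 = (h : Matrix (Fin 2) (Fin 2) F) 0 0)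
    (h01 : (g : Matrix (Fin 2) (Fin 2) F) 0 1 = (h : Matrix (Fin 2) (Fin 2) F) 0 1)
    (h10 : (g : Matrix (Fin 2) (Fin 2) F) 1 0 = (h : Matrix (Fin 2) (Fin 2) F) 1 0)
    (h11 : (g : Matrix (Fin 2) (Fin 2) F) 1 1 = (h : Matrix (Fin 2) (Fin 2) F) 1 1) : g = h := by
  apply Units.ext
  ext i j
  fin_cases i <;> fin_cases j
  · exact h00
  · exact h01
  · exact h10
  · exact h11

theorem uni_mul_uni (a b : F) : (uni a * uni b : GL (Fin 2) F) = uni (a + b) := by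
  apply ext4 <;> simp [uni_val, add_comm]

theorem dia_mul_dia (a b : Fˣ) : (dia a * dia b : GL (Fin 2) F) = dia (a * b) := by
  apply ext4 <;> simp [dia_val]

theorem dia_mul_uni (a : Fˣ) (b : F) : (dia a * uni b : GL (Fin 2) F) = uni (a * b) * dia a := by
  apply ext4 <;> simp [dia_val, uni_val]

theorem sca_comm (z : Fˣ) (g : GL (Fin 2) F) : sca z * g = g * sca z := by
  apply ext4 <;> simp [sca_val, Matrix.mul_apply, Fin.sum_univ_two, mul_comm]

theorem sca_one : (sca 1 : GL (Fin 2) F) = 1 := by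
  apply ext4 <;> simp [sca_val]

theorem uni_zero : (uni 0 : GL (Fin 2) F) = 1 := by
  apply ext4 <;> simp [uni_val]

theorem sM_eq (ϖ : Fˣ) : (sM : GL (Fin 2) F) = dia ϖ * (sca ϖ⁻¹ * wM ϖ) := by
  apply ext4 <;> simp [sM_val, dia_val, sca_val, wM_val]

theorem sM_mul_sM : (sM * sM : GL (Fin 2) F) = 1 := by
  apply ext4 <;> simp [sM_val]

/-! ### The action on vectors -/

/-- the action on column vectors -/
def act (g : GL (Fin 2) F) (v : Fin 2 → F) : Fin 2 → F :=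
  (g : Matrix (Fin 2) (Fin 2) F).mulVec v

theorem act_mul (g h : GL (Fin 2) F) (v : Fin 2 → F) : act (g * h) v = act g (act h v) := by
  rw [act, act, act, Matrix.mulVec_mulVec, Units.val_mul]

theorem act_one (v : Fin 2 → F) : act 1 v = v := by simp [act]

theorem act_inv_act (g : GL (Fin 2) F) (v : Fin 2 → F) : act g⁻¹ (act g v) = v := by
  rw [← act_mul, inv_mul_cancel, act_one]

theorem act_act_inv (g : GL (Fin 2) F) (v : Fin 2 → F) : act g (act g⁻¹ v) = v := by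
  rw [← act_mul, mul_inv_cancel, act_one]

theorem act_zero (g : GL (Fin 2) F) : act g 0 = 0 := by simp [act]

theorem act_ne (g : GL (Fin 2) F) {v : Fin 2 → F} (hv : v ≠ 0) : act g v ≠ 0 := by
  intro h
  apply hv
  rw [← act_inv_act g v, h, act_zero]

theorem act_smul (g : GL (Fin 2) F) (c : F) (v : Fin 2 → F) : act g (c • v) = c • act g v := by
  simp [act, Matrix.mulVec_smul]

theorem act_zero' (g : GL (Fin 2) F) (v : Fin 2 → F) : act g v 0 =
    (g : Matrix (Fin 2) (Fin 2) F) 0 0 * v 0 + (g : Matrix (Fin 2) (Fin 2) F) 0 1 * v 1 := by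
  simp [act, Matrix.mulVec, dotProduct, Fin.sum_univ_two]

theorem act_one' (g : GL (Fin 2) F) (v : Fin 2 → F) : act g v 1 =
    (g : Matrix (Fin 2) (Fin 2) F) 1 0 * v 0 + (g : Matrix (Fin 2) (Fin 2) F) 1 1 * v 1 := by
  simp [act, Matrix.mulVec, dotProduct, Fin.sum_univ_two]

theorem vec_ne {v : Fin 2 → F} (hv : v ≠ 0) : v 0 ≠ 0 ∨ v 1 ≠ 0 := by
  by_contra h
  push Not at h
  apply hv
  ext i
  fin_cases i
  · exact h.1
  · exact h.2

end Mat

section Val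

variable {F : Type} [Field F] [Valued F ℤᵐ⁰]

/-- Membership in the Iwahori subgroup. -/
def Iw (k : GL (Fin 2) F) : Prop :=
  (∀ i j, Valued.v ((k : Matrix (Fin 2) (Fin 2) F) i j) ≤ 1) ∧
    Valued.v ((k : Matrix (Fin 2) (Fin 2) F) 1 0) < 1 ∧
    Valued.v (k : Matrix (Fin 2) (Fin 2) F).det = 1

theorem v_det_le {k : GL (Fin 2) F}
    (h : ∀ i j, Valued.v ((k : Matrix (Fin 2) (Fin 2) F) i j) ≤ 1) :
    Valued.v (k : Matrix (Fin 2) (Fin 2) F).det ≤ 1 := by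
  rw [Matrix.det_fin_two]
  refine (Valuation.map_sub _ _ _).trans (max_le ?_ ?_)
  · rw [map_mul]; exact mul_le_one' (h _ _) (h _ _)
  · rw [map_mul]; exact mul_le_one' (h _ _) (h _ _)

theorem v_det_of_GLO {k : GL (Fin 2) F} (h : k ∈ GLO F) :
    Valued.v (k : Matrix (Fin 2) (Fin 2) F).det = 1 := by
  have h1 := v_det_le h.1
  have h2 := v_det_le h.2
  have h3 : Valued.v (k : Matrix (Fin 2) (Fin 2) F).det *
      Valued.v ((k⁻¹ : GL (Fin 2) F) : Matrix (Fin 2) (Fin 2) F).det = 1 := by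
    rw [← map_mul, ← Matrix.det_mul, ← Units.val_mul, mul_inv_cancel]
    simp
  apply le_antisymm h1
  by_contra h4
  push Not at h4
  have h5 : Valued.v (k : Matrix (Fin 2) (Fin 2) F).det *
      Valued.v ((k⁻¹ : GL (Fin 2) F) : Matrix (Fin 2) (Fin 2) F).det ≤
      Valued.v (k : Matrix (Fin 2) (Fin 2) F).det := mul_le_of_le_one_right' h2
  rw [h3] at h5
  exact absurd (h5.trans_lt h4) (lt_irrefl _)

theorem Iw.of_GLO {k : GL (Fin 2) F} (h : k ∈ GLO F)
    (h' : Valued.v ((k : Matrix (Fin 2) (Fin 2) F) 1 0) < 1) : Iw k :=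
  ⟨h.1, h', v_det_of_GLO h⟩

theorem v_inv_entries {k : GL (Fin 2) F}
    (h2 : Valued.v (k : Matrix (Fin 2) (Fin 2) F).det = 1) :
    Valued.v (((k⁻¹ : GL (Fin 2) F) : Matrix (Fin 2) (Fin 2) F) 0 0) =
      Valued.v ((k : Matrix (Fin 2) (Fin 2) F) 1 1) ∧
    Valued.v (((k⁻¹ : GL (Fin 2) F) : Matrix (Fin 2) (Fin 2) F) 0 1) =
      Valued.v ((k : Matrix (Fin 2) (Fin 2) F) 0 1) ∧
    Valued.v (((k⁻¹ : GL (Fin 2) F) : Matrix (Fin 2) (Fin 2) F) 1 0) =
      Valued.v ((k : Matrix (Fin 2) (Fin 2) F) 1 0) ∧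
    Valued.v (((k⁻¹ : GL (Fin 2) F) : Matrix (Fin 2) (Fin 2) F) 1 1) =
      Valued.v ((k : Matrix (Fin 2) (Fin 2) F) 0 0) := by
  rw [inv_val_eq]
  simp [h2]

theorem mem_GLO_of {k : GL (Fin 2) F}
    (h : ∀ i j, Valued.v ((k : Matrix (Fin 2) (Fin 2) F) i j) ≤ 1)
    (h2 : Valued.v (k : Matrix (Fin 2) (Fin 2) F).det = 1) : k ∈ GLO F := by
  refine ⟨h, ?_⟩
  obtain ⟨a, b, c, d⟩ := v_inv_entries h2
  intro i j
  fin_cases i <;> fin_cases j
  · exact a.trans_le (h _ _)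
  · exact b.trans_le (h _ _)
  · exact c.trans_le (h _ _)
  · exact d.trans_le (h _ _)

theorem Iw.mem_GLO {k : GL (Fin 2) F} (h : Iw k) : k ∈ GLO F := mem_GLO_of h.1 h.2.2

theorem Iw.inv {k : GL (Fin 2) F} (h : Iw k) : Iw k⁻¹ := by
  apply Iw.of_GLO ((GLO F).inv_mem h.mem_GLO)
  rw [(v_inv_entries h.2.2).2.2.1]
  exact h.2.1

theorem Iw.diag {k : GL (Fin 2) F} (h : Iw k) :
    Valued.v ((k : Matrix (Fin 2) (Fin 2) F) 0 0) = 1 ∧
      Valued.v ((k : Matrix (Fin 2) (Fin 2) F) 1 1) = 1 := by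
  have h1 := h.2.2
  rw [Matrix.det_fin_two] at h1
  have h2 : Valued.v ((k : Matrix (Fin 2) (Fin 2) F) 0 1 * (k : Matrix (Fin 2) (Fin 2) F) 1 0)
      < 1 := by
    rw [map_mul]
    exact (mul_le_of_le_one_left' (h.1 0 1)).trans_lt h.2.1
  have h3 : Valued.v ((k : Matrix (Fin 2) (Fin 2) F) 0 0 * (k : Matrix (Fin 2) (Fin 2) F) 1 1)
      = 1 := by
    have h4 : Valued.v ((k : Matrix (Fin 2) (Fin 2) F) 0 0 * (k : Matrix (Fin 2) (Fin 2) F) 1 1) ≤ 1 := by
      rw [map_mul]; exact mul_le_one' (h.1 _ _) (h.1 _ _)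
    apply le_antisymm h4
    by_contra h5
    push Not at h5
    have h6 := (Valuation.map_sub Valued.v ((k : Matrix (Fin 2) (Fin 2) F) 0 0 *
      (k : Matrix (Fin 2) (Fin 2) F) 1 1) ((k : Matrix (Fin 2) (Fin 2) F) 0 1 *
      (k : Matrix (Fin 2) (Fin 2) F) 1 0)).trans_lt (max_lt h5 h2)
    rw [h1] at h6
    exact absurd h6 (lt_irrefl _)
  rw [map_mul] at h3
  constructor
  · apply le_antisymm (h.1 _ _)
    rw [← h3]
    exact mul_le_of_le_one_right' (h.1 _ _)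
  · apply le_antisymm (h.1 _ _)
    rw [← h3]
    exact mul_le_of_le_one_left' (h.1 _ _)

/-- `|v 0| ≤ |v 1|` -/
def inU (v : Fin 2 → F) : Prop := Valued.v (v 0) ≤ Valued.v (v 1)

theorem Iw.inU_act {k : GL (Fin 2) F} (h : Iw k) {v : Fin 2 → F} (hv : inU v) :
    inU (act k v) := by
  rw [inU, act_zero', act_one']
  have hd := h.diag
  have h1 : Valued.v ((k : Matrix (Fin 2) (Fin 2) F) 0 0 * v 0 +
      (k : Matrix (Fin 2) (Fin 2) F) 0 1 * v 1) ≤ Valued.v (v 1) := by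
    refine (Valuation.map_add _ _ _).trans (max_le ?_ ?_)
    · rw [map_mul]; exact (mul_le_of_le_one_left' (h.1 _ _)).trans hv
    · rw [map_mul]; exact mul_le_of_le_one_left' (h.1 _ _)
  refine h1.trans ?_
  by_cases h0 : v 1 = 0
  · rw [h0]; simp
  · have h2 : Valued.v ((k : Matrix (Fin 2) (Fin 2) F) 1 0 * v 0) <
        Valued.v ((k : Matrix (Fin 2) (Fin 2) F) 1 1 * v 1) := by
      rw [map_mul, map_mul, hd.2, one_mul]
      have h3 : Valued.v (v 1) ≠ 0 := by simpa using h0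
      calc Valued.v ((k : Matrix (Fin 2) (Fin 2) F) 1 0) * Valued.v (v 0)
          ≤ Valued.v ((k : Matrix (Fin 2) (Fin 2) F) 1 0) * Valued.v (v 1) :=
            mul_le_mul_right hv _
        _ < 1 * Valued.v (v 1) := by
            exact mul_lt_mul_of_pos_right h.2.1 (zero_lt_iff.2 h3)
        _ = Valued.v (v 1) := one_mul _
    rw [Valuation.map_add_eq_of_lt_right _ h2, map_mul, hd.2, one_mul]

theorem Iw.inU_act_iff {k : GL (Fin 2) F} (h : Iw k) (v : Fin 2 → F) :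
    inU (act k v) ↔ inU v := by
  refine ⟨fun h1 => ?_, h.inU_act⟩
  have := h.inv.inU_act h1
  rwa [act_inv_act] at this

theorem inU_smul {z : F} (hz : z ≠ 0) (v : Fin 2 → F) : inU (z • v) ↔ inU v := by
  simp only [inU, Pi.smul_apply, smul_eq_mul, map_mul]
  have h3 : Valued.v z ≠ 0 := by simpa using hz
  exact mul_le_mul_iff_right₀ (zero_lt_iff.2 h3)

omit [Valued F ℤᵐ⁰] in
theorem act_sca (z : Fˣ) (v : Fin 2 → F) : act (sca z) v = (z : F) • v := by
  ext i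
  fin_cases i
  · change act (sca z) v 0 = _
    rw [act_zero']; simp [sca_val]
  · change act (sca z) v 1 = _
    rw [act_one']; simp [sca_val]

omit [Valued F ℤᵐ⁰] in
theorem sca_inv (z : Fˣ) : (sca z : GL (Fin 2) F)⁻¹ = sca z⁻¹ := by
  rw [inv_eq_iff_mul_eq_one]
  apply ext4 <;> simp [sca_val]

theorem inU_w {ϖ : Fˣ} (h : Unif (ϖ : F)) {v : Fin 2 → F} (hv : v ≠ 0) :
    inU (act (wM ϖ)⁻¹ v) ↔ ¬ inU v := by
  rw [inU, inU, act_zero', act_one']
  have e1 : (((wM ϖ : GL (Fin 2) F)⁻¹ : GL (Fin 2) F) : Matrix (Fin 2) (Fin 2) F) =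
    !![0, ((ϖ⁻¹ : Fˣ) : F); 1, 0] := rfl
  rw [e1]
  simp only [Matrix.of_apply, Matrix.cons_val', Matrix.cons_val_zero, Matrix.cons_val_one,
    Matrix.cons_val_fin_one, zero_mul, zero_add, one_mul, add_zero]
  rw [map_mul, not_le]
  have e2 : Valued.v ((ϖ⁻¹ : Fˣ) : F) = WithZero.exp (1 : ℤ) := by
    rw [Units.val_inv_eq_inv_val, map_inv₀, h.v, ← WithZero.exp_neg]
    simp
  rw [e2]
  rcases vec_ne hv with h0 | h0
  · have h3 : Valued.v (v 0) ≠ 0 := by simpa using h0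
    have h4 := WithZero.lt_mul_exp_iff_le (x := Valued.v (v 1)) (y := Valued.v (v 0) * WithZero.exp (-1 : ℤ))
      (mul_ne_zero h3 WithZero.exp_ne_zero)
    rw [mul_assoc, ← WithZero.exp_add] at h4
    simp only [neg_add_cancel, WithZero.exp_zero, mul_one] at h4
    rw [h4, WithZero.exp_neg, ← div_eq_mul_inv, le_div_iff₀ (by simp), mul_comm]
  · by_cases h1 : v 0 = 0
    · rw [h1]
      simp [h0]
    · have h3 : Valued.v (v 0) ≠ 0 := by simpa using h1
      have h4 := WithZero.lt_mul_exp_iff_le (x := Valued.v (v 1)) (y := Valued.v (v 0) * WithZero.exp (-1 : ℤ))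
        (mul_ne_zero h3 WithZero.exp_ne_zero)
      rw [mul_assoc, ← WithZero.exp_add] at h4
      simp only [neg_add_cancel, WithZero.exp_zero, mul_one] at h4
      rw [h4, WithZero.exp_neg, ← div_eq_mul_inv, le_div_iff₀ (by simp), mul_comm]

end Val

end

end Pool.Agent.R423.AL.St
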