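import Pool.Agent.R423.AL.StIrr

/-!
# The Steinberg representation as an irreducible smooth representation
-/

namespace Pool.Agent.R423.AL

open scoped WithZero
open Topology

noncomputable section

variable (L : Type) [Field L] [Valued L ℤᵐ⁰] [LF L]

/-- the constants -/
def oneS : Submodule ℂ (VS L) := Submodule.span ℂ {oneV}

theorem oneS_stable (g : GL (Fin 2) L) (f : VS L) (hf : f ∈ oneS L) : rhoV L g f ∈ oneS L := by
  obtain ⟨c, rfl⟩ := Submodule.mem_span_singleton.1 hf
  rw [map_smul, rhoV_one]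
  exact Submodule.smul_mem _ _ (Submodule.mem_span_singleton_self _)

theorem rhoV_smooth : IsSmooth (rhoV L) := by
  intro f
  obtain ⟨n, hn⟩ := f.2.2.2
  exact isOpen_stab _ _ (KK L n) (isOpen_KK n) fun g hg => KK_fixes f hn hg

theorem dV_ne (c : ℂ) : (dV : VS L) ≠ c • oneV := by
  classical
  intro h
  have h1 : (dV : VS L).1 (1, 0) = c * (oneV : VS L).1 (1, 0) := by rw [h]; rfl
  have h2 : (dV : VS L).1 (0, 1) = c * (oneV : VS L).1 (0, 1) := by rw [h]; rfl
  rw [oneV_apply (by intro h; exact one_ne_zero (congrArg Prod.fst h)), mul_one] at h1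
  rw [oneV_apply (by intro h; exact one_ne_zero (congrArg Prod.snd h)), mul_one] at h2
  have h3 : (dV : VS L).1 (1, 0) = 0 := by simp [dV]
  have h4 : (dV : VS L).1 (0, 1) = 1 := by simp [dV]
  rw [h3] at h1
  rw [h4, ← h1] at h2
  exact one_ne_zero h2

theorem mem_oneS_iff (f : VS L) : f ∈ oneS L ↔ ∃ c : ℂ, f = c • oneV := by
  rw [oneS, Submodule.mem_span_singleton]
  constructor
  · rintro ⟨c, rfl⟩; exact ⟨c, rfl⟩
  · rintro ⟨c, rfl⟩; exact ⟨c, rfl⟩

/-- The Steinberg representation: locally constant functions on the projective line modulo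
constants. -/
def StI : Irr (GL (Fin 2) L) where
  V := VS L ⧸ oneS L
  ρ := quoRep (rhoV L) (oneS L) (fun g x hx => oneS_stable L g x hx)
  smooth := smooth_quo (rhoV_smooth L) _ _
  irred := by
    constructor
    · refine ⟨(oneS L).mkQ dV, ?_⟩
      intro h
      rw [Submodule.mkQ_apply, Submodule.Quotient.mk_eq_zero, mem_oneS_iff] at h
      obtain ⟨c, hc⟩ := h
      exact dV_ne L c hc
    · intro N hN
      have hst : ∀ g, ∀ f ∈ N.comap (oneS L).mkQ, rhoV L g f ∈ N.comap (oneS L).mkQ := by
        intro g f hf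
        rw [Submodule.mem_comap] at hf ⊢
        exact hN g _ hf
      have hone : oneV ∈ N.comap (oneS L).mkQ := by
        rw [Submodule.mem_comap]
        have : (oneS L).mkQ oneV = 0 := by
          rw [Submodule.mkQ_apply, Submodule.Quotient.mk_eq_zero]
          exact Submodule.mem_span_singleton_self _
        rw [this]; exact N.zero_mem
      by_cases h : ∃ f ∈ N.comap (oneS L).mkQ, ∀ c : ℂ, f ≠ c • oneV
      · right
        obtain ⟨f, hf, hne⟩ := h
        have htop := eq_top_of_nonconst _ hst hone f hf hne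
        rw [eq_top_iff]
        intro x _
        obtain ⟨y, rfl⟩ := (oneS L).mkQ_surjective x
        have : y ∈ N.comap (oneS L).mkQ := by rw [htop]; trivial
        exact this
      · left
        push Not at h
        rw [eq_bot_iff]
        intro x hx
        obtain ⟨y, rfl⟩ := (oneS L).mkQ_surjective x
        obtain ⟨c, hc⟩ := h y hx
        rw [Submodule.mem_bot, Submodule.mkQ_apply, Submodule.Quotient.mk_eq_zero, mem_oneS_iff]
        exact ⟨c, hc⟩

variable {L}

theorem StI_apply (g : GL (Fin 2) L) (f : VS L) :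
    (StI L).ρ g ((oneS L).mkQ f) = (oneS L).mkQ (rhoV L g f) := rfl

/-- characteristic two: involutions which fix a vector modulo constants fix it -/
theorem fixed_of_invol (f : VS L) (g : GL (Fin 2) L) (hg : g * g = 1)
    (h : rhoV L g f - f ∈ oneS L) : rhoV L g f = f := by
  obtain ⟨c, hc⟩ := (mem_oneS_iff L _).1 h
  have h1 : rhoV L g f = f + c • oneV := by rw [← hc]; abel
  have h2 : f = f + c • oneV + c • oneV := by
    nth_rewrite 1 [← rep_one (rhoV L) f]
    rw [← hg, rep_mul, h1, map_add, map_smul, rhoV_one, h1]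
  have h3 : c • oneV + c • oneV = (0 : VS L) := by
    have : f + (c • oneV + c • oneV) = f + 0 := by rw [add_zero, ← add_assoc]; exact h2.symm
    exact add_left_cancel this
  have h4 : (c + c) • (oneV : VS L) = 0 := by rw [add_smul, h3]
  have h5 : c + c = 0 := by
    by_contra hne
    have h6 : (oneV : VS L) = 0 := (smul_eq_zero.1 h4).resolve_left hne
    have h7 : (oneV : VS L).1 (1, 0) = 0 := by rw [h6]; rfl
    rw [oneV_apply (by intro h; exact one_ne_zero (congrArg Prod.fst h))] at h7
    exact one_ne_zero h7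
  have h8 : c = 0 := by
    have : (2 : ℂ) * c = 0 := by rw [two_mul]; exact h5
    exact (mul_eq_zero.1 this).resolve_left two_ne_zero
  rw [h1, h8, zero_smul, add_zero]

/-- A function fixed by `GL₂(O)` modulo constants is constant. -/
theorem const_of_fixed_mod (f : VS L) (h : ∀ g ∈ GLO L, rhoV L g f - f ∈ oneS L) :
    f ∈ oneS L := by
  have hl : ∀ x : L, B 0 x → rhoV L (lowM x) f = f := by
    intro x hx
    refine fixed_of_invol f _ ?_ (h _ (lowM_mem_GLO hx))
    rw [lowM_mul, LF.two, lowM_zero]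
  have hu : ∀ x : L, B 0 x → rhoV L (uni x) f = f := by
    intro x hx
    refine fixed_of_invol f _ ?_ (h _ (uni_mem_GLO hx))
    rw [uni_mul, LF.two, uni_zero]
  have h1 : ∀ x : L, B 0 x → f.1 (x, 1) = f.1 (0, 1) := by
    intro x hx
    have h2 := congrFun (congrArg Subtype.val (hl x hx)) (0, 1)
    rw [rhoV_apply, act_lowM] at h2
    simpa using h2
  have h2 : ∀ y : L, B 0 y → f.1 (1, y) = f.1 (1, 0) := by
    intro x hx
    have h2 := congrFun (congrArg Subtype.val (hu x hx)) (1, 0)
    rw [rhoV_apply, act_uni] at h2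
    simpa using h2
  have h3 : f.1 (0, 1) = f.1 (1, 0) := by
    rw [← h1 1 B_one, h2 1 B_one]
  rw [mem_oneS_iff]
  refine ⟨f.1 (0, 1), VS_ext (fun x hx => ?_) (fun y hy => ?_)⟩
  · change f.1 (x, 1) = f.1 (0, 1) * (oneV : VS L).1 (x, 1)
    rw [oneV_apply (by intro h; exact one_ne_zero (congrArg Prod.snd h)), mul_one, h1 x hx]
  · change f.1 (1, y) = f.1 (0, 1) * (oneV : VS L).1 (1, y)
    rw [oneV_apply (by intro h; exact one_ne_zero (congrArg Prod.fst h)), mul_one,
      h2 y (B_mono (by norm_num) hy), h3]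

theorem const_of_fixed (f : VS L) (h : ∀ g ∈ GLO L, rhoV L g f = f) : f ∈ oneS L :=
  const_of_fixed_mod f fun g hg => by rw [h g hg, sub_self]; exact Submodule.zero_mem _

/-- The Steinberg representation has no nonzero vector fixed by `GL₂(O)`. -/
theorem StI_no_fixed (x : (StI L).V) (h : ∀ g ∈ GLO L, (StI L).ρ g x = x) : x = 0 := by
  obtain ⟨f, rfl⟩ := (oneS L).mkQ_surjective x
  refine (Submodule.Quotient.mk_eq_zero (oneS L)).2 ?_
  refine const_of_fixed_mod f fun g hg => ?_
  have h1 : (oneS L).mkQ (rhoV L g f) = (oneS L).mkQ f := h g hg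
  rw [← Submodule.Quotient.mk_eq_zero, Submodule.Quotient.mk_sub, sub_eq_zero]
  exact h1

end

end Pool.Agent.R423.AL
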