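import Pool.Agent.R423.AL.StVec

/-!
# The representation generated by a Steinberg vector
-/

namespace Pool.Agent.R423.AL.St

open Pool.Agent.R423.AL
open scoped WithZero

noncomputable section

variable {F : Type} [Field F] [Valued F ℤᵐ⁰]

variable {V : Type} [AddCommGroup V] [Module ℂ V]

variable {ϖ : Fˣ} {ρ : Representation ℂ (GL (Fin 2) F) V} {u : V}

/-- the point at infinity -/
def vinf : Fin 2 → F := ![1, 0]

omit [Valued F ℤᵐ⁰] in
theorem vinf_ne : (vinf : Fin 2 → F) ≠ 0 := by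
  intro h
  have := congrFun h 0
  simp [vinf] at this

theorem not_inBv_vinf (a : F) (j : ℤ) : ¬ inBv a j (vinf : Fin 2 → F) := by
  simp [inBv, vinf]

theorem inBv_iff (a : F) (j : ℤ) (y : F) : inBv a j ![y, 1] ↔ inB j (y - a) := by
  simp [inBv, inB]

open Classical in
theorem sgn_ball (h : Unif (ϖ : F)) (hu : StVec ϖ ρ u) (g : GL (Fin 2) F) :
    ∃ (ε : ℂ) (a : F) (j : ℤ), ρ g u = ε • eb ϖ ρ u a j ∧
      ∀ v : Fin 2 → F, v ≠ 0 → chi g v - chi g vinf = ε * (if inBv a j v then 1 else 0) := by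
  by_cases hg : Valued.v ((g : Matrix (Fin 2) (Fin 2) F) 1 0) <
      Valued.v ((g : Matrix (Fin 2) (Fin 2) F) 1 1)
  · obtain ⟨a, j, z, k, hk, he⟩ := decomp1 h g hg
    refine ⟨1, a, j, ?_, ?_⟩
    · rw [he, map_mul, map_mul, Module.End.mul_apply, Module.End.mul_apply, hu.iw hk, hu.sca,
        one_smul]
      rfl
    · intro v _
      rw [he, chi_mul_iw _ hk, chi_mul_iw _ hk, chi_mul_sca, chi_mul_sca, chi_ball h, chi_ball h,
        if_neg (not_inBv_vinf a j), sub_zero, one_mul]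
  · obtain ⟨a, j, z, k, hk, he⟩ := decomp2 h g hg
    refine ⟨-1, a, j, ?_, ?_⟩
    · rw [he, map_mul, Module.End.mul_apply, hu.w, map_neg, map_mul, map_mul,
        Module.End.mul_apply, Module.End.mul_apply, hu.iw hk, hu.sca, neg_smul, one_smul]
      rfl
    · intro v hv
      rw [he, chi_mul_w h _ hv, chi_mul_w h _ vinf_ne, chi_mul_iw _ hk, chi_mul_iw _ hk,
        chi_mul_sca, chi_mul_sca, chi_ball h, chi_ball h, if_neg (not_inBv_vinf a j)]
      ring

/-- `ρ(x) u` -/
def RR (ρ : Representation ℂ (GL (Fin 2) F) V) (u : V) : (GL (Fin 2) F →₀ ℂ) →ₗ[ℂ] V :=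
  Finsupp.linearCombination ℂ (fun g => ρ g u)

/-- `f_x(v)` -/
def FF (x : GL (Fin 2) F →₀ ℂ) (v : Fin 2 → F) : ℂ := x.sum (fun g c => c * chi g v)

omit [Valued F ℤᵐ⁰] in
theorem RR_eq (x : GL (Fin 2) F →₀ ℂ) : RR ρ u x = ∑ g ∈ x.support, x g • ρ g u := by
  rw [RR, Finsupp.linearCombination_apply, Finsupp.sum]

theorem FF_eq (x : GL (Fin 2) F →₀ ℂ) (v : Fin 2 → F) :
    FF x v = ∑ g ∈ x.support, x g * chi g v := rfl

theorem FF_add (x y : GL (Fin 2) F →₀ ℂ) (v : Fin 2 → F) : FF (x + y) v = FF x v + FF y v := by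
  classical
  exact Finsupp.sum_add_index' (fun g => zero_mul _) (fun g a b => add_mul _ _ _)

theorem FF_smul (c : ℂ) (x : GL (Fin 2) F →₀ ℂ) (v : Fin 2 → F) : FF (c • x) v = c * FF x v := by
  rw [FF, Finsupp.sum_smul_index' (fun g => zero_mul _), FF, Finsupp.mul_sum]
  simp [mul_assoc]

/-- left translation -/
def tr (h : GL (Fin 2) F) (x : GL (Fin 2) F →₀ ℂ) : GL (Fin 2) F →₀ ℂ :=
  Finsupp.mapDomain (h * ·) x

theorem FF_tr (h : GL (Fin 2) F) (x : GL (Fin 2) F →₀ ℂ) (v : Fin 2 → F) :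
    FF (tr h x) v = FF x (act h⁻¹ v) := by
  rw [FF, tr, Finsupp.sum_mapDomain_index (fun g => zero_mul _) (fun g a b => add_mul _ _ _), FF]
  simp only [chi_mul_left]

omit [Valued F ℤᵐ⁰] in
theorem RR_tr (h : GL (Fin 2) F) (x : GL (Fin 2) F →₀ ℂ) :
    RR ρ u (tr h x) = ρ h (RR ρ u x) := by
  rw [RR, tr, Finsupp.linearCombination_mapDomain, Finsupp.linearCombination_apply,
    Finsupp.linearCombination_apply, Finsupp.sum, Finsupp.sum, map_sum]
  refine Finset.sum_congr rfl fun g _ => ?_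
  simp [map_mul]

theorem FF_smul_vec (x : GL (Fin 2) F →₀ ℂ) {c : F} (hc : c ≠ 0) (v : Fin 2 → F) :
    FF x (c • v) = FF x v := by
  simp only [FF, chi_smul _ hc]

theorem FF_vec (x : GL (Fin 2) F →₀ ℂ) {v : Fin 2 → F} (hv : v 1 ≠ 0) :
    FF x v = FF x ![v 0 / v 1, 1] := by
  rw [← FF_smul_vec x hv ![v 0 / v 1, 1]]
  congr 1
  ext i
  fin_cases i
  · simp; field_simp
  · simp

theorem FF_vec' (x : GL (Fin 2) F →₀ ℂ) {v : Fin 2 → F} (hv : v ≠ 0) (hv1 : v 1 = 0) :
    FF x v = FF x vinf := by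
  have h0 : v 0 ≠ 0 := by
    rcases vec_ne hv with h | h
    · exact h
    · exact absurd hv1 h
  rw [← FF_smul_vec x h0 vinf]
  congr 1
  ext i
  fin_cases i
  · simp [vinf]
  · simp [vinf, hv1]

/-- `f_x` is constant -/
def IsC (x : GL (Fin 2) F →₀ ℂ) : Prop := ∀ v : Fin 2 → F, v ≠ 0 → FF x v = FF x vinf

open Classical in
theorem exists_balls (h : Unif (ϖ : F)) (hu : StVec ϖ ρ u) (x : GL (Fin 2) F →₀ ℂ) :
    ∃ (c : GL (Fin 2) F → ℂ) (a : GL (Fin 2) F → F) (j : GL (Fin 2) F → ℤ),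
      RR ρ u x = ∑ g ∈ x.support, c g • eb ϖ ρ u (a g) (j g) ∧
      ∀ y : F, FF x ![y, 1] - FF x vinf = ∑ g ∈ x.support, c g *
        (if inB (j g) (y - a g) then (1 : ℂ) else 0) := by
  choose ε a j h1 h2 using fun g => sgn_ball h hu g
  refine ⟨fun g => x g * ε g, a, j, ?_, ?_⟩
  · rw [RR_eq]
    refine Finset.sum_congr rfl fun g _ => ?_
    rw [h1 g, smul_smul]
  · intro y
    rw [FF_eq, FF_eq, ← Finset.sum_sub_distrib]
    refine Finset.sum_congr rfl fun g _ => ?_
    have hy : (![y, 1] : Fin 2 → F) ≠ 0 := by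
      intro h0
      have := congrFun h0 1
      simp at this
    rw [← mul_sub, h2 g _ hy, mul_assoc]
    congr 2
    exact if_congr (inBv_iff _ _ _) rfl rfl

theorem RR_eq_zero_of_isC (h : Unif (ϖ : F)) (hu : StVec ϖ ρ u) {x : GL (Fin 2) F →₀ ℂ}
    (hx : IsC x) : RR ρ u x = 0 := by
  classical
  obtain ⟨c, a, j, h1, h2⟩ := exists_balls h hu x
  rw [h1]
  apply (hu.ballFn h).relation h
  intro y
  have hy : (![y, 1] : Fin 2 → F) ≠ 0 := by
    intro h0
    have := congrFun h0 1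
    simp at this
  rw [← h2 y, hx _ hy, sub_self]

theorem FF_finite (x : GL (Fin 2) F →₀ ℂ) :
    {z : ℂ | ∃ v : Fin 2 → F, v ≠ 0 ∧ FF x v = z}.Finite := by
  classical
  refine (((x.support.powerset).image (fun s => ∑ g ∈ s, x g)).finite_toSet).subset ?_
  rintro z ⟨v, _, rfl⟩
  rw [Finset.mem_coe, Finset.mem_image]
  refine ⟨x.support.filter (fun g => inU (act g⁻¹ v)), Finset.mem_powerset.2
    (Finset.filter_subset _ _), ?_⟩
  rw [FF_eq, Finset.sum_filter]
  refine Finset.sum_congr rfl fun g _ => ?_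
  by_cases h1 : inU (act g⁻¹ v)
  · rw [if_pos h1, chi, if_pos h1, mul_one]
  · rw [if_neg h1, chi, if_neg h1, mul_zero]

omit [Valued F ℤᵐ⁰] in
theorem exists_move (p : Fin 2 → F) (hp : p ≠ 0) : ∃ g : GL (Fin 2) F, act g⁻¹ vinf = p := by
  by_cases h0 : p 0 = 0
  · have h1 : p 1 ≠ 0 := by
      rcases vec_ne hp with h | h
      · exact absurd h0 h
      · exact h
    refine ⟨(sM * dia (Units.mk0 (p 1) h1))⁻¹, ?_⟩
    rw [inv_inv]
    ext i
    fin_cases i
    · change act _ _ 0 = _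
      rw [act_zero']
      simp [sM_val, dia_val, vinf, h0]
    · change act _ _ 1 = _
      rw [act_one']
      simp [sM_val, dia_val, vinf]
  · refine ⟨(lowM (Units.mk0 (p 0) h0) (p 1))⁻¹, ?_⟩
    rw [inv_inv]
    ext i
    fin_cases i
    · change act _ _ 0 = _
      rw [act_zero']
      simp [lowM_val, vinf]
    · change act _ _ 1 = _
      rw [act_one']
      simp [lowM_val, vinf]

/-- If the real part of `f_x` has its strict maximum at infinity then every invariant subspace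
containing `ρ(x) u` contains `u`. -/
theorem mem_of_max (h : Unif (ϖ : F)) (hu : StVec ϖ ρ u) (N : Submodule ℂ V)
    (hN : ∀ g : GL (Fin 2) F, ∀ y ∈ N, ρ g y ∈ N) (x : GL (Fin 2) F →₀ ℂ) (hx : RR ρ u x ∈ N)
    (hmax : ∀ v : Fin 2 → F, v ≠ 0 → (FF x v).re ≤ (FF x vinf).re)
    (hlt : ∃ v : Fin 2 → F, v ≠ 0 ∧ (FF x v).re < (FF x vinf).re) : u ∈ N := by
  classical
  obtain ⟨c, a, j, h1, h2⟩ := exists_balls h hu x
  obtain ⟨M, hM⟩ := exists_bound x.support a j
  obtain ⟨q, hq0, hq⟩ := hlt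
  have hq1 : q 1 ≠ 0 := by
    intro h0
    rw [FF_vec' x hq0 h0] at hq
    exact lt_irrefl _ hq
  rw [FF_vec x hq1] at hq
  set y := q 0 / q 1 with hy
  have hvy : ∀ y : F, (![y, 1] : Fin 2 → F) ≠ 0 := by
    intro y h0
    have := congrFun h0 1
    simp at this
  set hh : F → ℂ := fun y => FF x ![y, 1] - FF x vinf with hhdef
  have hhle : ∀ y, (hh y).re ≤ 0 := by
    intro y
    rw [hhdef]
    simp only [Complex.sub_re]
    have := hmax _ (hvy y)
    linarith
  have hhlt : (hh y).re < 0 := by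
    rw [hhdef]
    simp only [Complex.sub_re]
    linarith
  -- `y` lies in the ball of radius `M`
  have hyM : inB (-(M : ℤ)) y := by
    by_contra hcon
    have : hh y = 0 := by
      change FF x ![y, 1] - FF x vinf = 0
      rw [h2 y]
      refine Finset.sum_eq_zero fun g hg => ?_
      rw [if_neg, mul_zero]
      intro h3
      apply hcon
      obtain ⟨h4, h5, h6⟩ := hM g hg
      have h7 := inB_add (inB_mono h5 h3) h4
      simpa using h7
    rw [this] at hhlt
    simp at hhlt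
  obtain ⟨b0, hb0, hb0'⟩ := reps_cover h (M + M) (-(M : ℤ)) (-y) (inB_neg hyM)
  have hMM : -(M : ℤ) + ((M + M : ℕ) : ℤ) = M := by push_cast; ring
  rw [hMM] at hb0'
  have hb0'' : hh (-b0) = hh y := by
    change FF x ![-b0, 1] - FF x vinf = FF x ![y, 1] - FF x vinf
    rw [h2, h2]
    refine Finset.sum_congr rfl fun g hg => ?_
    congr 1
    apply if_congr _ rfl rfl
    obtain ⟨h4, h5, h6⟩ := hM g hg
    have h7 : inB (j g) (-y - b0) := inB_mono h6 hb0'
    constructor
    · intro h8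
      have := inB_sub h8 h7
      have e' : -b0 - a g - (-y - b0) = y - a g := by ring
      rwa [e'] at this
    · intro h8
      have := inB_add h8 h7
      have e' : y - a g + (-y - b0) = -b0 - a g := by ring
      rwa [e'] at this
  -- the average of the function
  set C : ℂ := ∑ g ∈ x.support, c g * 2 ^ ((M : ℤ) - j g).toNat with hC
  have avg : ∀ g ∈ x.support, ∀ {W : Type} [AddCommGroup W] [Module ℂ W] (e : F → ℤ → W),
      BallFn (ϖ : F) e → ((reps (ϖ : F) (M + M) (-(M : ℤ))).map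
        (fun b => c g • e (a g + b) (j g))).sum =
        (c g * 2 ^ ((M : ℤ) - j g).toNat) • e 0 (-(M : ℤ)) := by
    intro g hg W _ _ e he
    obtain ⟨h4, h5, h6⟩ := hM g hg
    obtain ⟨r, hr⟩ : ∃ r : ℕ, j g = -(M : ℤ) + r := ⟨(j g + M).toNat, by omega⟩
    obtain ⟨k, hk⟩ : ∃ k : ℕ, M + M = r + k := ⟨M + M - r, by omega⟩
    have hk' : ((M : ℤ) - j g).toNat = k := by omega
    rw [list_smul_sum, hk', hk, hr, he.avg h r k]
    rw [he.congr (a g) 0 _ (by simpa using h4), mul_smul, ← Nat.cast_smul_eq_nsmul ℂ]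
    push_cast
    rfl
  have hCne : C ≠ 0 := by
    have h3 : ((reps (ϖ : F) (M + M) (-(M : ℤ))).map (fun b => hh (-b))).sum = C := by
      have h4 : (fun b : F => hh (-b)) = fun b => ∑ g ∈ x.support,
          c g • (if inB (j g) (0 - (a g + b)) then (1 : ℂ) else 0) := by
        funext b
        change FF x ![-b, 1] - FF x vinf = _
        rw [h2]
        refine Finset.sum_congr rfl fun g _ => ?_
        rw [smul_eq_mul]
        congr 1
        apply if_congr _ rfl rfl
        have e' : -b - a g = 0 - (a g + b) := by ring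
        rw [e']
      rw [h4, list_sum_finset_sum, hC]
      refine Finset.sum_congr rfl fun g hg => ?_
      have h5 := avg g hg (fun (a : F) (j : ℤ) => if inB j (0 - a) then (1 : ℂ) else 0)
        (ballFn_ind h 0)
      rw [h5, if_pos (by simpa using inB_zero _), smul_eq_mul, mul_one]
    have h6 : (((reps (ϖ : F) (M + M) (-(M : ℤ))).map (fun b => hh (-b))).sum).re < 0 := by
      have h7 : ∀ l : List F, (((l.map (fun b => hh (-b))).sum).re : ℝ) =
          (l.map (fun b => (hh (-b)).re)).sum := by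
        intro l
        induction l with
        | nil => simp
        | cons b l ih => simp [ih]
      rw [h7]
      have h8 := List.sum_lt_sum (l := reps (ϖ : F) (M + M) (-(M : ℤ)))
        (fun b => (hh (-b)).re) (fun _ => (0 : ℝ)) (fun b _ => hhle _)
        ⟨b0, hb0, by rw [hb0'']; exact hhlt⟩
      simpa using h8
    rw [h3] at h6
    intro h0
    rw [h0] at h6
    simp at h6
  -- the average of the vector
  have hv : ((reps (ϖ : F) (M + M) (-(M : ℤ))).map (fun b => ρ (uni b) (RR ρ u x))).sum =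
      C • eb ϖ ρ u 0 (-(M : ℤ)) := by
    have h4 : (fun b : F => ρ (uni b) (RR ρ u x)) = fun b => ∑ g ∈ x.support,
        c g • eb ϖ ρ u (a g + b) (j g) := by
      funext b
      rw [h1, map_sum]
      refine Finset.sum_congr rfl fun g _ => ?_
      rw [map_smul]
      congr 1
      rw [eb, eb, ← Module.End.mul_apply, ← map_mul, ← mul_assoc, uni_mul_uni, add_comm]
    rw [h4, list_sum_finset_sum, hC, Finset.sum_smul]
    refine Finset.sum_congr rfl fun g hg => ?_
    exact avg g hg _ (hu.ballFn h)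
  have hvN : ((reps (ϖ : F) (M + M) (-(M : ℤ))).map (fun b => ρ (uni b) (RR ρ u x))).sum ∈ N := by
    apply list_sum_mem
    intro z hz
    rw [List.mem_map] at hz
    obtain ⟨b, _, rfl⟩ := hz
    exact hN _ _ hx
  rw [hv] at hvN
  have h5 : eb ϖ ρ u 0 (-(M : ℤ)) ∈ N := by
    have := N.smul_mem C⁻¹ hvN
    rwa [smul_smul, inv_mul_cancel₀ hCne, one_smul] at this
  have h6 := hN (uni 0 * dia (ϖ ^ (-(M : ℤ))))⁻¹ _ h5
  rw [eb, ← Module.End.mul_apply, ← map_mul, inv_mul_cancel, map_one] at h6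
  exact h6

/-- Every invariant subspace containing `ρ(x) u` contains `u`, unless `f_x` is constant. -/
theorem mem_of_not_isC (h : Unif (ϖ : F)) (hu : StVec ϖ ρ u) (N : Submodule ℂ V)
    (hN : ∀ g : GL (Fin 2) F, ∀ y ∈ N, ρ g y ∈ N) (x : GL (Fin 2) F →₀ ℂ) (hx : RR ρ u x ∈ N)
    (hc : ¬ IsC x) : u ∈ N := by
  -- it is enough to treat functions with nonconstant real part
  have key : ∀ x : GL (Fin 2) F →₀ ℂ, RR ρ u x ∈ N →
      (∃ v : Fin 2 → F, v ≠ 0 ∧ (FF x v).re ≠ (FF x vinf).re) → u ∈ N := by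
    intro x hx ⟨v, hv, hne⟩
    obtain ⟨z, hz, hzmax⟩ := Set.exists_max_image {z : ℂ | ∃ v : Fin 2 → F, v ≠ 0 ∧ FF x v = z}
      Complex.re (FF_finite x) ⟨_, v, hv, rfl⟩
    obtain ⟨p, hp, rfl⟩ := hz
    obtain ⟨g, hg⟩ := exists_move p hp
    have hlt : ∃ q : Fin 2 → F, q ≠ 0 ∧ (FF x q).re < (FF x p).re := by
      by_contra hcon
      push Not at hcon
      apply hne
      have e1 := le_antisymm (hzmax _ ⟨v, hv, rfl⟩) (hcon v hv)
      have e2 := le_antisymm (hzmax _ ⟨vinf, vinf_ne, rfl⟩) (hcon vinf vinf_ne)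
      rw [e1, e2]
    obtain ⟨q, hq, hqlt⟩ := hlt
    apply mem_of_max h hu N hN (tr g x)
    · rw [RR_tr]
      exact hN _ _ hx
    · intro v hv
      rw [FF_tr, FF_tr, hg]
      exact hzmax _ ⟨_, act_ne _ hv, rfl⟩
    · refine ⟨act g q, act_ne _ hq, ?_⟩
      rw [FF_tr, FF_tr, hg, act_inv_act]
      exact hqlt
  unfold IsC at hc
  push Not at hc
  obtain ⟨v, hv, hne⟩ := hc
  by_cases hre : (FF x v).re = (FF x vinf).re
  · have him : (FF x v).im ≠ (FF x vinf).im := fun h0 => hne (Complex.ext hre h0)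
    apply key ((-Complex.I) • x)
    · rw [map_smul]
      exact N.smul_mem _ hx
    · refine ⟨v, hv, ?_⟩
      rw [FF_smul, FF_smul]
      simpa using him
  · exact key x hx ⟨v, hv, hre⟩

/-- The relations of a nonzero Steinberg vector. -/
theorem RR_eq_zero_iff (h : Unif (ϖ : F)) (hu : StVec ϖ ρ u) (hne : u ≠ 0)
    (x : GL (Fin 2) F →₀ ℂ) : RR ρ u x = 0 ↔ IsC x := by
  refine ⟨fun h0 => ?_, RR_eq_zero_of_isC h hu⟩
  by_contra hc
  apply hne
  have := mem_of_not_isC h hu ⊥ (fun g y hy => by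
    rw [Submodule.mem_bot] at hy ⊢; rw [hy, map_zero]) x (by rw [h0]; exact Submodule.zero_mem _) hc
  simpa using this

/-- A nonzero Steinberg vector is contained in every invariant subspace containing a nonzero
element of the space it generates. -/
theorem mem_of_ne (h : Unif (ϖ : F)) (hu : StVec ϖ ρ u) (N : Submodule ℂ V)
    (hN : ∀ g : GL (Fin 2) F, ∀ y ∈ N, ρ g y ∈ N) {y : V}
    (hy : y ∈ Submodule.span ℂ (Set.range fun g => ρ g u)) (hyN : y ∈ N) (hy0 : y ≠ 0) :
    u ∈ N := by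
  rw [← Finsupp.range_linearCombination] at hy
  obtain ⟨x, rfl⟩ := hy
  apply mem_of_not_isC h hu N hN x hyN
  intro hc
  exact hy0 (RR_eq_zero_of_isC h hu hc)

/-- The representation generated by a nonzero Steinberg vector is irreducible. -/
theorem irred_of_span (h : Unif (ϖ : F)) (hu : StVec ϖ ρ u) (hne : u ≠ 0)
    (hs : Submodule.span ℂ (Set.range fun g => ρ g u) = ⊤) : IsIrred ρ := by
  refine ⟨⟨u, hne⟩, fun N hN => ?_⟩
  by_cases hb : N = ⊥
  · exact Or.inl hb
  · right
    obtain ⟨y, hyN, hy0⟩ := N.ne_bot_iff.1 hb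
    have hu' := mem_of_ne h hu N hN (by rw [hs]; trivial) hyN hy0
    rw [eq_top_iff, ← hs, Submodule.span_le]
    rintro _ ⟨g, rfl⟩
    exact hN g u hu'

/-- Uniqueness of the representation generated by a nonzero Steinberg vector. -/
theorem exists_map (h : Unif (ϖ : F)) (hu : StVec ϖ ρ u) (hne : u ≠ 0)
    (hs : Submodule.span ℂ (Set.range fun g => ρ g u) = ⊤)
    {V' : Type} [AddCommGroup V'] [Module ℂ V'] {ρ' : Representation ℂ (GL (Fin 2) F) V'} {u' : V'}
    (hu' : StVec ϖ ρ' u') :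
    ∃ T : V →ₗ[ℂ] V', T u = u' ∧ ∀ g x, T (ρ g x) = ρ' g (T x) := by
  have hsurj : ∀ v : V, ∃ x, RR ρ u x = v := by
    intro v
    have : v ∈ Submodule.span ℂ (Set.range fun g => ρ g u) := by rw [hs]; trivial
    rw [← Finsupp.range_linearCombination] at this
    exact this
  choose s hs using hsurj
  have hker : ∀ x y, RR ρ u x = RR ρ u y → RR ρ' u' x = RR ρ' u' y := by
    intro x y hxy
    have h1 : RR ρ u (x - y) = 0 := by rw [map_sub, hxy, sub_self]
    have h2 := RR_eq_zero_of_isC h hu' ((RR_eq_zero_iff h hu hne _).1 h1)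
    rwa [map_sub, sub_eq_zero] at h2
  refine ⟨{ toFun := fun v => RR ρ' u' (s v), map_add' := ?_, map_smul' := ?_ }, ?_, ?_⟩
  · intro a b
    rw [← map_add]
    apply hker
    rw [map_add, hs, hs, hs]
  · intro c a
    rw [RingHom.id_apply, ← map_smul]
    apply hker
    rw [map_smul, hs, hs]
  · change RR ρ' u' (s u) = u'
    have h1 : RR ρ' u' (Finsupp.single 1 1) = u' := by simp [RR]
    have h2 := hker (s u) (Finsupp.single 1 1) (by rw [hs]; simp [RR])
    rw [h1] at h2
    exact h2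
  · intro g x
    change RR ρ' u' (s (ρ g x)) = ρ' g (RR ρ' u' (s x))
    rw [← RR_tr]
    apply hker
    rw [RR_tr, hs, hs]

/-- A Steinberg vector generates no nonzero spherical vector. -/
theorem no_spherical (h : Unif (ϖ : F)) (h2 : (1 : F) + 1 = 0) (hu : StVec ϖ ρ u)
    {y : V} (hy : y ∈ Submodule.span ℂ (Set.range fun g => ρ g u))
    (hK : ∀ k ∈ GLO F, ρ k y = y) : y = 0 := by
  by_cases hne : u = 0
  · rw [hne] at hy
    simpa using hy
  rw [← Finsupp.range_linearCombination] at hy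
  obtain ⟨x, rfl⟩ := hy
  change RR ρ u x = 0
  change ∀ k ∈ GLO F, ρ k (RR ρ u x) = RR ρ u x at hK
  -- invariance under involutions
  have inv : ∀ k ∈ GLO F, k * k = 1 → ∀ v : Fin 2 → F, v ≠ 0 → FF x (act k v) = FF x v := by
    intro k hk hkk v hv
    have hki : k⁻¹ = k := inv_eq_of_mul_eq_one_left hkk
    have h3 : RR ρ u (tr k x - x) = 0 := by rw [map_sub, RR_tr, hK k hk, sub_self]
    have h4 := (RR_eq_zero_iff h hu hne _).1 h3
    have h5 : ∀ v : Fin 2 → F, FF (tr k x - x) v = FF x (act k v) - FF x v := by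
      intro v
      have : tr k x - x = tr k x + (-1 : ℂ) • x := by simp [sub_eq_add_neg]
      rw [this, FF_add, FF_smul, FF_tr, hki]
      ring
    have h6 := h4 v hv
    have h7 := h4 (act k v) (act_ne _ hv)
    rw [h5] at h6 h7
    rw [← act_mul, hkk, act_one] at h7
    rw [← h6] at h7
    have h8 : (2 : ℂ) * (FF x (act k v) - FF x v) = 0 := by linear_combination -h7
    rw [mul_eq_zero] at h8
    rcases h8 with h8 | h8
    · norm_num at h8
    · exact sub_eq_zero.1 h8
  have hs : ∀ v : Fin 2 → F, v ≠ 0 → FF x (act sM v) = FF x v := by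
    apply inv sM _ sM_mul_sM
    apply mem_GLO_of
    · intro i j
      fin_cases i <;> fin_cases j <;> simp [sM_val]
    · rw [Matrix.det_fin_two]
      simp [sM_val]
  have hn : ∀ b : F, Valued.v b ≤ 1 → ∀ v : Fin 2 → F, v ≠ 0 → FF x (act (uni b) v) = FF x v := by
    intro b hb
    apply inv (uni b) (Iw_uni hb).mem_GLO
    rw [uni_mul_uni]
    have : b + b = 0 := by rw [← mul_one b, ← mul_add, h2, mul_zero]
    rw [this, uni_zero]
  have h01 : (![0, 1] : Fin 2 → F) ≠ 0 := by
    intro h0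
    have := congrFun h0 1
    simp at this
  have hsm : ∀ v : Fin 2 → F, v ≠ 0 → inU v → FF x v = FF x ![0, 1] := by
    intro v hv hU
    have hv1 : v 1 ≠ 0 := by
      intro h0
      rw [inU, h0, map_zero] at hU
      have h3 : v 0 = 0 := by
        have := le_antisymm hU zero_le
        simpa using this
      rcases vec_ne hv with h4 | h4
      · exact h4 h3
      · exact h4 h0
    rw [FF_vec x hv1, ← hn (v 0 / v 1) _ ![0, 1] h01]
    · congr 1
      ext i
      fin_cases i
      · change _ = act _ _ 0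
        rw [act_zero']
        simp [uni_val]
      · change _ = act _ _ 1
        rw [act_one']
        simp [uni_val]
    · rw [map_div₀]
      exact div_le_one_of_le₀ hU zero_le
  have hall : ∀ v : Fin 2 → F, v ≠ 0 → FF x v = FF x ![0, 1] := by
    intro v hv
    by_cases hU : inU v
    · exact hsm v hv hU
    · rw [← hs v hv]
      apply hsm _ (act_ne _ hv)
      rw [inU, act_zero', act_one']
      rw [inU, not_le] at hU
      simp [sM_val, hU.le]
  apply RR_eq_zero_of_isC h hu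
  intro v hv
  rw [hall v hv, hall _ vinf_ne]

end

end Pool.Agent.R423.AL.St
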