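import Pool.Agent.R423.AL.Defs
import Pool.Agent.R423.AL.StMat

/-!
# Steinberg vectors

A Steinberg vector in a representation of `GL₂(F)`, `F` a local field with residue field `F₂`, is a
vector fixed by the centre and by the Iwahori subgroup, which the Atkin-Lehner element changes by a
sign and whose trace to `GL₂(O)` vanishes.  The representation it generates is irreducible, unique
up to isomorphism, and has no spherical vector.
-/

namespace Pool.Agent.R423.AL.St

open Pool.Agent.R423.AL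
open scoped WithZero

noncomputable section

variable {F : Type} [Field F] [Valued F ℤᵐ⁰]

/-- `|v 0 - a v 1| ≤ exp (-j) |v 1|` -/
def inBv (a : F) (j : ℤ) (v : Fin 2 → F) : Prop :=
  Valued.v (v 0 - a * v 1) ≤ WithZero.exp (-j) * Valued.v (v 1)

open Classical in
/-- The indicator function of `g U₀` where `U₀` is the set of `v` with `|v 0| ≤ |v 1|`. -/
def chi (g : GL (Fin 2) F) (v : Fin 2 → F) : ℂ := if inU (act g⁻¹ v) then 1 else 0

theorem chi_congr {g g' : GL (Fin 2) F} {v v' : Fin 2 → F}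
    (h : inU (act g⁻¹ v) ↔ inU (act g'⁻¹ v')) : chi g v = chi g' v' := by
  by_cases h1 : inU (act g⁻¹ v)
  · rw [chi, chi, if_pos h1, if_pos (h.1 h1)]
  · rw [chi, chi, if_neg h1, if_neg (fun h2 => h1 (h.2 h2))]

theorem chi_mul_iw (g : GL (Fin 2) F) {k : GL (Fin 2) F} (h : Iw k) (v : Fin 2 → F) :
    chi (g * k) v = chi g v := by
  have : inU (act (g * k)⁻¹ v) ↔ inU (act g⁻¹ v) := by
    rw [mul_inv_rev, act_mul]
    exact h.inv.inU_act_iff _
  exact chi_congr this

theorem chi_mul_sca (g : GL (Fin 2) F) (z : Fˣ) (v : Fin 2 → F) :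
    chi (g * sca z) v = chi g v := by
  have : inU (act (g * sca z)⁻¹ v) ↔ inU (act g⁻¹ v) := by
    rw [mul_inv_rev, act_mul, sca_inv, act_sca]
    exact inU_smul (Units.ne_zero _) _
  exact chi_congr this

theorem chi_mul_w {ϖ : Fˣ} (h : Unif (ϖ : F)) (g : GL (Fin 2) F) {v : Fin 2 → F} (hv : v ≠ 0) :
    chi (g * wM ϖ) v = 1 - chi g v := by
  have : inU (act (g * wM ϖ)⁻¹ v) ↔ ¬ inU (act g⁻¹ v) := by
    rw [mul_inv_rev, act_mul]
    exact inU_w h (act_ne _ hv)
  by_cases h1 : inU (act g⁻¹ v)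
  · rw [chi, chi, if_pos h1, if_neg (fun h2 => (this.1 h2) h1), sub_self]
  · rw [chi, chi, if_neg h1, if_pos (this.2 h1), sub_zero]

theorem chi_smul (g : GL (Fin 2) F) {c : F} (hc : c ≠ 0) (v : Fin 2 → F) :
    chi g (c • v) = chi g v := by
  have : inU (act g⁻¹ (c • v)) ↔ inU (act g⁻¹ v) := by
    rw [act_smul]
    exact inU_smul hc _
  exact chi_congr this

theorem chi_mul_left (h g : GL (Fin 2) F) (v : Fin 2 → F) :
    chi (h * g) v = chi g (act h⁻¹ v) := by
  rw [chi, chi, mul_inv_rev, act_mul]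

open Classical in
theorem chi_ball {ϖ : Fˣ} (h : Unif (ϖ : F)) (a : F) (j : ℤ) (v : Fin 2 → F) :
    chi (uni a * dia (ϖ ^ j)) v = if inBv a j v then 1 else 0 := by
  have e1 : ((uni a * dia (ϖ ^ j) : GL (Fin 2) F)⁻¹ : GL (Fin 2) F) =
      dia ((ϖ ^ j)⁻¹) * uni (-a) := by
    rw [inv_eq_iff_mul_eq_one]
    have hne : (ϖ : F) ^ j ≠ 0 := zpow_ne_zero _ h.ne_zero
    apply ext4 <;> simp [uni_val, dia_val, hne]
  have : inU (act (uni a * dia (ϖ ^ j))⁻¹ v) ↔ inBv a j v := by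
    rw [e1, inU, act_mul, act_zero', act_one', act_zero', act_one', inBv]
    rw [act_one']
    simp only [dia_val, uni_val, Matrix.of_apply, Matrix.cons_val', Matrix.cons_val_zero,
      Matrix.cons_val_one, Matrix.cons_val_fin_one, zero_mul, one_mul, add_zero, zero_add]
    rw [map_mul, Units.val_inv_eq_inv_val, map_inv₀, Units.val_zpow_eq_zpow_val, h.v_zpow]
    rw [inv_mul_le_iff₀ (by simp)]
    have : v 0 + -a * v 1 = v 0 - a * v 1 := by ring
    rw [this]
  exact if_congr this rfl rfl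

/-- Decomposition of `GL₂(F)` into two cosets of the Iwahori subgroup. -/
theorem decomp1 {ϖ : Fˣ} (h : Unif (ϖ : F)) (g : GL (Fin 2) F)
    (hg : Valued.v ((g : Matrix (Fin 2) (Fin 2) F) 1 0) <
      Valued.v ((g : Matrix (Fin 2) (Fin 2) F) 1 1)) :
    ∃ (a : F) (j : ℤ) (z : Fˣ) (k : GL (Fin 2) F), Iw k ∧
      g = uni a * dia (ϖ ^ j) * sca z * k := by
  have hd : (g : Matrix (Fin 2) (Fin 2) F) 1 1 ≠ 0 := by
    intro h0
    rw [h0, map_zero] at hg
    exact absurd hg not_lt_zero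
  set D := (g : Matrix (Fin 2) (Fin 2) F).det with hD
  have hD0 : D ≠ 0 := det_ne g
  set a := (g : Matrix (Fin 2) (Fin 2) F) 0 0 with ha
  set b := (g : Matrix (Fin 2) (Fin 2) F) 0 1 with hb
  set c := (g : Matrix (Fin 2) (Fin 2) F) 1 0 with hc
  set d := (g : Matrix (Fin 2) (Fin 2) F) 1 1 with hd'
  have hDet : D = a * d - b * c := by rw [hD, Matrix.det_fin_two]
  set α := D / d ^ 2 with hα
  have hα0 : α ≠ 0 := div_ne_zero hD0 (pow_ne_zero _ hd)
  have hvα : Valued.v α ≠ 0 := by simpa using hα0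
  set j : ℤ := -WithZero.log (Valued.v α) with hj
  have hϖ : (ϖ : F) ^ j ≠ 0 := zpow_ne_zero _ h.ne_zero
  set ε : Fˣ := Units.mk0 (α / (ϖ : F) ^ j) (div_ne_zero hα0 hϖ) with hε
  have hvε : Valued.v (ε : F) = 1 := by
    rw [hε, Units.val_mk0, map_div₀, h.v_zpow, hj, neg_neg, WithZero.exp_log hvα]
    exact div_self hvα
  have hcd : Valued.v (c / d) < 1 := by
    rw [map_div₀]
    have : Valued.v d ≠ 0 := by simpa using hd
    rw [div_lt_one₀ (zero_lt_iff.2 this)]
    exact hg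
  refine ⟨b / d, j, Units.mk0 d hd, lowM ε (c / d), ⟨?_, ?_, ?_⟩, ?_⟩
  · intro i k
    fin_cases i <;> fin_cases k
    · exact hvε.le
    · simp [lowM_val]
    · exact hcd.le
    · simp [lowM_val]
  · exact hcd
  · rw [Matrix.det_fin_two]
    simp [lowM_val, hvε]
  · apply ext4
    · simp only [Units.val_mul, uni_val, dia_val, sca_val, lowM_val, Matrix.mul_apply,
        Fin.sum_univ_two, Matrix.of_apply, Matrix.cons_val', Matrix.cons_val_zero,
        Matrix.cons_val_one, Matrix.cons_val_fin_one, Units.val_mk0, Units.val_zpow_eq_zpow_val]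
      rw [← ha, hε, Units.val_mk0]
      field_simp
      rw [hα, hDet]
      field_simp
      ring
    · simp only [Units.val_mul, uni_val, dia_val, sca_val, lowM_val, Matrix.mul_apply,
        Fin.sum_univ_two, Matrix.of_apply, Matrix.cons_val', Matrix.cons_val_zero,
        Matrix.cons_val_one, Matrix.cons_val_fin_one, Units.val_mk0, Units.val_zpow_eq_zpow_val]
      rw [← hb]
      field_simp
      ring
    · simp only [Units.val_mul, uni_val, dia_val, sca_val, lowM_val, Matrix.mul_apply,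
        Fin.sum_univ_two, Matrix.of_apply, Matrix.cons_val', Matrix.cons_val_zero,
        Matrix.cons_val_one, Matrix.cons_val_fin_one, Units.val_mk0, Units.val_zpow_eq_zpow_val]
      rw [← hc]
      field_simp
      ring
    · simp only [Units.val_mul, uni_val, dia_val, sca_val, lowM_val, Matrix.mul_apply,
        Fin.sum_univ_two, Matrix.of_apply, Matrix.cons_val', Matrix.cons_val_zero,
        Matrix.cons_val_one, Matrix.cons_val_fin_one, Units.val_mk0, Units.val_zpow_eq_zpow_val]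
      rw [← hd']
      ring

theorem decomp2 {ϖ : Fˣ} (h : Unif (ϖ : F)) (g : GL (Fin 2) F)
    (hg : ¬ Valued.v ((g : Matrix (Fin 2) (Fin 2) F) 1 0) <
      Valued.v ((g : Matrix (Fin 2) (Fin 2) F) 1 1)) :
    ∃ (a : F) (j : ℤ) (z : Fˣ) (k : GL (Fin 2) F), Iw k ∧
      g = uni a * dia (ϖ ^ j) * sca z * k * wM ϖ := by
  have h1 : Valued.v (((g * (wM ϖ)⁻¹ : GL (Fin 2) F) : Matrix (Fin 2) (Fin 2) F) 1 0) <
      Valued.v (((g * (wM ϖ)⁻¹ : GL (Fin 2) F) : Matrix (Fin 2) (Fin 2) F) 1 1) := by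
    have e1 : (((wM ϖ : GL (Fin 2) F)⁻¹ : GL (Fin 2) F) : Matrix (Fin 2) (Fin 2) F) =
      !![0, ((ϖ⁻¹ : Fˣ) : F); 1, 0] := rfl
    have e2 : ((g * (wM ϖ)⁻¹ : GL (Fin 2) F) : Matrix (Fin 2) (Fin 2) F) 1 0 =
        (g : Matrix (Fin 2) (Fin 2) F) 1 1 := by
      rw [Units.val_mul, e1, Matrix.mul_apply, Fin.sum_univ_two]
      simp
    have e3 : ((g * (wM ϖ)⁻¹ : GL (Fin 2) F) : Matrix (Fin 2) (Fin 2) F) 1 1 =
        (g : Matrix (Fin 2) (Fin 2) F) 1 0 * ((ϖ⁻¹ : Fˣ) : F) := by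
      rw [Units.val_mul, e1, Matrix.mul_apply, Fin.sum_univ_two]
      simp
    rw [e2, e3]
    have e4 : Valued.v ((ϖ⁻¹ : Fˣ) : F) = WithZero.exp (1 : ℤ) := by
      rw [Units.val_inv_eq_inv_val, map_inv₀, h.v, ← WithZero.exp_neg]
      simp
    rw [map_mul, e4, WithZero.lt_mul_exp_iff_le]
    · exact not_lt.1 hg
    · intro h0
      rw [h0, not_lt] at hg
      have h1 : Valued.v ((g : Matrix (Fin 2) (Fin 2) F) 1 1) = 0 := le_antisymm hg zero_le
      have h2 : (g : Matrix (Fin 2) (Fin 2) F).det = 0 := by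
        rw [Matrix.det_fin_two]
        rw [map_eq_zero] at h0 h1
        rw [h0, h1]
        ring
      exact det_ne g h2
  obtain ⟨a, j, z, k, hk, he⟩ := decomp1 h _ h1
  refine ⟨a, j, z, k, hk, ?_⟩
  rw [← he]
  group

variable {V : Type*} [AddCommGroup V] [Module ℂ V]

/-- Steinberg vectors. -/
structure StVec (ϖ : Fˣ) (ρ : Representation ℂ (GL (Fin 2) F) V) (u : V) : Prop where
  sca : ∀ z : Fˣ, ρ (sca z) u = u
  iwa : ∀ k ∈ GLO F, Valued.v ((k : Matrix (Fin 2) (Fin 2) F) 1 0) < 1 → ρ k u = u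
  w : ρ (wM ϖ) u = -u
  sum : u + ρ sM u + ρ (uni 1 * sM) u = 0

variable {ϖ : Fˣ} {ρ : Representation ℂ (GL (Fin 2) F) V} {u : V}

theorem StVec.iw (hu : StVec ϖ ρ u) {k : GL (Fin 2) F} (hk : Iw k) : ρ k u = u :=
  hu.iwa k hk.mem_GLO hk.2.1

/-- the vector belonging to the ball `a + ϖ^j O` -/
def eb (ϖ : Fˣ) (ρ : Representation ℂ (GL (Fin 2) F) V) (u : V) (a : F) (j : ℤ) : V :=
  ρ (uni a * dia (ϖ ^ j)) u

theorem Iw_uni {c : F} (hc : Valued.v c ≤ 1) : Iw (uni c : GL (Fin 2) F) := by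
  refine ⟨?_, ?_, ?_⟩
  · intro i j
    fin_cases i <;> fin_cases j <;> simp [uni_val, hc]
  · simp [uni_val]
  · rw [Matrix.det_fin_two]
    simp [uni_val]

theorem StVec.ballFn (h : Unif (ϖ : F)) (hu : StVec ϖ ρ u) :
    BallFn (ϖ : F) (eb ϖ ρ u) where
  congr := by
    intro a a' j haa
    have hne : (ϖ : F) ^ j ≠ 0 := zpow_ne_zero _ h.ne_zero
    have h1 : (uni a * dia (ϖ ^ j) : GL (Fin 2) F) =
        uni a' * dia (ϖ ^ j) * uni ((a - a') / (ϖ : F) ^ j) := by
      rw [mul_assoc, dia_mul_uni, ← mul_assoc, uni_mul_uni]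
      congr 2
      rw [Units.val_zpow_eq_zpow_val]
      field_simp
      ring
    have h2 : Iw (uni ((a - a') / (ϖ : F) ^ j) : GL (Fin 2) F) := by
      apply Iw_uni
      rw [map_div₀, h.v_zpow]
      exact div_le_one_of_le₀ haa zero_le
    rw [eb, h1, map_mul, Module.End.mul_apply, hu.iw h2, eb]
  add := by
    intro a j
    have h1 : ρ sM u = - ρ (dia ϖ) u := by
      rw [sM_eq ϖ, map_mul, map_mul, Module.End.mul_apply, Module.End.mul_apply, hu.w, map_neg,
        hu.sca, map_neg]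
    have h2 : u = ρ (dia ϖ) u + ρ (uni 1 * dia ϖ) u := by
      have h3 := hu.sum
      rw [map_mul, Module.End.mul_apply, h1, map_neg, ← Module.End.mul_apply, ← map_mul] at h3
      rw [add_assoc, ← neg_add] at h3
      exact (add_neg_eq_zero.1 h3)
    have h4 : (uni a * dia (ϖ ^ j) * dia ϖ : GL (Fin 2) F) = uni a * dia (ϖ ^ (j + 1)) := by
      rw [mul_assoc, dia_mul_dia, zpow_add_one]
    have h5 : (uni a * dia (ϖ ^ j) * (uni 1 * dia ϖ) : GL (Fin 2) F) =
        uni (a + (ϖ : F) ^ j) * dia (ϖ ^ (j + 1)) := by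
      rw [← mul_assoc, mul_assoc (uni a), dia_mul_uni, ← mul_assoc, uni_mul_uni, mul_assoc,
        dia_mul_dia, zpow_add_one, mul_one, Units.val_zpow_eq_zpow_val]
    calc eb ϖ ρ u a j = ρ (uni a * dia (ϖ ^ j)) (ρ (dia ϖ) u + ρ (uni 1 * dia ϖ) u) := by
          rw [← h2]; rfl
      _ = _ := by
          rw [map_add, ← Module.End.mul_apply, ← Module.End.mul_apply, ← map_mul, ← map_mul, h4, h5]
          rfl

end

end Pool.Agent.R423.AL.St
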