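import Pool.Agent.R423.AL.Grp

/-!
# Locally constant functions on the projective line over `L`
-/

namespace Pool.Agent.R423.AL

open scoped WithZero
open Topology

noncomputable section

variable {L : Type} [Field L] [Valued L ℤᵐ⁰]

/-- level `n` -/
def Lev (n : ℕ) (f : L × L → ℂ) : Prop := ∀ p e : L × L, ¬ Bp 1 p → Bp n e → f (p + e) = f p

theorem Lev_mono {n m : ℕ} (h : n ≤ m) {f : L × L → ℂ} (hf : Lev n f) : Lev m f :=
  fun p e hp he => hf p e hp (Bp_mono (by exact_mod_cast h) he)

variable (L) in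
/-- Locally constant functions on the projective line, as homogeneous functions on row vectors
(with value `0` at the origin). -/
def VS : Submodule ℂ (L × L → ℂ) where
  carrier := {f | f 0 = 0 ∧ (∀ c : L, c ≠ 0 → ∀ p, f (c • p) = f p) ∧ ∃ n, Lev n f}
  add_mem' := by
    rintro a b ⟨ha0, ha1, n, hn⟩ ⟨hb0, hb1, m, hm⟩
    refine ⟨by rw [Pi.add_apply, ha0, hb0, add_zero], fun c hc p => ?_, max n m, fun p e hp he => ?_⟩
    · rw [Pi.add_apply, Pi.add_apply, ha1 c hc, hb1 c hc]
    · rw [Pi.add_apply, Pi.add_apply, Lev_mono (le_max_left n m) hn p e hp he,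
        Lev_mono (le_max_right n m) hm p e hp he]
  zero_mem' := ⟨rfl, fun _ _ _ => rfl, 0, fun _ _ _ _ => rfl⟩
  smul_mem' := by
    rintro c a ⟨ha0, ha1, n, hn⟩
    refine ⟨by rw [Pi.smul_apply, ha0, smul_zero], fun d hd p => ?_, n, fun p e hp he => ?_⟩
    · rw [Pi.smul_apply, Pi.smul_apply, ha1 d hd]
    · rw [Pi.smul_apply, Pi.smul_apply, hn p e hp he]

/-- normal form of a nonzero vector -/
theorem normal_form {p : L × L} (hp : p ≠ 0) :
    (∃ c : L, c ≠ 0 ∧ ∃ x : L, B 0 x ∧ p = c • (x, (1 : L))) ∨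
    (∃ c : L, c ≠ 0 ∧ ∃ y : L, B 1 y ∧ p = c • ((1 : L), y)) := by
  obtain ⟨a, b⟩ := p
  by_cases hb : b = 0
  · right
    subst hb
    have ha : a ≠ 0 := by
      rintro rfl
      exact hp rfl
    refine ⟨a, ha, 0, B_zero _, ?_⟩
    ext <;> simp
  · by_cases hab : Valued.v a ≤ Valued.v b
    · left
      refine ⟨b, hb, a / b, ?_, ?_⟩
      · rw [B_zero_iff, map_div₀]
        exact div_le_one_of_le₀ hab zero_le
      · ext
        · simp only [Prod.smul_fst, smul_eq_mul]
          rw [mul_div_cancel₀ a hb]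
        · simp
    · right
      push Not at hab
      have ha : a ≠ 0 := by
        rintro rfl
        rw [map_zero] at hab
        exact not_lt_zero hab
      refine ⟨a, ha, b / a, ?_, ?_⟩
      · rw [B_one_iff, map_div₀]
        exact (div_lt_one₀ ((Valuation.pos_iff _).2 ha)).2 hab
      · ext
        · simp
        · simp only [Prod.smul_snd, smul_eq_mul]
          rw [mul_div_cancel₀ b ha]

theorem not_Bp_one_of_fst {y : L} : ¬ Bp 1 ((1 : L), y) := by
  intro h
  have := h.1
  rw [B_one_iff, map_one] at this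
  exact lt_irrefl _ this

theorem not_Bp_one_of_snd {x : L} : ¬ Bp 1 (x, (1 : L)) := by
  intro h
  have := h.2
  rw [B_one_iff, map_one] at this
  exact lt_irrefl _ this

/-- normalise a nonzero vector to norm one -/
theorem exists_normalize {p : L × L} (hp : p ≠ 0) :
    ∃ c : L, c ≠ 0 ∧ ∃ q : L × L, p = c • q ∧ Bp 0 q ∧ ¬ Bp 1 q := by
  rcases normal_form hp with ⟨c, hc, x, hx, rfl⟩ | ⟨c, hc, y, hy, rfl⟩
  · exact ⟨c, hc, _, rfl, ⟨hx, B_one⟩, not_Bp_one_of_snd⟩
  · exact ⟨c, hc, _, rfl, ⟨B_one, B_mono (by norm_num) hy⟩, not_Bp_one_of_fst⟩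

theorem ne_zero_of_not_Bp {p : L × L} (hp : ¬ Bp 1 p) : p ≠ 0 := by
  rintro rfl
  exact hp (Bp_zero _)

/-- general form of local constancy of a homogeneous function -/
theorem lev_scaled {f : L × L → ℂ} (hh : ∀ c : L, c ≠ 0 → ∀ p, f (c • p) = f p) {n : ℕ}
    (hn : Lev n f) [LF L] (k : ℤ) {p e : L × L} (hp : ¬ Bp (k + 1) p) (he : Bp (n + k) e) :
    f (p + e) = f p := by
  have h1 : f (p + e) = f ((pw (-k) : L) • p + (pw (-k) : L) • e) := by
    rw [← smul_add, hh _ (pw_ne_zero (-k))]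
  have h2 : ¬ Bp 1 ((pw (-k) : L) • p) := by
    intro h
    apply hp
    have h3 : Bp (1 + k + (-k)) ((pw (-k) : L) • p) := Bp_mono (by omega) h
    have := (Bp_smul_iff (v_pw (-k)) (1 + k) p).1 h3
    rwa [add_comm] at this
  have h3 : Bp n ((pw (-k) : L) • e) := by
    have := (Bp_smul_iff (v_pw (L := L) (-k)) (n + k) e).2 he
    exact Bp_mono (by omega) this
  rw [h1, hn _ _ h2 h3, hh _ (pw_ne_zero (-k))]

theorem act_mem_VS [LF L] (g : GL (Fin 2) L) {f : L × L → ℂ} (hf : f ∈ VS L) :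
    (fun p => f (act g p)) ∈ VS L := by
  obtain ⟨h0, h1, n, hn⟩ := hf
  refine ⟨by change f (act g 0) = 0; rw [act_zero, h0], fun c hc p => ?_, ?_⟩
  · change f (act g (c • p)) = f (act g p)
    rw [act_smul, h1 c hc]
  · obtain ⟨a, ha⟩ := exists_BM g.1
    obtain ⟨b, hb⟩ := exists_BM (g⁻¹).1
    refine ⟨n + a + b, fun p e hp he => ?_⟩
    change f (act g (p + e)) = f (act g p)
    rw [act_add]
    refine lev_scaled h1 hn b ?_ ?_
    · intro h
      apply hp
      have := Bp_act hb h
      rw [act_inv_act] at this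
      exact Bp_mono (by omega) this
    · have := Bp_act ha he
      refine Bp_mono ?_ this
      push_cast
      omega

variable (L) in
/-- the representation on `VS` -/
def rhoV [LF L] : Representation ℂ (GL (Fin 2) L) (VS L) where
  toFun g :=
    { toFun := fun f => ⟨fun p => f.1 (act g p), act_mem_VS g f.2⟩
      map_add' := fun _ _ => rfl
      map_smul' := fun _ _ => rfl }
  map_one' := by
    refine LinearMap.ext fun f => Subtype.ext (funext fun p => ?_)
    change f.1 (act 1 p) = f.1 p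
    rw [act_one]
  map_mul' g h := by
    refine LinearMap.ext fun f => Subtype.ext (funext fun p => ?_)
    change f.1 (act (g * h) p) = f.1 (act h (act g p))
    rw [act_mul]

theorem rhoV_apply [LF L] (g : GL (Fin 2) L) (f : VS L) (p : L × L) :
    (rhoV L g f).1 p = f.1 (act g p) := rfl

/-- a function of level `n` is fixed by `KK n` -/
theorem KK_fixes [LF L] {n : ℕ} (f : VS L) (hn : Lev n f.1) {g : GL (Fin 2) L}
    (hg : g ∈ KK L n) : rhoV L g f = f := by
  apply Subtype.ext
  funext p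
  rw [rhoV_apply]
  rcases eq_or_ne p 0 with rfl | hp
  · rw [act_zero]
  · obtain ⟨c, hc, q, rfl, hq0, hq1⟩ := exists_normalize hp
    rw [act_smul, f.2.2.1 c hc, f.2.2.1 c hc]
    have e : act g q = q + (act g q - q) := by ring
    rw [e]
    refine hn q _ hq1 ?_
    have h1 := hg.2
    have e1 : act g q - q = (q.1 * (g.1 0 0 - 1) + q.2 * g.1 1 0,
        q.1 * g.1 0 1 + q.2 * (g.1 1 1 - 1)) := by
      ext <;> simp only [act, Prod.fst_sub, Prod.snd_sub] <;> ring
    have h00 := h1 0 0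
    have h01 := h1 0 1
    have h10 := h1 1 0
    have h11 := h1 1 1
    simp only [Matrix.sub_apply, Matrix.one_apply_eq] at h00 h11
    rw [Matrix.sub_apply, Matrix.one_apply_ne (by decide), sub_zero] at h01 h10
    rw [e1]
    refine ⟨B_add ?_ ?_, B_add ?_ ?_⟩
    · simpa using B_mul hq0.1 h00
    · simpa using B_mul hq0.2 h10
    · simpa using B_mul hq0.1 h01
    · simpa using B_mul hq0.2 h11

/-- the constant function -/
def oneV [LF L] : VS L := ⟨fun p => by classical exact if p = 0 then 0 else 1, by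
  classical
  refine ⟨by simp, fun c hc p => ?_, 1, fun p e hp he => ?_⟩
  · by_cases hp : p = 0
    · simp [hp]
    · simp [hp, hc]
  · have h1 : p ≠ 0 := ne_zero_of_not_Bp hp
    have h2 : p + e ≠ 0 := by
      intro h
      apply hp
      have : p = -e := by rw [eq_neg_iff_add_eq_zero]; exact h
      rw [this]
      exact Bp_neg (by simpa using he)
    simp [h1, h2]⟩

theorem oneV_apply [LF L] {p : L × L} (hp : p ≠ 0) : (oneV : VS L).1 p = 1 := by
  simp [oneV, hp]

theorem oneV_zero [LF L] : (oneV : VS L).1 0 = 0 := by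
  simp [oneV]

theorem rhoV_one [LF L] (g : GL (Fin 2) L) : rhoV L g oneV = oneV := by
  apply Subtype.ext
  funext p
  rw [rhoV_apply]
  rcases eq_or_ne p 0 with rfl | hp
  · rw [act_zero]
  · rw [oneV_apply hp, oneV_apply (act_ne_zero hp)]

/-- an element of `VS` which is constant away from zero is a multiple of `oneV` -/
theorem eq_smul_oneV [LF L] (f : VS L) (c : ℂ) (h : ∀ p, p ≠ 0 → f.1 p = c) : f = c • oneV := by
  apply Subtype.ext
  funext p
  rcases eq_or_ne p 0 with rfl | hp
  · change f.1 0 = c • (oneV : VS L).1 0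
    rw [f.2.1, oneV_zero, smul_zero]
  · change f.1 p = c • (oneV : VS L).1 p
    rw [h p hp, oneV_apply hp, smul_eq_mul, mul_one]

/-- extensionality in terms of normal forms -/
theorem VS_ext {f g : VS L} (h1 : ∀ x : L, B 0 x → f.1 (x, 1) = g.1 (x, 1))
    (h2 : ∀ y : L, B 1 y → f.1 (1, y) = g.1 (1, y)) : f = g := by
  apply Subtype.ext
  funext p
  rcases eq_or_ne p 0 with rfl | hp
  · rw [f.2.1, g.2.1]
  · rcases normal_form hp with ⟨c, hc, x, hx, rfl⟩ | ⟨c, hc, y, hy, rfl⟩
    · rw [f.2.2.1 c hc, g.2.2.1 c hc, h1 x hx]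
    · rw [f.2.2.1 c hc, g.2.2.1 c hc, h2 y hy]

end

end Pool.Agent.R423.AL
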